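import Mathlib

/-!
# HF project (MP_e03f8f_an): basic definitions

`E p = L^p[0,1)`, `ZZ p = ℓ^∞(L^{p_k})`.  The dyadic intervals are numbered by `s ≥ 1` (heap order):
`s = 2^n + j`, `0 ≤ j < 2^n`, is the number of `[j/2^n, (j+1)/2^n)`; the halves of the interval `s` are
`2 s` and `2 s + 1`.  The Haar function `s` is `1` on the left half of the interval `s` and `-1` on the
right half; the function number `0` is the constant `1`.
-/

open MeasureTheory Filter Topology
open scoped ENNReal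

set_option linter.unusedSectionVars false

namespace Pool.Agent.T2H63.HF

/-- Lebesgue measure on `[0,1)`. -/
noncomputable abbrev mu : Measure ℝ := (volume : Measure ℝ).restrict (Set.Ico 0 1)

instance : IsProbabilityMeasure mu := ⟨by simp [mu]⟩

/-- `L^p[0,1)`. -/
abbrev E (p : ℝ≥0∞) : Type := Lp ℝ p mu

/-- `ℓ^∞(L^{p_k} : k ∈ ℕ)`. -/
abbrev ZZ (p : ℕ → ℝ≥0∞) [∀ k, Fact (1 ≤ p k)] : Type := lp (fun k => E (p k)) ∞

/-- The level of the dyadic interval number `s`. -/
def lv (s : ℕ) : ℕ := Nat.log 2 s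

/-- The length of the dyadic interval number `s`. -/
noncomputable def len (s : ℕ) : ℝ := ((2 : ℝ) ^ lv s)⁻¹

/-- The dyadic interval number `s` (`s ≥ 1`). -/
def I (s : ℕ) : Set ℝ :=
  Set.Ico (((s : ℝ) - 2 ^ lv s) / 2 ^ lv s) (((s : ℝ) + 1 - 2 ^ lv s) / 2 ^ lv s)

theorem measurableSet_I (s : ℕ) : MeasurableSet (I s) := measurableSet_Ico

/-- The Haar function number `s`. -/
noncomputable def hfun (s : ℕ) (x : ℝ) : ℝ :=
  if s = 0 then 1 else (I (2 * s)).indicator 1 x - (I (2 * s + 1)).indicator 1 x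

section one

variable (p : ℝ≥0∞)

/-- The indicator function of the interval `s`, as an element of `L^p`. -/
noncomputable def ind (s : ℕ) : E p :=
  indicatorConstLp p (measurableSet_I s) (measure_ne_top mu _) (1 : ℝ)

/-- The Haar function `s` as an element of `L^p`. -/
noncomputable def hv (s : ℕ) : E p := if s = 0 then ind p 1 else ind p (2 * s) - ind p (2 * s + 1)

variable [Fact (1 ≤ p)]

theorem integrable_E (f : E p) : Integrable (f : ℝ → ℝ) mu :=
  (Lp.memLp f).integrable Fact.out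

theorem integral_abs_le (f : E p) : ∫ x, |f x| ∂mu ≤ ‖f‖ := by
  have h1 : eLpNorm f 1 mu ≤ eLpNorm f p mu :=
    eLpNorm_le_eLpNorm_of_exponent_le Fact.out (Lp.aestronglyMeasurable f)
  have h2 : ENNReal.ofReal (∫ x, |f x| ∂mu) = eLpNorm f 1 mu := by
    rw [eLpNorm_one_eq_lintegral_enorm, ofReal_integral_eq_lintegral_ofReal
      (integrable_E p f).abs (Eventually.of_forall fun _ => abs_nonneg _)]
    simp [Real.enorm_eq_ofReal_abs]
  have h3 : ENNReal.ofReal (∫ x, |f x| ∂mu) ≤ ENNReal.ofReal ‖f‖ := by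
    rw [h2, Lp.norm_def, ENNReal.ofReal_toReal (Lp.eLpNorm_ne_top f)]
    exact h1
  exact (ENNReal.ofReal_le_ofReal_iff (norm_nonneg _)).1 h3

/-- Integration over a set, as a functional on `L^p`. -/
noncomputable def intOn (S : Set ℝ) : E p →L[ℝ] ℝ :=
  LinearMap.mkContinuous
    { toFun := fun f => ∫ x in S, f x ∂mu
      map_add' := fun f g => by
        rw [← integral_add (integrable_E p f).integrableOn (integrable_E p g).integrableOn]
        exact integral_congr_ae (ae_restrict_of_ae (Lp.coeFn_add f g))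
      map_smul' := fun c f => by
        simp only [RingHom.id_apply, smul_eq_mul]
        rw [← integral_const_mul]
        exact integral_congr_ae (ae_restrict_of_ae (Lp.coeFn_smul c f)) } 1
    (fun f => by
      rw [one_mul]
      calc ‖∫ x in S, f x ∂mu‖ ≤ ∫ x in S, ‖f x‖ ∂mu := norm_integral_le_integral_norm _
        _ ≤ ∫ x, ‖f x‖ ∂mu := setIntegral_le_integral (integrable_E p f).norm
            (Eventually.of_forall fun _ => norm_nonneg _)
        _ ≤ ‖f‖ := integral_abs_le p f)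

@[simp] theorem intOn_apply (S : Set ℝ) (f : E p) : intOn p S f = ∫ x in S, f x ∂mu := rfl

/-- Integration against the Haar function `s`, as a functional on `L^p`. -/
noncomputable def pair (s : ℕ) : E p →L[ℝ] ℝ :=
  if s = 0 then intOn p (I 1) else intOn p (I (2 * s)) - intOn p (I (2 * s + 1))

theorem pair_zero : pair p 0 = intOn p (I 1) := by simp [pair]

theorem pair_pos {s : ℕ} (hs : s ≠ 0) : pair p s = intOn p (I (2 * s)) - intOn p (I (2 * s + 1)) := by
  simp [pair, hs]

theorem I_one : I 1 = Set.Ico 0 1 := by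
  simp [I, lv]

/-- The functional `pair` is integration against the Haar function. -/
theorem pair_apply (s : ℕ) (f : E p) : pair p s f = ∫ x, f x * hfun s x ∂mu := by
  by_cases hs : s = 0
  · subst hs
    rw [pair_zero, intOn_apply, I_one]
    simp [hfun, mu]
  · rw [pair_pos p hs]
    simp only [sub_apply, intOn_apply]
    rw [← integral_indicator (measurableSet_I _), ← integral_indicator (measurableSet_I _),
      ← integral_sub ((integrable_E p f).indicator (measurableSet_I _))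
        ((integrable_E p f).indicator (measurableSet_I _))]
    congr 1
    ext x
    by_cases h1 : x ∈ I (2 * s) <;> by_cases h2 : x ∈ I (2 * s + 1) <;>
      simp [hfun, hs, Set.indicator, h1, h2]

/-- Signed sums of Haar functions. -/
noncomputable def comb (P : Finset ℕ) (σ : ℕ → ℝ) : E p := ∑ J ∈ P, σ J • hv p J

/-- Integration against signed sums of Haar functions. -/
noncomputable def cpair (P : Finset ℕ) (σ : ℕ → ℝ) : E p →L[ℝ] ℝ := ∑ J ∈ P, σ J • pair p J

theorem memLp_indicator {S : Set ℝ} (hS : MeasurableSet S) (f : E p) :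
    MemLp (S.indicator (f : ℝ → ℝ)) p mu := MemLp.indicator hS (Lp.memLp f)

/-- Multiplication by the indicator function of a measurable set, as an operator on `L^p`. -/
noncomputable def indM {S : Set ℝ} (hS : MeasurableSet S) : E p →L[ℝ] E p :=
  LinearMap.mkContinuous
    { toFun := fun f => (memLp_indicator p hS f).toLp (S.indicator (f : ℝ → ℝ))
      map_add' := fun f g => by
        rw [← MemLp.toLp_add]
        refine MemLp.toLp_congr _ _ ?_
        filter_upwards [Lp.coeFn_add f g] with x hx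
        by_cases h : x ∈ S
        · simp only [Set.indicator_of_mem h, Pi.add_apply]
          exact hx
        · simp [Set.indicator_of_notMem h]
      map_smul' := fun c f => by
        rw [RingHom.id_apply, ← MemLp.toLp_const_smul]
        refine MemLp.toLp_congr _ _ ?_
        filter_upwards [Lp.coeFn_smul c f] with x hx
        by_cases h : x ∈ S
        · simp only [Set.indicator_of_mem h, Pi.smul_apply]
          exact hx
        · simp [Set.indicator_of_notMem h] } 1
    (fun f => by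
      rw [one_mul]
      simp only [LinearMap.coe_mk, AddHom.coe_mk]
      rw [Lp.norm_toLp, Lp.norm_def]
      exact ENNReal.toReal_mono (Lp.eLpNorm_ne_top f) (eLpNorm_indicator_le _))

theorem indM_apply {S : Set ℝ} (hS : MeasurableSet S) (f : E p) :
    (indM p hS f : ℝ → ℝ) =ᵐ[mu] S.indicator f := by
  exact MemLp.coeFn_toLp (memLp_indicator p hS f)

theorem norm_indM_le {S : Set ℝ} (hS : MeasurableSet S) : ‖indM p hS‖ ≤ 1 :=
  LinearMap.mkContinuous_norm_le _ zero_le_one _

end one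

section many

variable (p : ℕ → ℝ≥0∞) [∀ k, Fact (1 ≤ p k)]

/-- The coordinate `k`. -/
noncomputable def ev (k : ℕ) : ZZ p →L[ℝ] E (p k) :=
  LinearMap.mkContinuous
    { toFun := fun z => z k
      map_add' := fun _ _ => rfl
      map_smul' := fun _ _ => rfl } 1 (fun z => by
      rw [one_mul]
      exact lp.norm_apply_le_norm (by simp) z k)

@[simp] theorem ev_apply (k : ℕ) (z : ZZ p) : ev p k z = z k := rfl

theorem norm_coord_le (z : ZZ p) (k : ℕ) : ‖z k‖ ≤ ‖z‖ := lp.norm_apply_le_norm (by simp) z k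

/-- The inclusion of the coordinate `k`. -/
noncomputable def sg (k : ℕ) : E (p k) →L[ℝ] ZZ p :=
  LinearMap.mkContinuous (lp.lsingle (𝕜 := ℝ) (E := fun k => E (p k)) ∞ k) 1 (fun x => by
    rw [one_mul]
    exact (lp.norm_single (E := fun k => E (p k)) ENNReal.zero_lt_top k x).le)

theorem sg_apply (k : ℕ) (x : E (p k)) : sg p k x = lp.single ∞ k x := rfl

@[simp] theorem sg_self (k : ℕ) (x : E (p k)) : (sg p k x) k = x := by
  rw [sg_apply, lp.single_apply_self]

theorem sg_ne {k l : ℕ} (h : l ≠ k) (x : E (p k)) : (sg p k x) l = 0 := by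
  rw [sg_apply, lp.single_apply_ne _ _ _ h]

theorem norm_sg (k : ℕ) (x : E (p k)) : ‖sg p k x‖ = ‖x‖ :=
  lp.norm_single (E := fun k => E (p k)) ENNReal.zero_lt_top k x

/-- The element with coordinates `x k`. -/
noncomputable def mkZ (x : ∀ k, E (p k)) (C : ℝ) (h : ∀ k, ‖x k‖ ≤ C) : ZZ p :=
  ⟨x, memℓp_infty ⟨C, by rintro _ ⟨k, rfl⟩; exact h k⟩⟩

@[simp] theorem mkZ_apply (x : ∀ k, E (p k)) (C : ℝ) (h : ∀ k, ‖x k‖ ≤ C) (k : ℕ) :
    mkZ p x C h k = x k := rfl

theorem norm_le_of (z : ZZ p) {C : ℝ} (hC : 0 ≤ C) (h : ∀ k, ‖z k‖ ≤ C) : ‖z‖ ≤ C :=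
  lp.norm_le_of_forall_le hC h

/-- Operators into `ZZ p`, given by their coordinates. -/
noncomputable def toZ {Y : Type*} [NormedAddCommGroup Y] [NormedSpace ℝ Y]
    (A : ∀ k, Y →L[ℝ] E (p k)) (C : ℝ) (hC : 0 ≤ C) (h : ∀ k y, ‖A k y‖ ≤ C * ‖y‖) :
    Y →L[ℝ] ZZ p :=
  LinearMap.mkContinuous
    { toFun := fun y => mkZ p (fun k => A k y) (C * ‖y‖) (fun k => h k y)
      map_add' := fun x y => by
        ext k : 2
        exact (A k).map_add x y
      map_smul' := fun c x => by
        ext k : 2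
        exact (A k).map_smul c x } C (fun y => norm_le_of p _ (by positivity) fun k => h k y)

@[simp] theorem toZ_apply {Y : Type*} [NormedAddCommGroup Y] [NormedSpace ℝ Y]
    (A : ∀ k, Y →L[ℝ] E (p k)) (C : ℝ) (hC : 0 ≤ C) (h : ∀ k y, ‖A k y‖ ≤ C * ‖y‖) (y : Y) (k : ℕ) :
    toZ p A C hC h y k = A k y := rfl

theorem norm_toZ_le {Y : Type*} [NormedAddCommGroup Y] [NormedSpace ℝ Y]
    (A : ∀ k, Y →L[ℝ] E (p k)) (C : ℝ) (hC : 0 ≤ C) (h : ∀ k y, ‖A k y‖ ≤ C * ‖y‖) :
    ‖toZ p A C hC h‖ ≤ C := LinearMap.mkContinuous_norm_le _ hC _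

/-- Coordinatewise operators. -/
noncomputable def dg (A : ∀ k, E (p k) →L[ℝ] E (p k)) (C : ℝ) (hC : 0 ≤ C) (h : ∀ k, ‖A k‖ ≤ C) :
    ZZ p →L[ℝ] ZZ p :=
  toZ p (fun k => (A k).comp (ev p k)) C hC (fun k z => by
    calc ‖(A k).comp (ev p k) z‖ ≤ ‖A k‖ * ‖z k‖ := (A k).le_opNorm _
      _ ≤ C * ‖z‖ := mul_le_mul (h k) (norm_coord_le p z k) (norm_nonneg _) hC)

@[simp] theorem dg_apply (A : ∀ k, E (p k) →L[ℝ] E (p k)) (C : ℝ) (hC : 0 ≤ C) (h : ∀ k, ‖A k‖ ≤ C)
    (z : ZZ p) (k : ℕ) : dg p A C hC h z k = A k (z k) := rfl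

theorem norm_dg_le (A : ∀ k, E (p k) →L[ℝ] E (p k)) (C : ℝ) (hC : 0 ≤ C) (h : ∀ k, ‖A k‖ ≤ C) :
    ‖dg p A C hC h‖ ≤ C := norm_toZ_le p _ C hC _

theorem dg_sg (A : ∀ k, E (p k) →L[ℝ] E (p k)) (C : ℝ) (hC : 0 ≤ C) (h : ∀ k, ‖A k‖ ≤ C)
    (k : ℕ) (x : E (p k)) : dg p A C hC h (sg p k x) = sg p k (A k x) := by
  ext l : 2
  rw [dg_apply]
  by_cases hl : l = k
  · subst hl; rw [sg_self, sg_self]
  · rw [sg_ne p hl, sg_ne p hl, map_zero]

open Classical in
/-- The projection onto the coordinates in `G`. -/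
noncomputable def PG (G : Set ℕ) : ZZ p →L[ℝ] ZZ p :=
  dg p (fun k => if k ∈ G then ContinuousLinearMap.id ℝ _ else 0) 1 zero_le_one (fun k => by
    split_ifs
    · exact ContinuousLinearMap.norm_id_le
    · simp)

theorem PG_mem {G : Set ℕ} (z : ZZ p) {k : ℕ} (hk : k ∈ G) : PG p G z k = z k := by
  simp [PG, hk]

theorem PG_not_mem {G : Set ℕ} (z : ZZ p) {k : ℕ} (hk : k ∉ G) : PG p G z k = 0 := by
  simp [PG, hk]

theorem norm_PG_le (G : Set ℕ) : ‖PG p G‖ ≤ 1 := norm_dg_le p _ 1 zero_le_one _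

theorem PG_eq_self {G : Set ℕ} {z : ZZ p} (h : ∀ k, k ∉ G → z k = 0) : PG p G z = z := by
  ext k : 2
  by_cases hk : k ∈ G
  · exact PG_mem p z hk
  · rw [PG_not_mem p z hk, h k hk]

end many

/-- Limits of bounded functionals along an ultrafilter. -/
theorem exists_ulim {T Y : Type*} [NormedAddCommGroup Y] [NormedSpace ℝ Y] (U : Ultrafilter T)
    (φ : T → Y →L[ℝ] ℝ) (C : ℝ) (h : ∀ (t : T) (y : Y), |φ t y| ≤ C * ‖y‖) :
    ∃ ψ : Y →L[ℝ] ℝ, (∀ y, |ψ y| ≤ C * ‖y‖) ∧ ∀ y, Tendsto (fun t => φ t y) U (𝓝 (ψ y)) := by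
  have key : ∀ y, ∃ a ∈ Set.Icc (-(C * ‖y‖)) (C * ‖y‖), Tendsto (fun t => φ t y) U (𝓝 a) := by
    intro y
    have hc : IsCompact (Set.Icc (-(C * ‖y‖)) (C * ‖y‖)) := isCompact_Icc
    have := hc.ultrafilter_le_nhds (U.map fun t => φ t y) (by
      rw [Ultrafilter.coe_map, le_principal_iff, Filter.mem_map]
      exact Filter.univ_mem' (fun t => abs_le.1 (h t y)))
    exact this
  choose a ha hlim using key
  refine ⟨LinearMap.mkContinuous
    { toFun := a
      map_add' := fun x y => by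
        refine tendsto_nhds_unique (hlim (x + y)) ?_
        simpa using (hlim x).add (hlim y)
      map_smul' := fun c x => by
        refine tendsto_nhds_unique (hlim (c • x)) ?_
        simpa using (hlim x).const_mul c } C (fun y => abs_le.2 (ha y)), fun y => abs_le.2 (ha y), hlim⟩

end Pool.Agent.T2H63.HF
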