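import Pool.Agent.T2H63.HF.Defs

/-!
# HF project: disjoint blocks in `L^p[0,1)`, `1 ≤ p < ∞`
-/

open MeasureTheory Filter Topology
open scoped ENNReal

set_option linter.unusedSectionVars false

namespace Pool.Agent.T2H63.HF

variable (p : ℝ≥0∞) [Fact (1 ≤ p)]

theorem one_le_toReal_of (hp : p ≠ ∞) : 1 ≤ p.toReal := by
  have : (1 : ℝ≥0∞).toReal ≤ p.toReal := ENNReal.toReal_mono hp Fact.out
  simpa using this

theorem ne_zero_of : p ≠ 0 := (zero_lt_one.trans_le (Fact.out : 1 ≤ p)).ne'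

theorem norm_rpow (hp : p ≠ ∞) (f : E p) : ‖f‖ ^ p.toReal = ∫ x, |f x| ^ p.toReal ∂mu := by
  have hp1 := one_le_toReal_of p hp
  have h1 := (Lp.memLp f).eLpNorm_eq_integral_rpow_norm (ne_zero_of p) hp
  have h2 : 0 ≤ ∫ x, ‖f x‖ ^ p.toReal ∂mu := integral_nonneg fun x => by positivity
  rw [Lp.norm_def, h1, ENNReal.toReal_ofReal (by positivity), ← Real.rpow_mul h2,
    inv_mul_cancel₀ (by linarith), Real.rpow_one]
  rfl

theorem integrable_rpow (hp : p ≠ ∞) (f : E p) : Integrable (fun x => |f x| ^ p.toReal) mu :=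
  (Lp.memLp f).integrable_norm_rpow (ne_zero_of p) hp

theorem norm_indM_rpow (hp : p ≠ ∞) {S : Set ℝ} (hS : MeasurableSet S) (f : E p) :
    ‖indM p hS f‖ ^ p.toReal = ∫ x in S, |f x| ^ p.toReal ∂mu := by
  have hp1 := one_le_toReal_of p hp
  rw [norm_rpow p hp, ← integral_indicator hS]
  refine integral_congr_ae ?_
  filter_upwards [indM_apply p hS f] with x hx
  rw [hx]
  by_cases h : x ∈ S
  · simp [h]
  · simp [h, Real.zero_rpow (show p.toReal ≠ 0 by linarith)]

theorem indM_of_disjoint {S S' : Set ℝ} (hS : MeasurableSet S) (hS' : MeasurableSet S')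
    (hd : Disjoint S S') (g : E p) (hg : indM p hS' g = g) : indM p hS g = 0 := by
  rw [Lp.ext_iff]
  have h2 := indM_apply p hS' g
  rw [hg] at h2
  filter_upwards [indM_apply p hS g, h2, Lp.coeFn_zero ℝ p mu] with x h1 h2 h3
  rw [h1, h3]
  by_cases h : x ∈ S
  · rw [Set.indicator_of_mem h, h2, Set.indicator_of_notMem (Set.disjoint_left.1 hd h)]
    rfl
  · rw [Set.indicator_of_notMem h]
    rfl

/-- The blocks of a function on disjoint sets. -/
theorem sum_norm_indM_rpow_le (hp : p ≠ ∞) {ι : Type*} (F : Finset ι) (A : ι → Set ℝ)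
    (hA : ∀ i, MeasurableSet (A i)) (hd : (F : Set ι).PairwiseDisjoint A) (f : E p) :
    ∑ i ∈ F, ‖indM p (hA i) f‖ ^ p.toReal ≤ ‖f‖ ^ p.toReal := by
  simp only [norm_indM_rpow p hp]
  rw [norm_rpow p hp, ← integral_biUnion_finset F (fun i _ => hA i) hd
    (fun i _ => (integrable_rpow p hp f).integrableOn)]
  exact setIntegral_le_integral (integrable_rpow p hp f)
    (Eventually.of_forall fun x => by positivity)

theorem sum_norm_indM_rpow_eq (hp : p ≠ ∞) {ι : Type*} (F : Finset ι) (A : ι → Set ℝ)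
    (hA : ∀ i, MeasurableSet (A i)) (hd : (F : Set ι).PairwiseDisjoint A) (f : E p) :
    ∑ i ∈ F, ‖indM p (hA i) f‖ ^ p.toReal = ∫ x in ⋃ i ∈ F, A i, |f x| ^ p.toReal ∂mu := by
  simp only [norm_indM_rpow p hp]
  rw [← integral_biUnion_finset F (fun i _ => hA i) hd
    (fun i _ => (integrable_rpow p hp f).integrableOn)]

theorem coeFn_sum {ι : Type*} (F : Finset ι) (g : ι → E p) :
    (↑(∑ i ∈ F, g i) : ℝ → ℝ) =ᵐ[mu] fun x => ∑ i ∈ F, g i x := by
  classical
  induction F using Finset.induction_on with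
  | empty =>
    simp only [Finset.sum_empty]
    exact Lp.coeFn_zero ℝ p mu
  | insert i F hi ih =>
    rw [Finset.sum_insert hi]
    filter_upwards [Lp.coeFn_add (g i) (∑ i ∈ F, g i), ih] with x h1 h2
    rw [h1, Finset.sum_insert hi, Pi.add_apply, h2]

/-- Sums of functions with disjoint supports. -/
theorem norm_sum_rpow (hp : p ≠ ∞) {ι : Type*} (F : Finset ι) (A : ι → Set ℝ)
    (hA : ∀ i, MeasurableSet (A i)) (hd : (F : Set ι).PairwiseDisjoint A) (g : ι → E p)
    (hg : ∀ i ∈ F, indM p (hA i) (g i) = g i) :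
    ‖∑ i ∈ F, g i‖ ^ p.toReal = ∑ i ∈ F, ‖g i‖ ^ p.toReal := by
  have hp1 := one_le_toReal_of p hp
  rw [norm_rpow p hp]
  simp only [norm_rpow p hp]
  rw [← integral_finsetSum F (fun i _ => integrable_rpow p hp (g i))]
  refine integral_congr_ae ?_
  have h2 : ∀ᵐ x ∂mu, ∀ i ∈ F, (g i : ℝ → ℝ) x = (A i).indicator (g i) x := by
    rw [Finset.eventually_all]
    intro i hi
    have := indM_apply p (hA i) (g i)
    rw [hg i hi] at this
    exact this
  filter_upwards [coeFn_sum p F g, h2] with x h1 h2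
  rw [h1]
  by_cases hx : ∃ i ∈ F, g i x ≠ 0
  · obtain ⟨i, hi, hgi⟩ := hx
    have hxi : x ∈ A i := by
      by_contra h
      apply hgi
      rw [h2 i hi, Set.indicator_of_notMem h]
    have hz : ∀ j ∈ F, j ≠ i → g j x = 0 := by
      intro j hj hne
      rw [h2 j hj, Set.indicator_of_notMem]
      exact Set.disjoint_left.1 (hd hi hj hne.symm) hxi
    rw [Finset.sum_eq_single_of_mem i hi hz, Finset.sum_eq_single_of_mem i hi]
    intro j hj hne
    rw [hz j hj hne, abs_zero, Real.zero_rpow (by linarith)]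
  · push Not at hx
    rw [Finset.sum_eq_zero hx, Finset.sum_eq_zero, abs_zero, Real.zero_rpow (by linarith)]
    intro j hj
    rw [hx j hj, abs_zero, Real.zero_rpow (by linarith)]

/-- Hölder's inequality on a set. -/
theorem abs_intOn_le_rpow (hp : p ≠ ∞) {S : Set ℝ} (hS : MeasurableSet S) (f : E p) :
    |intOn p S f| ≤ mu.real S ^ (1 - 1 / p.toReal) * ‖indM p hS f‖ := by
  have hp1 := one_le_toReal_of p hp
  have h1 : eLpNorm f 1 (mu.restrict S) ≤ eLpNorm f p (mu.restrict S) *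
      (mu.restrict S) Set.univ ^ (1 / (1 : ℝ≥0∞).toReal - 1 / p.toReal) :=
    eLpNorm_le_eLpNorm_mul_rpow_measure_univ Fact.out (Lp.aestronglyMeasurable f).restrict
  rw [Measure.restrict_apply_univ,
    ← eLpNorm_indicator_eq_eLpNorm_restrict (f := (f : ℝ → ℝ)) (p := p) hS] at h1
  have h2 : eLpNorm (S.indicator (f : ℝ → ℝ)) p mu = eLpNorm (indM p hS f) p mu :=
    eLpNorm_congr_ae (indM_apply p hS f).symm
  rw [h2] at h1
  have h3 : ENNReal.ofReal |intOn p S f| ≤ eLpNorm f 1 (mu.restrict S) := by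
    rw [eLpNorm_one_eq_lintegral_enorm, intOn_apply, ← Real.enorm_eq_ofReal_abs]
    exact enorm_integral_le_lintegral_enorm _
  have h4 := h3.trans h1
  have h5 : eLpNorm (indM p hS f) p mu * mu S ^ (1 / (1 : ℝ≥0∞).toReal - 1 / p.toReal) =
      ENNReal.ofReal (mu.real S ^ (1 - 1 / p.toReal) * ‖indM p hS f‖) := by
    rw [mul_comm, ENNReal.ofReal_mul (by positivity), Lp.norm_def,
      ENNReal.ofReal_toReal (Lp.eLpNorm_ne_top _)]
    congr 1
    rw [← ENNReal.ofReal_rpow_of_nonneg measureReal_nonneg]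
    · rw [ofReal_measureReal]
      simp
    · have : 1 / p.toReal ≤ 1 := by rw [div_le_one (by linarith)]; exact hp1
      linarith
  rw [h5] at h4
  exact (ENNReal.ofReal_le_ofReal_iff (by positivity)).1 h4

theorem norm_indicator (hp : p ≠ ∞) {S : Set ℝ} (hS : MeasurableSet S) (c : ℝ) :
    ‖(indicatorConstLp p hS (measure_ne_top mu S) c : E p)‖ = |c| * mu.real S ^ (1 / p.toReal) := by
  rw [norm_indicatorConstLp (ne_zero_of p) hp]
  rfl

end Pool.Agent.T2H63.HF
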