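import Pool.Agent.T2H63.HF.Defs

/-!
# Package CE (60-80 min): approximation in `L^p` by boundedly many disjoint functions, uniformly in `p`

Let `u = ∑_i |f_i|`, `‖u‖_p ≤ s`, and partition `[0,1)` into `n` measurable sets `A_b` according to the cell of the vector
`(f_i / u)_i ∈ [-1,1]^s` in a grid of mesh `h ≤ ε / (2 s + 1)` (`n` depends only on `s`, `ε`; on `u = 0` all `f_i = 0`).
So on `A_b`: `|f_i - α_{i,b} u| ≤ h u`.  Put `e_b = u 1_{A_b} / ‖u 1_{A_b}‖_p` (or `0`), let `ψ_b` be a functional of norm `≤ 1` with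
`ψ_b (e_b) = 1` if `e_b ≠ 0` (`exists_dual_vector`), and `g_b f = ψ_b (1_{A_b} f)` (`indM`) (`g_b = 0` if `e_b = 0`).
The first two properties: `‖∑ y_b e_b‖_p^p = ∑ |y_b|^p ‖e_b‖^p` (disjoint supports), `|g_b f| ≤ ‖1_{A_b} f‖_p` and
`∑_b ‖1_{A_b} f‖_p^p = ‖f‖_p^p`.  Third: `1_{A_b} f_i - g_b (f_i) e_b = θ - g_b (θ) e_b` with `θ = 1_{A_b} (f_i - α_{i,b} u)`, of norm
`≤ 2 h ‖1_{A_b} u‖`; all supports are disjoint, so `‖f_i - ∑_b g_b(f_i) e_b‖ ≤ 2 h ‖u‖ ≤ ε`.
-/

open MeasureTheory Filter Topology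
open scoped ENNReal BoundedContinuousFunction

set_option linter.unusedSectionVars false

namespace Pool.Agent.T2H63.HF

section aux

variable {p : ℝ≥0∞} [Fact (1 ≤ p)]

theorem ce_pos (hp : p ≠ ∞) : 0 < p.toReal :=
  ENNReal.toReal_pos (zero_lt_one.trans_le (Fact.out : 1 ≤ p)).ne' hp

theorem ce_norm_rpow (hp : p ≠ ∞) (f : E p) :
    ENNReal.ofReal (‖f‖ ^ p.toReal) = ∫⁻ x, ‖f x‖ₑ ^ p.toReal ∂mu := by
  have h1 : p ≠ 0 := (zero_lt_one.trans_le (Fact.out : 1 ≤ p)).ne'
  have h0 : 0 < p.toReal := ce_pos hp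
  rw [← ENNReal.ofReal_rpow_of_nonneg (norm_nonneg _) h0.le, Lp.norm_def,
    ENNReal.ofReal_toReal (Lp.eLpNorm_ne_top f), eLpNorm_eq_lintegral_rpow_enorm_toReal h1 hp,
    ← ENNReal.rpow_mul, one_div, inv_mul_cancel₀ h0.ne', ENNReal.rpow_one]

theorem ce_coeFn_sum {κ : Type*} (s : Finset κ) (f : κ → E p) :
    ⇑(∑ i ∈ s, f i) =ᵐ[mu] fun x => ∑ i ∈ s, f i x := by
  classical
  induction s using Finset.induction_on with
  | empty =>
    simp only [Finset.sum_empty]
    exact Lp.coeFn_zero _ _ _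
  | insert a s ha ih =>
    rw [Finset.sum_insert ha]
    filter_upwards [Lp.coeFn_add (f a) (∑ i ∈ s, f i), ih] with x h1 h2
    rw [h1, Pi.add_apply, h2, Finset.sum_insert ha]

variable {ι : Type*} [Fintype ι] [DecidableEq ι] {A : ι → Set ℝ} (hA : ∀ b, MeasurableSet (A b))
  (hd : ∀ x, ∃! b, x ∈ A b)

include hd in
theorem ce_sum_rpow (hp : p ≠ ∞) (f : E p) :
    ∑ b, ‖indM p (hA b) f‖ ^ p.toReal = ‖f‖ ^ p.toReal := by
  have h0 : 0 < p.toReal := ce_pos hp
  have hdisj : Pairwise (Function.onFun Disjoint A) := by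
    intro b c hbc
    rw [Function.onFun, Set.disjoint_left]
    intro x hb hc
    exact hbc ((hd x).unique hb hc)
  have hun : (⋃ b, A b) = Set.univ := by
    ext x
    simp only [Set.mem_iUnion, Set.mem_univ, iff_true]
    exact (hd x).exists
  have key : ENNReal.ofReal (∑ b, ‖indM p (hA b) f‖ ^ p.toReal) = ENNReal.ofReal (‖f‖ ^ p.toReal) := by
    rw [ENNReal.ofReal_sum_of_nonneg (fun b _ => Real.rpow_nonneg (norm_nonneg _) _), ce_norm_rpow hp f]
    have h2 : ∀ b, ENNReal.ofReal (‖indM p (hA b) f‖ ^ p.toReal) =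
        ∫⁻ x in A b, ‖f x‖ₑ ^ p.toReal ∂mu := by
      intro b
      rw [ce_norm_rpow hp, ← lintegral_indicator (hA b)]
      refine lintegral_congr_ae ?_
      filter_upwards [indM_apply p (hA b) f] with x hx
      rw [hx]
      by_cases h : x ∈ A b
      · simp [Set.indicator_of_mem h]
      · simp [Set.indicator_of_notMem h, h0]
    rw [Finset.sum_congr rfl (fun b _ => h2 b), ← setLIntegral_univ, ← hun,
      lintegral_iUnion hA hdisj, tsum_fintype]
  have := (ENNReal.ofReal_eq_ofReal_iff (Finset.sum_nonneg fun b _ => Real.rpow_nonneg (norm_nonneg _) _)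
    (Real.rpow_nonneg (norm_nonneg _) _)).1 key
  exact this

include hd in
theorem ce_sum_ind (f : E p) : ∑ b, indM p (hA b) f = f := by
  apply Lp.ext
  have h1 : ∀ᵐ x ∂mu, ∀ b, indM p (hA b) f x = (A b).indicator f x :=
    ae_all_iff.2 fun b => indM_apply p (hA b) f
  filter_upwards [h1, ce_coeFn_sum Finset.univ fun b => indM p (hA b) f] with x hx h2x
  rw [h2x]
  obtain ⟨b, hb, hb'⟩ := hd x
  rw [Finset.sum_eq_single b]
  · rw [hx, Set.indicator_of_mem hb]
  · intro c _ hc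
    rw [hx, Set.indicator_of_notMem]
    intro h
    exact hc (hb' c h)
  · simp

include hd in
theorem ce_ind_ind (b c : ι) (f : E p) :
    indM p (hA b) (indM p (hA c) f) = if b = c then indM p (hA c) f else 0 := by
  apply Lp.ext
  filter_upwards [indM_apply p (hA b) (indM p (hA c) f), indM_apply p (hA c) f,
    Lp.coeFn_zero ℝ p mu] with x h1 h2 h3
  rw [h1]
  by_cases hb : x ∈ A b
  · rw [Set.indicator_of_mem hb, h2]
    by_cases hbc : b = c
    · rw [if_pos hbc, h2]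
    · rw [if_neg hbc, h3, Set.indicator_of_notMem]
      · rfl
      · intro hc
        exact hbc ((hd x).unique hb hc)
  · rw [Set.indicator_of_notMem hb]
    by_cases hbc : b = c
    · rw [if_pos hbc, h2, Set.indicator_of_notMem (hbc ▸ hb)]
    · rw [if_neg hbc, h3]; rfl

include hd in
/-- Sums of vectors supported on the sets `A b`. -/
theorem ce_norm_sum (hp : p ≠ ∞) (v : ι → E p) (hv : ∀ b, indM p (hA b) (v b) = v b) :
    ‖∑ b, v b‖ ^ p.toReal = ∑ b, ‖v b‖ ^ p.toReal := by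
  rw [← ce_sum_rpow hA hd hp]
  refine Finset.sum_congr rfl fun b _ => ?_
  congr 2
  rw [map_sum, Finset.sum_eq_single b]
  · exact hv b
  · intro c _ hc
    rw [← hv c, ce_ind_ind hA hd, if_neg (Ne.symm hc)]
  · simp

include hd in
/-- The construction for a given partition. -/
theorem ce_core (hp : p ≠ ∞) (U : E p) (s : ℕ) (f : Fin s → E p) (h : ℝ) (hh : 0 ≤ h) (α : ι → Fin s → ℝ)
    (hα : ∀ b i, ‖indM p (hA b) (f i) - α b i • indM p (hA b) U‖ ≤ h * ‖indM p (hA b) U‖) :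
    ∃ (e : ι → E p) (g : ι → E p →L[ℝ] ℝ),
      (∀ y : ι → ℝ, ‖∑ b, y b • e b‖ ≤ (∑ b, |y b| ^ p.toReal) ^ (1 / p.toReal)) ∧
      (∀ v : E p, (∑ b, |g b v| ^ p.toReal) ^ (1 / p.toReal) ≤ ‖v‖) ∧
      ∀ i, ‖f i - ∑ b, g b (f i) • e b‖ ≤ 2 * h * ‖U‖ := by
  have h0 : 0 < p.toReal := ce_pos hp
  have hdual : ∀ b, ∃ g : E p →L[ℝ] ℝ, ‖g‖ ≤ 1 ∧ g (indM p (hA b) U) = ‖indM p (hA b) U‖ := fun b => by
    obtain ⟨g, h1, h2⟩ := exists_dual_vector'' ℝ (indM p (hA b) U)
    exact ⟨g, h1, by simpa using h2⟩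
  choose ψ hψ1 hψ2 using hdual
  set e : ι → E p := fun b => ‖indM p (hA b) U‖⁻¹ • indM p (hA b) U with he
  set g : ι → E p →L[ℝ] ℝ := fun b => (ψ b).comp (indM p (hA b)) with hg
  have he1 : ∀ b, ‖e b‖ ≤ 1 := by
    intro b
    rw [he, norm_smul, norm_inv, norm_norm]
    exact inv_mul_le_one
  have he2 : ∀ b, indM p (hA b) (e b) = e b := by
    intro b
    simp only [he, map_smul]
    rw [ce_ind_ind hA hd, if_pos rfl]
  have hg1 : ∀ b v, |g b v| ≤ ‖indM p (hA b) v‖ := by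
    intro b v
    calc |g b v| = ‖ψ b (indM p (hA b) v)‖ := rfl
      _ ≤ ‖ψ b‖ * ‖indM p (hA b) v‖ := (ψ b).le_opNorm _
      _ ≤ 1 * ‖indM p (hA b) v‖ := by gcongr; exact hψ1 b
      _ = _ := one_mul _
  refine ⟨e, g, ?_, ?_, ?_⟩
  · intro y
    have h1 := ce_norm_sum hA hd hp (fun b => y b • e b) (fun b => by rw [map_smul, he2])
    have h2 : ‖∑ b, y b • e b‖ = (∑ b, ‖y b • e b‖ ^ p.toReal) ^ (1 / p.toReal) := by
      rw [← h1, ← Real.rpow_mul (norm_nonneg _), mul_one_div_cancel h0.ne', Real.rpow_one]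
    rw [h2]
    refine Real.rpow_le_rpow (Finset.sum_nonneg fun b _ => Real.rpow_nonneg (norm_nonneg _) _)
      (Finset.sum_le_sum fun b _ => Real.rpow_le_rpow (norm_nonneg _) ?_ h0.le) (by positivity)
    rw [norm_smul, Real.norm_eq_abs]
    exact mul_le_of_le_one_right (abs_nonneg _) (he1 b)
  · intro v
    have h2 : ‖v‖ = (∑ b, ‖indM p (hA b) v‖ ^ p.toReal) ^ (1 / p.toReal) := by
      rw [ce_sum_rpow hA hd hp, ← Real.rpow_mul (norm_nonneg _), mul_one_div_cancel h0.ne', Real.rpow_one]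
    rw [h2]
    exact Real.rpow_le_rpow (Finset.sum_nonneg fun b _ => Real.rpow_nonneg (abs_nonneg _) _)
      (Finset.sum_le_sum fun b _ => Real.rpow_le_rpow (abs_nonneg _) (hg1 b v) h0.le) (by positivity)
  · intro i
    have hsum : f i - ∑ b, g b (f i) • e b = ∑ b, (indM p (hA b) (f i) - g b (f i) • e b) := by
      rw [Finset.sum_sub_distrib, ce_sum_ind hA hd]
    have hdb : ∀ b, ‖indM p (hA b) (f i) - g b (f i) • e b‖ ≤ 2 * h * ‖indM p (hA b) U‖ := by
      intro b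
      set θ : E p := indM p (hA b) (f i) - α b i • indM p (hA b) U with hθ
      have hf : indM p (hA b) (f i) = α b i • indM p (hA b) U + θ := by rw [hθ]; abel
      have hgf : g b (f i) = α b i * ‖indM p (hA b) U‖ + ψ b θ := by
        simp only [hg, ContinuousLinearMap.comp_apply]
        rw [hf, map_add, map_smul, hψ2, smul_eq_mul]
      have hUe : ‖indM p (hA b) U‖ • e b = indM p (hA b) U := by
        by_cases hU : ‖indM p (hA b) U‖ = 0
        · rw [hU, zero_smul]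
          exact (norm_eq_zero.1 hU).symm
        · simp only [he]
          rw [smul_smul, mul_inv_cancel₀ hU, one_smul]
      have hdiff : indM p (hA b) (f i) - g b (f i) • e b = θ - ψ b θ • e b := by
        rw [hgf, add_smul, mul_smul, hUe]
        nth_rewrite 1 [hf]
        abel
      have hψθ : |ψ b θ| ≤ ‖θ‖ := by
        calc |ψ b θ| = ‖ψ b θ‖ := rfl
          _ ≤ ‖ψ b‖ * ‖θ‖ := (ψ b).le_opNorm _
          _ ≤ 1 * ‖θ‖ := by gcongr; exact hψ1 b
          _ = _ := one_mul _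
      rw [hdiff]
      calc ‖θ - ψ b θ • e b‖ ≤ ‖θ‖ + ‖ψ b θ • e b‖ := norm_sub_le _ _
        _ ≤ ‖θ‖ + ‖θ‖ := by
            gcongr
            rw [norm_smul, Real.norm_eq_abs]
            calc |ψ b θ| * ‖e b‖ ≤ ‖θ‖ * 1 := mul_le_mul hψθ (he1 b) (norm_nonneg _) (norm_nonneg _)
              _ = ‖θ‖ := mul_one _
        _ ≤ h * ‖indM p (hA b) U‖ + h * ‖indM p (hA b) U‖ := add_le_add (hα b i) (hα b i)
        _ = 2 * h * ‖indM p (hA b) U‖ := by ring
    have h1 := ce_norm_sum hA hd hp (fun b => indM p (hA b) (f i) - g b (f i) • e b) (fun b => by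
      rw [map_sub, map_smul, he2, ce_ind_ind hA hd, if_pos rfl])
    rw [hsum]
    have h3 : ‖∑ b, (indM p (hA b) (f i) - g b (f i) • e b)‖ ^ p.toReal ≤ (2 * h * ‖U‖) ^ p.toReal := by
      rw [h1]
      calc ∑ b, ‖indM p (hA b) (f i) - g b (f i) • e b‖ ^ p.toReal
          ≤ ∑ b, (2 * h * ‖indM p (hA b) U‖) ^ p.toReal :=
            Finset.sum_le_sum fun b _ => Real.rpow_le_rpow (norm_nonneg _) (hdb b) h0.le
        _ = ∑ b, (2 * h) ^ p.toReal * ‖indM p (hA b) U‖ ^ p.toReal :=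
            Finset.sum_congr rfl fun b _ => Real.mul_rpow (by positivity) (norm_nonneg _)
        _ = (2 * h * ‖U‖) ^ p.toReal := by
            rw [← Finset.mul_sum, ce_sum_rpow hA hd hp, Real.mul_rpow (by positivity) (norm_nonneg _)]
    exact (Real.rpow_le_rpow_iff (norm_nonneg _) (by positivity) h0).1 h3

end aux

theorem CE (s : ℕ) (ε : ℝ) (hε : 0 < ε) : ∃ n : ℕ, ∀ (p : ℝ≥0∞) [Fact (1 ≤ p)], p ≠ ∞ →
    ∀ f : Fin s → E p, (∀ i, ‖f i‖ ≤ 1) → ∃ (e : Fin n → E p) (g : Fin n → E p →L[ℝ] ℝ),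
      (∀ y : Fin n → ℝ, ‖∑ b, y b • e b‖ ≤ (∑ b, |y b| ^ p.toReal) ^ (1 / p.toReal)) ∧
      (∀ v : E p, (∑ b, |g b v| ^ p.toReal) ^ (1 / p.toReal) ≤ ‖v‖) ∧
      ∀ i, ‖f i - ∑ b, g b (f i) • e b‖ ≤ ε := by
  set h : ℝ := ε / (2 * s + 1) with hh
  have hhpos : 0 < h := by positivity
  have hhs : 2 * h * s ≤ ε := by
    rw [hh]
    have : (2 * (s : ℝ) + 1) > 0 := by positivity
    rw [show 2 * (ε / (2 * (s : ℝ) + 1)) * s = ε * ((2 * s) / (2 * s + 1)) by ring]
    exact mul_le_of_le_one_right hε.le ((div_le_one this).2 (by linarith))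
  set N : ℕ := ⌊2 / h⌋₊ + 1 with hN
  set ι : Type := Fin s → Fin N with hι
  refine ⟨Fintype.card ι, ?_⟩
  intro p _ hp f hf
  set u : ℝ → ℝ := fun x => ∑ i, |f i x| with hu
  have hfm : ∀ i, Measurable (f i) := fun i => (Lp.stronglyMeasurable (f i)).measurable
  have hum : Measurable u := Finset.measurable_sum _ fun i _ => (hfm i).abs
  have hu0 : ∀ x, 0 ≤ u x := fun x => Finset.sum_nonneg fun i _ => abs_nonneg _
  have hfu : ∀ i x, |f i x| ≤ u x := fun i x =>
    Finset.single_le_sum (f := fun i => |f i x|) (fun i _ => abs_nonneg _) (Finset.mem_univ i)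
  -- the cells
  set c : Fin s → ℝ → ℕ := fun i x => ⌊(f i x / u x + 1) / h⌋₊ with hc
  have hcm : ∀ i, Measurable (c i) := fun i =>
    (((hfm i).div hum).add_const 1 |>.div_const h).nat_floor
  have hq : ∀ i x, |f i x / u x| ≤ 1 := by
    intro i x
    rw [abs_div, abs_of_nonneg (hu0 x)]
    exact div_le_one_of_le₀ (hfu i x) (hu0 x)
  have hcN : ∀ i x, c i x < N := by
    intro i x
    rw [hN, Nat.lt_succ_iff]
    refine Nat.floor_le_floor ?_
    have := (abs_le.1 (hq i x)).2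
    gcongr
    linarith
  set A : ι → Set ℝ := fun b => {x | ∀ i, c i x = (b i : ℕ)} with hAdef
  have hA : ∀ b, MeasurableSet (A b) := by
    intro b
    have : A b = ⋂ i, (c i) ⁻¹' {(b i : ℕ)} := by
      ext x
      simp [hAdef]
    rw [this]
    exact MeasurableSet.iInter fun i => hcm i (measurableSet_singleton _)
  have hd : ∀ x, ∃! b, x ∈ A b := by
    intro x
    refine ⟨fun i => ⟨c i x, hcN i x⟩, fun i => rfl, ?_⟩
    intro b hb
    funext i
    apply Fin.ext
    exact (hb i).symm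
  -- the function `U`
  set U : E p := ∑ i, |f i| with hU
  have hUn : ‖U‖ ≤ s := by
    calc ‖U‖ ≤ ∑ i, ‖|f i|‖ := norm_sum_le _ _
      _ ≤ ∑ i : Fin s, (1 : ℝ) := Finset.sum_le_sum fun i _ => by rw [norm_abs_eq_norm]; exact hf i
      _ = s := by simp
  have hUu : (U : ℝ → ℝ) =ᵐ[mu] u := by
    have h1 : ∀ᵐ x ∂mu, ∀ i, (|f i| : E p) x = |f i x| := ae_all_iff.2 fun i => Lp.coeFn_abs (f i)
    filter_upwards [h1, ce_coeFn_sum Finset.univ fun i => |f i|] with x hx h2x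
    rw [hU, h2x]
    exact Finset.sum_congr rfl fun i _ => hx i
  have hcore := ce_core hA hd hp U s f h hhpos.le (fun b i => h * (b i : ℕ) - 1) (by
    intro b i
    refine Lp.norm_le_mul_norm_of_ae_le_mul ?_
    filter_upwards [Lp.coeFn_sub (indM p (hA b) (f i)) ((h * (b i : ℕ) - 1) • indM p (hA b) U),
      Lp.coeFn_smul (h * ((b i : ℕ) : ℝ) - 1) (indM p (hA b) U), indM_apply p (hA b) (f i),
      indM_apply p (hA b) U, hUu] with x h1 h2 h3 h4 h5
    rw [h1, Pi.sub_apply, h2, Pi.smul_apply, h3, h4]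
    by_cases hx : x ∈ A b
    · rw [Set.indicator_of_mem hx, Set.indicator_of_mem hx, h5, smul_eq_mul, Real.norm_eq_abs,
        Real.norm_eq_abs, abs_of_nonneg (hu0 x)]
      have hci : c i x = (b i : ℕ) := hx i
      have hnn : 0 ≤ (f i x / u x + 1) / h := by
        have := (abs_le.1 (hq i x)).1
        exact div_nonneg (by linarith) hhpos.le
      have hfl1 : ((b i : ℕ) : ℝ) ≤ (f i x / u x + 1) / h := by
        rw [← hci]
        exact Nat.floor_le hnn
      have hfl2 : (f i x / u x + 1) / h < ((b i : ℕ) : ℝ) + 1 := by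
        rw [← hci]
        exact Nat.lt_floor_add_one _
      rw [le_div_iff₀ hhpos] at hfl1
      rw [div_lt_iff₀ hhpos] at hfl2
      have hfi : f i x = (f i x / u x) * u x := by
        by_cases h0 : u x = 0
        · have := hfu i x
          rw [h0] at this
          have h00 : f i x = 0 := abs_eq_zero.1 (le_antisymm this (abs_nonneg _))
          rw [h0, h00]; simp
        · rw [div_mul_cancel₀ _ h0]
      set t : ℝ := f i x / u x with ht
      rw [hfi, ← sub_mul, abs_mul, abs_of_nonneg (hu0 x)]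
      refine mul_le_mul_of_nonneg_right (abs_le.2 ⟨by linarith, by linarith⟩) (hu0 x)
    · rw [Set.indicator_of_notMem hx, Set.indicator_of_notMem hx]
      simp)
  obtain ⟨e, g, h1, h2, h3⟩ := hcore
  set φ : Fin (Fintype.card ι) ≃ ι := (Fintype.equivFin ι).symm with hφ
  refine ⟨fun b => e (φ b), fun b => g (φ b), ?_, ?_, ?_⟩
  · intro y
    have hy := h1 (fun b => y (φ.symm b))
    rw [← φ.sum_comp, ← φ.sum_comp] at hy
    simpa using hy
  · intro v
    have hv := h2 v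
    rw [← φ.sum_comp] at hv
    exact hv
  · intro i
    have hi := h3 i
    rw [← φ.sum_comp] at hi
    refine hi.trans (le_trans ?_ hhs)
    gcongr

end Pool.Agent.T2H63.HF
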