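import Pool.Agent.T2H63.HF.GEO
import Pool.Agent.T2H63.HF.Blk

/-!
# Package DEN (45-60 min): the conditional expectations `En p n` and the Haar system of `L^p[0,1)`, `p < ∞`

`En p n f = ∑_{s of level n} 2^n (∫_{I s} f) 1_{I s}`.
* `norm_En_le`: Jensen / Hölder on every interval (`‖1_{I}‖_p = (2^{-n})^{1/p}`, `|∫_I f| ≤ (2^{-n})^{1-1/p} ‖f 1_I‖_p`,
  sum of `p`-th powers; compare `Pool.Agent.R275.LIso4.coef_bound, pif_bound, norm_iom`, or use
  `MeasureTheory.eLpNorm_condExp_le_eLpNorm`).
* `tendsto_En`: true for (classes of) continuous functions on `[0,1]` (uniform continuity), which are dense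
  (`MeasureTheory.MemLp.exists_hasCompactSupport_eLpNorm_sub_le` or bounded continuous functions are dense in `Lp`),
  plus `norm_En_le`.
* `En_eq`: `En p n f = (pair 0 f) hv 0 + ∑_{1 ≤ s < 2^n} 2^{lv s} (pair s f) hv s` (induction on `n`).
* the rest follows.
-/

open MeasureTheory Filter Topology
open scoped ENNReal BoundedContinuousFunction

set_option linter.unusedSectionVars false

namespace Pool.Agent.T2H63.HF

variable (p : ℝ≥0∞) [Fact (1 ≤ p)]

theorem mu_univ_NNReal : ((measureUnivNNReal mu : NNReal) : ℝ) = 1 := by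
  simp [measureUnivNNReal]

theorem ind_ae (s : ℕ) : (ind p s : ℝ → ℝ) =ᵐ[mu] (I s).indicator fun _ => 1 :=
  indicatorConstLp_coeFn

theorem ae_mem : ∀ᵐ x ∂mu, x ∈ Set.Ico (0 : ℝ) 1 := ae_restrict_mem measurableSet_Ico

theorem hv_ae (s : ℕ) : (hv p s : ℝ → ℝ) =ᵐ[mu] hfun s := by
  by_cases hs : s = 0
  · subst hs
    filter_upwards [ind_ae p 1, ae_mem] with x h1 h2
    rw [hv, if_pos rfl, h1, I_one, Set.indicator_of_mem h2, hfun, if_pos rfl]
  · rw [hv, if_neg hs]
    filter_upwards [ind_ae p (2 * s), ind_ae p (2 * s + 1),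
      Lp.coeFn_sub (ind p (2 * s)) (ind p (2 * s + 1))] with x h1 h2 h3
    rw [h3, Pi.sub_apply, h1, h2, hfun, if_neg hs]
    rfl

theorem intOn_ind_gen {S : Set ℝ} (hS : MeasurableSet S) (s : ℕ) :
    intOn p S (ind p s) = mu.real (S ∩ I s) := by
  rw [intOn_apply, integral_congr_ae (ae_restrict_of_ae (ind_ae p s)),
    integral_indicator (measurableSet_I s), integral_const, smul_eq_mul, mul_one,
    Measure.restrict_restrict (measurableSet_I s), measureReal_restrict_apply_univ, Set.inter_comm]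

theorem intOn_hv (S : Set ℝ) (s : ℕ) : intOn p S (hv p s) = ∫ x in S, hfun s x ∂mu := by
  rw [intOn_apply]
  exact integral_congr_ae (ae_restrict_of_ae (hv_ae p s))

theorem one_div_toReal_le : 1 / p.toReal ≤ 1 := by
  rcases eq_or_ne p ∞ with rfl | hp
  · simp
  · have hp1 := one_le_toReal_of p hp
    rw [div_le_one (by linarith)]; exact hp1

/-- Hölder's inequality on a set, all exponents. -/
theorem abs_intOn_le' {S : Set ℝ} (hS : MeasurableSet S) (f : E p) :
    |intOn p S f| ≤ mu.real S ^ (1 - 1 / p.toReal) * ‖indM p hS f‖ := by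
  have h1 : eLpNorm f 1 (mu.restrict S) ≤ eLpNorm f p (mu.restrict S) *
      (mu.restrict S) Set.univ ^ (1 / (1 : ℝ≥0∞).toReal - 1 / p.toReal) :=
    eLpNorm_le_eLpNorm_mul_rpow_measure_univ Fact.out (Lp.aestronglyMeasurable f).restrict
  rw [Measure.restrict_apply_univ,
    ← eLpNorm_indicator_eq_eLpNorm_restrict (f := (f : ℝ → ℝ)) (p := p) hS] at h1
  have h2 : eLpNorm (S.indicator (f : ℝ → ℝ)) p mu = eLpNorm (indM p hS f) p mu :=
    eLpNorm_congr_ae (indM_apply p hS f).symm
  rw [h2] at h1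
  have h3 : ENNReal.ofReal |intOn p S f| ≤ eLpNorm f 1 (mu.restrict S) := by
    rw [eLpNorm_one_eq_lintegral_enorm, intOn_apply, ← Real.enorm_eq_ofReal_abs]
    exact enorm_integral_le_lintegral_enorm _
  have h4 := h3.trans h1
  have h5 : eLpNorm (indM p hS f) p mu * mu S ^ (1 / (1 : ℝ≥0∞).toReal - 1 / p.toReal) =
      ENNReal.ofReal (mu.real S ^ (1 - 1 / p.toReal) * ‖indM p hS f‖) := by
    rw [mul_comm, ENNReal.ofReal_mul (by positivity), Lp.norm_def,
      ENNReal.ofReal_toReal (Lp.eLpNorm_ne_top _)]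
    congr 1
    rw [← ENNReal.ofReal_rpow_of_nonneg measureReal_nonneg]
    · rw [ofReal_measureReal]
      simp
    · linarith [one_div_toReal_le p]
  rw [h5] at h4
  exact (ENNReal.ofReal_le_ofReal_iff (by positivity)).1 h4

theorem len_pos (s : ℕ) : 0 < len s := by unfold len; positivity

theorem two_pow_mul_len (s : ℕ) : (2 : ℝ) ^ lv s * len s = 1 := by
  unfold len
  exact mul_inv_cancel₀ (by positivity)

/-- The averaging operator over one interval has norm `≤ 1`, more precisely: -/
theorem norm_avg_le {s : ℕ} (hs : 1 ≤ s) (f : E p) :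
    ‖((2 : ℝ) ^ lv s * intOn p (I s) f) • ind p s‖ ≤ ‖indM p (measurableSet_I s) f‖ := by
  have h1 := abs_intOn_le' p (measurableSet_I s) f
  have h2 : ‖ind p s‖ ≤ ‖(1 : ℝ)‖ * mu.real (I s) ^ (1 / p.toReal) := norm_indicatorConstLp_le
  rw [norm_one, one_mul] at h2
  rw [mu_I hs] at h1 h2
  have hl := len_pos s
  rw [norm_smul, norm_mul, Real.norm_eq_abs, Real.norm_eq_abs, abs_of_pos (by positivity : (0 : ℝ) <
    2 ^ lv s)]
  calc 2 ^ lv s * |intOn p (I s) f| * ‖ind p s‖
      ≤ 2 ^ lv s * (len s ^ (1 - 1 / p.toReal) * ‖indM p (measurableSet_I s) f‖) *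
        len s ^ (1 / p.toReal) := by gcongr
    _ = 2 ^ lv s * (len s ^ (1 - 1 / p.toReal) * len s ^ (1 / p.toReal)) *
        ‖indM p (measurableSet_I s) f‖ := by ring
    _ = 2 ^ lv s * len s * ‖indM p (measurableSet_I s) f‖ := by
        rw [← Real.rpow_add hl]; simp
    _ = ‖indM p (measurableSet_I s) f‖ := by rw [two_pow_mul_len, one_mul]

theorem lv_add' {n j : ℕ} (hj : j < 2 ^ n) : lv (2 ^ n + j) = n := by
  unfold lv
  refine Nat.log_eq_of_pow_le_of_lt_pow (by omega) ?_
  rw [pow_succ]; omega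

theorem Blw_eq_of_lv {a b : ℕ} (ha : 1 ≤ a) (h : Blw a b) (hl : lv b ≤ lv a) : a = b := by
  obtain ⟨i, hi⟩ := h
  have := geo_lv_eq ha hi
  have hi0 : i = 0 := by omega
  subst hi0
  simpa using hi.symm

theorem I_disjoint_of_lv {a b : ℕ} (ha : 1 ≤ a) (hb : 1 ≤ b) (hl : lv a = lv b) (hne : a ≠ b) :
    Disjoint (I a) (I b) := by
  rcases Blw_or_disjoint ha hb hl.le with h | h
  · exact absurd (Blw_eq_of_lv ha h hl.ge) hne
  · exact h

theorem pairwise_I (n : ℕ) : ((Finset.range (2 ^ n) : Finset ℕ) : Set ℕ).PairwiseDisjoint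
    fun j => I (2 ^ n + j) := by
  intro i hi j hj hne
  have h2 := Nat.one_le_two_pow (n := n)
  simp only [Finset.coe_range, Set.mem_Iio] at hi hj
  exact I_disjoint_of_lv (by omega) (by omega) (by rw [lv_add' hi, lv_add' hj]) (by omega)

theorem indM_ind {S : Set ℝ} (hS : MeasurableSet S) {s : ℕ} (h : I s ⊆ S) :
    indM p hS (ind p s) = ind p s := by
  rw [Lp.ext_iff]
  filter_upwards [indM_apply p hS (ind p s), ind_ae p s] with x h1 h2
  rw [h1]
  by_cases hx : x ∈ S
  · rw [Set.indicator_of_mem hx]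
  · rw [Set.indicator_of_notMem hx, h2, Set.indicator_of_notMem (fun hx' => hx (h hx'))]

theorem norm_indM_le' {S : Set ℝ} (hS : MeasurableSet S) (f : E p) : ‖indM p hS f‖ ≤ ‖f‖ := by
  calc ‖indM p hS f‖ ≤ ‖indM p hS‖ * ‖f‖ := (indM p hS).le_opNorm f
    _ ≤ 1 * ‖f‖ := mul_le_mul_of_nonneg_right (norm_indM_le p hS) (norm_nonneg _)
    _ = ‖f‖ := one_mul _

theorem En_apply (n : ℕ) (f : E p) : En p n f =
    ∑ j ∈ Finset.range (2 ^ n), ((2 : ℝ) ^ n * intOn p (I (2 ^ n + j)) f) • ind p (2 ^ n + j) := by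
  unfold En
  simp only [FunLike.coe_sum, Finset.sum_apply, FunLike.coe_smul, Pi.smul_apply,
    ContinuousLinearMap.smulRight_apply, smul_smul]

theorem norm_En_le (hp : p ≠ ∞) (n : ℕ) : ‖En p n‖ ≤ 1 := by
  have hp1 := one_le_toReal_of p hp
  refine ContinuousLinearMap.opNorm_le_bound _ zero_le_one fun f => ?_
  rw [one_mul]
  have h2 := Nat.one_le_two_pow (n := n)
  have key : ‖En p n f‖ ^ p.toReal ≤ ‖f‖ ^ p.toReal := by
    rw [En_apply, norm_sum_rpow p hp (Finset.range (2 ^ n)) (fun j => I (2 ^ n + j))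
      (fun j => measurableSet_I _) (pairwise_I n)]
    · refine le_trans ?_ (sum_norm_indM_rpow_le p hp (Finset.range (2 ^ n)) (fun j => I (2 ^ n + j))
        (fun j => measurableSet_I _) (pairwise_I n) f)
      refine Finset.sum_le_sum fun j hj => ?_
      refine Real.rpow_le_rpow (norm_nonneg _) ?_ (by linarith)
      have := norm_avg_le p (s := 2 ^ n + j) (by omega) f
      rwa [lv_add' (Finset.mem_range.1 hj)] at this
    · intro j _
      rw [map_smul, indM_ind p _ (Set.Subset.refl _)]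
  exact (Real.rpow_le_rpow_iff (norm_nonneg _) (norm_nonneg _) (by linarith)).1 key

theorem En_ae (n : ℕ) (f : E p) : ∀ᵐ x ∂mu, ∀ s, 1 ≤ s → lv s = n → x ∈ I s →
    En p n f x = 2 ^ n * intOn p (I s) f := by
  have h2 := Nat.one_le_two_pow (n := n)
  have e1 : ∀ᵐ x ∂mu, ∀ j ∈ Finset.range (2 ^ n),
      ((((2 : ℝ) ^ n * intOn p (I (2 ^ n + j)) f) • ind p (2 ^ n + j) : E p) : ℝ → ℝ) x =
        (2 : ℝ) ^ n * intOn p (I (2 ^ n + j)) f * (I (2 ^ n + j)).indicator (fun _ => 1) x := by
    rw [Finset.eventually_all]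
    intro j _
    filter_upwards [Lp.coeFn_smul ((2 : ℝ) ^ n * intOn p (I (2 ^ n + j)) f) (ind p (2 ^ n + j)),
      ind_ae p (2 ^ n + j)] with x h1 h3
    rw [h1, Pi.smul_apply, h3, smul_eq_mul]
  rw [En_apply]
  filter_upwards [coeFn_sum p (Finset.range (2 ^ n))
    (fun j => ((2 : ℝ) ^ n * intOn p (I (2 ^ n + j)) f) • ind p (2 ^ n + j)), e1] with x h1 h3
  intro s hs hl hx
  rw [h1]
  have hs1 : 2 ^ n ≤ s := by rw [← hl]; exact geo_pow_le hs
  have hs2 : s < 2 ^ (n + 1) := by rw [← hl]; exact geo_lt_pow s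
  rw [pow_succ] at hs2
  have hj : s - 2 ^ n ∈ Finset.range (2 ^ n) := Finset.mem_range.2 (by omega)
  have hj2 : 2 ^ n + (s - 2 ^ n) = s := by omega
  rw [Finset.sum_eq_single_of_mem (s - 2 ^ n) hj, h3 _ hj, hj2, Set.indicator_of_mem hx, mul_one]
  intro j hj' hne
  rw [h3 j hj', Set.indicator_of_notMem, mul_zero]
  intro hx'
  exact Set.disjoint_left.1 (pairwise_I n (Finset.mem_coe.2 hj') (Finset.mem_coe.2 hj) hne) hx'
    (by show x ∈ I (2 ^ n + (s - 2 ^ n)); rw [hj2]; exact hx)

theorem dist_le_of_mem_I {s : ℕ} {x y : ℝ} (hx : x ∈ I s) (hy : y ∈ I s) : dist x y ≤ len s := by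
  have hpos : (0 : ℝ) < 2 ^ lv s := by positivity
  unfold I at hx hy
  have e : ((s : ℝ) + 1 - 2 ^ lv s) / 2 ^ lv s = ((s : ℝ) - 2 ^ lv s) / 2 ^ lv s + len s := by
    unfold len; field_simp; ring
  rw [e] at hx hy
  rw [Real.dist_eq, abs_le]
  constructor <;> linarith [hx.1, hx.2, hy.1, hy.2]

theorem tendsto_En (hp : p ≠ ∞) (f : E p) : Tendsto (fun n => En p n f) atTop (𝓝 f) := by
  rw [Metric.tendsto_atTop]
  intro ε hε
  obtain ⟨g, -, hg1, hg2, hg3⟩ := (Lp.memLp f).exists_hasCompactSupport_eLpNorm_sub_le hp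
    (ε := ENNReal.ofReal (ε / 4)) (by positivity)
  let G : E p := hg3.toLp g
  have hfG : ‖f - G‖ ≤ ε / 4 := by
    rw [Lp.norm_def]
    refine ENNReal.toReal_le_of_le_ofReal (by positivity) ?_
    refine le_trans (le_of_eq ?_) hg1
    refine eLpNorm_congr_ae ?_
    filter_upwards [Lp.coeFn_sub f G, hg3.coeFn_toLp] with x h1 h2
    rw [h1, Pi.sub_apply, Pi.sub_apply, h2]
  have huc : UniformContinuousOn g (Set.Icc (0 : ℝ) 1) :=
    isCompact_Icc.uniformContinuousOn_of_continuous hg2.continuousOn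
  rw [Metric.uniformContinuousOn_iff] at huc
  obtain ⟨δ, hδ, huc⟩ := huc (ε / 4) (by positivity)
  obtain ⟨n0, hn0⟩ := exists_pow_lt_of_lt_one hδ (show (1 / 2 : ℝ) < 1 by norm_num)
  refine ⟨n0, fun n hn => ?_⟩
  have hEG : ‖En p n G - G‖ ≤ ε / 4 := by
    have h1 : ∀ᵐ x ∂mu, ‖(En p n G - G : E p) x‖ ≤ ε / 4 := by
      filter_upwards [Lp.coeFn_sub (En p n G) G, En_ae p n G, hg3.coeFn_toLp, ae_mem] with x h1 h2 h3 h4
      rw [h1, Pi.sub_apply]
      obtain ⟨s, hs, hl, hx⟩ := exists_mem_I h4 n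
      rw [h2 s hs hl hx]
      have hGx : (G : ℝ → ℝ) x = g x := h3
      rw [hGx]
      have hlen : len s < δ := by
        unfold len
        rw [hl]
        refine lt_of_le_of_lt ?_ hn0
        rw [one_div, inv_pow]
        exact inv_anti₀ (by positivity) (pow_le_pow_right₀ (by norm_num) hn)
      have h5 : intOn p (I s) G = ∫ y in I s, g y ∂mu := by
        rw [intOn_apply]
        exact integral_congr_ae (ae_restrict_of_ae hg3.coeFn_toLp)
      have hgi : Integrable g mu := hg3.integrable Fact.out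
      have h6 : 2 ^ n * intOn p (I s) G - g x = 2 ^ n * ∫ y in I s, (g y - g x) ∂mu := by
        rw [h5, integral_sub hgi.integrableOn (integrable_const _), integral_const, smul_eq_mul,
          measureReal_restrict_apply_univ, mu_I hs]
        have := two_pow_mul_len s
        rw [hl] at this
        linear_combination (g x) * this
      rw [h6, norm_mul, Real.norm_of_nonneg (by positivity : (0 : ℝ) ≤ 2 ^ n)]
      have h7 : ‖∫ y in I s, (g y - g x) ∂mu‖ ≤ ε / 4 * mu.real (I s) := by
        refine norm_setIntegral_le_of_norm_le_const (measure_lt_top _ _) ?_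
        intro y hy
        have hxI := I_subset_Ico hs hx
        have hyI := I_subset_Ico hs hy
        have := huc y ⟨hyI.1, hyI.2.le⟩ x ⟨hxI.1, hxI.2.le⟩
          (lt_of_le_of_lt (dist_le_of_mem_I hy hx) hlen)
        rw [dist_eq_norm] at this
        exact this.le
      rw [mu_I hs] at h7
      calc 2 ^ n * ‖∫ y in I s, (g y - g x) ∂mu‖ ≤ 2 ^ n * (ε / 4 * len s) :=
            mul_le_mul_of_nonneg_left h7 (by positivity)
        _ = ε / 4 * (2 ^ lv s * len s) := by rw [hl]; ring
        _ = ε / 4 := by rw [two_pow_mul_len, mul_one]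
    have h2 := Lp.norm_le_of_ae_bound (by positivity) h1
    rwa [mu_univ_NNReal, Real.one_rpow, one_mul] at h2
  have h1 : ‖En p n (f - G)‖ ≤ ε / 4 := by
    calc ‖En p n (f - G)‖ ≤ ‖En p n‖ * ‖f - G‖ := (En p n).le_opNorm _
      _ ≤ 1 * (ε / 4) := mul_le_mul (norm_En_le p hp n) hfG (norm_nonneg _) zero_le_one
      _ = ε / 4 := one_mul _
  rw [dist_eq_norm]
  have h3 : En p n f - f = En p n (f - G) + (En p n G - G) - (f - G) := by
    rw [map_sub]; abel
  rw [h3]
  calc ‖En p n (f - G) + (En p n G - G) - (f - G)‖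
      ≤ ‖En p n (f - G) + (En p n G - G)‖ + ‖f - G‖ := norm_sub_le _ _
    _ ≤ ‖En p n (f - G)‖ + ‖En p n G - G‖ + ‖f - G‖ := by gcongr; exact norm_add_le _ _
    _ ≤ ε / 4 + ε / 4 + ε / 4 := by gcongr
    _ < ε := by linarith

theorem ind_split {s : ℕ} (hs : 1 ≤ s) : ind p s = ind p (2 * s) + ind p (2 * s + 1) := by
  rw [Lp.ext_iff]
  filter_upwards [ind_ae p s, ind_ae p (2 * s), ind_ae p (2 * s + 1),
    Lp.coeFn_add (ind p (2 * s)) (ind p (2 * s + 1))] with x h1 h2 h3 h4
  rw [h4, Pi.add_apply, h1, h2, h3, I_split hs,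
    Set.indicator_union_of_disjoint (I_disj hs) (fun _ => (1 : ℝ))]

theorem intOn_split {s : ℕ} (hs : 1 ≤ s) (f : E p) :
    intOn p (I s) f = intOn p (I (2 * s)) f + intOn p (I (2 * s + 1)) f := by
  rw [intOn_apply, I_split hs, setIntegral_union (I_disj hs) (measurableSet_I _)
    (integrable_E p f).integrableOn (integrable_E p f).integrableOn]
  rfl

theorem sum_range_two_mul' {M : Type*} [AddCommMonoid M] (g : ℕ → M) (m : ℕ) :
    ∑ j ∈ Finset.range (2 * m), g j = ∑ i ∈ Finset.range m, (g (2 * i) + g (2 * i + 1)) := by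
  induction m with
  | zero => simp
  | succ m ih =>
    rw [show 2 * (m + 1) = 2 * m + 1 + 1 by ring, Finset.sum_range_succ, Finset.sum_range_succ, ih,
      Finset.sum_range_succ, add_assoc]

theorem En_eq (n : ℕ) (f : E p) :
    En p n f = ∑ s ∈ Finset.range (2 ^ n), ((2 : ℝ) ^ lv s * pair p s f) • hv p s := by
  induction n with
  | zero =>
    rw [En_apply]
    simp [pair_zero, hv, lv]
  | succ n ih =>
    have h2 := Nat.one_le_two_pow (n := n)
    have e1 : Finset.range (2 ^ (n + 1)) = Finset.range (2 ^ n + 2 ^ n) := by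
      rw [pow_succ]; congr 1; ring
    rw [e1, Finset.sum_range_add, ← ih, En_apply, En_apply, pow_succ 2 n, mul_comm (2 ^ n) 2,
      sum_range_two_mul', ← Finset.sum_add_distrib]
    refine Finset.sum_congr rfl fun i hi => ?_
    have hi' := Finset.mem_range.1 hi
    have e2 : 2 * 2 ^ n + 2 * i = 2 * (2 ^ n + i) := by ring
    have e3 : 2 * 2 ^ n + (2 * i + 1) = 2 * (2 ^ n + i) + 1 := by ring
    rw [e2, e3, lv_add' hi', pair_pos p (by omega), hv, if_neg (by omega)]
    set s := 2 ^ n + i with hs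
    have hs1 : 1 ≤ s := by omega
    rw [intOn_split p hs1 f, ind_split p hs1, sub_apply, pow_succ]
    set a := intOn p (I (2 * s)) f
    set b := intOn p (I (2 * s + 1)) f
    set u := ind p (2 * s)
    set v := ind p (2 * s + 1)
    module

theorem hfun_eq_zero {r : ℕ} (hr : 1 ≤ r) {x : ℝ} (hx : x ∉ I r) : hfun r x = 0 := by
  have h1 : x ∉ I (2 * r) := fun h => hx (by rw [I_split hr]; exact Or.inl h)
  have h2 : x ∉ I (2 * r + 1) := fun h => hx (by rw [I_split hr]; exact Or.inr h)
  rw [hfun, if_neg (by omega), Set.indicator_of_notMem h1, Set.indicator_of_notMem h2, sub_zero]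

theorem measurable_hfun (s : ℕ) : Measurable (hfun s) := by
  by_cases hs : s = 0
  · subst hs
    have : hfun 0 = fun _ => 1 := by ext x; simp [hfun]
    rw [this]; exact measurable_const
  · have : hfun s = fun x => (I (2 * s)).indicator 1 x - (I (2 * s + 1)).indicator 1 x := by
      ext x; simp [hfun, hs]
    rw [this]
    exact (measurable_one.indicator (measurableSet_I _)).sub
      (measurable_one.indicator (measurableSet_I _))

theorem abs_hfun_le (s : ℕ) (x : ℝ) : |hfun s x| ≤ 1 := by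
  unfold hfun
  split_ifs with hs
  · simp
  · by_cases h1 : x ∈ I (2 * s) <;> by_cases h2 : x ∈ I (2 * s + 1) <;>
      simp [h1, h2]

theorem integrable_hfun (s : ℕ) : Integrable (hfun s) mu :=
  Integrable.of_bound (measurable_hfun s).aestronglyMeasurable 1
    (Eventually.of_forall (abs_hfun_le s))

theorem integral_hfun {r : ℕ} (hr : 1 ≤ r) : ∫ x, hfun r x ∂mu = 0 := by
  have : hfun r = fun x => (I (2 * r)).indicator 1 x - (I (2 * r + 1)).indicator 1 x := by
    ext x; simp [hfun, show r ≠ 0 by omega]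
  rw [this, integral_sub]
  · rw [integral_indicator_one (measurableSet_I _), integral_indicator_one (measurableSet_I _),
      mu_I (by omega), mu_I (by omega)]
    unfold len
    rw [lv_two_mul hr, lv_two_mul_add_one hr, sub_self]
  · exact (integrable_const (1 : ℝ)).indicator (measurableSet_I _)
  · exact (integrable_const (1 : ℝ)).indicator (measurableSet_I _)

theorem hfun_const {s r : ℕ} (hs : 1 ≤ s) (hr : 1 ≤ r) (hne : s ≠ r) (h : lv s ≤ lv r) :
    ∃ c, ∀ x ∈ I r, hfun s x = c := by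
  rcases h.lt_or_eq with h | h
  · exact ⟨_, fun x hx => hfun_eq_hsgn hs hr h hx⟩
  · refine ⟨0, fun x hx => ?_⟩
    exact hfun_eq_zero hs (fun hx' => Set.disjoint_left.1 (I_disjoint_of_lv hs hr h hne) hx' hx)

theorem integral_hfun_mul {s r : ℕ} (hs : 1 ≤ s) (hr : 1 ≤ r) (hne : s ≠ r) (h : lv s ≤ lv r) :
    ∫ x, hfun r x * hfun s x ∂mu = 0 := by
  obtain ⟨c, hc⟩ := hfun_const hs hr hne h
  have : (fun x => hfun r x * hfun s x) = fun x => c * hfun r x := by
    ext x
    by_cases hx : x ∈ I r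
    · rw [hc x hx, mul_comm]
    · rw [hfun_eq_zero hr hx]; simp
  rw [this, integral_const_mul, integral_hfun hr, mul_zero]

theorem pair_hv (s r : ℕ) : pair p s (hv p r) = if s = r then len s else 0 := by
  have e : pair p s (hv p r) = ∫ x, hfun r x * hfun s x ∂mu := by
    rw [pair_apply]
    refine integral_congr_ae ?_
    filter_upwards [hv_ae p r] with x hx
    rw [hx]
  rw [e]
  rcases Nat.eq_zero_or_pos s with rfl | hs
  · have h0 : ∀ x, hfun 0 x = 1 := fun x => by simp [hfun]
    simp only [h0, mul_one]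
    rcases Nat.eq_zero_or_pos r with rfl | hr
    · simp [h0, len, lv]
    · rw [if_neg (by omega)]
      exact integral_hfun hr
  · rcases Nat.eq_zero_or_pos r with rfl | hr
    · have h0 : ∀ x, hfun 0 x = 1 := fun x => by simp [hfun]
      simp only [h0, one_mul]
      rw [if_neg (by omega)]
      exact integral_hfun hs
    · by_cases h : s = r
      · subst h
        rw [if_pos rfl]
        have : (fun x => hfun s x * hfun s x) = (I s).indicator 1 := by
          ext x
          rw [I_split hs]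
          by_cases h1 : x ∈ I (2 * s)
          · have h2 : x ∉ I (2 * s + 1) := Set.disjoint_left.1 (I_disj hs) h1
            simp [hfun, show s ≠ 0 by omega, h1, h2]
          · by_cases h2 : x ∈ I (2 * s + 1)
            · simp [hfun, show s ≠ 0 by omega, h1, h2]
            · simp [hfun, show s ≠ 0 by omega, h1, h2]
        rw [this, integral_indicator_one (measurableSet_I _), mu_I hs]
      · rw [if_neg h]
        rcases le_total (lv s) (lv r) with hl | hl
        · exact integral_hfun_mul hs hr h hl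
        · simp only [mul_comm]
          exact integral_hfun_mul hr hs (Ne.symm h) hl

/-- The Haar coefficients determine the function. -/
theorem eq_zero_of_pair (hp : p ≠ ∞) (f : E p) (h : ∀ s, pair p s f = 0) : f = 0 := by
  have h1 : ∀ n, En p n f = 0 := fun n => by
    rw [En_eq]
    refine Finset.sum_eq_zero fun s _ => ?_
    rw [h s, mul_zero, zero_smul]
  have h2 := tendsto_En p hp f
  simp only [h1] at h2
  exact tendsto_nhds_unique h2 tendsto_const_nhds

/-- The Haar system is total. -/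
theorem ext_hv (hp : p ≠ ∞) {Y : Type*} [NormedAddCommGroup Y] [NormedSpace ℝ Y] (T₁ T₂ : E p →L[ℝ] Y)
    (h : ∀ s, T₁ (hv p s) = T₂ (hv p s)) : T₁ = T₂ := by
  ext f
  have h1 : ∀ n, T₁ (En p n f) = T₂ (En p n f) := fun n => by
    rw [En_eq, map_sum, map_sum]
    refine Finset.sum_congr rfl fun s _ => ?_
    rw [map_smul, map_smul, h]
  have h2 := (T₁.continuous.tendsto f).comp (tendsto_En p hp f)
  have h3 := (T₂.continuous.tendsto f).comp (tendsto_En p hp f)
  refine tendsto_nhds_unique h2 (h3.congr fun n => ?_)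
  exact (h1 n).symm

theorem finite_range_En (n : ℕ) : FiniteDimensional ℝ (LinearMap.range (En p n : E p →ₗ[ℝ] E p)) := by
  classical
  have h : LinearMap.range (En p n : E p →ₗ[ℝ] E p) ≤
      Submodule.span ℝ ((Finset.range (2 ^ n)).image (fun j => ind p (2 ^ n + j)) : Set (E p)) := by
    rintro _ ⟨f, rfl⟩
    show En p n f ∈ _
    rw [En_apply]
    refine Submodule.sum_mem _ fun j hj => Submodule.smul_mem _ _ (Submodule.subset_span ?_)
    rw [Finset.mem_coe]
    exact Finset.mem_image_of_mem _ hj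
  exact Submodule.finiteDimensional_of_le h

theorem norm_hv_le (s : ℕ) : ‖hv p s‖ ≤ 1 := by
  have h1 : ∀ᵐ x ∂mu, ‖hv p s x‖ ≤ 1 := by
    filter_upwards [hv_ae p s] with x hx
    rw [hx]
    exact abs_hfun_le s x
  have h2 := Lp.norm_le_of_ae_bound zero_le_one h1
  rwa [mu_univ_NNReal, Real.one_rpow, one_mul] at h2

theorem abs_pair_le (s : ℕ) (f : E p) : |pair p s f| ≤ ‖f‖ := by
  rw [pair_apply]
  refine le_trans ?_ (integral_abs_le p f)
  refine (abs_integral_le_integral_abs).trans ?_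
  refine integral_mono_of_nonneg (Eventually.of_forall fun x => abs_nonneg _)
    (integrable_E p f).abs (Eventually.of_forall fun x => ?_)
  show |f x * hfun s x| ≤ |f x|
  rw [abs_mul]
  calc |f x| * |hfun s x| ≤ |f x| * 1 := mul_le_mul_of_nonneg_left (abs_hfun_le s x) (abs_nonneg _)
    _ = |f x| := mul_one _

theorem Qn_apply (s : ℕ) (f : E p) : Qn p s f =
    indM p (measurableSet_I s) f - ((2 : ℝ) ^ lv s * intOn p (I s) f) • ind p s := by
  unfold Qn
  simp only [sub_apply, FunLike.coe_smul, Pi.smul_apply, ContinuousLinearMap.smulRight_apply,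
    smul_smul]

/-- The operators `Qn`. -/
theorem norm_Qn_le (s : ℕ) (hs : 1 ≤ s) : ‖Qn p s‖ ≤ 2 := by
  refine ContinuousLinearMap.opNorm_le_bound _ (by norm_num) fun f => ?_
  rw [Qn_apply]
  have h1 := norm_avg_le p hs f
  have h2 := norm_indM_le' p (measurableSet_I s) f
  have h3 := norm_sub_le (indM p (measurableSet_I s) f)
    (((2 : ℝ) ^ lv s * intOn p (I s) f) • ind p s)
  linarith

theorem Qn_const {s r : ℕ} (hs : 1 ≤ s) (c : ℝ) (h : ∀ x ∈ I s, hfun r x = c) :
    Qn p s (hv p r) = 0 := by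
  have h1 : indM p (measurableSet_I s) (hv p r) = c • ind p s := by
    rw [Lp.ext_iff]
    filter_upwards [indM_apply p (measurableSet_I s) (hv p r), hv_ae p r, ind_ae p s,
      Lp.coeFn_smul c (ind p s)] with x h1 h2 h3 h4
    rw [h1, h4, Pi.smul_apply, h3]
    by_cases hx : x ∈ I s
    · rw [Set.indicator_of_mem hx, Set.indicator_of_mem hx, h2, h x hx, smul_eq_mul, mul_one]
    · rw [Set.indicator_of_notMem hx, Set.indicator_of_notMem hx, smul_zero]
  have h2 : intOn p (I s) (hv p r) = c * len s := by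
    rw [intOn_hv, setIntegral_congr_fun (measurableSet_I s) (g := fun _ => c) (fun x hx => h x hx),
      integral_const, measureReal_restrict_apply_univ, mu_I hs, smul_eq_mul, mul_comm]
  rw [Qn_apply, h1, h2]
  have h3 := two_pow_mul_len s
  have h4 : (2 : ℝ) ^ lv s * (c * len s) = c := by linear_combination c * h3
  rw [h4, sub_self]

/-- `Qn s` fixes the Haar functions of the intervals contained in the interval `s` and kills the others. -/
theorem Qn_hv (s : ℕ) (hs : 1 ≤ s) (r : ℕ) :
    (1 ≤ r → Blw s r → Qn p s (hv p r) = hv p r) ∧ ((r = 0 ∨ ¬ Blw s r) → Qn p s (hv p r) = 0) := by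
  constructor
  · intro hr h
    have hsub := I_subset_of_Blw hs h
    have h1 : indM p (measurableSet_I s) (hv p r) = hv p r := by
      rw [Lp.ext_iff]
      filter_upwards [indM_apply p (measurableSet_I s) (hv p r), hv_ae p r] with x h1 h2
      rw [h1]
      by_cases hx : x ∈ I s
      · rw [Set.indicator_of_mem hx]
      · rw [Set.indicator_of_notMem hx, h2, hfun_eq_zero hr (fun hx' => hx (hsub hx'))]
    have h2 : intOn p (I s) (hv p r) = 0 := by
      rw [intOn_hv, setIntegral_eq_integral_of_forall_compl_eq_zero, integral_hfun hr]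
      intro x hx
      exact hfun_eq_zero hr (fun hx' => hx (hsub hx'))
    rw [Qn_apply, h1, h2, mul_zero, zero_smul, sub_zero]
  · intro h
    rcases Nat.eq_zero_or_pos r with rfl | hr
    · exact Qn_const p hs 1 (fun x _ => by simp [hfun])
    · have hb : ¬ Blw s r := by
        rcases h with h | h
        · omega
        · exact h
      rcases le_total (lv s) (lv r) with hl | hl
      · rcases Blw_or_disjoint hs hr hl with h' | h'
        · exact absurd h' hb
        · exact Qn_const p hs 0 (fun x hx => hfun_eq_zero hr (Set.disjoint_left.1 h' hx))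
      · have hne : r ≠ s := by
          rintro rfl
          exact hb ⟨0, by simp⟩
        obtain ⟨c, hc⟩ := hfun_const hr hs hne hl
        exact Qn_const p hs c hc

end Pool.Agent.T2H63.HF
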