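import Pool.Agent.T2H63.HF.Basic

/-!
# HF project: further definitions
-/

open MeasureTheory Filter Topology
open scoped ENNReal

set_option linter.unusedSectionVars false

namespace Pool.Agent.T2H63.HF

/-- The two cases of the question: `true` for `p_k → 1`, `false` for `p_k → ∞`. -/
def Lim (κ : Bool) (p : ℕ → ℝ≥0∞) : Prop :=
  if κ = true then Tendsto p atTop (𝓝 1) else Tendsto p atTop (𝓝 ∞)

/-- Allowed block sizes: every `n` in the case `p_k → 1`, only `n = 1` in the case `p_k → ∞`. -/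
def Good (κ : Bool) (n : ℕ) : Prop := κ = true ∨ n = 1

/-- The unit ball of `ℓ_∞^m(ℓ_1^n)`. -/
def Ball {m n : ℕ} (y : Fin m → Fin n → ℝ) : Prop := ∀ u, ∑ b, |y u b| ≤ 1

/-- `Q` is (the set of the numbers of the intervals of) a finite partition of the interval `s` into
dyadic intervals of level `≥ L`. -/
inductive Part (L : ℕ) : ℕ → Finset ℕ → Prop
  | leaf (s : ℕ) (hs : 1 ≤ s) (hL : L ≤ lv s) : Part L s {s}
  | node (s : ℕ) (P Q : Finset ℕ) (hs : 1 ≤ s) (hP : Part L (2 * s) P) (hQ : Part L (2 * s + 1) Q) :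
      Part L s (P ∪ Q)

/-- `P` arises from `N` by partitioning every interval into dyadic intervals of level `≥ L`. -/
def Refn (L : ℕ) (N P : Finset ℕ) : Prop :=
  ∃ Q : ℕ → Finset ℕ, (∀ J ∈ N, Part L J (Q J)) ∧ P = N.biUnion Q

/-- The interval `b` is contained in the interval `a` (`a, b ≥ 1`). -/
def Blw (a b : ℕ) : Prop := ∃ i, b / 2 ^ i = a

/-- The intervals in `N` are disjoint. -/
def Anti (N : Finset ℕ) : Prop :=
  (∀ J ∈ N, 1 ≤ J) ∧ ∀ J ∈ N, ∀ J' ∈ N, J ≠ J' → ¬ Blw J J'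

open Classical in
/-- The value of the Haar function `a` on the interval `b` (for `b` strictly below `a`, or disjoint). -/
noncomputable def hsgn (a b : ℕ) : ℝ := if Blw (2 * a) b then 1 else if Blw (2 * a + 1) b then -1 else 0

/-- The value of `∑_{a ∈ P} σ_a h_a` on the interval `J`. -/
noncomputable def x0 (P : Finset ℕ) (σ : ℕ → ℝ) (J : ℕ) : ℝ := ∑ a ∈ P, σ a * hsgn a J

/-- A tree of signed sums `X_s = ∑_{J ∈ P s} σ_s(J) h_J`, `s = 0, 1, 2, ...`: `X_0` and `X_1` are `± 1` on the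
interval `s0`; `X_s` is `± 1` on the union `A_s` of the intervals in `N s`, and for `s ≥ 1` the set
`A_{2s}` is `{X_0 X_s = 1}`, and `A_{2s+1}` is `{X_0 X_s = -1}`. -/
structure IsTree (s0 : ℕ) (L : ℕ → ℕ) (P N : ℕ → Finset ℕ) (σ : ℕ → ℕ → ℝ) : Prop where
  one_le : 1 ≤ s0
  N_zero : N 0 = {s0}
  N_one : N 1 = {s0}
  sign : ∀ s J, σ s J = 1 ∨ σ s J = -1
  le_L : ∀ s, s ≤ L s
  refn : ∀ s, Refn (L s) (N s) (P s)
  fine : ∀ s, 1 ≤ s → ∀ a ∈ P 0, lv a < L s
  N_even : ∀ s, 1 ≤ s → N (2 * s) =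
    (P s).image (fun J => if σ s J * x0 (P 0) (σ 0) J = 1 then 2 * J else 2 * J + 1)
  N_odd : ∀ s, 1 ≤ s → N (2 * s + 1) =
    (P s).image (fun J => if σ s J * x0 (P 0) (σ 0) J = 1 then 2 * J + 1 else 2 * J)

/-- The union of the intervals in `N s`. -/
def TA (N : ℕ → Finset ℕ) (s : ℕ) : Set ℝ := ⋃ J ∈ N s, I J

/-- The function `∑_{a ∈ P} σ_a h_a`. -/
noncomputable def TX (P : Finset ℕ) (σ : ℕ → ℝ) (x : ℝ) : ℝ := ∑ a ∈ P, σ a * hfun a x

section one

variable (p : ℝ≥0∞) [Fact (1 ≤ p)]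

/-- The conditional expectation onto the dyadic intervals of level `n`. -/
noncomputable def En (n : ℕ) : E p →L[ℝ] E p :=
  ∑ j ∈ Finset.range (2 ^ n), ((2 : ℝ) ^ n) • (intOn p (I (2 ^ n + j))).smulRight (ind p (2 ^ n + j))

/-- The projection `f ↦ 1_I (f - average of f over I)`, for the interval `I` of number `s`. -/
noncomputable def Qn (s : ℕ) : E p →L[ℝ] E p :=
  indM p (measurableSet_I s) - ((2 : ℝ) ^ lv s) • (intOn p (I s)).smulRight (ind p s)

end one

section many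

variable (p : ℕ → ℝ≥0∞) [∀ k, Fact (1 ≤ p k)]

/-- The operator vanishes on the finitely supported elements. -/
def Sing (S : ZZ p →L[ℝ] ZZ p) : Prop := ∀ k x, S (sg p k x) = 0

end many

end Pool.Agent.T2H63.HF
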