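import Pool.Agent.T2H63.HF.Defs

/-!
# Package EMB (30-40 min): good copies of `ℓ_1^n` in `L^{p_l}`

Case `κ = true`: `x_b = n^{1/p} 1_{[b/n,(b+1)/n)}`, `f_b v = n^{1-1/p} ∫_{[b/n,(b+1)/n)} v`; `‖∑ y_b x_b‖ = (∑ |y_b|^p)^{1/p} ≤ ∑ |y_b|` (or simply
`‖x_b‖ = 1` and the triangle inequality!), `∑_b |f_b v| ≤ n^{1-1/p} ‖v‖_1 ≤ n^{1-1/p} ‖v‖_p ≤ 2 ‖v‖` for `l` large, as `p_l → 1`
(`integral_abs_le`).  Case `κ = false`: `n = 1`, `x = 1`, `f v = ∫ v`, every `l` (the same formulas).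
-/

open MeasureTheory Filter Topology
open scoped ENNReal BoundedContinuousFunction

set_option linter.unusedSectionVars false

namespace Pool.Agent.T2H63.HF

/-- the interval `[b/n, (b+1)/n)` -/
def EMBJ (n b : ℕ) : Set ℝ := Set.Ico ((b : ℝ) / n) (((b : ℝ) + 1) / n)

theorem EMBJ_meas (n b : ℕ) : MeasurableSet (EMBJ n b) := measurableSet_Ico

theorem EMBJ_mu {n b : ℕ} (hb : b < n) : mu.real (EMBJ n b) = 1 / n := by
  have hn : (0 : ℝ) < n := Nat.cast_pos.2 (by omega)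
  have hb' : (b : ℝ) + 1 ≤ n := by exact_mod_cast hb
  have h1 : mu.real (EMBJ n b) = (volume : Measure ℝ).real (EMBJ n b) := by
    unfold mu
    rw [measureReal_restrict_apply (EMBJ_meas n b)]
    congr 1
    refine Set.inter_eq_left.2 fun x hx => ⟨le_trans (by positivity) hx.1, hx.2.trans_le ?_⟩
    rw [div_le_one hn]
    exact hb'
  rw [h1]
  unfold EMBJ
  rw [Real.volume_real_Ico_of_le (by gcongr; linarith)]
  field_simp
  ring

theorem EMBJ_disj {n b c : ℕ} (h : b ≠ c) : Disjoint (EMBJ n b) (EMBJ n c) := by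
  rw [Set.disjoint_left]
  intro x hx hy
  have key : ∀ b c : ℕ, b < c → x ∈ EMBJ n b → x ∈ EMBJ n c → False := by
    intro b c hbc hx hy
    have h1 : ((b : ℝ) + 1) / n ≤ (c : ℝ) / n := by
      gcongr
      exact_mod_cast hbc
    exact absurd (hx.2.trans_le h1) (not_lt.2 hy.1)
  rcases lt_or_gt_of_ne h with h | h
  · exact key b c h hx hy
  · exact key c b h hy hx

theorem EMB_aux (p : ℝ≥0∞) [Fact (1 ≤ p)] (hp : p ≠ ∞) (n : ℕ)
    (h2 : (n : ℝ) ^ (1 - 1 / p.toReal) ≤ 2) :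
      ∃ (x : Fin n → E p) (f : Fin n → E p →L[ℝ] ℝ),
        (∀ y : Fin n → ℝ, ‖∑ b, y b • x b‖ ≤ ∑ b, |y b|) ∧ (∀ v, ∑ b, |f b v| ≤ 2 * ‖v‖) ∧
        ∀ b c, f b (x c) = if b = c then 1 else 0 := by
  have hp1 : (1 : ℝ≥0∞) ≤ p := Fact.out
  have hp0 : p ≠ 0 := (lt_of_lt_of_le one_pos hp1).ne'
  set c₀ : ℝ := (n : ℝ) ^ (1 / p.toReal) with hc
  set d₀ : ℝ := (n : ℝ) ^ (1 - 1 / p.toReal) with hd
  have hc0 : 0 ≤ c₀ := Real.rpow_nonneg (Nat.cast_nonneg n) _
  have hd0 : 0 ≤ d₀ := Real.rpow_nonneg (Nat.cast_nonneg n) _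
  refine ⟨fun b => c₀ • indicatorConstLp p (EMBJ_meas n b) (measure_ne_top mu _) (1 : ℝ),
    fun b => d₀ • intOn p (EMBJ n b), ?_, ?_, ?_⟩
  · intro y
    refine (norm_sum_le _ _).trans (Finset.sum_le_sum fun b _ => ?_)
    have hn : (0 : ℝ) < n := Nat.cast_pos.2 (by have := b.2; omega)
    rw [norm_smul, norm_smul, norm_indicatorConstLp hp0 hp, EMBJ_mu b.2, norm_one, one_mul,
      Real.norm_eq_abs, Real.norm_eq_abs, abs_of_nonneg hc0, one_div (n : ℝ),
      Real.inv_rpow hn.le, ← hc, mul_inv_cancel₀ (Real.rpow_pos_of_pos hn _).ne', mul_one]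
  · intro v
    have h3 : ∀ b : Fin n, |(d₀ • intOn p (EMBJ n b)) v| ≤ d₀ * ∫ x in EMBJ n b, |v x| ∂mu := by
      intro b
      rw [ContinuousLinearMap.smul_apply, intOn_apply, smul_eq_mul, abs_mul, abs_of_nonneg hd0]
      exact mul_le_mul_of_nonneg_left abs_integral_le_integral_abs hd0
    refine (Finset.sum_le_sum fun b _ => h3 b).trans ?_
    rw [← Finset.mul_sum, ← integral_iUnion_fintype (fun b : Fin n => EMBJ_meas n b)
      (fun b c h => EMBJ_disj (fun h' => h (Fin.ext h')))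
      (fun b => (integrable_E p v).abs.integrableOn)]
    have h4 : ∫ x in ⋃ b : Fin n, EMBJ n b, |v x| ∂mu ≤ ∫ x, |v x| ∂mu :=
      setIntegral_le_integral (integrable_E p v).abs (Eventually.of_forall fun _ => abs_nonneg _)
    have h5 := h4.trans (integral_abs_le p v)
    exact (mul_le_mul_of_nonneg_left h5 hd0).trans (mul_le_mul_of_nonneg_right h2 (norm_nonneg _))
  · intro b c
    have hn : (0 : ℝ) < n := Nat.cast_pos.2 (by have := b.2; omega)
    rw [ContinuousLinearMap.smul_apply, map_smul, intOn_apply,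
      setIntegral_indicatorConstLp (EMBJ_meas n b)]
    by_cases h : b = c
    · subst h
      rw [if_pos rfl, Set.inter_self, EMBJ_mu b.2]
      simp only [smul_eq_mul, mul_one]
      rw [hc, hd, mul_comm, mul_right_comm, ← Real.rpow_add hn]
      rw [show 1 / p.toReal + (1 - 1 / p.toReal) = 1 by ring, Real.rpow_one]
      field_simp
    · rw [if_neg h, Set.disjoint_iff_inter_eq_empty.1 (EMBJ_disj (n := n)
        (fun h' => h (Fin.ext h'.symm) : (c : ℕ) ≠ b))]
      simp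

theorem EMB (κ : Bool) (p : ℕ → ℝ≥0∞) [∀ k, Fact (1 ≤ p k)] (hp : ∀ k, p k ≠ ∞) (hκ : Lim κ p)
    (n : ℕ) (hn : Good κ n) : ∃ K, ∀ l, K ≤ l →
      ∃ (x : Fin n → E (p l)) (f : Fin n → E (p l) →L[ℝ] ℝ),
        (∀ y : Fin n → ℝ, ‖∑ b, y b • x b‖ ≤ ∑ b, |y b|) ∧ (∀ v, ∑ b, |f b v| ≤ 2 * ‖v‖) ∧
        ∀ b c, f b (x c) = if b = c then 1 else 0 := by
  have key : ∃ K, ∀ l, K ≤ l → (n : ℝ) ^ (1 - 1 / (p l).toReal) ≤ 2 := by
    by_cases h1 : n = 1
    · refine ⟨0, fun l _ => ?_⟩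
      rw [h1]
      simp
    · have hκt : κ = true := hn.resolve_right h1
      have hlim : Tendsto p atTop (𝓝 1) := by
        have := hκ
        unfold Lim at this
        rwa [if_pos hκt] at this
      have h2 : Tendsto (fun l => (p l).toReal) atTop (𝓝 1) := by
        have := (ENNReal.tendsto_toReal ENNReal.one_ne_top).comp hlim
        rw [ENNReal.toReal_one] at this
        exact this
      have h3 : Tendsto (fun l => 1 - 1 / (p l).toReal) atTop (𝓝 0) := by
        have := (h2.inv₀ one_ne_zero).const_sub 1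
        simpa using this
      rcases Nat.eq_zero_or_pos n with h0 | h0
      · refine ⟨0, fun l _ => ?_⟩
        rw [h0, Nat.cast_zero]
        by_cases h5 : 1 - 1 / (p l).toReal = 0
        · rw [h5]; norm_num
        · rw [Real.zero_rpow h5]; norm_num
      · have hn' : (n : ℝ) ≠ 0 := Nat.cast_ne_zero.2 (by omega)
        have h4 : Tendsto (fun l => (n : ℝ) ^ (1 - 1 / (p l).toReal)) atTop (𝓝 1) := by
          have := (Real.continuousAt_const_rpow (a := (n : ℝ)) (b := 0) hn').tendsto.comp h3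
          rw [Real.rpow_zero] at this
          exact this
        have h5 := (h4.eventually (ge_mem_nhds (show (1 : ℝ) < 2 by norm_num)))
        exact eventually_atTop.1 h5
  obtain ⟨K, hK⟩ := key
  exact ⟨K, fun l hl => EMB_aux (p l) (hp l) n (hK l hl)⟩

end Pool.Agent.T2H63.HF
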