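import Pool.Agent.T2H63.HF.DEN
import Pool.Agent.R275.LIso10

/-!
# Package GL (45-75 min): generalised limits in `L^p[0,1)`, `1 ≤ p < ∞`

A norm one operator `𝓛 : ℓ^∞(ℕ; L^p) → L^p` which extends the norm limit.
Proof: for a nonprincipal ultrafilter `U` on `ℕ` and a bounded sequence `x_i` let `y_n = lim_U En p n x_i` (exists: finite
dimensional space / the finitely many numbers `∫_{I s} x_i` converge along `U`).  `(y_n)` is a martingale for the dyadic filtration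
with `‖y_n‖_p ≤ sup ‖x_i‖`, so that `y_n` converges almost everywhere to `y` with `‖y‖_p ≤ sup ‖x_i‖`.  Here the library
`Pool.Agent.R275.LIso1 .. LIso10` is used: `JJ : L_∞(L_r) → B_{r,∞}` (norm ≤ 1) and the left inverse given
by `exists_isP`, `IsP.unique` (norm ≤ 1), where `B_{r,∞} = lp (fun n => PiLp r (Fin (n+1) → 𝕜)) ∞` is an
`ℓ_∞`-sum of finite dimensional spaces, in which limits along an ultrafilter exist blockwise:
`𝓛 x = b (lim_U (a x_i))` with `a : L_r → L_∞(L_r) → B_{r,∞}` and `b : B_{r,∞} → L_∞(L_r) → L_r` (constants / integral).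
There the measure is `volume.restrict (Icc 0 1)`, which equals `mu` (`Measure.restrict_congr_set Ico_ae_eq_Icc`).
-/

open MeasureTheory Filter Topology
open scoped ENNReal BoundedContinuousFunction

set_option linter.unusedSectionVars false

namespace Pool.Agent.T2H63.HF

namespace GLpkg

open Pool.Agent.R275.LIso

/-- Limits of bounded operators into a proper space along an ultrafilter. -/
theorem exists_ulimV {T Y V : Type*} [NormedAddCommGroup Y] [NormedSpace ℝ Y]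
    [NormedAddCommGroup V] [NormedSpace ℝ V] [ProperSpace V] (U : Ultrafilter T)
    (φ : T → Y →L[ℝ] V) (C : ℝ) (h : ∀ (t : T) (y : Y), ‖φ t y‖ ≤ C * ‖y‖) :
    ∃ ψ : Y →L[ℝ] V, (∀ y, ‖ψ y‖ ≤ C * ‖y‖) ∧ ∀ y, Tendsto (fun t => φ t y) U (𝓝 (ψ y)) := by
  have key : ∀ y, ∃ a ∈ Metric.closedBall (0 : V) (C * ‖y‖), Tendsto (fun t => φ t y) U (𝓝 a) := by
    intro y
    have hc : IsCompact (Metric.closedBall (0 : V) (C * ‖y‖)) := isCompact_closedBall _ _
    have := hc.ultrafilter_le_nhds (U.map fun t => φ t y) (by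
      rw [Ultrafilter.coe_map, le_principal_iff, Filter.mem_map]
      exact Filter.univ_mem' (fun t => mem_closedBall_zero_iff.2 (h t y)))
    exact this
  choose a ha hlim using key
  refine ⟨LinearMap.mkContinuous
    { toFun := a
      map_add' := fun x y => by
        refine tendsto_nhds_unique (hlim (x + y)) ?_
        simpa using (hlim x).add (hlim y)
      map_smul' := fun c x => by
        refine tendsto_nhds_unique (hlim (c • x)) ?_
        simpa using (hlim x).const_smul c } C (fun y => mem_closedBall_zero_iff.1 (ha y)),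
      fun y => mem_closedBall_zero_iff.1 (ha y), hlim⟩

variable {r : ℝ≥0∞} [Fact (1 ≤ r)]

/-- The left inverse of `JJ`, with its norm. -/
theorem exists_Q (hr : r ≠ ∞) : ∃ Q : BB ℝ r →L[ℝ] XX ℝ r, (∀ β, ‖Q β‖ ≤ ‖β‖) ∧
    ∀ F, Q (JJ hr F) = F := by
  choose Q hQ1 hQ2 using exists_isP (𝕜 := ℝ) (r := r) hr
  let QL : BB ℝ r →L[ℝ] XX ℝ r := LinearMap.mkContinuous
    { toFun := Q
      map_add' := fun β β' => by
        refine (hQ2 (β + β')).unique ?_
        obtain ⟨γ, h1, h2⟩ := hQ2 β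
        obtain ⟨γ', h1', h2'⟩ := hQ2 β'
        exact ⟨γ + γ', h1.add h1', h2.add h2'⟩
      map_smul' := fun c β => by
        refine (hQ2 (c • β)).unique ?_
        obtain ⟨γ, h1, h2⟩ := hQ2 β
        exact ⟨c • γ, h1.smul c, h2.smul c⟩ } 1 (fun β => by
      rw [one_mul]
      exact hQ1 β)
  refine ⟨QL, hQ1, fun F => ?_⟩
  exact (hQ2 (JJ hr F)).unique ⟨JJ hr F, isW_JJ hr F, isLim_JJ hr F⟩

/-- The constants. -/
noncomputable def cst (r : ℝ≥0∞) [Fact (1 ≤ r)] : Lp ℝ r μI →L[ℝ] XX ℝ r :=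
  LinearMap.mkContinuous (Lp.constₗ ∞ μI ℝ) 1 (fun a => by
    rw [one_mul]
    refine (Lp.norm_const_le (p := ∞) (μ := μI) (c := a)).trans ?_
    simp)

theorem norm_cst_le (a : Lp ℝ r μI) : ‖cst r a‖ ≤ ‖a‖ := by
  have h := (cst r).le_of_opNorm_le (LinearMap.mkContinuous_norm_le _ zero_le_one _) a
  rwa [one_mul] at h

theorem cst_ae (a : Lp ℝ r μI) : (cst r a : ℝ → Lp ℝ r μI) =ᵐ[μI] fun _ => a :=
  Lp.coeFn_const ∞ μI a

theorem int_cst (a : Lp ℝ r μI) : Pool.Agent.R275.LIso.intOn ℝ Set.univ (cst r a) = a := by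
  rw [Pool.Agent.R275.LIso.intOn_apply, setIntegral_univ, integral_congr_ae (cst_ae a), integral_const,
    probReal_univ, one_smul]

theorem GLimI (hr : r ≠ ∞) : ∃ Lm : (ℕ →ᵇ Lp ℝ r μI) →L[ℝ] Lp ℝ r μI, ‖Lm‖ ≤ 1 ∧
      ∀ (x : ℕ →ᵇ Lp ℝ r μI) (a : Lp ℝ r μI), Tendsto (fun i => x i) atTop (𝓝 a) → Lm x = a := by
  obtain ⟨Q, hQ1, hQ2⟩ := exists_Q hr
  let A : ℕ → (ℕ →ᵇ Lp ℝ r μI) →L[ℝ] BB ℝ r := fun i =>
    ((JJ hr).comp (cst r)).comp (BoundedContinuousFunction.evalCLM ℝ i)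
  have hA : ∀ i x, A i x = JJ hr (cst r (x i)) := fun i x => rfl
  have hA1 : ∀ i x, ‖A i x‖ ≤ ‖x‖ := by
    intro i x
    rw [hA]
    exact (norm_JJ_le hr _).trans ((norm_cst_le _).trans (x.norm_coe_le_norm i))
  have key : ∀ N : ℕ, ∃ ψ : (ℕ →ᵇ Lp ℝ r μI) →L[ℝ] V ℝ r (N + 1), (∀ x, ‖ψ x‖ ≤ 1 * ‖x‖) ∧
      ∀ x, Tendsto (fun i => A i x N) (hyperfilter ℕ) (𝓝 (ψ x)) := by
    intro N
    exact exists_ulimV (hyperfilter ℕ) (fun i => (Pool.Agent.R275.LIso.ev N).comp (A i)) 1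
      (fun i x => by
        rw [one_mul]
        exact (norm_block_le (A i x) N).trans (hA1 i x))
  choose T hT1 hT2 using key
  let L0 : (ℕ →ᵇ Lp ℝ r μI) →L[ℝ] Lp ℝ r μI :=
    ((Pool.Agent.R275.LIso.intOn ℝ Set.univ).comp Q).comp (toB T 1 zero_le_one hT1)
  refine ⟨L0, ContinuousLinearMap.opNorm_le_bound _ zero_le_one fun x => ?_, fun x a hx => ?_⟩
  · rw [one_mul]
    have h1 : ‖toB T 1 zero_le_one hT1 x‖ ≤ ‖x‖ := by
      have h := (toB T 1 zero_le_one hT1).le_of_opNorm_le (LinearMap.mkContinuous_norm_le _ zero_le_one _) x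
      rwa [one_mul] at h
    have h2 : ‖Pool.Agent.R275.LIso.intOn ℝ Set.univ (Q (toB T 1 zero_le_one hT1 x))‖ ≤
        ‖Q (toB T 1 zero_le_one hT1 x)‖ := norm_setIntegral_le _ _
    exact h2.trans ((hQ1 _).trans h1)
  · have h1 : toB T 1 zero_le_one hT1 x = JJ hr (cst r a) := by
      ext N : 2
      rw [toB_apply]
      refine tendsto_nhds_unique (hT2 N x) ?_
      have h2 : Tendsto (fun i => JJ hr (cst r (x i))) atTop (𝓝 (JJ hr (cst r a))) :=
        ((JJ hr).continuous.comp (cst r).continuous).continuousAt.tendsto.comp hx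
      have h3 : Tendsto (fun i => Pool.Agent.R275.LIso.ev N (JJ hr (cst r (x i)))) atTop
          (𝓝 (Pool.Agent.R275.LIso.ev N (JJ hr (cst r a)))) :=
        (Pool.Agent.R275.LIso.ev N).continuous.continuousAt.tendsto.comp h2
      exact h3.mono_left Nat.hyperfilter_le_atTop
    show Pool.Agent.R275.LIso.intOn ℝ Set.univ (Q (toB T 1 zero_le_one hT1 x)) = a
    rw [h1, hQ2, int_cst]

theorem GLimν (ν : Measure ℝ) (hν : ν = μI) (hr : r ≠ ∞) :
    ∃ Lm : (ℕ →ᵇ Lp ℝ r ν) →L[ℝ] Lp ℝ r ν, ‖Lm‖ ≤ 1 ∧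
      ∀ (x : ℕ →ᵇ Lp ℝ r ν) (a : Lp ℝ r ν), Tendsto (fun i => x i) atTop (𝓝 a) → Lm x = a := by
  subst hν
  exact GLimI hr

end GLpkg

theorem GLim (p : ℝ≥0∞) [Fact (1 ≤ p)] (hp : p ≠ ∞) :
    ∃ Lm : (ℕ →ᵇ E p) →L[ℝ] E p, ‖Lm‖ ≤ 1 ∧
      ∀ (x : ℕ →ᵇ E p) (a : E p), Tendsto (fun i => x i) atTop (𝓝 a) → Lm x = a :=
  GLpkg.GLimν mu (Measure.restrict_congr_set Ico_ae_eq_Icc) hp

end Pool.Agent.T2H63.HF
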