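import Pool.Agent.T2H63.HF.FR
import Pool.Agent.T2H63.HF.EMB
import Pool.Agent.T2H63.HF.GL

/-!
# Package FACT (75-90 min): every singular operator factors through a sparse subsum

`V` singular; scale so that `‖V‖ ≤ 1`.  For `i ∈ ℕ` let `P_i z = (En (p k) i z_k if k < i, else 0)_k` (`dg`), `‖P_i‖ ≤ 1`, of finite
rank, `(P_i z)_k → z_k` for every `k` (`tendsto_En`).  Apply FR to `R_i = P_i V`, with values in the finite dimensional space `F_i = range P_i` (a
subspace of `ZZ p`), `ε_i = 1/(i+1)`: `m_i, n_i, q^i, r^i` (`r^i` with values in `F_i ⊆ ZZ p`).  Choose pairwise distinct indices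
`l_{i,u} ∈ G`, `u < m_i`, with `l_{i,u} ≥ K(n_i)` (EMB), and the `x, f` of EMB.
`B z`: coordinate `l_{i,u}` is `∑_b q^i_{u,b}(z) x_b`, all other coordinates are `0`; `‖B‖ ≤ 1`.
For `w ∈ ZZ p` let `s_i(w) = ∑_{u,b} f_b(w_{l_{i,u}}) r^i_{u,b} ∈ ZZ p`, `‖s_i(w)‖ ≤ 4 ‖w‖`, and let `A w` have the coordinates
`(A w)_k = 𝓛_k (i ↦ s_i(w)_k)` (theorem `GLim` for `p k`), `‖A‖ ≤ 4`.
`s_i(B z) = ∑ q^i_{u,b}(z) r^i_{u,b}`, `‖s_i(B z) - P_i V z‖ ≤ ε_i ‖z‖`, hence `s_i(B z)_k → (V z)_k` and `A (B z) = V z`.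
-/

open MeasureTheory Filter Topology
open scoped ENNReal BoundedContinuousFunction

set_option linter.unusedSectionVars false

namespace Pool.Agent.T2H63.HF

namespace FACTaux

/-- FR with values in a finite dimensional subspace. -/
theorem fr' (κ : Bool) (p : ℕ → ℝ≥0∞) [∀ k, Fact (1 ≤ p k)] (hp : ∀ k, p k ≠ ∞) (hκ : Lim κ p)
    (V : ZZ p →L[ℝ] ZZ p) (hV : Sing p V) (hV1 : ∀ z, ‖V z‖ ≤ ‖z‖) (P : ZZ p →L[ℝ] ZZ p)
    (hP : ∀ z, ‖P z‖ ≤ ‖z‖)
    (hfin : FiniteDimensional ℝ (LinearMap.range (P : ZZ p →ₗ[ℝ] ZZ p))) (ε : ℝ) (hε : 0 < ε)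
    (hε1 : ε ≤ 1) :
    ∃ (m n : ℕ), Good κ n ∧ ∃ (q : Fin m → Fin n → ZZ p →L[ℝ] ℝ) (r : Fin m → Fin n → ZZ p),
      (∀ z u, ∑ b, |q u b z| ≤ ‖z‖) ∧
      (∀ (y : Fin m → Fin n → ℝ) (c : ℝ), 0 ≤ c → (∀ u, ∑ b, |y u b| ≤ c) →
        ‖∑ u, ∑ b, y u b • r u b‖ ≤ c * (1 + ε)) ∧
      ∀ z, ‖P (V z) - ∑ u, ∑ b, q u b z • r u b‖ ≤ ε * ‖z‖ := by
  set F := LinearMap.range (P : ZZ p →ₗ[ℝ] ZZ p) with hF
  let R : ZZ p →L[ℝ] F := (P.comp V).codRestrict F (fun z => ⟨V z, rfl⟩)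
  have hR : ∀ z, ((R z : F) : ZZ p) = P (V z) := fun z => rfl
  have hR1 : ‖R‖ ≤ 1 := by
    refine ContinuousLinearMap.opNorm_le_bound _ zero_le_one fun z => ?_
    rw [one_mul]
    show ‖((R z : F) : ZZ p)‖ ≤ ‖z‖
    rw [hR]
    exact (hP _).trans (hV1 z)
  have hR0 : ∀ k x, R (sg p k x) = 0 := by
    intro k x
    apply Subtype.ext
    rw [hR, hV k x, map_zero]
    rfl
  obtain ⟨m, n, hn, q, r, h1, h2, h3⟩ := FR κ p hp hκ F R hR0 hR1 ε hε hε1
  have hco : ∀ y : Fin m → Fin n → ℝ, ((∑ u, ∑ b, y u b • r u b : F) : ZZ p) =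
      ∑ u, ∑ b, y u b • (r u b : ZZ p) := by
    intro y
    simp only [Submodule.coe_sum, Submodule.coe_smul]
  refine ⟨m, n, hn, q, fun u b => (r u b : ZZ p), h1, ?_, ?_⟩
  · intro y c hc hy
    rcases hc.eq_or_lt with hc | hc
    · have hy0 : ∀ u b, y u b = 0 := by
        intro u b
        have h4 := hy u
        rw [← hc] at h4
        have h5 : |y u b| ≤ ∑ b, |y u b| :=
          Finset.single_le_sum (f := fun b => |y u b|) (fun b _ => abs_nonneg _) (Finset.mem_univ b)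
        exact abs_nonpos_iff.1 (h5.trans h4)
      have h6 : ∑ u, ∑ b, y u b • (r u b : ZZ p) = 0 :=
        Finset.sum_eq_zero fun u _ => Finset.sum_eq_zero fun b _ => by rw [hy0, zero_smul]
      rw [h6, norm_zero, ← hc, zero_mul]
    · have hb : Ball (fun u b => c⁻¹ * y u b) := by
        intro u
        simp only [abs_mul]
        rw [← Finset.mul_sum, abs_of_pos (inv_pos.2 hc), inv_mul_le_iff₀ hc, mul_one]
        exact hy u
      have h4 := h2 _ hb
      have h5 : ∑ u, ∑ b, y u b • (r u b : ZZ p) =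
          c • ((∑ u, ∑ b, (c⁻¹ * y u b) • r u b : F) : ZZ p) := by
        rw [hco, Finset.smul_sum]
        refine Finset.sum_congr rfl fun u _ => ?_
        rw [Finset.smul_sum]
        refine Finset.sum_congr rfl fun b _ => ?_
        rw [smul_smul, ← mul_assoc, mul_inv_cancel₀ hc.ne', one_mul]
      rw [h5, norm_smul, Real.norm_eq_abs, abs_of_pos hc]
      exact mul_le_mul_of_nonneg_left h4 hc.le
  · intro z
    have h4 := h3 z
    rw [← hco, ← hR]
    exact h4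

/-- the truncated conditional expectations -/
noncomputable def PP (p : ℕ → ℝ≥0∞) [∀ k, Fact (1 ≤ p k)] (hp : ∀ k, p k ≠ ∞) (i : ℕ) :
    ZZ p →L[ℝ] ZZ p :=
  dg p (fun k => if k < i then En (p k) i else 0) 1 zero_le_one (fun k => by
    split_ifs
    · exact norm_En_le (p k) (hp k) i
    · simp)

variable (p : ℕ → ℝ≥0∞) [∀ k, Fact (1 ≤ p k)] (hp : ∀ k, p k ≠ ∞)

theorem PP_lt {i k : ℕ} (h : k < i) (z : ZZ p) : PP p hp i z k = En (p k) i (z k) := by
  simp [PP, h]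

theorem PP_ge {i k : ℕ} (h : ¬ k < i) (z : ZZ p) : PP p hp i z k = 0 := by
  simp [PP, h]

theorem norm_PP (i : ℕ) (z : ZZ p) : ‖PP p hp i z‖ ≤ ‖z‖ := by
  have h := (PP p hp i).le_opNorm z
  have h1 : ‖PP p hp i‖ ≤ 1 := norm_dg_le p _ 1 zero_le_one _
  calc _ ≤ _ := h
    _ ≤ 1 * ‖z‖ := mul_le_mul_of_nonneg_right h1 (norm_nonneg _)
    _ = ‖z‖ := one_mul _

theorem fin_PP (i : ℕ) : FiniteDimensional ℝ (LinearMap.range (PP p hp i : ZZ p →ₗ[ℝ] ZZ p)) := by
  have hf : ∀ k : Fin i, FiniteDimensional ℝ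
      (Submodule.map (sg p (k : ℕ) : E (p k) →ₗ[ℝ] ZZ p)
        (LinearMap.range (En (p k) i : E (p k) →ₗ[ℝ] E (p k)))) := by
    intro k
    have := finite_range_En (p k) i
    infer_instance
  have h2 : FiniteDimensional ℝ (⨆ k : Fin i, Submodule.map (sg p (k : ℕ) : E (p k) →ₗ[ℝ] ZZ p)
        (LinearMap.range (En (p k) i : E (p k) →ₗ[ℝ] E (p k))) : Submodule ℝ (ZZ p)) := by
    infer_instance
  refine Submodule.finiteDimensional_of_le (S₂ := (⨆ k : Fin i,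
    Submodule.map (sg p (k : ℕ) : E (p k) →ₗ[ℝ] ZZ p)
        (LinearMap.range (En (p k) i : E (p k) →ₗ[ℝ] E (p k))) : Submodule ℝ (ZZ p))) ?_
  rintro _ ⟨z, rfl⟩
  have h3 : (PP p hp i : ZZ p →ₗ[ℝ] ZZ p) z = ∑ k : Fin i, sg p (k : ℕ) (En (p k) i (z k)) := by
    ext l : 2
    have h4 : (∑ k : Fin i, sg p (k : ℕ) (En (p k) i (z k))) l =
        ∑ k : Fin i, (sg p (k : ℕ) (En (p k) i (z k))) l :=
      map_sum (ev p l) (fun k : Fin i => sg p (k : ℕ) (En (p k) i (z k))) Finset.univ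
    rw [h4]
    by_cases hl : l < i
    · rw [Finset.sum_eq_single (⟨l, hl⟩ : Fin i)]
      · rw [sg_self]
        exact PP_lt p hp hl z
      · intro k _ hk
        refine sg_ne p ?_ _
        intro h
        exact hk (Fin.ext h.symm)
      · intro h
        exact absurd (Finset.mem_univ _) h
    · rw [Finset.sum_eq_zero]
      · exact PP_ge p hp hl z
      · intro k _
        refine sg_ne p ?_ _
        intro h
        exact hl (h ▸ k.2)
  rw [h3]
  refine Submodule.sum_mem _ fun k _ => ?_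
  exact Submodule.mem_iSup_of_mem k ⟨_, ⟨z k, rfl⟩, rfl⟩

theorem tendsto_PP (z : ZZ p) (k : ℕ) : Tendsto (fun i => PP p hp i z k) atTop (𝓝 (z k)) := by
  refine (tendsto_En (p k) (hp k) (z k)).congr' ?_
  filter_upwards [eventually_gt_atTop k] with i hi
  exact (PP_lt p hp hi z).symm

include hp in
/-- the normalised case -/
theorem fact1 (κ : Bool) (hκ : Lim κ p) (V : ZZ p →L[ℝ] ZZ p) (hV : Sing p V)
    (hV1 : ∀ z, ‖V z‖ ≤ ‖z‖) (G : Set ℕ) (hG : G.Infinite) :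
    ∃ A B : ZZ p →L[ℝ] ZZ p, (∀ z k, k ∉ G → B z k = 0) ∧ ∀ z, A (B z) = V z := by
  classical
  have hε : ∀ i : ℕ, 0 < 1 / ((i : ℝ) + 1) := fun i => by positivity
  have hε1 : ∀ i : ℕ, 1 / ((i : ℝ) + 1) ≤ 1 := fun i => by
    rw [div_le_one (by positivity)]
    have : (0 : ℝ) ≤ i := Nat.cast_nonneg i
    linarith
  choose m n hn q r h1 h2 h3 using fun i : ℕ => fr' κ p hp hκ V hV hV1 (PP p hp i)
    (norm_PP p hp i) (fin_PP p hp i) (1 / ((i : ℝ) + 1)) (hε i) (hε1 i)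
  choose K hK using fun i : ℕ => EMB κ p hp hκ (n i) (hn i)
  -- the indices
  obtain ⟨enc, henc⟩ := Countable.exists_injective_nat (Σ i, Fin (m i))
  obtain ⟨φ, hφ, hφ2⟩ := Filter.extraction_forall_of_frequently
    (P := fun j k => k ∈ G ∧ ∀ s : Σ i, Fin (m i), enc s = j → K s.1 ≤ k) (by
      intro j
      refine (Nat.frequently_atTop_iff_infinite.2 hG).and_eventually ?_
      by_cases hj : ∃ s, enc s = j
      · obtain ⟨s, hs⟩ := hj
        filter_upwards [eventually_ge_atTop (K s.1)] with k hk t ht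
        have : t = s := henc (ht.trans hs.symm)
        rw [this]
        exact hk
      · exact Eventually.of_forall fun k t ht => absurd ⟨t, ht⟩ hj)
  set e : (Σ i, Fin (m i)) → ℕ := fun s => φ (enc s) with he
  have he_inj : Function.Injective e := fun s t h => henc (hφ.injective h)
  have heG : ∀ s, e s ∈ G := fun s => (hφ2 (enc s)).1
  have heK : ∀ s, K s.1 ≤ e s := fun s => (hφ2 (enc s)).2 s rfl
  have hemb : ∀ (k : ℕ) (s : Σ i, Fin (m i)), e s = k →
      ∃ (x : Fin (n s.1) → E (p k)) (f : Fin (n s.1) → E (p k) →L[ℝ] ℝ),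
        (∀ y : Fin (n s.1) → ℝ, ‖∑ b, y b • x b‖ ≤ ∑ b, |y b|) ∧ (∀ v, ∑ b, |f b v| ≤ 2 * ‖v‖) ∧
        ∀ b c, f b (x c) = if b = c then 1 else 0 := by
    intro k s hs
    exact hK s.1 k (hs ▸ heK s)
  choose x f hx hf hfx using hemb
  -- the operator `B`
  let Bk : ∀ k, ZZ p →L[ℝ] E (p k) := fun k =>
    if h : ∃ s, e s = k then
      ∑ b, (q h.choose.1 h.choose.2 b).smulRight (x k h.choose h.choose_spec b) else 0
  have hBk : ∀ (k : ℕ) (s : Σ i, Fin (m i)) (hs : e s = k) (z : ZZ p),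
      Bk k z = ∑ b, q s.1 s.2 b z • x k s hs b := by
    intro k s hs z
    have hex : ∃ s, e s = k := ⟨s, hs⟩
    have e1 : Bk k = ∑ b, (q hex.choose.1 hex.choose.2 b).smulRight
        (x k hex.choose hex.choose_spec b) := dif_pos hex
    have key : ∀ (t : Σ i, Fin (m i)) (ht : e t = k), t = s →
        (∑ b, (q t.1 t.2 b).smulRight (x k t ht b) : ZZ p →L[ℝ] E (p k)) =
          ∑ b, (q s.1 s.2 b).smulRight (x k s hs b) := by
      rintro t ht rfl
      rfl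
    rw [e1, key hex.choose hex.choose_spec (he_inj (hex.choose_spec.trans hs.symm))]
    simp
  have hBk0 : ∀ (k : ℕ), (¬ ∃ s, e s = k) → Bk k = 0 := fun k hk => dif_neg hk
  have hBn : ∀ k z, ‖Bk k z‖ ≤ 1 * ‖z‖ := by
    intro k z
    rw [one_mul]
    by_cases hk : ∃ s, e s = k
    · obtain ⟨s, hs⟩ := hk
      rw [hBk k s hs z]
      exact (hx k s hs _).trans (h1 s.1 z s.2)
    · rw [hBk0 k hk]
      simp
  let B : ZZ p →L[ℝ] ZZ p := toZ p Bk 1 zero_le_one hBn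
  have hB : ∀ z k, B z k = Bk k z := fun z k => rfl
  -- the operators `S i`
  let S : ℕ → ZZ p →L[ℝ] ZZ p := fun i =>
    ∑ u, ∑ b, ((f (e ⟨i, u⟩) ⟨i, u⟩ rfl b).comp (ev p (e ⟨i, u⟩))).smulRight (r i u b)
  have hSa : ∀ i w, S i w = ∑ u, ∑ b, (f (e ⟨i, u⟩) ⟨i, u⟩ rfl b (w (e ⟨i, u⟩))) • r i u b := by
    intro i w
    simp only [S]
    simp
  have hSn : ∀ i w, ‖S i w‖ ≤ 4 * ‖w‖ := by
    intro i w
    rw [hSa]
    refine (h2 i _ (2 * ‖w‖) (by positivity) fun u => ?_).trans ?_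
    · refine (hf (e ⟨i, u⟩) ⟨i, u⟩ rfl (w (e ⟨i, u⟩))).trans ?_
      exact mul_le_mul_of_nonneg_left (norm_coord_le p w _) zero_le_two
    · have := hε1 i
      have h0 := norm_nonneg w
      nlinarith
  -- the operator `A`
  choose Lm hLm1 hLm2 using fun k : ℕ => GLim (p k) (hp k)
  let T : ∀ k, ZZ p →L[ℝ] (ℕ →ᵇ E (p k)) := fun k => LinearMap.mkContinuous
    { toFun := fun w => BoundedContinuousFunction.ofNormedAddCommGroupDiscrete
        (fun i => S i w k) (4 * ‖w‖) (fun i => (norm_coord_le p _ k).trans (hSn i w))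
      map_add' := fun w w' => by
        ext i : 1
        change S i (w + w') k = S i w k + S i w' k
        rw [map_add]
        rfl
      map_smul' := fun c w => by
        ext i : 1
        change S i (c • w) k = c • S i w k
        rw [map_smul]
        rfl } 4 (fun w => by
      refine (BoundedContinuousFunction.norm_le (by positivity)).2 fun i => ?_
      exact (norm_coord_le p _ k).trans (hSn i w))
  have hT : ∀ k w i, T k w i = S i w k := fun k w i => rfl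
  have hTn : ∀ k w, ‖T k w‖ ≤ 4 * ‖w‖ := by
    intro k w
    refine (BoundedContinuousFunction.norm_le (by positivity)).2 fun i => ?_
    exact (norm_coord_le p _ k).trans (hSn i w)
  have hAn : ∀ k w, ‖((Lm k).comp (T k)) w‖ ≤ 4 * ‖w‖ := by
    intro k w
    calc ‖Lm k (T k w)‖ ≤ ‖Lm k‖ * ‖T k w‖ := (Lm k).le_opNorm _
      _ ≤ 1 * (4 * ‖w‖) := mul_le_mul (hLm1 k) (hTn k w) (norm_nonneg _) zero_le_one
      _ = _ := one_mul _
  let A : ZZ p →L[ℝ] ZZ p := toZ p (fun k => (Lm k).comp (T k)) 4 (by norm_num) hAn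
  refine ⟨A, B, ?_, ?_⟩
  · intro z k hk
    rw [hB, hBk0 k (by rintro ⟨s, rfl⟩; exact hk (heG s))]
    rfl
  · intro z
    have hSB : ∀ i, S i (B z) = ∑ u, ∑ b, q i u b z • r i u b := by
      intro i
      rw [hSa]
      refine Finset.sum_congr rfl fun u _ => Finset.sum_congr rfl fun b _ => ?_
      congr 1
      rw [hB, hBk (e ⟨i, u⟩) ⟨i, u⟩ rfl z, map_sum]
      rw [Finset.sum_eq_single b]
      · rw [map_smul, hfx, if_pos rfl, smul_eq_mul, mul_one]
      · intro c _ hc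
        rw [map_smul, hfx, if_neg (Ne.symm hc), smul_zero]
      · intro h
        exact absurd (Finset.mem_univ _) h
    ext k : 2
    change Lm k (T k (B z)) = V z k
    refine hLm2 k _ _ ?_
    have h4 : Tendsto (fun i => S i (B z) k - PP p hp i (V z) k) atTop (𝓝 0) := by
      rw [tendsto_zero_iff_norm_tendsto_zero]
      refine squeeze_zero (fun i => norm_nonneg _) (g := fun i : ℕ => 1 / ((i : ℝ) + 1) * ‖z‖) ?_ ?_
      · intro i
        have h5 := h3 i z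
        rw [← hSB, ← norm_neg, neg_sub] at h5
        exact (norm_coord_le p (S i (B z) - PP p hp i (V z)) k).trans h5
      · have := (tendsto_one_div_add_atTop_nhds_zero_nat (𝕜 := ℝ)).mul_const ‖z‖
        rwa [zero_mul] at this
    have h5 := h4.add (tendsto_PP p hp (V z) k)
    rw [zero_add] at h5
    refine h5.congr fun i => ?_
    rw [hT]
    exact sub_add_cancel _ _

end FACTaux

theorem FACT (κ : Bool) (p : ℕ → ℝ≥0∞) [∀ k, Fact (1 ≤ p k)] (hp : ∀ k, p k ≠ ∞) (hκ : Lim κ p)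
    (V : ZZ p →L[ℝ] ZZ p) (hV : Sing p V) (G : Set ℕ) (hG : G.Infinite) :
    ∃ A B : ZZ p →L[ℝ] ZZ p, (∀ z k, k ∉ G → B z k = 0) ∧ ∀ z, A (B z) = V z := by
  have hc : 0 < ‖V‖ + 1 := by positivity
  obtain ⟨A, B, h1, h2⟩ := FACTaux.fact1 p hp κ hκ ((‖V‖ + 1)⁻¹ • V)
    (fun k x => by
      rw [_root_.smul_apply, hV k x, smul_zero])
    (fun z => by
      rw [_root_.smul_apply, norm_smul, Real.norm_eq_abs, abs_of_pos (inv_pos.2 hc),
        inv_mul_le_iff₀ hc]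
      have := V.le_opNorm z
      nlinarith [norm_nonneg z]) G hG
  refine ⟨(‖V‖ + 1) • A, B, h1, fun z => ?_⟩
  rw [_root_.smul_apply, h2, _root_.smul_apply, smul_smul,
    mul_inv_cancel₀ hc.ne', one_smul]

end Pool.Agent.T2H63.HF
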