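import Pool.Agent.T2H63.HF.Defs

/-!
# Package FD (60-80 min): operators from `ℓ_∞^{m'}(ℓ_1^{n'})` to a finite dimensional space factor boundedly

`F` finite dimensional.  There is `C_F` with `∑_u ‖v_u‖ ≤ C_F` whenever `‖∑ ± v_u‖ ≤ 1` for all signs (coordinates).  Let `𝒩` be a finite
`ε'`-net of the unit ball of `F`, `ε' = ε / (C_F + 1)`.  Given `ρ`, let `m_u = max_b ‖ρ_{u,b}‖`; `∑_u m_u ≤ C_F` (choose `b(u)` with the
maximal norm; the signed sums of the `ρ_{u,b(u)}` have norm `≤ 1`).  If `m_u > 0` choose `c(u,b) ∈ 𝒩` with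
`‖ρ_{u,b} - m_u c(u,b)‖ ≤ ε' m_u` and let the type of `u` be the finite set `τ(u) = {c(u,b) : b} ⊆ 𝒩`.  `m` = number of subsets of
`𝒩`; for a type `τ` let `m_τ = ∑_{τ(u) = τ} m_u`.
Case `κ = true`: `n = |𝒩|`; `w_{u,b,τ,c} = m_u / m_τ` if `τ(u) = τ`, `c(u,b) = c` (and `m_u > 0`), else `0`; `r_{τ,c} = m_τ c` if `c ∈ τ`, else `0`.
Case `κ = false`: `n' = 1`, so every type is a singleton `{c}`: `n = 1`, `r_{τ,0} = m_τ c` (`m` = `|𝒩|` types suffice).
(i) `∑_c |∑_{u,b} y_{u,b} w_{u,b,τ,c}| ≤ ∑_{τ(u) = τ} (m_u/m_τ) ∑_b |y_{u,b}| ≤ 1`.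
(ii) for `u` of type `τ ∋ c` choose `b(u,c)` with `c(u,b(u,c)) = c`; then `∑_{τ,c} y_{τ,c} r_{τ,c} = ∑_u ∑_{c ∈ τ(u)} y_{τ(u),c} m_u c` differs by
at most `∑_u m_u ε' ≤ ε` from `∑_u ∑_{c ∈ τ(u)} y_{τ(u),c} ρ_{u,b(u,c)} = ∑ y'ρ` with `y' ∈ Ball`, of norm `≤ 1`.
(iii) the difference is `∑ y_{u,b} (ρ_{u,b} - m_u c(u,b))`, of norm `≤ ∑_u m_u ε' ≤ ε`.
-/

open MeasureTheory Filter Topology
open scoped ENNReal BoundedContinuousFunction

set_option linter.unusedSectionVars false

namespace Pool.Agent.T2H63.HF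

namespace FDaux

variable {F : Type*} [NormedAddCommGroup F] [NormedSpace ℝ F]

theorem abs_fd {m' n' m n : ℕ} (hn' : 0 < n') (ρ : Fin m' → Fin n' → F) (M : Fin m' → ℝ)
    (hM : ∀ u, 0 ≤ M u) (τ : Fin m' → Fin m) (c : Fin m' → Fin n' → Fin n)
    (S : Fin m → Finset (Fin n)) (v : Fin m → Fin n → F) (hc : ∀ u b, c u b ∈ S (τ u))
    (hs : ∀ u, ∀ x ∈ S (τ u), ∃ b, c u b = x) (ε ε' : ℝ) (hε' : 0 ≤ ε')
    (h : ∀ u b, ‖ρ u b - M u • v (τ u) (c u b)‖ ≤ ε' * M u) (hsum : ∑ u, ε' * M u ≤ ε)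
    (hρ : ∀ y, Ball y → ‖∑ u, ∑ b, y u b • ρ u b‖ ≤ 1) :
      ∃ (w : Fin m' → Fin n' → Fin m → Fin n → ℝ) (r : Fin m → Fin n → F),
        (∀ y, Ball y → Ball (fun τ c => ∑ u, ∑ b, y u b * w u b τ c)) ∧
        (∀ y, Ball y → ‖∑ τ, ∑ c, y τ c • r τ c‖ ≤ 1 + ε) ∧
        ∀ y, Ball y → ‖∑ u, ∑ b, y u b • ρ u b -
          ∑ τ, ∑ c, (∑ u, ∑ b, y u b * w u b τ c) • r τ c‖ ≤ ε := by
  classical
  have : Nonempty (Fin n') := ⟨⟨0, hn'⟩⟩
  set MT : Fin m → ℝ := fun t => ∑ u, if τ u = t then M u else 0 with hMT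
  have hMT0 : ∀ t, 0 ≤ MT t := fun t => Finset.sum_nonneg fun u _ => by
    split_ifs
    · exact hM u
    · exact le_rfl
  have hle : ∀ u, M u ≤ MT (τ u) := by
    intro u
    have h1 : (if τ u = τ u then M u else 0) ≤ MT (τ u) :=
      Finset.single_le_sum (f := fun u' => if τ u' = τ u then M u' else 0)
        (fun u' _ => by
          split_ifs
          · exact hM u'
          · exact le_rfl) (Finset.mem_univ u)
    simpa using h1
  have hA : ∀ u, M u / MT (τ u) * MT (τ u) = M u := by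
    intro u
    by_cases h0 : MT (τ u) = 0
    · have : M u = 0 := le_antisymm (h0 ▸ hle u) (hM u)
      rw [this]; simp
    · field_simp
  set w : Fin m' → Fin n' → Fin m → Fin n → ℝ :=
    fun u b t x => if τ u = t then (if c u b = x then M u / MT t else 0) else 0 with hw
  set r : Fin m → Fin n → F := fun t x => if x ∈ S t then MT t • v t x else 0 with hr
  have hw0 : ∀ u b t x, 0 ≤ w u b t x := by
    intro u b t x
    simp only [hw]
    split_ifs
    · exact div_nonneg (hM u) (hMT0 t)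
    · exact le_rfl
    · exact le_rfl
  refine ⟨w, r, ?_, ?_, ?_⟩
  · intro y hy t
    have hwx : ∀ u b, ∑ x, w u b t x = if τ u = t then M u / MT t else 0 := by
      intro u b
      simp only [hw]
      split_ifs with h1
      · simp
      · simp
    calc ∑ x, |∑ u, ∑ b, y u b * w u b t x|
        ≤ ∑ x, ∑ u, ∑ b, |y u b| * w u b t x := by
          refine Finset.sum_le_sum fun x _ => ?_
          refine (Finset.abs_sum_le_sum_abs _ _).trans (Finset.sum_le_sum fun u _ => ?_)
          refine (Finset.abs_sum_le_sum_abs _ _).trans (Finset.sum_le_sum fun b _ => ?_)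
          rw [abs_mul, abs_of_nonneg (hw0 u b t x)]
      _ = ∑ u, (if τ u = t then M u / MT t else 0) * ∑ b, |y u b| := by
          rw [Finset.sum_comm]
          refine Finset.sum_congr rfl fun u _ => ?_
          rw [Finset.sum_comm, Finset.mul_sum]
          refine Finset.sum_congr rfl fun b _ => ?_
          rw [← Finset.mul_sum, hwx]; ring
      _ ≤ ∑ u, (if τ u = t then M u / MT t else 0) * 1 := by
          refine Finset.sum_le_sum fun u _ => ?_
          refine mul_le_mul_of_nonneg_left (hy u) ?_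
          split_ifs
          · exact div_nonneg (hM u) (hMT0 t)
          · exact le_rfl
      _ = MT t / MT t := by
          rw [hMT]
          simp only [mul_one]
          rw [Finset.sum_div]
          refine Finset.sum_congr rfl fun u _ => ?_
          split_ifs <;> simp
      _ ≤ 1 := div_self_le_one _
  · intro y hy
    choose! bb hbb using hs
    set y' : Fin m' → Fin n' → ℝ := fun u b => ∑ x, if x ∈ S (τ u) then
      (if bb u x = b then y (τ u) x else 0) else 0 with hy'
    have hball : Ball y' := by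
      intro u
      calc ∑ b, |y' u b| ≤ ∑ b, ∑ x, if bb u x = b then |y (τ u) x| else 0 := by
            refine Finset.sum_le_sum fun b _ => ?_
            refine (Finset.abs_sum_le_sum_abs _ _).trans (Finset.sum_le_sum fun x _ => ?_)
            split_ifs <;> simp
        _ = ∑ x, |y (τ u) x| := by
            rw [Finset.sum_comm]
            refine Finset.sum_congr rfl fun x _ => ?_
            simp
        _ ≤ 1 := hy (τ u)
    have e1 : ∑ u, ∑ b, y' u b • ρ u b =
        ∑ u, ∑ x, if x ∈ S (τ u) then y (τ u) x • ρ u (bb u x) else 0 := by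
      refine Finset.sum_congr rfl fun u _ => ?_
      simp only [hy', Finset.sum_smul]
      rw [Finset.sum_comm]
      refine Finset.sum_congr rfl fun x _ => ?_
      by_cases hx : x ∈ S (τ u)
      · simp only [hx, if_true]
        rw [Finset.sum_eq_single (bb u x)]
        · simp
        · intro b _ hb
          rw [if_neg (Ne.symm hb), zero_smul]
        · intro h; exact absurd (Finset.mem_univ _) h
      · simp [hx]
    have e2 : ∑ t, ∑ x, y t x • r t x =
        ∑ u, ∑ x, if x ∈ S (τ u) then (y (τ u) x * M u) • v (τ u) x else 0 := by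
      have e3 : ∀ t x, y t x • r t x = ∑ u, if τ u = t then
          (if x ∈ S t then (y t x * M u) • v t x else 0) else 0 := by
        intro t x
        simp only [hr, hMT]
        by_cases hx : x ∈ S t
        · simp only [hx, if_true, Finset.sum_smul, Finset.smul_sum]
          refine Finset.sum_congr rfl fun u _ => ?_
          split_ifs
          · rw [mul_smul]
          · simp
        · simp [hx]
      simp only [e3]
      rw [show (∑ t, ∑ x, ∑ u, if τ u = t then
          (if x ∈ S t then (y t x * M u) • v t x else 0) else 0) =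
          ∑ u, ∑ x, ∑ t, if τ u = t then
          (if x ∈ S t then (y t x * M u) • v t x else 0) else 0 from by
        rw [Finset.sum_comm]
        rw [show (∑ x, ∑ t, ∑ u, if τ u = t then
          (if x ∈ S t then (y t x * M u) • v t x else 0) else 0) =
          ∑ x, ∑ u, ∑ t, if τ u = t then
          (if x ∈ S t then (y t x * M u) • v t x else 0) else 0 from
          Finset.sum_congr rfl fun x _ => Finset.sum_comm]
        rw [Finset.sum_comm]]
      refine Finset.sum_congr rfl fun u _ => Finset.sum_congr rfl fun x _ => ?_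
      simp
    have e4 : ‖∑ t, ∑ x, y t x • r t x - ∑ u, ∑ b, y' u b • ρ u b‖ ≤ ε := by
      rw [e1, e2, ← Finset.sum_sub_distrib]
      refine (norm_sum_le _ _).trans (le_trans (Finset.sum_le_sum fun u _ => ?_) hsum)
      rw [← Finset.sum_sub_distrib]
      calc ‖∑ x, ((if x ∈ S (τ u) then (y (τ u) x * M u) • v (τ u) x else 0) -
            if x ∈ S (τ u) then y (τ u) x • ρ u (bb u x) else 0)‖
          ≤ ∑ x, |y (τ u) x| * (ε' * M u) := by
            refine (norm_sum_le _ _).trans (Finset.sum_le_sum fun x _ => ?_)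
            split_ifs with hx
            · have h1 := h u (bb u x)
              rw [hbb u x hx] at h1
              rw [mul_smul, ← smul_sub, norm_smul, Real.norm_eq_abs, norm_sub_rev]
              exact mul_le_mul_of_nonneg_left h1 (abs_nonneg _)
            · rw [sub_zero, norm_zero]
              have := hM u
              positivity
        _ = (∑ x, |y (τ u) x|) * (ε' * M u) := by rw [Finset.sum_mul]
        _ ≤ 1 * (ε' * M u) := by
            refine mul_le_mul_of_nonneg_right (hy (τ u)) ?_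
            have := hM u
            positivity
        _ = ε' * M u := one_mul _
    have e5 := hρ y' hball
    calc ‖∑ t, ∑ x, y t x • r t x‖
        = ‖(∑ u, ∑ b, y' u b • ρ u b) + (∑ t, ∑ x, y t x • r t x - ∑ u, ∑ b, y' u b • ρ u b)‖ := by
          congr 1; abel
      _ ≤ _ := norm_add_le _ _
      _ ≤ 1 + ε := add_le_add e5 e4
  · intro y hy
    have e1 : ∑ t, ∑ x, (∑ u, ∑ b, y u b * w u b t x) • r t x =
        ∑ u, ∑ b, (y u b * M u) • v (τ u) (c u b) := by
      have e2 : ∀ u b, ∑ t, ∑ x, (y u b * w u b t x) • r t x =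
          (y u b * M u) • v (τ u) (c u b) := by
        intro u b
        rw [Finset.sum_eq_single (τ u)]
        · rw [Finset.sum_eq_single (c u b)]
          · simp only [hw, hr, if_true, hc u b]
            rw [smul_smul, mul_assoc, hA]
          · intro x _ hx
            simp only [hw, if_true]
            rw [if_neg (Ne.symm hx), mul_zero, zero_smul]
          · intro h; exact absurd (Finset.mem_univ _) h
        · intro t _ ht
          refine Finset.sum_eq_zero fun x _ => ?_
          simp only [hw]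
          rw [if_neg (Ne.symm ht), mul_zero, zero_smul]
        · intro h; exact absurd (Finset.mem_univ _) h
      calc ∑ t, ∑ x, (∑ u, ∑ b, y u b * w u b t x) • r t x
          = ∑ t, ∑ x, ∑ u, ∑ b, (y u b * w u b t x) • r t x := by
            simp only [Finset.sum_smul]
        _ = ∑ t, ∑ u, ∑ b, ∑ x, (y u b * w u b t x) • r t x := by
            refine Finset.sum_congr rfl fun t _ => ?_
            rw [Finset.sum_comm]
            exact Finset.sum_congr rfl fun u _ => Finset.sum_comm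
        _ = ∑ u, ∑ b, ∑ t, ∑ x, (y u b * w u b t x) • r t x := by
            rw [Finset.sum_comm]
            exact Finset.sum_congr rfl fun u _ => Finset.sum_comm
        _ = _ := by simp only [e2]
    rw [e1, ← Finset.sum_sub_distrib]
    refine (norm_sum_le _ _).trans (le_trans (Finset.sum_le_sum fun u _ => ?_) hsum)
    rw [← Finset.sum_sub_distrib]
    calc ‖∑ b, (y u b • ρ u b - (y u b * M u) • v (τ u) (c u b))‖
        ≤ ∑ b, |y u b| * (ε' * M u) := by
          refine (norm_sum_le _ _).trans (Finset.sum_le_sum fun b _ => ?_)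
          rw [mul_smul, ← smul_sub, norm_smul, Real.norm_eq_abs]
          exact mul_le_mul_of_nonneg_left (h u b) (abs_nonneg _)
      _ = (∑ b, |y u b|) * (ε' * M u) := by rw [Finset.sum_mul]
      _ ≤ 1 * (ε' * M u) := by
          refine mul_le_mul_of_nonneg_right (hy u) ?_
          have := hM u
          positivity
      _ = ε' * M u := one_mul _

/-- unconditional sums in finite dimensional spaces are absolutely bounded -/
theorem exists_CF [FiniteDimensional ℝ F] : ∃ C : ℝ, 0 ≤ C ∧ ∀ (m : ℕ) (v : Fin m → F),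
    (∀ s : Fin m → ℝ, (∀ u, |s u| ≤ 1) → ‖∑ u, s u • v u‖ ≤ 1) → ∑ u, ‖v u‖ ≤ C := by
  classical
  set B := Module.finBasis ℝ F
  set φ : Fin (Module.finrank ℝ F) → (F →L[ℝ] ℝ) := fun i => LinearMap.toContinuousLinearMap (B.coord i)
    with hφ
  refine ⟨∑ i, ‖φ i‖ * ‖B i‖, Finset.sum_nonneg fun i _ => by positivity, fun m v hv => ?_⟩
  have h1 : ∀ i, ∑ u, |φ i (v u)| ≤ ‖φ i‖ := by
    intro i
    have h2 := hv (fun u => SignType.sign (φ i (v u))) (fun u => by
      rcases lt_trichotomy (φ i (v u)) 0 with h | h | h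
      · simp [sign_neg h]
      · simp [h]
      · simp [sign_pos h])
    calc ∑ u, |φ i (v u)| = φ i (∑ u, ((SignType.sign (φ i (v u)) : SignType) : ℝ) • v u) := by
          rw [map_sum]
          refine Finset.sum_congr rfl fun u _ => ?_
          rw [map_smul, smul_eq_mul, sign_mul_self]
      _ ≤ ‖φ i (∑ u, ((SignType.sign (φ i (v u)) : SignType) : ℝ) • v u)‖ := Real.le_norm_self _
      _ ≤ ‖φ i‖ * ‖∑ u, ((SignType.sign (φ i (v u)) : SignType) : ℝ) • v u‖ := (φ i).le_opNorm _
      _ ≤ ‖φ i‖ * 1 := by gcongr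
      _ = ‖φ i‖ := mul_one _
  calc ∑ u, ‖v u‖ ≤ ∑ u, ∑ i, |φ i (v u)| * ‖B i‖ := by
        refine Finset.sum_le_sum fun u _ => ?_
        conv_lhs => rw [← B.sum_repr (v u)]
        refine (norm_sum_le _ _).trans (Finset.sum_le_sum fun i _ => ?_)
        rw [norm_smul, Real.norm_eq_abs]
        simp [hφ]
    _ = ∑ i, (∑ u, |φ i (v u)|) * ‖B i‖ := by
        rw [Finset.sum_comm]
        exact Finset.sum_congr rfl fun i _ => by rw [Finset.sum_mul]
    _ ≤ ∑ i, ‖φ i‖ * ‖B i‖ := by
        refine Finset.sum_le_sum fun i _ => ?_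
        exact mul_le_mul_of_nonneg_right (h1 i) (norm_nonneg _)

/-- finite nets of the unit ball -/
theorem exists_net [FiniteDimensional ℝ F] (ε : ℝ) (hε : 0 < ε) :
    ∃ (k : ℕ) (v : Fin k → F), ∀ x : F, ‖x‖ ≤ 1 → ∃ i, ‖x - v i‖ ≤ ε := by
  classical
  have : ProperSpace F := FiniteDimensional.proper ℝ F
  obtain ⟨t, _, ht, hcov⟩ := (isCompact_closedBall (0 : F) 1).finite_cover_balls hε
  set T : Finset F := ht.toFinset
  refine ⟨T.card, fun i => (T.equivFin.symm i : F), fun x hx => ?_⟩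
  have hx' : x ∈ ⋃ y ∈ t, Metric.ball y ε := hcov (by simpa using hx)
  simp only [Set.mem_iUnion] at hx'
  obtain ⟨y, hy, hxy⟩ := hx'
  refine ⟨T.equivFin ⟨y, ht.mem_toFinset.2 hy⟩, ?_⟩
  simp only [Equiv.symm_apply_apply]
  rw [← dist_eq_norm]
  exact (Metric.mem_ball.1 hxy).le

end FDaux

open FDaux in
theorem FD (κ : Bool) (F : Type*) [NormedAddCommGroup F] [NormedSpace ℝ F] [FiniteDimensional ℝ F]
    (ε : ℝ) (hε : 0 < ε) : ∃ m n : ℕ, Good κ n ∧ ∀ m' n' : ℕ, Good κ n' → ∀ ρ : Fin m' → Fin n' → F,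
      (∀ y, Ball y → ‖∑ u, ∑ b, y u b • ρ u b‖ ≤ 1) →
      ∃ (w : Fin m' → Fin n' → Fin m → Fin n → ℝ) (r : Fin m → Fin n → F),
        (∀ y, Ball y → Ball (fun τ c => ∑ u, ∑ b, y u b * w u b τ c)) ∧
        (∀ y, Ball y → ‖∑ τ, ∑ c, y τ c • r τ c‖ ≤ 1 + ε) ∧
        ∀ y, Ball y → ‖∑ u, ∑ b, y u b • ρ u b -
          ∑ τ, ∑ c, (∑ u, ∑ b, y u b * w u b τ c) • r τ c‖ ≤ ε := by
  classical
  obtain ⟨C, hC0, hC⟩ := exists_CF (F := F)
  set ε' : ℝ := ε / (C + 1) with hε'
  have hε'0 : 0 < ε' := by positivity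
  obtain ⟨k, v, hv⟩ := exists_net (F := F) ε' hε'0
  -- the common part
  have common : ∀ (m' n' : ℕ), 0 < n' → ∀ ρ : Fin m' → Fin n' → F,
      (∀ y, Ball y → ‖∑ u, ∑ b, y u b • ρ u b‖ ≤ 1) →
      ∃ (M : Fin m' → ℝ) (c : Fin m' → Fin n' → Fin k), (∀ u, 0 ≤ M u) ∧
        (∀ u b, ‖ρ u b - M u • v (c u b)‖ ≤ ε' * M u) ∧ ∑ u, ε' * M u ≤ ε := by
    intro m' n' hn' ρ hρ
    have : Nonempty (Fin n') := ⟨⟨0, hn'⟩⟩
    have hmax : ∀ u, ∃ b0, ∀ b, ‖ρ u b‖ ≤ ‖ρ u b0‖ := fun u =>
      Finite.exists_max fun b => ‖ρ u b‖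
    choose b0 hb0 using hmax
    have hsumM : ∑ u, ‖ρ u (b0 u)‖ ≤ C := by
      refine hC m' (fun u => ρ u (b0 u)) fun s hs => ?_
      have hy : Ball (fun u b => if b = b0 u then s u else 0) := by
        intro u
        rw [Finset.sum_eq_single (b0 u)]
        · simpa using hs u
        · intro b _ hb; simp [hb]
        · intro h; exact absurd (Finset.mem_univ _) h
      have h1 := hρ _ hy
      have h2 : ∑ u, ∑ b, (if b = b0 u then s u else 0) • ρ u b = ∑ u, s u • ρ u (b0 u) := by
        refine Finset.sum_congr rfl fun u _ => ?_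
        rw [Finset.sum_eq_single (b0 u)]
        · simp
        · intro b _ hb; simp [hb]
        · intro h; exact absurd (Finset.mem_univ _) h
      rwa [h2] at h1
    have hex : ∀ u b, ∃ i, ‖ρ u b - ‖ρ u (b0 u)‖ • v i‖ ≤ ε' * ‖ρ u (b0 u)‖ := by
      intro u b
      rcases eq_or_lt_of_le (norm_nonneg (ρ u (b0 u))) with h0 | h0
      · obtain ⟨i, _⟩ := hv 0 (by simp)
        refine ⟨i, ?_⟩
        have h1 : ρ u b = 0 := by
          rw [← norm_le_zero_iff]
          exact (hb0 u b).trans h0.symm.le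
        rw [← h0, h1]; simp
      · obtain ⟨i, hi⟩ := hv (‖ρ u (b0 u)‖⁻¹ • ρ u b) (by
          rw [norm_smul, norm_inv, norm_norm, inv_mul_le_iff₀ h0, mul_one]
          exact hb0 u b)
        refine ⟨i, ?_⟩
        have h1 : ρ u b - ‖ρ u (b0 u)‖ • v i =
            ‖ρ u (b0 u)‖ • (‖ρ u (b0 u)‖⁻¹ • ρ u b - v i) := by
          rw [smul_sub, smul_smul, mul_inv_cancel₀ h0.ne', one_smul]
        rw [h1, norm_smul, norm_norm, mul_comm]
        exact mul_le_mul_of_nonneg_right hi h0.le
    choose c hcc using hex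
    refine ⟨fun u => ‖ρ u (b0 u)‖, c, fun u => norm_nonneg _, hcc, ?_⟩
    rw [← Finset.mul_sum]
    calc ε' * ∑ u, ‖ρ u (b0 u)‖ ≤ ε' * C := by gcongr
      _ ≤ ε' * (C + 1) := by gcongr; linarith
      _ = ε := by rw [hε']; field_simp
  -- the trivial case
  have triv : ∀ (m n m' n' : ℕ), ¬ 0 < n' → ∀ ρ : Fin m' → Fin n' → F,
      ∃ (w : Fin m' → Fin n' → Fin m → Fin n → ℝ) (r : Fin m → Fin n → F),
        (∀ y, Ball y → Ball (fun τ c => ∑ u, ∑ b, y u b * w u b τ c)) ∧
        (∀ y, Ball y → ‖∑ τ, ∑ c, y τ c • r τ c‖ ≤ 1 + ε) ∧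
        ∀ y, Ball y → ‖∑ u, ∑ b, y u b • ρ u b -
          ∑ τ, ∑ c, (∑ u, ∑ b, y u b * w u b τ c) • r τ c‖ ≤ ε := by
    intro m n m' n' hn' ρ
    have h0 : n' = 0 := by omega
    subst h0
    refine ⟨fun _ _ _ _ => 0, fun _ _ => 0, ?_, ?_, ?_⟩
    · intro y _ t
      simp
    · intro y _
      simp; linarith
    · intro y _
      simp; linarith
  cases κ with
  | true =>
    set e := Fintype.equivFin (Finset (Fin k)) with he
    refine ⟨Fintype.card (Finset (Fin k)), k, Or.inl rfl, fun m' n' _ ρ hρ => ?_⟩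
    by_cases hn' : 0 < n'
    · obtain ⟨M, c, hM, hc, hsum⟩ := common m' n' hn' ρ hρ
      refine abs_fd hn' ρ M hM (fun u => e (Finset.univ.image (c u))) c (fun t => e.symm t)
        (fun _ x => v x) ?_ ?_ ε ε' hε'0.le hc hsum hρ
      · intro u b
        simp
      · intro u x hx
        simpa using hx
    · exact triv _ _ _ _ hn' ρ
  | false =>
    refine ⟨k, 1, Or.inr rfl, fun m' n' hn1 ρ hρ => ?_⟩
    have hn1' : n' = 1 := by
      rcases hn1 with h | h
      · exact absurd h (by simp)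
      · exact h
    subst hn1'
    obtain ⟨M, c, hM, hc, hsum⟩ := common m' 1 one_pos ρ hρ
    refine abs_fd one_pos ρ M hM (fun u => c u 0) (fun _ _ => 0) (fun _ => Finset.univ)
      (fun t _ => v t) ?_ ?_ ε ε' hε'0.le ?_ hsum hρ
    · intro u b; simp
    · intro u x _
      exact ⟨0, Subsingleton.elim _ _⟩
    · intro u b
      have : b = 0 := Subsingleton.elim _ _
      subst this
      exact hc u 0

end Pool.Agent.T2H63.HF
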