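import Pool.Agent.T2H63.HF.Defs

/-!
# Package GAM (45-60 min): singular functionals vanish on a sparse subsum

Let `φ` be a functional on `ZZ p` which vanishes on all `sg k x`, and `(G_α)` an uncountable family of infinite subsets of `ℕ`
with finite pairwise intersections (for `α : ℕ → Bool` take the codes of the finite initial segments of `α`).
For `c > 0` there are at most `‖φ‖ / c` indices `α` with `φ z > c` for some `z` with support in `G_α`, `‖z‖ ≤ 1`: for
finitely many such `α` delete from `z_α` the coordinates `k < K` (does not change `φ z_α`), so that the supports become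
disjoint; then `‖∑ z_α‖ ≤ 1`, hence `∑ φ z_α ≤ ‖φ‖`.  So for every `φ_n` only countably many `α` have some `z` with support in
`G_α` and `φ_n z ≠ 0`; choose `α` outside of all these sets.
-/

open MeasureTheory Filter Topology
open scoped ENNReal BoundedContinuousFunction

set_option linter.unusedSectionVars false

namespace Pool.Agent.T2H63.HF

namespace GAMaux

/-- the code of the initial segment of length `m` -/
def code (α : ℕ → Bool) (m : ℕ) : ℕ := Encodable.encode (List.ofFn fun i : Fin m => α i)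

theorem code_eq {α β : ℕ → Bool} {m m' : ℕ} (h : code α m = code β m') :
    m = m' ∧ ∀ i < m, α i = β i := by
  have h1 : (List.ofFn fun i : Fin m => α i) = (List.ofFn fun i : Fin m' => β i) :=
    Encodable.encode_injective h
  have h2 : m = m' := by
    have := congrArg List.length h1
    simpa using this
  subst h2
  refine ⟨rfl, fun i hi => ?_⟩
  have h3 := List.ofFn_injective h1
  exact congrFun h3 ⟨i, hi⟩

/-- the almost disjoint family -/
def GG (α : ℕ → Bool) : Set ℕ := Set.range (code α)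

theorem GG_infinite (α : ℕ → Bool) : (GG α).Infinite :=
  Set.infinite_range_of_injective fun _ _ h => (code_eq h).1

theorem GG_inter {α β : ℕ → Bool} (h : α ≠ β) : (GG α ∩ GG β).Finite := by
  obtain ⟨i, hi⟩ := Function.ne_iff.1 h
  refine ((Set.finite_Iic i).image (code α)).subset ?_
  rintro k ⟨⟨m, rfl⟩, ⟨m', hm'⟩⟩
  refine ⟨m, ?_, rfl⟩
  by_contra hm
  exact hi ((code_eq hm'.symm).2 i (not_le.1 hm))

theorem exists_K (s : Finset (ℕ → Bool)) : ∃ K : ℕ, ∀ α ∈ s, ∀ β ∈ s, α ≠ β →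
    ∀ k, k ∈ GG α → k ∈ GG β → k < K := by
  classical
  have hfin : (⋃ α ∈ s, ⋃ β ∈ s, ⋃ (_ : α ≠ β), (GG α ∩ GG β)).Finite := by
    refine Set.Finite.biUnion s.finite_toSet fun α _ => Set.Finite.biUnion s.finite_toSet fun β _ => ?_
    exact Set.finite_iUnion fun h => GG_inter h
  obtain ⟨K, hK⟩ := hfin.bddAbove
  refine ⟨K + 1, fun α hα β hβ hne k h1 h2 => Nat.lt_succ_of_le (hK ?_)⟩
  simp only [Set.mem_iUnion]
  exact ⟨α, hα, β, hβ, hne, h1, h2⟩

variable (p : ℕ → ℝ≥0∞) [∀ k, Fact (1 ≤ p k)]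

theorem coe_sum {ι : Type*} (s : Finset ι) (f : ι → ZZ p) (k : ℕ) :
    (∑ i ∈ s, f i) k = ∑ i ∈ s, f i k := by
  exact map_sum (ev p k) f s

theorem fin_supp (φ : ZZ p →L[ℝ] ℝ) (hφ : ∀ k x, φ (sg p k x) = 0) (K : ℕ) (z : ZZ p)
    (hz : ∀ k, K ≤ k → z k = 0) : φ z = 0 := by
  have h1 : z = ∑ k ∈ Finset.range K, sg p k (z k) := by
    ext l : 2
    rw [coe_sum]
    by_cases hl : l < K
    · rw [Finset.sum_eq_single l]
      · rw [sg_self]
      · intro b _ hb
        exact sg_ne p (Ne.symm hb) _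
      · intro h; exact absurd (Finset.mem_range.2 hl) h
    · rw [hz l (not_lt.1 hl)]
      symm
      refine Finset.sum_eq_zero fun b hb => ?_
      refine sg_ne p ?_ _
      intro h; subst h; exact hl (Finset.mem_range.1 hb)
  rw [h1, map_sum]
  exact Finset.sum_eq_zero fun k _ => hφ k _

/-- the bad indices -/
def Bad (φ : ZZ p →L[ℝ] ℝ) (j : ℕ) : Set (ℕ → Bool) :=
  {α | ∃ z : ZZ p, (∀ k, k ∉ GG α → z k = 0) ∧ ‖z‖ ≤ 1 ∧ 1 / ((j : ℝ) + 1) < φ z}

theorem card_le (φ : ZZ p →L[ℝ] ℝ) (hφ : ∀ k x, φ (sg p k x) = 0) (j : ℕ)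
    (s : Finset (ℕ → Bool)) (hs : (s : Set (ℕ → Bool)) ⊆ Bad p φ j) :
    (s.card : ℝ) * (1 / ((j : ℝ) + 1)) ≤ ‖φ‖ := by
  classical
  obtain ⟨K, hK⟩ := exists_K s
  have hch : ∀ α : ℕ → Bool, ∃ z : ZZ p, α ∈ s → (∀ k, k ∉ GG α → z k = 0) ∧ ‖z‖ ≤ 1 ∧
      1 / ((j : ℝ) + 1) < φ z := by
    intro α
    by_cases hα : α ∈ s
    · obtain ⟨z, hz⟩ := hs hα
      exact ⟨z, fun _ => hz⟩
    · exact ⟨0, fun h => absurd h hα⟩
  choose z hz using hch
  set w : (ℕ → Bool) → ZZ p := fun α => PG p (GG α ∩ Set.Ici K) (z α) with hw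
  have hφw : ∀ α ∈ s, φ (w α) = φ (z α) := by
    intro α hα
    have h1 : φ (z α - w α) = 0 := by
      refine fin_supp p φ hφ K _ fun k hk => ?_
      have e1 : (z α - w α) k = z α k - w α k := rfl
      rw [e1]
      by_cases hkG : k ∈ GG α
      · rw [hw]
        simp only
        rw [PG_mem p (z α) (show k ∈ GG α ∩ Set.Ici K from ⟨hkG, hk⟩), sub_self]
      · rw [hw]
        simp only
        rw [PG_not_mem p (z α) (show k ∉ GG α ∩ Set.Ici K from fun h => hkG h.1),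
          (hz α hα).1 k hkG, sub_self]
    rw [map_sub, sub_eq_zero] at h1
    exact h1.symm
  have hnorm : ‖∑ α ∈ s, w α‖ ≤ 1 := by
    refine norm_le_of p _ zero_le_one fun k => ?_
    rw [coe_sum]
    by_cases hex : ∃ α ∈ s, k ∈ GG α ∩ Set.Ici K
    · obtain ⟨α, hα, hk⟩ := hex
      rw [Finset.sum_eq_single α]
      · rw [hw]
        simp only
        rw [PG_mem p (z α) hk]
        exact (norm_coord_le p (z α) k).trans (hz α hα).2.1
      · intro β hβ hne
        rw [hw]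
        simp only
        refine PG_not_mem p (z β) fun h => ?_
        exact absurd (hK β hβ α hα hne k h.1 hk.1) (not_lt.2 hk.2)
      · intro h; exact absurd hα h
    · push Not at hex
      rw [Finset.sum_eq_zero]
      · simp
      · intro α hα
        rw [hw]
        simp only
        exact PG_not_mem p (z α) (hex α hα)
  calc (s.card : ℝ) * (1 / ((j : ℝ) + 1)) = ∑ _α ∈ s, (1 / ((j : ℝ) + 1)) := by
        rw [Finset.sum_const, nsmul_eq_mul]
    _ ≤ ∑ α ∈ s, φ (z α) := Finset.sum_le_sum fun α hα => (hz α hα).2.2.le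
    _ = ∑ α ∈ s, φ (w α) := Finset.sum_congr rfl fun α hα => (hφw α hα).symm
    _ = φ (∑ α ∈ s, w α) := (map_sum φ w s).symm
    _ ≤ ‖φ (∑ α ∈ s, w α)‖ := Real.le_norm_self _
    _ ≤ ‖φ‖ * ‖∑ α ∈ s, w α‖ := φ.le_opNorm _
    _ ≤ ‖φ‖ * 1 := by gcongr
    _ = ‖φ‖ := mul_one _

theorem bad_finite (φ : ZZ p →L[ℝ] ℝ) (hφ : ∀ k x, φ (sg p k x) = 0) (j : ℕ) :
    (Bad p φ j).Finite := by
  by_contra hinf
  obtain ⟨N, hN⟩ := exists_nat_gt (‖φ‖ * ((j : ℝ) + 1))
  obtain ⟨s, hs, hcard⟩ := Set.Infinite.exists_subset_card_eq hinf N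
  have h := card_le p φ hφ j s hs
  rw [hcard, mul_one_div, div_le_iff₀ (by positivity)] at h
  linarith

end GAMaux

open GAMaux in
theorem GAM (p : ℕ → ℝ≥0∞) [∀ k, Fact (1 ≤ p k)] (φ : ℕ → (ZZ p →L[ℝ] ℝ))
    (hφ : ∀ n k x, φ n (sg p k x) = 0) :
    ∃ G : Set ℕ, G.Infinite ∧ ∀ n (z : ZZ p), (∀ k, k ∉ G → z k = 0) → φ n z = 0 := by
  have hcount : (⋃ n, ⋃ j, Bad p (φ n) j).Countable :=
    Set.countable_iUnion fun n => Set.countable_iUnion fun j =>
      (bad_finite p (φ n) (hφ n) j).countable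
  have hne : (⋃ n, ⋃ j, Bad p (φ n) j) ≠ Set.univ := by
    intro h
    rw [h, Set.countable_univ_iff] at hcount
    have h1 : Cardinal.mk (ℕ → Bool) ≤ Cardinal.aleph0 := Cardinal.mk_le_aleph0_iff.2 hcount
    rw [← Cardinal.power_def, Cardinal.mk_bool, Cardinal.mk_nat] at h1
    exact absurd h1 (not_le.2 (Cardinal.cantor _))
  obtain ⟨α, hα⟩ := (Set.ne_univ_iff_exists_notMem _).1 hne
  refine ⟨GG α, GG_infinite α, ?_⟩
  have key : ∀ n (z : ZZ p), (∀ k, k ∉ GG α → z k = 0) → ¬ 0 < φ n z := by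
    intro n z hz hpos
    have hz0 : 0 < ‖z‖ := by
      rw [norm_pos_iff]
      rintro rfl
      simp at hpos
    have h1 : 0 < φ n (‖z‖⁻¹ • z) := by
      rw [map_smul, smul_eq_mul]
      positivity
    obtain ⟨j, hj⟩ := exists_nat_one_div_lt h1
    refine hα ?_
    simp only [Set.mem_iUnion]
    refine ⟨n, j, ‖z‖⁻¹ • z, ?_, ?_, hj⟩
    · intro k hk
      have e1 : (‖z‖⁻¹ • z : ZZ p) k = ‖z‖⁻¹ • z k := rfl
      rw [e1, hz k hk, smul_zero]
    · rw [norm_smul, norm_inv, norm_norm, inv_mul_cancel₀ hz0.ne']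
  intro n z hz
  have h1 := key n z hz
  have h2 := key n (-z) (fun k hk => by
    have e1 : (-z : ZZ p) k = - z k := rfl
    rw [e1, hz k hk, neg_zero])
  rw [map_neg] at h2
  linarith

end Pool.Agent.T2H63.HF
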