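import Pool.Agent.T2H63.HF.TE1

/-!
# Package SPL: `L^p ≅ L^p ⊕ L^p`

Direct proof by composition with `x ↦ 2x` on `[0,1/2)` and `x ↦ 2x - 1` on `[1/2,1)`.
-/

open MeasureTheory Filter Topology
open scoped ENNReal BoundedContinuousFunction

set_option linter.unusedSectionVars false

namespace Pool.Agent.T2H63.HF

namespace SPL

/-- A linear operator from `MemLp`-preserving maps of functions. -/
theorem mkOp (p : ℝ≥0∞) [Fact (1 ≤ p)] (Φ : (ℝ → ℝ) → (ℝ → ℝ))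
    (hm : ∀ f, AEStronglyMeasurable f mu → AEStronglyMeasurable (Φ f) mu)
    (hn : ∀ f, AEStronglyMeasurable f mu → eLpNorm (Φ f) p mu ≤ eLpNorm f p mu)
    (hc : ∀ f g : ℝ → ℝ, f =ᵐ[mu] g → Φ f =ᵐ[mu] Φ g)
    (ha : ∀ f g : ℝ → ℝ, Φ (f + g) = Φ f + Φ g)
    (hs : ∀ (c : ℝ) (f : ℝ → ℝ), Φ (c • f) = c • Φ f) :
    ∃ j : E p →L[ℝ] E p, ‖j‖ ≤ 1 ∧ ∀ f : E p, (j f : ℝ → ℝ) =ᵐ[mu] Φ f := by
  have hL : ∀ f : E p, MemLp (Φ f) p mu := fun f =>
    ⟨hm _ (Lp.aestronglyMeasurable f), (hn _ (Lp.aestronglyMeasurable f)).trans_lt (Lp.eLpNorm_lt_top f)⟩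
  let L : E p →ₗ[ℝ] E p :=
    { toFun := fun f => (hL f).toLp
      map_add' := fun f g => by
        apply Lp.ext
        refine (MemLp.coeFn_toLp _).trans ?_
        refine (hc _ _ (Lp.coeFn_add f g)).trans ?_
        rw [ha]
        refine EventuallyEq.trans ?_ (Lp.coeFn_add _ _).symm
        exact ((MemLp.coeFn_toLp (hL f)).symm.add (MemLp.coeFn_toLp (hL g)).symm)
      map_smul' := fun c f => by
        apply Lp.ext
        refine (MemLp.coeFn_toLp _).trans ?_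
        refine (hc _ _ (Lp.coeFn_smul c f)).trans ?_
        rw [hs]
        refine EventuallyEq.trans ?_ (Lp.coeFn_smul _ _).symm
        exact ((MemLp.coeFn_toLp (hL f)).symm.const_smul c) }
  have hb : ∀ f, ‖L f‖ ≤ 1 * ‖f‖ := by
    intro f
    rw [one_mul]
    show ‖(hL f).toLp‖ ≤ ‖f‖
    rw [Lp.norm_toLp, Lp.norm_def]
    exact ENNReal.toReal_mono (Lp.eLpNorm_ne_top f) (hn _ (Lp.aestronglyMeasurable f))
  refine ⟨L.mkContinuous 1 hb, LinearMap.mkContinuous_norm_le _ zero_le_one _, fun f => ?_⟩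
  exact MemLp.coeFn_toLp (hL f)

variable (p : ℝ≥0∞) [Fact (1 ≤ p)] (hp : p ≠ ∞)

include hp in
/-- The two operators of a set `A` of measure `1/2` and maps `T : A → [0,1)`, `S : [0,1) → A`. -/
theorem ops (A : Set ℝ) (hA : MeasurableSet A) (T S : ℝ → ℝ) (hT : Measurable T) (hS : Measurable S)
    (h1 : Measure.map T (mu.restrict A) = (2⁻¹ : ℝ≥0∞) • mu)
    (h2 : Measure.map S mu = (2 : ℝ≥0∞) • mu.restrict A) :
    ∃ j j' : E p →L[ℝ] E p, ‖j‖ ≤ 1 ∧ ‖j'‖ ≤ 1 ∧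
      (∀ f : E p, (j f : ℝ → ℝ) =ᵐ[mu] fun x => A.indicator (fun x => (2 : ℝ) ^ (1 / p.toReal) * f (T x)) x) ∧
      (∀ f : E p, (j' f : ℝ → ℝ) =ᵐ[mu] fun x => (2 : ℝ) ^ (-(1 / p.toReal)) * f (S x)) := by
  have hp0 : p ≠ 0 := (zero_lt_one.trans_le (Fact.out : 1 ≤ p)).ne'
  have hTq : MeasurePreserving T (mu.restrict A) ((2⁻¹ : ℝ≥0∞) • mu) := ⟨hT, h1⟩
  have hSq : MeasurePreserving S mu ((2 : ℝ≥0∞) • mu.restrict A) := ⟨hS, h2⟩
  have ac1 : ((2⁻¹ : ℝ≥0∞) • mu) ≪ mu := Measure.smul_absolutelyContinuous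
  have ac2 : ((2 : ℝ≥0∞) • mu.restrict A) ≪ mu :=
    Measure.smul_absolutelyContinuous.trans Measure.restrict_le_self.absolutelyContinuous
  obtain ⟨j, hj, hj'⟩ := mkOp p (fun f x => A.indicator (fun x => (2 : ℝ) ^ (1 / p.toReal) * f (T x)) x)
    (fun f hf => by
      have : AEStronglyMeasurable (fun x => (2 : ℝ) ^ (1 / p.toReal) * f (T x)) (mu.restrict A) :=
        ((hf.mono_ac ac1).comp_measurePreserving hTq).const_mul _
      exact (aestronglyMeasurable_indicator_iff hA).2 this)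
    (fun f hf => by
      have e1 : eLpNorm (fun x => A.indicator (fun x => (2 : ℝ) ^ (1 / p.toReal) * f (T x)) x) p mu =
          eLpNorm ((2 : ℝ) ^ (1 / p.toReal) • (f ∘ T)) p (mu.restrict A) :=
        eLpNorm_indicator_eq_eLpNorm_restrict hA
      rw [e1, eLpNorm_const_smul, eLpNorm_comp_measurePreserving (hf.mono_ac ac1) hTq,
        eLpNorm_smul_measure_of_ne_top hp, smul_eq_mul, ← mul_assoc]
      have e2 : ‖(2 : ℝ) ^ (1 / p.toReal)‖ₑ = (2 : ℝ≥0∞) ^ (1 / p.toReal) := by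
        rw [Real.enorm_of_nonneg (by positivity), ← ENNReal.ofReal_rpow_of_pos (by norm_num)]
        simp
      have e0 : (1 / p).toReal = p.toReal⁻¹ := by simp
      rw [e2, e0, one_div, ← ENNReal.mul_rpow_of_nonneg _ _ (by positivity), ENNReal.mul_inv_cancel (by norm_num) (by norm_num),
        ENNReal.one_rpow, one_mul])
    (fun f g h => by
      have := hTq.quasiMeasurePreserving.ae_eq_comp (ac1.ae_eq h)
      have h3 : (fun x => (2 : ℝ) ^ (1 / p.toReal) * f (T x)) =ᵐ[mu.restrict A]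
          (fun x => (2 : ℝ) ^ (1 / p.toReal) * g (T x)) := by
        filter_upwards [this] with x hx
        simp only [Function.comp_apply] at hx
        rw [hx]
      exact (ae_eq_restrict_iff_indicator_ae_eq hA).1 h3)
    (fun f g => by
      funext x
      by_cases hx : x ∈ A <;> simp [hx, mul_add])
    (fun c f => by
      funext x
      by_cases hx : x ∈ A <;> simp [hx]; ring)
  obtain ⟨k, hk, hk'⟩ := mkOp p (fun f x => (2 : ℝ) ^ (-(1 / p.toReal)) * f (S x))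
    (fun f hf => ((hf.mono_ac ac2).comp_measurePreserving hSq).const_mul _)
    (fun f hf => by
      have e1 : eLpNorm (fun x => (2 : ℝ) ^ (-(1 / p.toReal)) * f (S x)) p mu =
          eLpNorm ((2 : ℝ) ^ (-(1 / p.toReal)) • (f ∘ S)) p mu := rfl
      rw [e1, eLpNorm_const_smul, eLpNorm_comp_measurePreserving (hf.mono_ac ac2) hSq,
        eLpNorm_smul_measure_of_ne_top hp, smul_eq_mul, ← mul_assoc]
      have e2 : ‖(2 : ℝ) ^ (-(1 / p.toReal))‖ₑ = (2 : ℝ≥0∞) ^ (-(1 / p.toReal)) := by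
        rw [Real.enorm_of_nonneg (by positivity), ← ENNReal.ofReal_rpow_of_pos (by norm_num)]
        simp
      have e0 : (1 / p).toReal = p.toReal⁻¹ := by simp
      rw [e2, e0, one_div, ← ENNReal.rpow_add _ _ (by norm_num) (by norm_num), neg_add_cancel,
        ENNReal.rpow_zero, one_mul]
      exact eLpNorm_restrict_le _ _ _ _)
    (fun f g h => by
      have := hSq.quasiMeasurePreserving.ae_eq_comp (ac2.ae_eq h)
      filter_upwards [this] with x hx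
      simp only [Function.comp_apply] at hx
      rw [hx])
    (fun f g => by
      funext x
      simp [mul_add])
    (fun c f => by
      funext x
      simp; ring)
  exact ⟨j, k, hj, hk, hj', hk'⟩

theorem vol_pre1 (a : ℝ) (B : Set ℝ) : volume ((fun x : ℝ => 2 * x - a) ⁻¹' B) = 2⁻¹ * volume B := by
  have e : (fun x : ℝ => 2 * x - a) ⁻¹' B = (fun x : ℝ => 2 * x) ⁻¹' ((fun x : ℝ => x + (-a)) ⁻¹' B) := by
    ext x; simp [sub_eq_add_neg]
  rw [e, Real.volume_preimage_mul_left (by norm_num), measure_preimage_add_right]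
  congr 1
  rw [abs_of_pos (by norm_num), ENNReal.ofReal_inv_of_pos (by norm_num)]
  simp

theorem vol_pre2 (a : ℝ) (B : Set ℝ) : volume ((fun x : ℝ => (x + a) / 2) ⁻¹' B) = 2 * volume B := by
  have e : (fun x : ℝ => (x + a) / 2) ⁻¹' B = (fun x : ℝ => x + a) ⁻¹' ((fun x : ℝ => 2⁻¹ * x) ⁻¹' B) := by
    ext x
    simp only [Set.mem_preimage]
    rw [show (x + a) / 2 = 2⁻¹ * (x + a) by ring]
  rw [e, measure_preimage_add_right, Real.volume_preimage_mul_left (by norm_num)]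
  congr 1
  rw [abs_of_pos (by norm_num)]
  simp

theorem map_mul (A : Set ℝ) (hA : MeasurableSet A) (a : ℝ) (hA' : A = Set.Ico (a / 2) ((a + 1) / 2))
    (h0 : 0 ≤ a) (h1 : a ≤ 1) :
    Measure.map (fun x => 2 * x - a) (mu.restrict A) = (2⁻¹ : ℝ≥0∞) • mu := by
  ext s hs
  have hm : Measurable (fun x : ℝ => 2 * x - a) := by fun_prop
  rw [Measure.map_apply hm hs, Measure.restrict_apply (hm hs), mu, Measure.restrict_apply ((hm hs).inter hA),
    Measure.smul_apply, Measure.restrict_apply hs, smul_eq_mul, ← vol_pre1 a]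
  congr 1
  ext x
  simp only [Set.mem_inter_iff, Set.mem_preimage, hA', Set.mem_Ico]
  constructor
  · rintro ⟨⟨h2, h3⟩, h4⟩
    exact ⟨h2, by linarith, by linarith⟩
  · rintro ⟨h2, h3, h4⟩
    exact ⟨⟨h2, by linarith, by linarith⟩, by linarith, by linarith⟩

theorem map_half (A : Set ℝ) (hA : MeasurableSet A) (a : ℝ) (hA' : A = Set.Ico (a / 2) ((a + 1) / 2))
    (h0 : 0 ≤ a) (h1 : a ≤ 1) :
    Measure.map (fun y => (y + a) / 2) mu = (2 : ℝ≥0∞) • mu.restrict A := by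
  ext s hs
  have hm : Measurable (fun x : ℝ => (x + a) / 2) := by fun_prop
  rw [Measure.map_apply hm hs, mu, Measure.restrict_apply (hm hs),
    Measure.smul_apply, Measure.restrict_apply hs, Measure.restrict_apply (hs.inter hA), smul_eq_mul,
    ← vol_pre2 a]
  congr 1
  ext x
  simp only [Set.mem_inter_iff, Set.mem_preimage, hA', Set.mem_Ico]
  constructor
  · rintro ⟨h2, h3, h4⟩
    exact ⟨⟨h2, by linarith, by linarith⟩, by linarith, by linarith⟩
  · rintro ⟨⟨h2, h3, h4⟩, h5, h6⟩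
    exact ⟨h2, by linarith, by linarith⟩

end SPL

theorem SPL (p : ℝ≥0∞) [Fact (1 ≤ p)] (hp : p ≠ ∞) :
    ∃ j₁ j₂ j₁' j₂' : E p →L[ℝ] E p, ‖j₁‖ ≤ 1 ∧ ‖j₂‖ ≤ 1 ∧ ‖j₁'‖ ≤ 1 ∧ ‖j₂'‖ ≤ 1 ∧
      (∀ f, j₁' (j₁ f) = f) ∧ (∀ f, j₂' (j₂ f) = f) ∧ (∀ f, j₁' (j₂ f) = 0) ∧ (∀ f, j₂' (j₁ f) = 0) := by
  have hm1 : ∀ a : ℝ, Measurable (fun x : ℝ => 2 * x - a) := fun a => by fun_prop
  have hm2 : ∀ a : ℝ, Measurable (fun x : ℝ => (x + a) / 2) := fun a => by fun_prop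
  have hA : ∀ a : ℝ, MeasurableSet (Set.Ico (a / 2) ((a + 1) / 2)) := fun a => measurableSet_Ico
  obtain ⟨j₁, j₁', n1, n1', e1, e1'⟩ := SPL.ops p hp _ (hA 0) _ _ (hm1 0) (hm2 0)
    (SPL.map_mul _ (hA 0) 0 rfl le_rfl zero_le_one) (SPL.map_half _ (hA 0) 0 rfl le_rfl zero_le_one)
  obtain ⟨j₂, j₂', n2, n2', e2, e2'⟩ := SPL.ops p hp _ (hA 1) _ _ (hm1 1) (hm2 1)
    (SPL.map_mul _ (hA 1) 1 rfl zero_le_one le_rfl) (SPL.map_half _ (hA 1) 1 rfl zero_le_one le_rfl)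
  have hmu : ∀ᵐ x ∂mu, x ∈ Set.Ico (0 : ℝ) 1 := ae_restrict_mem measurableSet_Ico
  have key : ∀ (a b : ℝ) (g f : E p), (0 ≤ b) → (b ≤ 1) →
      ((g : ℝ → ℝ) =ᵐ[mu] fun x => (Set.Ico (a / 2) ((a + 1) / 2)).indicator
        (fun x => (2 : ℝ) ^ (1 / p.toReal) * f (2 * x - a)) x) →
      ∀ᵐ x ∂mu, g ((x + b) / 2) = (Set.Ico (a / 2) ((a + 1) / 2)).indicator
        (fun x => (2 : ℝ) ^ (1 / p.toReal) * f (2 * x - a)) ((x + b) / 2) := by
    intro a b g f h0 h1 h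
    have hS : MeasurePreserving (fun x : ℝ => (x + b) / 2) mu
        ((2 : ℝ≥0∞) • mu.restrict (Set.Ico (b / 2) ((b + 1) / 2))) :=
      ⟨hm2 b, SPL.map_half _ (hA b) b rfl h0 h1⟩
    have ac2 : ((2 : ℝ≥0∞) • mu.restrict (Set.Ico (b / 2) ((b + 1) / 2))) ≪ mu :=
      Measure.smul_absolutelyContinuous.trans Measure.restrict_le_self.absolutelyContinuous
    exact hS.quasiMeasurePreserving.ae_eq_comp (ac2.ae_eq h)
  have c1 : (2 : ℝ) ^ (-(1 / p.toReal)) * (2 : ℝ) ^ (1 / p.toReal) = 1 := by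
    rw [← Real.rpow_add (by norm_num), neg_add_cancel, Real.rpow_zero]
  refine ⟨j₁, j₂, j₁', j₂', n1, n2, n1', n2', fun f => ?_, fun f => ?_, fun f => ?_, fun f => ?_⟩
  · apply Lp.ext
    filter_upwards [e1' (j₁ f), key 0 0 _ f le_rfl zero_le_one (e1 f), hmu] with x h2 h3 h4
    rw [h2, h3, Set.indicator_of_mem (by constructor <;> linarith [h4.1, h4.2]), ← mul_assoc, c1, one_mul]
    congr 1; ring
  · apply Lp.ext
    filter_upwards [e2' (j₂ f), key 1 1 _ f zero_le_one le_rfl (e2 f), hmu] with x h2 h3 h4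
    rw [h2, h3, Set.indicator_of_mem (by constructor <;> linarith [h4.1, h4.2]), ← mul_assoc, c1, one_mul]
    congr 1; ring
  · apply Lp.ext
    filter_upwards [e1' (j₂ f), key 1 0 _ f le_rfl zero_le_one (e2 f), hmu, Lp.coeFn_zero ℝ p mu]
      with x h2 h3 h4 h5
    rw [h2, h3, Set.indicator_of_notMem (fun h => by linarith [h.1, h4.2]), mul_zero, h5]
    rfl
  · apply Lp.ext
    filter_upwards [e2' (j₁ f), key 0 1 _ f zero_le_one le_rfl (e1 f), hmu, Lp.coeFn_zero ℝ p mu]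
      with x h2 h3 h4 h5
    rw [h2, h3, Set.indicator_of_notMem (fun h => by linarith [h.2, h4.1]), mul_zero, h5]
    rfl

end Pool.Agent.T2H63.HF
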