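import Pool.Agent.T2H63.HF.FACT
import Pool.Agent.T2H63.HF.GAM
import Pool.Agent.T2H63.HF.SPL

/-!
# Package FIN2 (30-40 min): the identity factors through `1 + S`, `S` singular

`J_1, J_2, J_1', J_2'` = coordinatewise `j_1, j_2, j_1', j_2'` of SPL (`dg`).  By GAM, applied to the functionals
`pair (p k) s ((S (J_2 z)) k)` (countably many; `J_2 (sg k x) = sg k (j_2 x)`: `dg_sg`), there is an infinite `G` with
`S J_2 z = 0` for all `z` supported in `G` (`eq_zero_of_pair`), i.e. `S J_2 P_G = 0` (`PG`).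
`V = J_1' S J_1` is singular; by FACT `-V = A' B''` with `B''` supported in `G`.  `V_2 = P_G J_2' S J_1`, `B' = B'' - V_2` (supported in
`G`), `B = J_1 + J_2 B'`, `A = J_1' + A' P_G J_2'`.  Then `(1 + S) B = J_1 + J_2 B' + S J_1`, and
`A (1 + S) B = (1 + V) + A' (B' + V_2) = 1 + V + A' B'' = 1`.
-/

open MeasureTheory Filter Topology
open scoped ENNReal BoundedContinuousFunction

set_option linter.unusedSectionVars false

namespace Pool.Agent.T2H63.HF

theorem FIN2 (κ : Bool) (p : ℕ → ℝ≥0∞) [∀ k, Fact (1 ≤ p k)] (hp : ∀ k, p k ≠ ∞) (hκ : Lim κ p)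
    (S : ZZ p →L[ℝ] ZZ p) (hS : Sing p S) :
    ∃ A B : ZZ p →L[ℝ] ZZ p, ∀ z, A (B z + S (B z)) = z := by
  choose j₁ j₂ j₁' j₂' h1 h2 h3 h4 h11 h22 h12 h21 using fun k => SPL (p k) (hp k)
  let J1 := dg p j₁ 1 zero_le_one h1
  let J2 := dg p j₂ 1 zero_le_one h2
  let J1' := dg p j₁' 1 zero_le_one h3
  let J2' := dg p j₂' 1 zero_le_one h4
  have H11 : ∀ z, J1' (J1 z) = z := by
    intro z; ext k : 2; exact h11 k (z k)
  have H22 : ∀ z, J2' (J2 z) = z := by
    intro z; ext k : 2; exact h22 k (z k)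
  have H12 : ∀ z, J1' (J2 z) = 0 := by
    intro z; ext k : 2; exact h12 k (z k)
  have H21 : ∀ z, J2' (J1 z) = 0 := by
    intro z; ext k : 2; exact h21 k (z k)
  have HJ1 : ∀ k x, J1 (sg p k x) = sg p k (j₁ k x) := fun k x => dg_sg p _ _ _ _ k x
  have HJ2 : ∀ k x, J2 (sg p k x) = sg p k (j₂ k x) := fun k x => dg_sg p _ _ _ _ k x
  let ψ : ℕ × ℕ → (ZZ p →L[ℝ] ℝ) := fun n =>
    ((pair (p n.1) n.2).comp (ev p n.1)).comp (S.comp J2)
  obtain ⟨G, hG, hG'⟩ := GAM p (fun n => ψ n.unpair) (by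
    intro n k x
    show pair (p n.unpair.1) n.unpair.2 ((S (J2 (sg p k x))) n.unpair.1) = 0
    rw [HJ2, hS]
    exact map_zero _)
  have hSG : ∀ z : ZZ p, (∀ k, k ∉ G → z k = 0) → S (J2 z) = 0 := by
    intro z hz
    ext k : 2
    refine eq_zero_of_pair (p k) (hp k) _ fun s => ?_
    have := hG' (Nat.pair k s) z hz
    simp only [Nat.unpair_pair] at this
    exact this
  let V : ZZ p →L[ℝ] ZZ p := J1'.comp (S.comp J1)
  have hV : Sing p (-V) := by
    intro k x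
    show -(J1' (S (J1 (sg p k x)))) = 0
    rw [HJ1, hS, map_zero, neg_zero]
  obtain ⟨A', B'', hB'', hAB⟩ := FACT κ p hp hκ (-V) hV G hG
  let V2 : ZZ p →L[ℝ] ZZ p := (PG p G).comp (J2'.comp (S.comp J1))
  let B' : ZZ p →L[ℝ] ZZ p := B'' - V2
  have hB' : ∀ z k, k ∉ G → B' z k = 0 := by
    intro z k hk
    show B'' z k - V2 z k = 0
    rw [hB'' z k hk]
    have : V2 z k = 0 := PG_not_mem p _ hk
    rw [this, sub_zero]
  refine ⟨J1' + A'.comp ((PG p G).comp J2'), J1 + J2.comp B', fun z => ?_⟩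
  show J1' ((J1 z + J2 (B' z)) + S (J1 z + J2 (B' z))) +
    A' (PG p G (J2' ((J1 z + J2 (B' z)) + S (J1 z + J2 (B' z))))) = z
  have e1 : S (J1 z + J2 (B' z)) = S (J1 z) := by
    rw [map_add, hSG _ (hB' z), add_zero]
  rw [e1]
  have e2 : J1' (J1 z + J2 (B' z) + S (J1 z)) = z + V z := by
    rw [map_add, map_add, H11, H12, add_zero]
    rfl
  have e3 : PG p G (J2' (J1 z + J2 (B' z) + S (J1 z))) = B'' z := by
    rw [map_add J2', map_add J2', H21, H22, zero_add, map_add, PG_eq_self p (hB' z)]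
    show B'' z - V2 z + V2 z = B'' z
    abel
  rw [e2, e3, hAB]
  show z + V z + -(V z) = z
  abel

end Pool.Agent.T2H63.HF
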