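import Pool.Agent.T2H63.HF.PT
import Pool.Agent.T2H63.HF.FD

/-!
# Package FR (60-80 min): factorisation of finite rank singular operators

`R : ZZ p → F`, `F` finite dimensional, `‖R‖ ≤ 1`, `R (sg k x) = 0`.  Then `‖R z‖ ≤ sup_{k ≥ K} ‖z_k‖` for all `K` (subtract the
finitely many coordinates `k < K`).  Let `ε ≤ 1`, `(m, n)` from FD for `ε/8`.
For a finite set `t` of elements of the unit ball of `ZZ p` apply PT (with `ε/8`): `m', n', e, q'`.  Put
`ρ_{u,b} = R(e_{u,b}) / (1 + ε/8)`; then `‖∑ y ρ‖ ≤ 1` for `y ∈ Ball`.  FD gives `w, r`; let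
`q^t_{τ,c} = ∑_{u,b} w_{u,b,τ,c} q'_{u,b}` (`∑_c |q^t_{τ,c} z| ≤ ‖z‖`, by (i) for `y = q' z / ‖z‖`), `r^t = (1 + ε/8) r`.
For `z ∈ t`: `‖R z - ∑ q^t_{τ,c}(z) r^t_{τ,c}‖ ≤ ‖R (z - ∑ q'(z) e)‖ + (1 + ε/8) ‖∑ q'(z) ρ - ∑ (q' w) r‖ ≤ ε/8 + 2 ε/8 ≤ ε`.
Compactness: let `U` be an ultrafilter on `Finset (ZZ p)` finer than `atTop`; `q_{τ,c} = lim_U q^t_{τ,c}` (`exists_ulim`), and
`r = lim_U r^t` (`‖r^t_{τ,c}‖ ≤ 2`, `F` is proper: bounded sequences converge along `U`).  (Elements `z` with `‖z‖ ≤ 1` belong to `t` eventually; for the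
others use homogeneity.)
-/

open MeasureTheory Filter Topology
open scoped ENNReal BoundedContinuousFunction

set_option linter.unusedSectionVars false

namespace Pool.Agent.T2H63.HF

theorem fr_norm_le (p : ℕ → ℝ≥0∞) [∀ k, Fact (1 ≤ p k)] {F : Type*} [NormedAddCommGroup F]
    [NormedSpace ℝ F] (R : ZZ p →L[ℝ] F) (hR : ∀ k x, R (sg p k x) = 0) (hR1 : ‖R‖ ≤ 1) (z : ZZ p)
    (K : ℕ) (C : ℝ) (hC : 0 ≤ C) (h : ∀ k, K ≤ k → ‖ev p k z‖ ≤ C) : ‖R z‖ ≤ C := by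
  set z' : ZZ p := z - ∑ k ∈ Finset.range K, sg p k (z k) with hz'
  have hcoord : ∀ l, ev p l z' = if l < K then 0 else ev p l z := by
    intro l
    have hs : ev p l (∑ k ∈ Finset.range K, sg p k (z k)) = if l < K then ev p l z else 0 := by
      rw [map_sum]
      split_ifs with hl
      · rw [Finset.sum_eq_single l]
        · exact sg_self p l (z l)
        · intro k _ hk
          exact sg_ne p (Ne.symm hk) (z k)
        · intro h'; exact absurd (Finset.mem_range.2 hl) h'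
      · refine Finset.sum_eq_zero fun k hk => ?_
        refine sg_ne p ?_ _
        rintro rfl
        exact hl (Finset.mem_range.1 hk)
    rw [hz', map_sub, hs]
    split_ifs <;> simp
  have hz'n : ‖z'‖ ≤ C := by
    refine norm_le_of p z' hC fun l => ?_
    have := hcoord l
    rw [ev_apply] at this
    rw [this]
    split_ifs with hl
    · simpa using hC
    · exact h l (not_lt.1 hl)
  have hRz : R z = R z' := by
    rw [hz', map_sub, map_sum, Finset.sum_eq_zero fun k _ => hR k _, sub_zero]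
  rw [hRz]
  calc ‖R z'‖ ≤ ‖R‖ * ‖z'‖ := R.le_opNorm _
    _ ≤ 1 * C := mul_le_mul hR1 hz'n (norm_nonneg _) zero_le_one
    _ = C := one_mul _

/-- The statement for finitely many elements. -/
theorem fr_finite (κ : Bool) (p : ℕ → ℝ≥0∞) [∀ k, Fact (1 ≤ p k)] (hp : ∀ k, p k ≠ ∞) (hκ : Lim κ p)
    (F : Type*) [NormedAddCommGroup F] [NormedSpace ℝ F] [FiniteDimensional ℝ F]
    (R : ZZ p →L[ℝ] F) (hR : ∀ k x, R (sg p k x) = 0) (hR1 : ‖R‖ ≤ 1) (ε : ℝ) (hε : 0 < ε)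
    (hε1 : ε ≤ 1) :
    ∃ (m n : ℕ), Good κ n ∧ ∀ t : Finset (ZZ p), ∃ (q : Fin m → Fin n → ZZ p →L[ℝ] ℝ) (r : Fin m → Fin n → F),
      (∀ z u, ∑ b, |q u b z| ≤ ‖z‖) ∧
      (∀ y, Ball y → ‖∑ u, ∑ b, y u b • r u b‖ ≤ 1 + ε) ∧
      ∀ z ∈ t, ‖z‖ ≤ 1 → ‖R z - ∑ u, ∑ b, q u b z • r u b‖ ≤ ε := by
  classical
  obtain ⟨δ, hδε, hδ⟩ : ∃ δ : ℝ, 8 * δ = ε ∧ 0 < δ := ⟨ε / 8, by ring, by positivity⟩
  obtain ⟨m, n, hn, hFD⟩ := FD κ F δ hδ
  refine ⟨m, n, hn, fun t => ?_⟩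
  set t' : Finset (ZZ p) := t.filter fun z => ‖z‖ ≤ 1 with ht'
  obtain ⟨m', n', hn', e, q', hq', ⟨K1, hK1⟩, K2, hK2⟩ := PT κ p hp hκ
    (fun i : Fin t'.card => ((t'.equivFin.symm i : t') : ZZ p))
    (fun i => (Finset.mem_filter.1 (t'.equivFin.symm i).2).2) δ hδ
  set ρ : Fin m' → Fin n' → F := fun u b => (1 + δ)⁻¹ • R (e u b) with hρ
  have hδ1 : (0 : ℝ) < 1 + δ := by linarith
  have hρ1 : ∀ y : Fin m' → Fin n' → ℝ, ∑ u, ∑ b, y u b • ρ u b =
      (1 + δ)⁻¹ • R (∑ u, ∑ b, y u b • e u b) := by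
    intro y
    simp only [hρ, map_sum, map_smul, Finset.smul_sum]
    refine Finset.sum_congr rfl fun u _ => Finset.sum_congr rfl fun b _ => ?_
    rw [smul_comm]
  have hρ2 : ∀ y, Ball y → ‖∑ u, ∑ b, y u b • ρ u b‖ ≤ 1 := by
    intro y hy
    rw [hρ1, norm_smul, norm_inv, Real.norm_eq_abs, abs_of_pos hδ1]
    have := fr_norm_le p R hR hR1 _ K1 (1 + δ) hδ1.le (fun k hk => hK1 k hk y hy)
    calc (1 + δ)⁻¹ * ‖R (∑ u, ∑ b, y u b • e u b)‖ ≤ (1 + δ)⁻¹ * (1 + δ) := by gcongr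
      _ = 1 := inv_mul_cancel₀ hδ1.ne'
  obtain ⟨w, r, hw, hr, hwr⟩ := hFD m' n' hn' ρ hρ2
  set q : Fin m → Fin n → ZZ p →L[ℝ] ℝ := fun τ c => ∑ u, ∑ b, w u b τ c • q' u b with hq
  have hqz : ∀ τ c z, q τ c z = ∑ u, ∑ b, q' u b z * w u b τ c := by
    intro τ c z
    simp only [hq, ContinuousLinearMap.sum_apply, ContinuousLinearMap.smul_apply, smul_eq_mul]
    refine Finset.sum_congr rfl fun u _ => Finset.sum_congr rfl fun b _ => mul_comm _ _
  refine ⟨q, fun τ c => (1 + δ) • r τ c, ?_, ?_, ?_⟩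
  · intro z τ
    by_cases hz : z = 0
    · subst hz; simp
    have hz0 : 0 < ‖z‖ := norm_pos_iff.2 hz
    have hy : Ball fun u b => ‖z‖⁻¹ * q' u b z := by
      intro u
      calc ∑ b, |‖z‖⁻¹ * q' u b z| = ‖z‖⁻¹ * ∑ b, |q' u b z| := by
            rw [Finset.mul_sum]
            exact Finset.sum_congr rfl fun b _ => by rw [abs_mul, abs_of_pos (inv_pos.2 hz0)]
        _ ≤ ‖z‖⁻¹ * ‖z‖ := by gcongr; exact hq' z u
        _ = 1 := inv_mul_cancel₀ hz0.ne'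
    have h1 := hw _ hy τ
    have h2 : ∀ c, ∑ u, ∑ b, ‖z‖⁻¹ * q' u b z * w u b τ c = ‖z‖⁻¹ * q τ c z := by
      intro c
      rw [hqz, Finset.mul_sum]
      refine Finset.sum_congr rfl fun u _ => ?_
      rw [Finset.mul_sum]
      exact Finset.sum_congr rfl fun b _ => by ring
    have h3 : ∑ c, |‖z‖⁻¹ * q τ c z| ≤ 1 := by
      rw [Finset.sum_congr rfl fun c _ => by rw [← h2 c]]
      exact h1
    have h4 : ∑ c, |‖z‖⁻¹ * q τ c z| = ‖z‖⁻¹ * ∑ c, |q τ c z| := by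
      rw [Finset.mul_sum]
      exact Finset.sum_congr rfl fun b _ => by rw [abs_mul, abs_of_pos (inv_pos.2 hz0)]
    rw [h4, inv_mul_le_iff₀ hz0, mul_one] at h3
    exact h3
  · intro y hy
    have h1 : ∑ τ, ∑ c, y τ c • (1 + δ) • r τ c = (1 + δ) • ∑ τ, ∑ c, y τ c • r τ c := by
      rw [Finset.smul_sum]
      refine Finset.sum_congr rfl fun τ _ => ?_
      rw [Finset.smul_sum]
      exact Finset.sum_congr rfl fun c _ => smul_comm _ _ _
    rw [h1, norm_smul, Real.norm_eq_abs, abs_of_pos hδ1]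
    calc (1 + δ) * ‖∑ τ, ∑ c, y τ c • r τ c‖ ≤ (1 + δ) * (1 + δ) := by gcongr; exact hr y hy
      _ ≤ 1 + ε := by nlinarith
  · intro z hzt hz1
    have hzt' : z ∈ t' := Finset.mem_filter.2 ⟨hzt, hz1⟩
    have hR2 : ‖R (z - ∑ u, ∑ b, q' u b z • e u b)‖ ≤ δ := by
      refine fr_norm_le p R hR hR1 _ K2 δ hδ.le fun k hk => ?_
      have := hK2 k hk (t'.equivFin ⟨z, hzt'⟩)
      simpa using this
    have hy : Ball fun u b => q' u b z := fun u => (hq' z u).trans hz1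
    have h1 := hwr _ hy
    rw [hρ1] at h1
    have h2 : ∑ τ, ∑ c, (∑ u, ∑ b, q' u b z * w u b τ c) • r τ c = ∑ τ, ∑ c, q τ c z • r τ c :=
      Finset.sum_congr rfl fun τ _ => Finset.sum_congr rfl fun c _ => by rw [hqz]
    rw [h2] at h1
    have h3 : ∑ τ, ∑ c, q τ c z • (1 + δ) • r τ c = (1 + δ) • ∑ τ, ∑ c, q τ c z • r τ c := by
      rw [Finset.smul_sum]
      refine Finset.sum_congr rfl fun τ _ => ?_
      rw [Finset.smul_sum]
      exact Finset.sum_congr rfl fun c _ => smul_comm _ _ _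
    have h4 : R z - ∑ τ, ∑ c, q τ c z • (1 + δ) • r τ c = R (z - ∑ u, ∑ b, q' u b z • e u b) +
        (1 + δ) • ((1 + δ)⁻¹ • R (∑ u, ∑ b, q' u b z • e u b) - ∑ τ, ∑ c, q τ c z • r τ c) := by
      rw [h3, smul_sub, smul_smul, mul_inv_cancel₀ hδ1.ne', one_smul, map_sub]
      abel
    rw [h4]
    calc _ ≤ ‖R (z - ∑ u, ∑ b, q' u b z • e u b)‖ + ‖(1 + δ) • ((1 + δ)⁻¹ •
          R (∑ u, ∑ b, q' u b z • e u b) - ∑ τ, ∑ c, q τ c z • r τ c)‖ := norm_add_le _ _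
      _ ≤ δ + (1 + δ) * δ := by
          rw [norm_smul, Real.norm_eq_abs, abs_of_pos hδ1]
          gcongr
      _ ≤ ε := by nlinarith

theorem FR (κ : Bool) (p : ℕ → ℝ≥0∞) [∀ k, Fact (1 ≤ p k)] (hp : ∀ k, p k ≠ ∞) (hκ : Lim κ p)
    (F : Type*) [NormedAddCommGroup F] [NormedSpace ℝ F] [FiniteDimensional ℝ F]
    (R : ZZ p →L[ℝ] F) (hR : ∀ k x, R (sg p k x) = 0) (hR1 : ‖R‖ ≤ 1) (ε : ℝ) (hε : 0 < ε)
    (hε1 : ε ≤ 1) :
    ∃ (m n : ℕ), Good κ n ∧ ∃ (q : Fin m → Fin n → ZZ p →L[ℝ] ℝ) (r : Fin m → Fin n → F),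
      (∀ z u, ∑ b, |q u b z| ≤ ‖z‖) ∧
      (∀ y, Ball y → ‖∑ u, ∑ b, y u b • r u b‖ ≤ 1 + ε) ∧
      ∀ z, ‖R z - ∑ u, ∑ b, q u b z • r u b‖ ≤ ε * ‖z‖ := by
  classical
  obtain ⟨m, n, hn, h⟩ := fr_finite κ p hp hκ F R hR hR1 ε hε hε1
  refine ⟨m, n, hn, ?_⟩
  choose q r hq hr hqr using h
  set U : Ultrafilter (Finset (ZZ p)) := Ultrafilter.of atTop with hU
  have hUle : (U : Filter (Finset (ZZ p))) ≤ atTop := Ultrafilter.of_le _
  -- limit of the functionals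
  have hq1 : ∀ u b (t : Finset (ZZ p)) (z : ZZ p), |q t u b z| ≤ 1 * ‖z‖ := by
    intro u b t z
    rw [one_mul]
    exact (Finset.single_le_sum (f := fun b => |q t u b z|) (fun b _ => abs_nonneg _)
      (Finset.mem_univ b)).trans (hq t z u)
  have hψ := fun u b => exists_ulim U (fun t => q t u b) 1 (hq1 u b)
  choose Q hQ1 hQ2 using hψ
  -- limit of the vectors
  have hr1 : ∀ u b (t : Finset (ZZ p)), ‖r t u b‖ ≤ 2 := by
    intro u b t
    have hy : Ball fun (u' : Fin m) (b' : Fin n) => if u' = u ∧ b' = b then (1 : ℝ) else 0 := by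
      intro u'
      by_cases hu : u' = u
      · rw [Finset.sum_eq_single b]
        · simp [hu]
        · intro b' _ hb'; simp [hb']
        · intro h'; exact absurd (Finset.mem_univ _) h'
      · rw [Finset.sum_eq_zero]
        · exact zero_le_one
        · intro b' _; simp [hu]
    have h1 := hr t _ hy
    rw [Finset.sum_eq_single u, Finset.sum_eq_single b] at h1
    · simp only [and_self, if_true, one_smul] at h1
      linarith
    · intro b' _ hb'; simp [hb']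
    · intro h'; exact absurd (Finset.mem_univ _) h'
    · intro u' _ hu'; simp [hu']
    · intro h'; exact absurd (Finset.mem_univ _) h'
  have : ProperSpace F := FiniteDimensional.proper ℝ F
  have hrl : ∀ u b, ∃ x : F, Tendsto (fun t => r t u b) U (𝓝 x) := by
    intro u b
    obtain ⟨x, _, hx⟩ := (isCompact_closedBall (0 : F) 2).ultrafilter_le_nhds (U.map fun t => r t u b) (by
      rw [Ultrafilter.coe_map, le_principal_iff, Filter.mem_map]
      exact Filter.univ_mem' fun t => by simpa using hr1 u b t)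
    exact ⟨x, hx⟩
  choose rr hrr using hrl
  refine ⟨Q, rr, ?_, ?_, ?_⟩
  · intro z u
    exact le_of_tendsto (tendsto_finset_sum _ fun b _ => (hQ2 u b z).abs)
      (Eventually.of_forall fun t => hq t z u)
  · intro y hy
    exact le_of_tendsto (tendsto_finset_sum _ fun u _ => tendsto_finset_sum _ fun b _ =>
      (hrr u b).const_smul (y u b)).norm (Eventually.of_forall fun t => hr t y hy)
  · have hone : ∀ z : ZZ p, ‖z‖ ≤ 1 → ‖R z - ∑ u, ∑ b, Q u b z • rr u b‖ ≤ ε := by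
      intro z hz
      have hlim : Tendsto (fun t => ‖R z - ∑ u, ∑ b, q t u b z • r t u b‖) U
          (𝓝 ‖R z - ∑ u, ∑ b, Q u b z • rr u b‖) :=
        (tendsto_const_nhds.sub (tendsto_finset_sum _ fun u _ => tendsto_finset_sum _ fun b _ =>
          (hQ2 u b z).smul (hrr u b))).norm
      refine le_of_tendsto hlim ?_
      have hev : ∀ᶠ t in (atTop : Filter (Finset (ZZ p))), {z} ≤ t := eventually_ge_atTop _
      filter_upwards [hUle hev] with t ht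
      exact hqr t z (ht (Finset.mem_singleton_self z)) hz
    intro z
    by_cases hz : z = 0
    · subst hz; simp
    have hz0 : 0 < ‖z‖ := norm_pos_iff.2 hz
    have h1 := hone (‖z‖⁻¹ • z) (by
      rw [norm_smul, norm_inv, norm_norm, inv_mul_cancel₀ hz0.ne'])
    have h2 : R (‖z‖⁻¹ • z) - ∑ u, ∑ b, Q u b (‖z‖⁻¹ • z) • rr u b =
        ‖z‖⁻¹ • (R z - ∑ u, ∑ b, Q u b z • rr u b) := by
      rw [map_smul, smul_sub, Finset.smul_sum]
      congr 1
      refine Finset.sum_congr rfl fun u _ => ?_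
      rw [Finset.smul_sum]
      refine Finset.sum_congr rfl fun b _ => ?_
      rw [map_smul, smul_eq_mul, mul_smul]
    rw [h2, norm_smul, norm_inv, norm_norm, inv_mul_le_iff₀ hz0] at h1
    linarith

end Pool.Agent.T2H63.HF
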