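import Pool.Agent.T2H63.HF.Defs

/-!
# Package GEO (20-30 min): geometry of the dyadic intervals `I s` (heap numbering, `s ≥ 1`)

All elementary.  `lv s = Nat.log 2 s`, `I s = [(s - 2^lv s)/2^lv s, (s + 1 - 2^lv s)/2^lv s)`.
-/

open MeasureTheory Filter Topology
open scoped ENNReal BoundedContinuousFunction

set_option linter.unusedSectionVars false

namespace Pool.Agent.T2H63.HF

theorem lv_two_mul {s : ℕ} (hs : 1 ≤ s) : lv (2 * s) = lv s + 1 := by
  unfold lv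
  rw [mul_comm]
  exact Nat.log_mul_base (by norm_num) (by omega)

theorem lv_two_mul_add_one {s : ℕ} (hs : 1 ≤ s) : lv (2 * s + 1) = lv s + 1 := by
  unfold lv
  rw [Nat.log_of_one_lt_of_le (by norm_num) (by omega)]
  congr 2
  omega

theorem geo_lv_eq {a b i : ℕ} (ha : 1 ≤ a) (h : b / 2 ^ i = a) : lv b = lv a + i := by
  induction i generalizing a with
  | zero =>
    rw [pow_zero, Nat.div_one] at h
    rw [h, add_zero]
  | succ i ih =>
    rw [pow_succ, ← Nat.div_div_eq_div_mul] at h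
    have h1 : 2 ≤ b / 2 ^ i := by omega
    rw [ih (a := b / 2 ^ i) (by omega) rfl]
    have h2 : lv (b / 2 ^ i) = lv a + 1 := by
      unfold lv
      rw [Nat.log_of_one_lt_of_le (by norm_num) h1, h]
    rw [h2]
    ring

theorem geo_pow_le {s : ℕ} (hs : 1 ≤ s) : 2 ^ lv s ≤ s := Nat.pow_log_le_self 2 (by omega)

theorem geo_lt_pow (s : ℕ) : s < 2 ^ (lv s + 1) := Nat.lt_pow_succ_log_self (by norm_num) s

/-- Membership in the interval `s`, by the integer part. -/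
theorem geo_mem_I {s : ℕ} (hs : 1 ≤ s) {x : ℝ} : x ∈ I s ↔ ⌊(x + 1) * 2 ^ lv s⌋₊ = s := by
  rw [Nat.floor_eq_iff' (by omega)]
  unfold I
  have hpos : (0 : ℝ) < 2 ^ lv s := by positivity
  rw [Set.mem_Ico, div_le_iff₀ hpos, lt_div_iff₀ hpos]
  constructor
  · rintro ⟨h1, h2⟩
    constructor <;> linarith
  · rintro ⟨h1, h2⟩
    constructor <;> linarith

theorem geo_floor (x : ℝ) (n i : ℕ) :
    ⌊(x + 1) * 2 ^ (n + i)⌋₊ / 2 ^ i = ⌊(x + 1) * 2 ^ n⌋₊ := by
  have h : (x + 1) * 2 ^ n = ((x + 1) * 2 ^ (n + i)) / ((2 ^ i : ℕ) : ℝ) := by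
    push_cast
    rw [pow_add]
    field_simp
  rw [h, Nat.floor_div_natCast]

theorem I_split {s : ℕ} (hs : 1 ≤ s) : I s = I (2 * s) ∪ I (2 * s + 1) := by
  ext x
  rw [Set.mem_union, geo_mem_I hs, geo_mem_I (s := 2 * s) (by omega),
    geo_mem_I (s := 2 * s + 1) (by omega), lv_two_mul hs, lv_two_mul_add_one hs]
  have h := geo_floor x (lv s) 1
  rw [pow_one] at h
  omega

theorem I_disj {s : ℕ} (hs : 1 ≤ s) : Disjoint (I (2 * s)) (I (2 * s + 1)) := by
  rw [Set.disjoint_left]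
  intro x h1 h2
  rw [geo_mem_I (s := 2 * s) (by omega), lv_two_mul hs] at h1
  rw [geo_mem_I (s := 2 * s + 1) (by omega), lv_two_mul_add_one hs] at h2
  omega

theorem I_subset_Ico {s : ℕ} (hs : 1 ≤ s) : I s ⊆ Set.Ico 0 1 := by
  intro x hx
  unfold I at hx
  have hpos : (0 : ℝ) < 2 ^ lv s := by positivity
  rw [Set.mem_Ico, div_le_iff₀ hpos, lt_div_iff₀ hpos] at hx
  have h1 : ((2 : ℝ) ^ lv s) ≤ s := by exact_mod_cast geo_pow_le hs
  have h2 : (s : ℝ) + 1 ≤ 2 ^ (lv s + 1) := by exact_mod_cast geo_lt_pow s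
  rw [pow_succ] at h2
  constructor
  · by_contra hcon
    push Not at hcon
    have : x * 2 ^ lv s < 0 := mul_neg_of_neg_of_pos hcon hpos
    linarith [hx.1]
  · by_contra hcon
    push Not at hcon
    have : 1 * (2 : ℝ) ^ lv s ≤ x * 2 ^ lv s := mul_le_mul_of_nonneg_right hcon hpos.le
    linarith [hx.2]

theorem mu_I {s : ℕ} (hs : 1 ≤ s) : mu.real (I s) = len s := by
  have hpos : (0 : ℝ) < 2 ^ lv s := by positivity
  rw [measureReal_restrict_apply (measurableSet_I s),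
    Set.inter_eq_left.2 (I_subset_Ico hs)]
  unfold I len
  rw [Real.volume_real_Ico_of_le]
  · field_simp
    ring
  · gcongr
    linarith

theorem I_subset_of_Blw {a b : ℕ} (ha : 1 ≤ a) (h : Blw a b) : I b ⊆ I a := by
  obtain ⟨i, hi⟩ := h
  have hlv := geo_lv_eq ha hi
  have hb : 1 ≤ b := by
    rcases Nat.eq_zero_or_pos b with rfl | h
    · simp at hi
      omega
    · exact h
  intro x hx
  rw [geo_mem_I hb, hlv] at hx
  rw [geo_mem_I ha, ← geo_floor x (lv a) i, hx, hi]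

/-- Intervals with `lv a ≤ lv b` are nested or disjoint. -/
theorem Blw_or_disjoint {a b : ℕ} (ha : 1 ≤ a) (hb : 1 ≤ b) (h : lv a ≤ lv b) :
    Blw a b ∨ Disjoint (I a) (I b) := by
  by_cases hab : b / 2 ^ (lv b - lv a) = a
  · exact Or.inl ⟨_, hab⟩
  · right
    rw [Set.disjoint_left]
    intro x h1 h2
    apply hab
    rw [geo_mem_I ha] at h1
    rw [geo_mem_I hb] at h2
    have h3 := geo_floor x (lv a) (lv b - lv a)
    rw [show lv a + (lv b - lv a) = lv b by omega, h2, h1] at h3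
    exact h3

theorem I_disjoint {a b : ℕ} (ha : 1 ≤ a) (hb : 1 ≤ b) (h1 : ¬ Blw a b) (h2 : ¬ Blw b a) :
    Disjoint (I a) (I b) := by
  rcases le_total (lv a) (lv b) with h | h
  · exact (Blw_or_disjoint ha hb h).resolve_left h1
  · exact ((Blw_or_disjoint hb ha h).resolve_left h2).symm

theorem Blw_lv {a b : ℕ} (ha : 1 ≤ a) (h : Blw a b) : lv a ≤ lv b := by
  obtain ⟨i, hi⟩ := h
  rw [geo_lv_eq ha hi]
  omega

theorem exists_mem_I {x : ℝ} (hx : x ∈ Set.Ico (0 : ℝ) 1) (n : ℕ) : ∃ s, 1 ≤ s ∧ lv s = n ∧ x ∈ I s := by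
  have hpos : (0 : ℝ) < 2 ^ n := by positivity
  have h1 : 2 ^ n ≤ ⌊(x + 1) * 2 ^ n⌋₊ := by
    apply Nat.le_floor
    push_cast
    nlinarith [hx.1]
  have h0 : 1 ≤ 2 ^ n := Nat.one_le_two_pow
  have h2 : ⌊(x + 1) * 2 ^ n⌋₊ < 2 ^ (n + 1) := by
    rw [Nat.floor_lt (by have := hx.1; positivity)]
    push_cast
    rw [pow_succ]
    nlinarith [hx.2]
  have hlv : lv ⌊(x + 1) * 2 ^ n⌋₊ = n := (Nat.log_eq_iff (Or.inr ⟨by norm_num, by omega⟩)).2 ⟨h1, h2⟩
  refine ⟨⌊(x + 1) * 2 ^ n⌋₊, by omega, hlv, ?_⟩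
  rw [geo_mem_I (by omega), hlv]

/-- The value of the Haar function `a ≥ 1` on an interval `b` of a higher level is `hsgn a b`. -/
theorem hfun_eq_hsgn {a b : ℕ} (ha : 1 ≤ a) (hb : 1 ≤ b) (h : lv a < lv b) {x : ℝ} (hx : x ∈ I b) :
    hfun a x = hsgn a b := by
  have key : ∀ c : ℕ, 1 ≤ c → lv c ≤ lv b → (x ∈ I c ↔ Blw c b) := by
    intro c hc hl
    constructor
    · intro hxc
      rcases Blw_or_disjoint hc hb hl with h' | h'
      · exact h'
      · exact absurd hx (Set.disjoint_left.1 h' hxc)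
    · intro h'
      exact I_subset_of_Blw hc h' hx
  have k1 := key (2 * a) (by omega) (by rw [lv_two_mul ha]; omega)
  have k2 := key (2 * a + 1) (by omega) (by rw [lv_two_mul_add_one ha]; omega)
  unfold hfun hsgn
  rw [if_neg (by omega)]
  by_cases h1 : Blw (2 * a) b
  · have hx1 := k1.2 h1
    have hx2 : x ∉ I (2 * a + 1) := Set.disjoint_left.1 (I_disj ha) hx1
    rw [if_pos h1, Set.indicator_of_mem hx1, Set.indicator_of_notMem hx2]
    simp
  · have hx1 : x ∉ I (2 * a) := fun h' => h1 (k1.1 h')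
    rw [if_neg h1, Set.indicator_of_notMem hx1]
    by_cases h2 : Blw (2 * a + 1) b
    · rw [if_pos h2, Set.indicator_of_mem (k2.2 h2)]
      simp
    · rw [if_neg h2, Set.indicator_of_notMem (fun h' => h2 (k2.1 h'))]
      simp

end Pool.Agent.T2H63.HF
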