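import Pool.Agent.T2H63.HF.RED
import Pool.Agent.T2H63.HF.FIN2

/-!
# HF project: the assembly
-/

open MeasureTheory Filter Topology
open scoped ENNReal

namespace Pool.Agent.T2H63.HF

theorem main (κ : Bool) (p : ℕ → ℝ≥0∞) [∀ k, Fact (1 ≤ p k)] (hp : ∀ k, p k ≠ ∞) (hκ : Lim κ p)
    (T : ZZ p →L[ℝ] ZZ p) (δ : ℝ) (hδ : 0 < δ)
    (hT : ∀ k s, 1 ≤ s → δ * len s ≤ |pair (p k) s ((T (sg p k (hv (p k) s))) k)|) :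
    ∃ A B : ZZ p →L[ℝ] ZZ p, ∀ z, A (T (B z)) = z := by
  obtain ⟨A₁, B₁, S, h1, hS⟩ := RED p hp T δ hδ hT
  obtain ⟨A₂, B₂, h2⟩ := FIN2 κ p hp hκ S hS
  refine ⟨A₂.comp A₁, B₁.comp B₂, fun z => ?_⟩
  show A₂ (A₁ (T (B₁ (B₂ z)))) = z
  rw [h1]
  exact h2 z

end Pool.Agent.T2H63.HF
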