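import Pool.Agent.T2H63.HF.GEO

/-!
# Package PCB (30-45 min): combinatorics of partitions (`Part`, `Refn`, `Anti`)

Inductions over `Part`.  The intervals in a partition of `s` are contained in `I s`, pairwise disjoint,
with union `I s`; if `N` is an antichain and `P` refines `N`, then `P` is an antichain.
-/

open MeasureTheory Filter Topology
open scoped ENNReal BoundedContinuousFunction

set_option linter.unusedSectionVars false

namespace Pool.Agent.T2H63.HF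

theorem pcb_refl (a : ℕ) : Blw a a := ⟨0, by simp⟩

theorem pcb_trans {a b c : ℕ} (h1 : Blw a b) (h2 : Blw b c) : Blw a c := by
  obtain ⟨i, hi⟩ := h1
  obtain ⟨j, hj⟩ := h2
  exact ⟨j + i, by rw [pow_add, ← Nat.div_div_eq_div_mul, hj, hi]⟩

/-- The intervals containing `c` form a chain. -/
theorem pcb_chain {a b c : ℕ} (h1 : Blw a c) (h2 : Blw b c) : Blw a b ∨ Blw b a := by
  obtain ⟨i, hi⟩ := h1
  obtain ⟨j, hj⟩ := h2
  rcases le_total i j with h | h
  · right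
    refine ⟨j - i, ?_⟩
    rw [← hi, Nat.div_div_eq_div_mul, ← pow_add, show i + (j - i) = j by omega, hj]
  · left
    refine ⟨i - j, ?_⟩
    rw [← hj, Nat.div_div_eq_div_mul, ← pow_add, show j + (i - j) = i by omega, hi]

theorem pcb_two (s : ℕ) : Blw s (2 * s) := ⟨1, by omega⟩

theorem pcb_two_one (s : ℕ) : Blw s (2 * s + 1) := ⟨1, by omega⟩

theorem pcb_half {s J : ℕ} (hs : 1 ≤ s) (h1 : Blw (2 * s) J) (h2 : Blw (2 * s + 1) J) : False := by
  obtain ⟨i, hi⟩ := h1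
  obtain ⟨j, hj⟩ := h2
  have e1 := geo_lv_eq (by omega) hi
  have e2 := geo_lv_eq (by omega) hj
  rw [lv_two_mul hs] at e1
  rw [lv_two_mul_add_one hs] at e2
  have : i = j := by omega
  subst this
  omega

theorem Part.one_le {L s : ℕ} {Q : Finset ℕ} (h : Part L s Q) : 1 ≤ s ∧ ∀ J ∈ Q, 1 ≤ J := by
  induction h with
  | leaf s hs hL =>
    refine ⟨hs, fun J hJ => ?_⟩
    rw [Finset.mem_singleton] at hJ
    omega
  | node s P Q hs hP hQ ihP ihQ =>
    refine ⟨hs, fun J hJ => ?_⟩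
    rcases Finset.mem_union.1 hJ with h | h
    · exact ihP.2 J h
    · exact ihQ.2 J h

theorem Part.level {L s : ℕ} {Q : Finset ℕ} (h : Part L s Q) : ∀ J ∈ Q, L ≤ lv J ∧ Blw s J := by
  induction h with
  | leaf s hs hL =>
    intro J hJ
    rw [Finset.mem_singleton] at hJ
    subst hJ
    exact ⟨hL, pcb_refl _⟩
  | node s P Q hs hP hQ ihP ihQ =>
    intro J hJ
    rcases Finset.mem_union.1 hJ with h | h
    · exact ⟨(ihP J h).1, pcb_trans (pcb_two s) (ihP J h).2⟩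
    · exact ⟨(ihQ J h).1, pcb_trans (pcb_two_one s) (ihQ J h).2⟩

theorem Part.mono {L L' s : ℕ} {Q : Finset ℕ} (h : Part L s Q) (hL : L' ≤ L) : Part L' s Q := by
  induction h with
  | leaf s hs hL' => exact Part.leaf s hs (hL.trans hL')
  | node s P Q hs hP hQ ihP ihQ => exact Part.node s P Q hs ihP ihQ

/-- Sums of additive functions. -/
theorem Part.sum {L s : ℕ} {Q : Finset ℕ} (h : Part L s Q) (Λ : ℕ → ℝ)
    (hΛ : ∀ s, 1 ≤ s → Λ s = Λ (2 * s) + Λ (2 * s + 1)) : ∑ J ∈ Q, Λ J = Λ s := by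
  induction h with
  | leaf s hs hL' => simp
  | node s P Q hs hP hQ ihP ihQ =>
    rw [Finset.sum_union, ihP, ihQ, ← hΛ s hs]
    rw [Finset.disjoint_left]
    intro J h1 h2
    exact pcb_half hs (hP.level J h1).2 (hQ.level J h2).2

theorem len_add {s : ℕ} (hs : 1 ≤ s) : len s = len (2 * s) + len (2 * s + 1) := by
  unfold len
  rw [lv_two_mul hs, lv_two_mul_add_one hs, pow_succ]
  field_simp
  norm_num

theorem Part.anti {L s : ℕ} {Q : Finset ℕ} (h : Part L s Q) : Anti Q := by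
  refine ⟨h.one_le.2, ?_⟩
  induction h with
  | leaf s hs hL' =>
    intro J hJ J' hJ' hne
    rw [Finset.mem_singleton] at hJ hJ'
    exact absurd (hJ.trans hJ'.symm) hne
  | node s P Q hs hP hQ ihP ihQ =>
    intro J hJ J' hJ' hne hb
    rcases Finset.mem_union.1 hJ with h1 | h1 <;> rcases Finset.mem_union.1 hJ' with h2 | h2
    · exact ihP J h1 J' h2 hne hb
    · exact pcb_half hs (pcb_trans (hP.level J h1).2 hb) (hQ.level J' h2).2
    · exact pcb_half hs (hP.level J' h2).2 (pcb_trans (hQ.level J h1).2 hb)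
    · exact ihQ J h1 J' h2 hne hb

theorem Part.union {L s : ℕ} {Q : Finset ℕ} (h : Part L s Q) : I s = ⋃ J ∈ Q, I J := by
  induction h with
  | leaf s hs hL' => simp
  | node s P Q hs hP hQ ihP ihQ =>
    rw [I_split hs, ihP, ihQ]
    ext x
    simp only [Set.mem_union, Set.mem_iUnion, Finset.mem_union, exists_prop]
    constructor
    · rintro (⟨J, h1, h2⟩ | ⟨J, h1, h2⟩)
      · exact ⟨J, Or.inl h1, h2⟩
      · exact ⟨J, Or.inr h1, h2⟩
    · rintro ⟨J, h1 | h1, h2⟩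
      · exact Or.inl ⟨J, h1, h2⟩
      · exact Or.inr ⟨J, h1, h2⟩

/-- Two distinct members of an antichain have no common descendant. -/
theorem pcb_anti {N : Finset ℕ} (hN : Anti N) {a b J : ℕ} (ha : a ∈ N) (hb : b ∈ N)
    (h1 : Blw a J) (h2 : Blw b J) : a = b := by
  by_contra hne
  rcases pcb_chain h1 h2 with h | h
  · exact hN.2 a ha b hb hne h
  · exact hN.2 b hb a ha (Ne.symm hne) h

theorem Refn.anti {L : ℕ} {N P : Finset ℕ} (hN : Anti N) (h : Refn L N P) : Anti P := by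
  obtain ⟨Q, hQ, rfl⟩ := h
  constructor
  · intro J hJ
    obtain ⟨a, ha, hJa⟩ := Finset.mem_biUnion.1 hJ
    exact (hQ a ha).one_le.2 J hJa
  · intro J hJ J' hJ' hne hb
    obtain ⟨a, ha, hJa⟩ := Finset.mem_biUnion.1 hJ
    obtain ⟨b, hb', hJb⟩ := Finset.mem_biUnion.1 hJ'
    have hab : a = b := pcb_anti hN ha hb' (pcb_trans ((hQ a ha).level J hJa).2 hb)
      ((hQ b hb').level J' hJb).2
    subst hab
    exact (hQ a ha).anti.2 J hJa J' hJb hne hb

theorem Refn.level {L : ℕ} {N P : Finset ℕ} (h : Refn L N P) :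
    ∀ J ∈ P, 1 ≤ J ∧ L ≤ lv J ∧ ∃ J' ∈ N, Blw J' J := by
  obtain ⟨Q, hQ, rfl⟩ := h
  intro J hJ
  obtain ⟨a, ha, hJa⟩ := Finset.mem_biUnion.1 hJ
  exact ⟨(hQ a ha).one_le.2 J hJa, ((hQ a ha).level J hJa).1, a, ha, ((hQ a ha).level J hJa).2⟩

theorem Refn.sum {L : ℕ} {N P : Finset ℕ} (hN : Anti N) (h : Refn L N P) (Λ : ℕ → ℝ)
    (hΛ : ∀ s, 1 ≤ s → Λ s = Λ (2 * s) + Λ (2 * s + 1)) : ∑ J ∈ P, Λ J = ∑ J ∈ N, Λ J := by
  obtain ⟨Q, hQ, rfl⟩ := h
  rw [Finset.sum_biUnion]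
  · exact Finset.sum_congr rfl fun a ha => (hQ a ha).sum Λ hΛ
  · intro a ha b hb hne
    change Disjoint (Q a) (Q b)
    rw [Finset.disjoint_left]
    intro J h1 h2
    exact hne (pcb_anti hN ha hb ((hQ a ha).level J h1).2 ((hQ b hb).level J h2).2)

theorem Refn.union {L : ℕ} {N P : Finset ℕ} (h : Refn L N P) :
    (⋃ J ∈ N, I J) = ⋃ J ∈ P, I J := by
  obtain ⟨Q, hQ, rfl⟩ := h
  ext x
  simp only [Set.mem_iUnion, Finset.mem_biUnion, exists_prop]
  constructor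
  · rintro ⟨a, ha, hx⟩
    rw [(hQ a ha).union] at hx
    simp only [Set.mem_iUnion, exists_prop] at hx
    obtain ⟨J, hJ, hx⟩ := hx
    exact ⟨J, ⟨a, ha, hJ⟩, hx⟩
  · rintro ⟨J, ⟨a, ha, hJ⟩, hx⟩
    refine ⟨a, ha, ?_⟩
    rw [(hQ a ha).union]
    simp only [Set.mem_iUnion, exists_prop]
    exact ⟨J, hJ, hx⟩

theorem Anti.pairwise {N : Finset ℕ} (h : Anti N) :
    ∀ J ∈ N, ∀ J' ∈ N, J ≠ J' → Disjoint (I J) (I J') := by
  intro J hJ J' hJ' hne
  exact I_disjoint (h.1 J hJ) (h.1 J' hJ') (h.2 J hJ J' hJ' hne) (h.2 J' hJ' J hJ hne.symm)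

theorem Anti.sum_len_le {N : Finset ℕ} (h : Anti N) : ∑ J ∈ N, len J ≤ 1 := by
  have h1 : mu.real (⋃ J ∈ N, I J) = ∑ J ∈ N, mu.real (I J) := by
    apply measureReal_biUnion_finset
    · intro J hJ J' hJ' hne
      exact h.pairwise J hJ J' hJ' hne
    · intro J _
      exact measurableSet_I J
    · intro J _
      exact measure_ne_top mu _
  have h2 : ∑ J ∈ N, mu.real (I J) = ∑ J ∈ N, len J :=
    Finset.sum_congr rfl fun J hJ => mu_I (h.1 J hJ)
  rw [← h2, ← h1]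
  exact measureReal_le_one

/-- The halves chosen by signs: `P` an antichain, `f J ∈ {2 J, 2 J + 1}`. -/
theorem Anti.image_halves {P : Finset ℕ} (h : Anti P) (f : ℕ → ℕ) (hf : ∀ J, f J = 2 * J ∨ f J = 2 * J + 1) :
    Anti (P.image f) ∧ Set.InjOn f P := by
  have hdiv : ∀ J, f J / 2 = J := by
    intro J
    rcases hf J with h | h <;> omega
  refine ⟨⟨?_, ?_⟩, ?_⟩
  · intro J hJ
    obtain ⟨a, ha, rfl⟩ := Finset.mem_image.1 hJ
    have h1 := h.1 a ha
    rcases hf a with h | h <;> omega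
  · intro J hJ J' hJ' hne hb
    obtain ⟨a, ha, rfl⟩ := Finset.mem_image.1 hJ
    obtain ⟨b, hb', rfl⟩ := Finset.mem_image.1 hJ'
    have hab : a ≠ b := fun h => hne (by rw [h])
    obtain ⟨i, hi⟩ := hb
    cases i with
    | zero =>
      rw [pow_zero, Nat.div_one] at hi
      exact hne hi.symm
    | succ i =>
      rw [pow_succ', ← Nat.div_div_eq_div_mul, hdiv] at hi
      apply h.2 a ha b hb' hab
      refine ⟨i + 1, ?_⟩
      rw [pow_succ, ← Nat.div_div_eq_div_mul, hi, hdiv]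
  · intro a _ b _ hab
    have h1 := hdiv a
    have h2 := hdiv b
    change f a = f b at hab
    omega

theorem pcb_of_hsgn {a J : ℕ} (ha : 1 ≤ a) (h : hsgn a J ≠ 0) : Blw a J ∧ lv a < lv J := by
  unfold hsgn at h
  by_cases h1 : Blw (2 * a) J
  · refine ⟨pcb_trans (pcb_two a) h1, ?_⟩
    have := Blw_lv (by omega) h1
    rw [lv_two_mul ha] at this
    omega
  · rw [if_neg h1] at h
    by_cases h2 : Blw (2 * a + 1) J
    · refine ⟨pcb_trans (pcb_two_one a) h2, ?_⟩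
      have := Blw_lv (by omega) h2
      rw [lv_two_mul_add_one ha] at this
      omega
    · rw [if_neg h2] at h
      exact absurd rfl h

theorem pcb_hsgn {a J : ℕ} (ha : 1 ≤ a) (hJ : Blw a J) (hl : lv a < lv J) :
    hsgn a J = 1 ∨ hsgn a J = -1 := by
  obtain ⟨i, hi⟩ := hJ
  have hlv := geo_lv_eq ha hi
  obtain ⟨j, rfl⟩ : ∃ j, i = j + 1 := ⟨i - 1, by omega⟩
  rw [pow_succ, ← Nat.div_div_eq_div_mul] at hi
  have h1 : J / 2 ^ j = 2 * a ∨ J / 2 ^ j = 2 * a + 1 := by omega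
  unfold hsgn
  rcases h1 with h1 | h1
  · left
    rw [if_pos ⟨j, h1⟩]
  · right
    rw [if_neg (fun h => pcb_half ha h ⟨j, h1⟩), if_pos ⟨j, h1⟩]

/-- The function `∑_{a ∈ P} σ_a h_a` is `± 1` on intervals finer than those in `P`. -/
theorem x0_eq {P : Finset ℕ} (h : Anti P) (σ : ℕ → ℝ) (hσ : ∀ J, σ J = 1 ∨ σ J = -1) {J a : ℕ}
    (ha : a ∈ P) (hJ : Blw a J) (hl : lv a < lv J) : x0 P σ J = 1 ∨ x0 P σ J = -1 := by
  have h1 : x0 P σ J = σ a * hsgn a J := by
    unfold x0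
    apply Finset.sum_eq_single_of_mem a ha
    intro b hb hne
    by_cases h0 : hsgn b J = 0
    · rw [h0, mul_zero]
    · exact absurd (pcb_anti h hb ha (pcb_of_hsgn (h.1 b hb) h0).1 hJ) hne
  rw [h1]
  rcases pcb_hsgn (h.1 a ha) hJ hl with h2 | h2 <;> rcases hσ a with h3 | h3 <;>
    rw [h2, h3] <;> norm_num

theorem abs_x0_le {P : Finset ℕ} (h : Anti P) (σ : ℕ → ℝ) (hσ : ∀ J, σ J = 1 ∨ σ J = -1) (J : ℕ) :
    |x0 P σ J| ≤ 1 := by
  by_cases hz : ∀ a ∈ P, hsgn a J = 0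
  · have : x0 P σ J = 0 := by
      unfold x0
      apply Finset.sum_eq_zero
      intro a ha
      rw [hz a ha, mul_zero]
    rw [this]
    norm_num
  · push Not at hz
    obtain ⟨a, ha, h0⟩ := hz
    obtain ⟨h1, h2⟩ := pcb_of_hsgn (h.1 a ha) h0
    rcases x0_eq h σ hσ ha h1 h2 with h3 | h3 <;> rw [h3] <;> norm_num

end Pool.Agent.T2H63.HF
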