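import Pool.Agent.T2H63.HF.DEN
import Pool.Agent.T2H63.HF.PCB

/-!
# Package NRM (30-45 min): norms of Haar functions and of signed sums

`‖1_{I s}‖_p = (len s)^{1/p}`; `|∫_{I s} f| ≤ (len s)^{1 - 1/p} ‖f‖_p` (Hölder); for an antichain `P` and
`|σ| ≤ 1` the function `∑_{J ∈ P} σ_J h_J` has absolute value `≤ 1` everywhere.  `cpair P σ (En p L f) = 0` if all the
levels in `P` are `≥ L`, as `En p L f` is constant on the intervals of `P` (or by `En_eq` and `pair_hv`).
-/

open MeasureTheory Filter Topology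
open scoped ENNReal BoundedContinuousFunction

set_option linter.unusedSectionVars false

namespace Pool.Agent.T2H63.HF

variable (p : ℝ≥0∞) [Fact (1 ≤ p)]

/-! ### auxiliary facts -/

theorem nrm_ind_ae (s : ℕ) : (ind p s : ℝ → ℝ) =ᵐ[mu] (I s).indicator fun _ => (1 : ℝ) :=
  indicatorConstLp_coeFn

theorem nrm_hv_ae (s : ℕ) : (hv p s : ℝ → ℝ) =ᵐ[mu] hfun s := by
  unfold hv
  by_cases hs : s = 0
  · subst hs
    rw [if_pos rfl]
    filter_upwards [nrm_ind_ae p 1, ae_restrict_mem (measurableSet_Ico : MeasurableSet (Set.Ico (0:ℝ) 1))]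
      with x hx hx1
    rw [hx, I_one, Set.indicator_of_mem hx1]
    simp [hfun]
  · rw [if_neg hs]
    filter_upwards [nrm_ind_ae p (2 * s), nrm_ind_ae p (2 * s + 1),
      Lp.coeFn_sub (ind p (2 * s)) (ind p (2 * s + 1))] with x h1 h2 h3
    rw [h3, Pi.sub_apply, h1, h2]
    simp only [hfun, hs, if_false]
    rfl

theorem nrm_hfun_meas (s : ℕ) : Measurable (hfun s) := by
  unfold hfun
  by_cases hs : s = 0
  · simp only [hs, if_true]
    exact measurable_const
  · simp only [hs, if_false]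
    exact (measurable_one.indicator (measurableSet_I _)).sub
      (measurable_one.indicator (measurableSet_I _))

theorem nrm_hfun_le {s : ℕ} (hs : 1 ≤ s) (x : ℝ) :
    |hfun s x| ≤ (I s).indicator (fun _ => (1 : ℝ)) x := by
  have hs0 : s ≠ 0 := by omega
  simp only [hfun, hs0, if_false]
  have h1 := I_split hs
  have h2 := I_disj hs
  by_cases ha : x ∈ I (2 * s)
  · have hb : x ∉ I (2 * s + 1) := fun hb => Set.disjoint_left.1 h2 ha hb
    have hc : x ∈ I s := by rw [h1]; exact Or.inl ha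
    rw [Set.indicator_of_mem ha, Set.indicator_of_notMem hb, Set.indicator_of_mem hc]
    simp
  · by_cases hb : x ∈ I (2 * s + 1)
    · have hc : x ∈ I s := by rw [h1]; exact Or.inr hb
      rw [Set.indicator_of_notMem ha, Set.indicator_of_mem hb, Set.indicator_of_mem hc]
      simp
    · rw [Set.indicator_of_notMem ha, Set.indicator_of_notMem hb]
      simp only [sub_self, abs_zero]
      exact Set.indicator_nonneg (fun _ _ => zero_le_one) x

theorem nrm_hfun_le_one (s : ℕ) (x : ℝ) : |hfun s x| ≤ 1 := by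
  by_cases hs : s = 0
  · simp [hfun, hs]
  · refine (nrm_hfun_le (by omega) x).trans ?_
    exact Set.indicator_le_self' (fun _ _ => zero_le_one) x

theorem nrm_hfun_zero {s : ℕ} (hs : 1 ≤ s) {x : ℝ} (hx : x ∉ I s) : hfun s x = 0 := by
  have h := nrm_hfun_le hs x
  rw [Set.indicator_of_notMem hx] at h
  exact abs_nonpos_iff.1 h

theorem nrm_TX_le {P : Finset ℕ} (h : Anti P) (σ : ℕ → ℝ) (hσ : ∀ J, |σ J| ≤ 1) (x : ℝ) :
    |TX P σ x| ≤ 1 := by
  unfold TX
  by_cases hx : ∃ J ∈ P, x ∈ I J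
  · obtain ⟨J, hJ, hxJ⟩ := hx
    rw [Finset.sum_eq_single J]
    · rw [abs_mul]
      exact mul_le_one₀ (hσ J) (abs_nonneg _) (nrm_hfun_le_one J x)
    · intro J' hJ' hne
      rw [nrm_hfun_zero (h.1 J' hJ') (fun hx' =>
        Set.disjoint_left.1 (h.pairwise J' hJ' J hJ hne) hx' hxJ), mul_zero]
    · intro hn; exact absurd hJ hn
  · rw [Finset.sum_eq_zero]
    · simp
    · intro J hJ
      rw [nrm_hfun_zero (h.1 J hJ) (fun hx' => hx ⟨J, hJ, hx'⟩), mul_zero]

theorem nrm_int (s : ℕ) (f : E p) : Integrable (fun x => f x * hfun s x) mu :=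
  (integrable_E p f).mul_bdd (nrm_hfun_meas s).aestronglyMeasurable
    (Eventually.of_forall fun x => by rw [Real.norm_eq_abs]; exact nrm_hfun_le_one s x)

/-! ### the lemmas -/

theorem norm_ind (hp : p ≠ ∞) {s : ℕ} (hs : 1 ≤ s) : ‖ind p s‖ = len s ^ (1 / p.toReal) := by
  have h1 : (1 : ℝ≥0∞) ≤ p := Fact.out
  unfold ind
  rw [norm_indicatorConstLp (by rintro rfl; simp at h1) hp, mu_I hs]
  simp

theorem norm_hv_le' (hp : p ≠ ∞) {s : ℕ} (hs : 1 ≤ s) : ‖hv p s‖ ≤ len s ^ (1 / p.toReal) := by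
  rw [← norm_ind p hp hs]
  refine Lp.norm_le_norm_of_ae_le ?_
  filter_upwards [nrm_hv_ae p s, nrm_ind_ae p s] with x h1 h2
  rw [h1, h2, Real.norm_eq_abs, Real.norm_eq_abs]
  exact (nrm_hfun_le hs x).trans (le_abs_self _)

/-- The pairing as an integral. -/
theorem cpair_eq (P : Finset ℕ) (σ : ℕ → ℝ) (f : E p) :
    cpair p P σ f = ∫ x, f x * TX P σ x ∂mu := by
  unfold cpair TX
  rw [sum_apply]
  simp_rw [Finset.mul_sum]
  rw [integral_finsetSum]
  · refine Finset.sum_congr rfl fun J _ => ?_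
    rw [smul_apply, pair_apply, smul_eq_mul, ← integral_const_mul]
    refine integral_congr_ae (Eventually.of_forall fun x => ?_)
    simp only
    ring
  · intro J _
    refine ((nrm_int p J f).const_mul (σ J)).congr (Eventually.of_forall fun x => ?_)
    simp only
    ring

/-- The signed sum as a function. -/
theorem comb_ae (P : Finset ℕ) (σ : ℕ → ℝ) : (comb p P σ : ℝ → ℝ) =ᵐ[mu] TX P σ := by
  classical
  unfold comb TX
  induction P using Finset.induction_on with
  | empty =>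
    filter_upwards [Lp.coeFn_zero ℝ p mu] with x hx
    rw [Finset.sum_empty, hx]
    simp
  | insert a P ha ih =>
    rw [Finset.sum_insert ha]
    filter_upwards [ih, Lp.coeFn_add (σ a • hv p a) (∑ J ∈ P, σ J • hv p J),
      Lp.coeFn_smul (σ a) (hv p a), nrm_hv_ae p a] with x h1 h2 h3 h4
    rw [h2, Pi.add_apply, h1, h3, Pi.smul_apply, h4, Finset.sum_insert ha, smul_eq_mul]

theorem abs_pair_le' (hp : p ≠ ∞) {s : ℕ} (hs : 1 ≤ s) (f : E p) :
    |pair p s f| ≤ len s ^ (1 - 1 / p.toReal) * ‖f‖ := by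
  rw [pair_apply]
  have h1 : |∫ x, f x * hfun s x ∂mu| ≤ ∫ x in I s, |f x| ∂mu := by
    refine (abs_integral_le_integral_abs).trans ?_
    rw [← integral_indicator (measurableSet_I s)]
    refine integral_mono (nrm_int p s f).abs ((integrable_E p f).abs.indicator (measurableSet_I s)) ?_
    intro x
    simp only
    rw [abs_mul]
    by_cases hx : x ∈ I s
    · rw [Set.indicator_of_mem hx]
      exact mul_le_of_le_one_right (abs_nonneg _) (nrm_hfun_le_one s x)
    · rw [nrm_hfun_zero hs hx, Set.indicator_of_notMem hx]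
      simp
  have h2 : ENNReal.ofReal (∫ x in I s, |f x| ∂mu) = eLpNorm f 1 (mu.restrict (I s)) := by
    rw [eLpNorm_one_eq_lintegral_enorm, ofReal_integral_eq_lintegral_ofReal
      (integrable_E p f).abs.integrableOn (Eventually.of_forall fun _ => abs_nonneg _)]
    simp [Real.enorm_eq_ofReal_abs]
  have h3 := eLpNorm_le_eLpNorm_mul_rpow_measure_univ (μ := mu.restrict (I s)) (f := (f : ℝ → ℝ))
    (p := 1) (q := p) Fact.out (Lp.aestronglyMeasurable f).restrict
  have h4 : eLpNorm f p (mu.restrict (I s)) ≤ ENNReal.ofReal ‖f‖ := by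
    rw [Lp.norm_def, ENNReal.ofReal_toReal (Lp.eLpNorm_ne_top f)]
    exact eLpNorm_restrict_le _ _ _ _
  have h5 : (mu.restrict (I s)) Set.univ = ENNReal.ofReal (len s) := by
    rw [Measure.restrict_apply_univ, ← mu_I hs, Measure.real,
      ENNReal.ofReal_toReal (measure_ne_top mu _)]
  have hlen : 0 < len s := by unfold len; positivity
  have h1p : (1 : ℝ) / p.toReal ≤ 1 := by
    have h6 : (1 : ℝ≥0∞) ≤ p := Fact.out
    have h7 : (1 : ℝ) ≤ p.toReal := by
      have := (ENNReal.toReal_le_toReal ENNReal.one_ne_top hp).2 h6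
      simpa using this
    rw [div_le_one (by linarith)]
    exact h7
  rw [← h2, h5] at h3
  have h6 : ENNReal.ofReal (∫ x in I s, |f x| ∂mu) ≤
      ENNReal.ofReal (len s ^ (1 - 1 / p.toReal) * ‖f‖) := by
    refine h3.trans ?_
    rw [ENNReal.toReal_one, div_one, ENNReal.ofReal_rpow_of_pos hlen, mul_comm,
      ENNReal.ofReal_mul (Real.rpow_nonneg hlen.le _)]
    gcongr
  have h7 := (ENNReal.ofReal_le_ofReal_iff (mul_nonneg (Real.rpow_nonneg hlen.le _)
    (norm_nonneg _))).1 h6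
  exact h1.trans h7

theorem norm_comb_le {P : Finset ℕ} (h : Anti P) (σ : ℕ → ℝ) (hσ : ∀ J, |σ J| ≤ 1) :
    ‖comb p P σ‖ ≤ 1 := by
  have h1 := Lp.norm_le_of_ae_bound (f := comb p P σ) zero_le_one (by
    filter_upwards [comb_ae p P σ] with x hx
    rw [hx, Real.norm_eq_abs]
    exact nrm_TX_le h σ hσ x)
  have h2 : measureUnivNNReal mu = 1 := by
    unfold measureUnivNNReal
    rw [measure_univ, ENNReal.toNNReal_one]
  rwa [h2, NNReal.coe_one, Real.one_rpow, one_mul] at h1

theorem abs_cpair_le {P : Finset ℕ} (h : Anti P) (σ : ℕ → ℝ) (hσ : ∀ J, |σ J| ≤ 1) (f : E p) :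
    |cpair p P σ f| ≤ ‖f‖ := by
  rw [cpair_eq]
  refine (abs_integral_le_integral_abs).trans ((integral_mono_of_nonneg
    (Eventually.of_forall fun _ => abs_nonneg _) (integrable_E p f).abs
    (Eventually.of_forall fun x => ?_)).trans (integral_abs_le p f))
  simp only
  rw [abs_mul]
  exact mul_le_of_le_one_right (abs_nonneg _) (nrm_TX_le h σ hσ x)

theorem cpair_En {P : Finset ℕ} (h : Anti P) (σ : ℕ → ℝ) {L : ℕ} (hL : ∀ J ∈ P, L ≤ lv J) (f : E p) :
    cpair p P σ (En p L f) = 0 := by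
  unfold cpair
  rw [sum_apply]
  refine Finset.sum_eq_zero fun J hJ => ?_
  rw [smul_apply, En_eq, map_sum, Finset.sum_eq_zero, smul_zero]
  intro r hr
  rw [map_smul, pair_hv, if_neg, smul_zero]
  rintro rfl
  have h1 := geo_pow_le (h.1 J hJ)
  have h2 : 2 ^ L ≤ 2 ^ lv J := Nat.pow_le_pow_right (by norm_num) (hL J hJ)
  have h3 := Finset.mem_range.1 hr
  omega

end Pool.Agent.T2H63.HF
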