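import Pool.Agent.T2H63.HF.PCB

/-!
# Package PART (75-100 min): an additive function from the diagonal

Pure combinatorics on the binary tree of the nodes `s ≥ 1` (children `2s`, `2s+1`).  For a node `s` and `L` let
`S_L(s)` be the set of the sums `∑_{J ∈ Q} d_J len J` over all `Q` with `Part L s Q` (nonempty, bounded by `M len s`: PCB `Part.sum`
for `len`), and `Λ_L(s) = sup S_L(s)`.  For `L > lv s` every `Q` splits, so `Λ_L(s) = Λ_L(2s) + Λ_L(2s+1)`.  `Λ_L(s)` decreases in `L`;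
`Λ(s) = inf_L Λ_L(s)` (the limit) is additive, `|Λ(s)| ≤ M len s`, and for all `s, η, L` there is `Q` as required (take `L' ≥ L` with
`Λ_{L'}(s) ≤ Λ(s) + η` and `Q` with sum `≥ Λ_{L'}(s) - η ≥ Λ(s) - η`).
Doing the same for `-d` gives `Λ⁻`.  Claim: some `s0 ≥ 1` has `Λ(s0) ≥ δ/2 len s0` or `Λ⁻(s0) ≥ δ/2 len s0` (in the second case the answer is
`-Λ⁻`).  Suppose not.  From `Λ⁻(s) < δ/2 len s`: for all large `L` every `Q` with `Part L s Q` has `∑_Q d_J len J > - δ/2 len s`; take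
`Q` = all the nodes of level `L' ≥ L` below `s`; the nodes of `Q` with `d_J > 0` (so `≥ δ`, the others are `≤ -δ`) have total length
`≥ κ len s`, `κ = (δ/2)/(M + δ)`.  Iterating on the other nodes: for every `s`, `L` and `r` there is `Q`, `Part L s Q`, such that the nodes with
`d_J < 0` have total length `≤ (1-κ)^r len s` (induction on `r`).  Then `∑_Q d_J len J ≥ (δ - (δ + M)(1-κ)^r) len s`, so that
`Λ_L(s) ≥ δ len s` for all `L`, and `Λ(s) ≥ δ len s > δ/2 len s`: contradiction.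
-/

open MeasureTheory Filter Topology
open scoped ENNReal BoundedContinuousFunction

set_option linter.unusedSectionVars false

namespace Pool.Agent.T2H63.HF

namespace PkgPART

theorem nodisj {s J : ℕ} (hs : 1 ≤ s) (h1 : Blw (2 * s) J) (h2 : Blw (2 * s + 1) J) : False := by
  obtain ⟨i, hi⟩ := h1
  obtain ⟨j, hj⟩ := h2
  rcases le_total i j with h | h
  · obtain ⟨k, rfl⟩ := Nat.exists_eq_add_of_le h
    rw [pow_add, ← Nat.div_div_eq_div_mul, hi] at hj
    have : 2 * s / 2 ^ k ≤ 2 * s := Nat.div_le_self _ _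
    omega
  · obtain ⟨k, rfl⟩ := Nat.exists_eq_add_of_le h
    rw [pow_add, ← Nat.div_div_eq_div_mul, hj] at hi
    rcases Nat.eq_zero_or_pos k with hk | hk
    · subst hk
      simp at hi
    · obtain ⟨l, rfl⟩ := Nat.exists_eq_add_of_le' hk
      rw [pow_succ', ← Nat.div_div_eq_div_mul] at hi
      have h3 : (2 * s + 1) / 2 = s := by omega
      rw [h3] at hi
      have : s / 2 ^ l ≤ s := Nat.div_le_self _ _
      omega

theorem part_disj {L s : ℕ} (hs : 1 ≤ s) {P Q : Finset ℕ} (hP : Part L (2 * s) P)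
    (hQ : Part L (2 * s + 1) Q) : Disjoint P Q := by
  rw [Finset.disjoint_left]
  intro J h1 h2
  exact nodisj hs (hP.level J h1).2 (hQ.level J h2).2

theorem exists_part : ∀ (n L s : ℕ), 1 ≤ s → L ≤ lv s + n → ∃ Q, Part L s Q := by
  intro n
  induction n with
  | zero =>
    intro L s hs h
    exact ⟨{s}, Part.leaf s hs h⟩
  | succ n ih =>
    intro L s hs h
    obtain ⟨P, hP⟩ := ih L (2 * s) (by omega) (by rw [lv_two_mul hs]; omega)
    obtain ⟨Q, hQ⟩ := ih L (2 * s + 1) (by omega) (by rw [lv_two_mul_add_one hs]; omega)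
    exact ⟨P ∪ Q, Part.node s P Q hs hP hQ⟩

theorem exists_part' (L : ℕ) {s : ℕ} (hs : 1 ≤ s) : ∃ Q, Part L s Q :=
  exists_part L L s hs (by omega)

/-- refinement of a partition -/
theorem part_bind {L s : ℕ} {Q : Finset ℕ} (h : Part L s Q) (f : ℕ → Finset ℕ)
    (hf : ∀ J ∈ Q, Part L J (f J)) : Part L s (Q.biUnion f) := by
  induction h with
  | leaf s hs hL =>
    rw [Finset.singleton_biUnion]
    exact hf s (Finset.mem_singleton_self s)
  | node s P Q hs _ _ ihP ihQ =>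
    rw [Finset.union_biUnion]
    exact Part.node s _ _ hs (ihP fun J hJ => hf J (Finset.mem_union_left _ hJ))
      (ihQ fun J hJ => hf J (Finset.mem_union_right _ hJ))

/-- the sums over partitions -/
def SS (d : ℕ → ℝ) (L s : ℕ) : Set ℝ := {r | ∃ Q, Part L s Q ∧ r = ∑ J ∈ Q, d J * len J}

theorem len_pos (s : ℕ) : 0 < len s := by
  unfold len
  positivity

theorem sum_bdd {d : ℕ → ℝ} {M : ℝ} (hM : ∀ s, 1 ≤ s → |d s| ≤ M) {L s : ℕ} {Q : Finset ℕ}
    (h : Part L s Q) : |∑ J ∈ Q, d J * len J| ≤ M * len s := by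
  have h1 := h.sum len (fun s hs => len_add hs)
  rw [← h1, Finset.mul_sum]
  refine (Finset.abs_sum_le_sum_abs _ _).trans (Finset.sum_le_sum fun J hJ => ?_)
  rw [abs_mul, abs_of_pos (len_pos J)]
  exact mul_le_mul_of_nonneg_right (hM J (h.one_le.2 J hJ)) (len_pos J).le

theorem SS_nonempty (d : ℕ → ℝ) (L : ℕ) {s : ℕ} (hs : 1 ≤ s) : (SS d L s).Nonempty := by
  obtain ⟨Q, hQ⟩ := exists_part' L hs
  exact ⟨_, Q, hQ, rfl⟩

theorem SS_bdd {d : ℕ → ℝ} {M : ℝ} (hM : ∀ s, 1 ≤ s → |d s| ≤ M) (L s : ℕ) :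
    BddAbove (SS d L s) := by
  refine ⟨M * len s, ?_⟩
  rintro _ ⟨Q, hQ, rfl⟩
  exact (abs_le.1 (sum_bdd hM hQ)).2

theorem SS_mono (d : ℕ → ℝ) {L L' : ℕ} (h : L ≤ L') (s : ℕ) : SS d L' s ⊆ SS d L s := by
  rintro _ ⟨Q, hQ, rfl⟩
  exact ⟨Q, hQ.mono h, rfl⟩

open Pointwise in
theorem SS_add (d : ℕ → ℝ) {L s : ℕ} (hs : 1 ≤ s) (hL : lv s < L) :
    SS d L s = SS d L (2 * s) + SS d L (2 * s + 1) := by
  ext r
  rw [Set.mem_add]
  constructor
  · rintro ⟨Q, hQ, rfl⟩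
    cases hQ with
    | leaf _ _ h => omega
    | node _ P Q _ hP hQ =>
      exact ⟨_, ⟨P, hP, rfl⟩, _, ⟨Q, hQ, rfl⟩, (Finset.sum_union (part_disj hs hP hQ)).symm⟩
  · rintro ⟨_, ⟨P, hP, rfl⟩, _, ⟨Q, hQ, rfl⟩, rfl⟩
    exact ⟨P ∪ Q, Part.node s P Q hs hP hQ, (Finset.sum_union (part_disj hs hP hQ)).symm⟩

/-- the additive function -/
theorem exists_add (d : ℕ → ℝ) {M : ℝ} (hM : ∀ s, 1 ≤ s → |d s| ≤ M) :
    ∃ Λ : ℕ → ℝ, (∀ s, 1 ≤ s → Λ s = Λ (2 * s) + Λ (2 * s + 1)) ∧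
      (∀ s, 1 ≤ s → |Λ s| ≤ M * len s) ∧
      (∀ s, 1 ≤ s → ∀ η, 0 < η → ∀ L, ∃ Q, Part L s Q ∧ |∑ J ∈ Q, d J * len J - Λ s| ≤ η) ∧
      (∀ s, 1 ≤ s → ∀ c, (∀ L, ∃ Q, Part L s Q ∧ c ≤ ∑ J ∈ Q, d J * len J) → c ≤ Λ s) := by
  set T : ℕ → ℕ → ℝ := fun s L => sSup (SS d L s) with hT
  have hanti : ∀ s, 1 ≤ s → Antitone (T s) := fun s hs L L' h =>
    csSup_le_csSup (SS_bdd hM L s) (SS_nonempty d L' hs) (SS_mono d h s)
  have hlow : ∀ s, 1 ≤ s → ∀ L, -(M * len s) ≤ T s L := by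
    intro s hs L
    obtain ⟨r, hr⟩ := SS_nonempty d L hs
    have h1 := le_csSup (SS_bdd hM L s) hr
    obtain ⟨Q, hQ, rfl⟩ := hr
    exact (abs_le.1 (sum_bdd hM hQ)).1.trans h1
  have hup : ∀ s, 1 ≤ s → ∀ L, T s L ≤ M * len s := by
    intro s hs L
    refine csSup_le (SS_nonempty d L hs) ?_
    rintro _ ⟨Q, hQ, rfl⟩
    exact (abs_le.1 (sum_bdd hM hQ)).2
  have hbb : ∀ s, 1 ≤ s → BddBelow (Set.range (T s)) := fun s hs =>
    ⟨-(M * len s), by rintro _ ⟨L, rfl⟩; exact hlow s hs L⟩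
  have hlim : ∀ s, 1 ≤ s → Tendsto (T s) atTop (𝓝 (⨅ L, T s L)) := fun s hs =>
    tendsto_atTop_ciInf (hanti s hs) (hbb s hs)
  refine ⟨fun s => ⨅ L, T s L, ?_, ?_, ?_, ?_⟩
  · intro s hs
    have h1 := hlim s hs
    have h2 := (hlim (2 * s) (by omega)).add (hlim (2 * s + 1) (by omega))
    refine tendsto_nhds_unique h1 (h2.congr' ?_)
    filter_upwards [eventually_gt_atTop (lv s)] with L hL
    simp only [hT]
    rw [SS_add d hs hL]
    exact (csSup_add (SS_nonempty d L (by omega)) (SS_bdd hM L _) (SS_nonempty d L (by omega))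
      (SS_bdd hM L _)).symm
  · intro s hs
    rw [abs_le]
    exact ⟨le_ciInf (hlow s hs), (ciInf_le (hbb s hs) 0).trans (hup s hs 0)⟩
  · intro s hs η hη L
    have h1 := (hlim s hs).eventually (gt_mem_nhds (lt_add_of_pos_right (⨅ L, T s L) hη))
    obtain ⟨L', h2, h3⟩ := (h1.and (eventually_ge_atTop L)).exists
    have h4 : (⨅ L, T s L) ≤ T s L' := ciInf_le (hbb s hs) L'
    obtain ⟨r, hr, h5⟩ := exists_lt_of_lt_csSup (SS_nonempty d L' hs)
      (show T s L' - η < sSup (SS d L' s) by simp only [hT]; linarith)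
    have h6 : r ≤ T s L' := le_csSup (SS_bdd hM L' s) hr
    obtain ⟨Q, hQ, rfl⟩ := hr
    refine ⟨Q, hQ.mono h3, ?_⟩
    rw [abs_le]
    constructor <;> linarith
  · intro s hs c h
    refine le_ciInf fun L => ?_
    obtain ⟨Q, hQ, h1⟩ := h L
    exact h1.trans (le_csSup (SS_bdd hM L s) ⟨Q, hQ, rfl⟩)

theorem sum_biUnion_le {f : ℕ → ℝ} (hf : ∀ J, 0 ≤ f J) (Q : Finset ℕ) (t : ℕ → Finset ℕ) :
    ∑ x ∈ Q.biUnion t, f x ≤ ∑ x ∈ Q, ∑ y ∈ t x, f y := by
  induction Q using Finset.induction_on with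
  | empty => simp
  | insert a Q ha ih =>
    rw [Finset.biUnion_insert, Finset.sum_insert ha]
    have h := Finset.sum_union_inter (s₁ := t a) (s₂ := Q.biUnion t) (f := f)
    have h2 : 0 ≤ ∑ x ∈ t a ∩ Q.biUnion t, f x := Finset.sum_nonneg fun _ _ => hf _
    linarith

end PkgPART

open PkgPART

theorem PART (d : ℕ → ℝ) (δ M : ℝ) (hδ : 0 < δ) (hd : ∀ s, 1 ≤ s → δ ≤ |d s|)
    (hM : ∀ s, 1 ≤ s → |d s| ≤ M) :
    ∃ (s0 : ℕ) (Λ : ℕ → ℝ), 1 ≤ s0 ∧ (∀ s, 1 ≤ s → Λ s = Λ (2 * s) + Λ (2 * s + 1)) ∧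
      (∀ s, 1 ≤ s → |Λ s| ≤ M * len s) ∧ δ / 2 * len s0 ≤ |Λ s0| ∧
      ∀ s, 1 ≤ s → ∀ η, 0 < η → ∀ L, ∃ Q, Part L s Q ∧ |∑ J ∈ Q, d J * len J - Λ s| ≤ η := by
  obtain ⟨Λ, h1, h2, h3, h4⟩ := exists_add d hM
  have hM' : ∀ s, 1 ≤ s → |(-d s)| ≤ M := fun s hs => by rw [abs_neg]; exact hM s hs
  obtain ⟨Λ', h1', h2', h3', h4'⟩ := exists_add (fun s => - d s) hM'
  by_cases hA : ∃ s, 1 ≤ s ∧ δ / 2 * len s ≤ Λ' s
  · obtain ⟨s0, hs0, h⟩ := hA
    refine ⟨s0, fun s => - Λ' s, hs0, fun s hs => ?_, fun s hs => ?_, ?_, fun s hs η hη L => ?_⟩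
    · simp only
      rw [h1' s hs]
      ring
    · rw [abs_neg]
      exact h2' s hs
    · rw [abs_neg]
      exact h.trans (le_abs_self _)
    · obtain ⟨Q, hQ, h5⟩ := h3' s hs η hη L
      refine ⟨Q, hQ, ?_⟩
      have e : ∑ J ∈ Q, d J * len J - - Λ' s = -(∑ J ∈ Q, - d J * len J - Λ' s) := by
        simp only [neg_mul, Finset.sum_neg_distrib]
        ring
      rw [e, abs_neg]
      exact h5
  · push Not at hA
    -- everything from `Λ' s < δ / 2 * len s`
    refine ⟨1, Λ, le_rfl, h1, h2, ?_, h3⟩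
    refine le_trans ?_ (le_abs_self _)
    have hMδ : δ ≤ M := (hd 1 le_rfl).trans (hM 1 le_rfl)
    set κ : ℝ := (δ / 2) / (M + δ) with hκ
    have hκ0 : 0 < κ := div_pos (by linarith) (by linarith)
    have hκ1 : κ < 1 := by
      rw [hκ, div_lt_one (by linarith)]
      linarith
    set ng : ℕ → ℝ := fun J => if d J < 0 then len J else 0 with hng
    have hng0 : ∀ J, 0 ≤ ng J := by
      intro J
      simp only [hng]
      split_ifs
      · exact (len_pos J).le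
      · exact le_rfl
    -- pointwise bounds
    have hpt1 : ∀ J, 1 ≤ J → d J * len J ≤ M * (len J - ng J) - δ * ng J := by
      intro J hJ
      have a1 := hd J hJ
      have a2 := hM J hJ
      have a3 := len_pos J
      simp only [hng]
      split_ifs with h
      · rw [abs_of_neg h] at a1
        nlinarith
      · rw [abs_of_nonneg (not_lt.1 h)] at a2
        nlinarith
    have hpt2 : ∀ J, 1 ≤ J → δ * (len J - ng J) - M * ng J ≤ d J * len J := by
      intro J hJ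
      have a1 := hd J hJ
      have a2 := hM J hJ
      have a3 := len_pos J
      simp only [hng]
      split_ifs with h
      · rw [abs_of_neg h] at a2
        nlinarith
      · rw [abs_of_nonneg (not_lt.1 h)] at a1
        nlinarith
    -- one step
    have stepA : ∀ s, 1 ≤ s → ∀ L, ∃ Q, Part L s Q ∧ ∑ J ∈ Q, ng J ≤ (1 - κ) * len s := by
      intro s hs L
      have hex : ∃ L0, ∀ Q, Part L0 s Q → ∑ J ∈ Q, (- d J) * len J < δ / 2 * len s := by
        by_contra hcon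
        push Not at hcon
        exact absurd (h4' s hs _ hcon) (not_le.2 (hA s hs))
      obtain ⟨L0, hL0⟩ := hex
      obtain ⟨Q, hQ⟩ := exists_part' (max L L0) hs
      refine ⟨Q, hQ.mono (le_max_left _ _), ?_⟩
      have b1 := hL0 Q (hQ.mono (le_max_right _ _))
      have b2 : ∑ J ∈ Q, len J = len s := hQ.sum len fun s hs => len_add hs
      have b3 : ∑ J ∈ Q, d J * len J ≤ M * (len s - ∑ J ∈ Q, ng J) - δ * ∑ J ∈ Q, ng J := by
        rw [← b2, ← Finset.sum_sub_distrib, Finset.mul_sum, Finset.mul_sum, ← Finset.sum_sub_distrib]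
        exact Finset.sum_le_sum fun J hJ => hpt1 J (hQ.one_le.2 J hJ)
      simp only [neg_mul, Finset.sum_neg_distrib] at b1
      have b4 : (M + δ) * ∑ J ∈ Q, ng J ≤ (M + δ / 2) * len s := by linarith
      have b5 : (1 - κ) * len s = (M + δ / 2) * len s / (M + δ) := by
        rw [hκ]
        have : M + δ ≠ 0 := by linarith
        field_simp
        ring
      rw [b5, le_div_iff₀ (by linarith), mul_comm]
      exact b4
    -- iteration
    have stepB : ∀ r s, 1 ≤ s → ∀ L, ∃ Q, Part L s Q ∧ ∑ J ∈ Q, ng J ≤ (1 - κ) ^ r * len s := by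
      intro r
      induction r with
      | zero =>
        intro s hs L
        obtain ⟨Q, hQ⟩ := exists_part' L hs
        refine ⟨Q, hQ, ?_⟩
        rw [pow_zero, one_mul, ← hQ.sum len fun s hs => len_add hs]
        refine Finset.sum_le_sum fun J _ => ?_
        simp only [hng]
        split_ifs
        · exact le_rfl
        · exact (len_pos J).le
      | succ r ih =>
        intro s hs L
        obtain ⟨Q, hQ, h5⟩ := stepA s hs L
        have hch : ∀ J, ∃ R : Finset ℕ, J ∈ Q → (Part L J R ∧ ∑ J' ∈ R, ng J' ≤ (1 - κ) ^ r * ng J) := by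
          intro J
          by_cases hJ : J ∈ Q
          · by_cases hn : d J < 0
            · obtain ⟨R, hR, h6⟩ := ih J (hQ.one_le.2 J hJ) L
              refine ⟨R, fun _ => ⟨hR, ?_⟩⟩
              simp only [hng, if_pos hn] at h6 ⊢
              exact h6
            · refine ⟨{J}, fun _ => ⟨Part.leaf J (hQ.one_le.2 J hJ) (hQ.level J hJ).1, ?_⟩⟩
              simp only [hng, Finset.sum_singleton, if_neg hn, mul_zero, le_refl]
          · exact ⟨∅, fun h => absurd h hJ⟩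
        choose R hR using hch
        refine ⟨Q.biUnion R, part_bind hQ R fun J hJ => (hR J hJ).1, ?_⟩
        calc ∑ J ∈ Q.biUnion R, ng J ≤ ∑ J ∈ Q, ∑ J' ∈ R J, ng J' := sum_biUnion_le hng0 Q R
          _ ≤ ∑ J ∈ Q, (1 - κ) ^ r * ng J := Finset.sum_le_sum fun J hJ => (hR J hJ).2
          _ = (1 - κ) ^ r * ∑ J ∈ Q, ng J := by rw [Finset.mul_sum]
          _ ≤ (1 - κ) ^ r * ((1 - κ) * len s) :=
            mul_le_mul_of_nonneg_left h5 (pow_nonneg (by linarith) _)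
          _ = (1 - κ) ^ (r + 1) * len s := by ring
    obtain ⟨r, hr⟩ := exists_pow_lt_of_lt_one (show 0 < (δ / 2) / (M + δ) from hκ0)
      (show 1 - κ < 1 by linarith)
    refine h4 1 le_rfl _ fun L => ?_
    obtain ⟨Q, hQ, h5⟩ := stepB r 1 le_rfl L
    refine ⟨Q, hQ, ?_⟩
    have b2 : ∑ J ∈ Q, len J = len 1 := hQ.sum len fun s hs => len_add hs
    have b3 : δ * (len 1 - ∑ J ∈ Q, ng J) - M * ∑ J ∈ Q, ng J ≤ ∑ J ∈ Q, d J * len J := by
      rw [← b2, ← Finset.sum_sub_distrib, Finset.mul_sum, Finset.mul_sum, ← Finset.sum_sub_distrib]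
      exact Finset.sum_le_sum fun J hJ => hpt2 J (hQ.one_le.2 J hJ)
    have b4 : (M + δ) * (1 - κ) ^ r ≤ δ / 2 := by
      have := (lt_div_iff₀ (show 0 < M + δ by linarith)).1 hr
      linarith
    have b5 : (M + δ) * ∑ J ∈ Q, ng J ≤ δ / 2 * len 1 := by
      calc (M + δ) * ∑ J ∈ Q, ng J ≤ (M + δ) * ((1 - κ) ^ r * len 1) :=
            mul_le_mul_of_nonneg_left h5 (by linarith)
        _ = (M + δ) * (1 - κ) ^ r * len 1 := by ring
        _ ≤ δ / 2 * len 1 := mul_le_mul_of_nonneg_right b4 (len_pos 1).le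
    linarith

end Pool.Agent.T2H63.HF
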