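import Pool.Agent.T2H63.HF.CE

/-!
# Package PT (75-90 min): approximation of finitely many elements of `ZZ p`

Apply CE (with `ε/2`) for every `k` to `(z_i)_k`, `i < s`: `e_{k,b}, g_{k,b}`, `b < n'`.  The numbers `c_k(i,b) = g_{k,b}((z_i)_k)` lie in
`[-1,1]` (`|g_b v| ≤ ‖v‖`).  Round them: there are a finite type `V` and `v : ℕ → V` with `|c_k(i,b) - c_l(i,b)| ≤ ε/(2 n' + 1)` if
`v k = v l`.  For `v ∈ V` with `{k : v k = v}` infinite let `U_v` be a nonprincipal ultrafilter containing this set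
(`Filter.hyperfilter`-like; `Ultrafilter.of (cofinite ⊓ 𝓟 {k | v k = v})`), put
`e_{v,b} = (e_{k,b} if v k = v, else 0)_k ∈ ZZ p` and `q_{v,b} z = lim_{U_v} g_{k,b}(z_k)` (`exists_ulim`); for the other `v` take `e = 0, q = 0`.
Case `κ = true` (`p_k → 1`): `m = |V|`, `n = n'`; `∑_b |g_{k,b}(z_k)| ≤ n'^{1 - 1/p_k} ‖z_k‖` (Hölder for sums) and `n'^{1-1/p_k} → 1`, so
`∑_b |q_{v,b} z| ≤ ‖z‖`; and `‖∑_b y_b e_{k,b}‖ ≤ (∑ |y_b|^{p_k})^{1/p_k} ≤ ∑ |y_b| ≤ 1`.
Case `κ = false` (`p_k → ∞`): `m = |V| n'`, `n = 1` (every `(v,b)` is a block); `|q_{v,b} z| ≤ ‖z‖`, and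
`‖∑_b y_{v,b} e_{k,b}‖ ≤ (∑_b |y_{v,b}|^{p_k})^{1/p_k} ≤ n'^{1/p_k} ≤ 1 + ε` for `k` large.
Third property, for `k` with `{l : v l = v k}` infinite (all but finitely many `k`): `(z_i)_k - ∑_b q_{v,b}(z_i) e_{k,b}` has norm
`≤ ε/2 + ∑_b |c_k(i,b) - q_{v,b}(z_i)| ≤ ε`.
-/

open MeasureTheory Filter Topology
open scoped ENNReal BoundedContinuousFunction

set_option linter.unusedSectionVars false

namespace Pool.Agent.T2H63.HF

namespace PkgPT

theorem lp_le_one {ι : Type*} [Fintype ι] (y : ι → ℝ) (h : ∑ b, |y b| ≤ 1) {r : ℝ} (hr : 1 ≤ r) :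
    (∑ b, |y b| ^ r) ^ (1 / r) ≤ 1 := by
  have h1 : ∀ b, |y b| ≤ 1 := fun b =>
    (Finset.single_le_sum (f := fun b => |y b|) (fun b _ => abs_nonneg (y b)) (Finset.mem_univ b)).trans h
  have h2 : ∑ b, |y b| ^ r ≤ 1 := by
    refine (Finset.sum_le_sum fun b _ => ?_).trans h
    have := Real.rpow_le_rpow_of_exponent_ge' (abs_nonneg (y b)) (h1 b) zero_le_one hr
    rwa [Real.rpow_one] at this
  exact Real.rpow_le_one (Finset.sum_nonneg fun b _ => Real.rpow_nonneg (abs_nonneg _) _) h2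
    (by positivity)

theorem lp_le_card {ι : Type*} [Fintype ι] (y : ι → ℝ) (h : ∀ b, |y b| ≤ 1) {r : ℝ} (hr : 1 ≤ r) :
    (∑ b, |y b| ^ r) ^ (1 / r) ≤ (Fintype.card ι : ℝ) ^ (1 / r) := by
  refine Real.rpow_le_rpow (Finset.sum_nonneg fun b _ => Real.rpow_nonneg (abs_nonneg _) _) ?_
    (by positivity)
  calc ∑ b, |y b| ^ r ≤ ∑ _b : ι, (1 : ℝ) := Finset.sum_le_sum fun b _ =>
        Real.rpow_le_one (abs_nonneg _) (h b) (by linarith)
    _ = _ := by simp

theorem holder {ι : Type*} [Fintype ι] (x : ι → ℝ) {r : ℝ} (hr : 1 ≤ r) :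
    ∑ b, |x b| ≤ (Fintype.card ι : ℝ) ^ (1 - 1 / r) * (∑ b, |x b| ^ r) ^ (1 / r) := by
  have h := Real.rpow_sum_le_const_mul_sum_rpow (Finset.univ : Finset ι) x hr
  have hr0 : r ≠ 0 := by linarith
  have hS : 0 ≤ ∑ b, |x b| := Finset.sum_nonneg fun b _ => abs_nonneg _
  have hT : 0 ≤ ∑ b, |x b| ^ r := Finset.sum_nonneg fun b _ => Real.rpow_nonneg (abs_nonneg _) _
  have h2 := Real.rpow_le_rpow (Real.rpow_nonneg hS r) h (show 0 ≤ 1 / r by positivity)
  rw [← Real.rpow_mul hS, mul_one_div_cancel hr0, Real.rpow_one,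
    Real.mul_rpow (by positivity) hT, ← Real.rpow_mul (by positivity)] at h2
  have e : (r - 1) * (1 / r) = 1 - 1 / r := by
    field_simp
  rw [e, Finset.card_univ] at h2
  exact h2

theorem toReal_ge {p : ℝ≥0∞} (h1 : 1 ≤ p) (h2 : p ≠ ∞) : 1 ≤ p.toReal := by
  have := ENNReal.toReal_mono h2 h1
  simpa using this

theorem tendsto_true {p : ℕ → ℝ≥0∞} (h : Tendsto p atTop (𝓝 1)) {n : ℕ} (hn : 0 < n) :
    Tendsto (fun k => (n : ℝ) ^ (1 - 1 / (p k).toReal)) atTop (𝓝 1) := by
  have h1 : Tendsto (fun k => (p k).toReal) atTop (𝓝 1) := by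
    have := (ENNReal.tendsto_toReal ENNReal.one_ne_top).comp h
    simpa [Function.comp_def] using this
  have h2 : Tendsto (fun k => 1 - 1 / (p k).toReal) atTop (𝓝 0) := by
    have := (tendsto_const_nhds (x := (1 : ℝ))).sub ((tendsto_const_nhds (x := (1 : ℝ))).div h1 one_ne_zero)
    simpa using this
  have h3 := (Real.continuous_const_rpow (a := (n : ℝ)) (by positivity)).tendsto 0
  rw [Real.rpow_zero] at h3
  exact h3.comp h2

theorem tendsto_false {p : ℕ → ℝ≥0∞} (h : Tendsto p atTop (𝓝 ∞)) {n : ℕ} (hn : 0 < n) :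
    Tendsto (fun k => (n : ℝ) ^ (1 / (p k).toReal)) atTop (𝓝 1) := by
  have h1 : Tendsto (fun k => 1 / (p k).toReal) atTop (𝓝 0) := by
    have h4 : Tendsto (fun k => (p k)⁻¹) atTop (𝓝 0) := by
      have := tendsto_inv_iff.2 h
      simpa using this
    have := (ENNReal.tendsto_toReal ENNReal.zero_ne_top).comp h4
    simpa [ENNReal.toReal_inv, Function.comp_def] using this
  have h3 := (Real.continuous_const_rpow (a := (n : ℝ)) (by positivity)).tendsto 0
  rw [Real.rpow_zero] at h3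
  exact h3.comp h1

end PkgPT

open PkgPT

theorem PT (κ : Bool) (p : ℕ → ℝ≥0∞) [∀ k, Fact (1 ≤ p k)] (hp : ∀ k, p k ≠ ∞) (hκ : Lim κ p)
    {s : ℕ} (z : Fin s → ZZ p) (hz : ∀ i, ‖z i‖ ≤ 1) (ε : ℝ) (hε : 0 < ε) :
    ∃ (m n : ℕ), Good κ n ∧ ∃ (e : Fin m → Fin n → ZZ p) (q : Fin m → Fin n → ZZ p →L[ℝ] ℝ),
      (∀ z u, ∑ b, |q u b z| ≤ ‖z‖) ∧
      (∃ K, ∀ k, K ≤ k → ∀ y, Ball y → ‖ev p k (∑ u, ∑ b, y u b • e u b)‖ ≤ 1 + ε) ∧
      ∃ K, ∀ k, K ≤ k → ∀ i, ‖ev p k (z i - ∑ u, ∑ b, q u b (z i) • e u b)‖ ≤ ε := by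
  classical
  obtain ⟨n', hCE⟩ := CE s (ε / 2) (by positivity)
  have hfn : ∀ k i, ‖(z i) k‖ ≤ 1 := fun k i => (norm_coord_le p (z i) k).trans (hz i)
  choose e g h1 h2 h3 using fun k => hCE (p k) (hp k) (fun i => (z i) k) (hfn k)
  have hr : ∀ k, 1 ≤ (p k).toReal := fun k => toReal_ge Fact.out (hp k)
  have he1 : ∀ k b, ‖e k b‖ ≤ 1 := by
    intro k b
    have h := h1 k (Pi.single b 1)
    have e1 : ∑ b', (Pi.single b (1 : ℝ) : Fin n' → ℝ) b' • e k b' = e k b := by
      rw [Finset.sum_eq_single b]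
      · rw [Pi.single_eq_same, one_smul]
      · intro b' _ hne
        rw [Pi.single_eq_of_ne hne, zero_smul]
      · intro h
        exact absurd (Finset.mem_univ b) h
    rw [e1] at h
    refine h.trans (lp_le_one _ (le_of_eq ?_) (hr k))
    rw [Finset.sum_eq_single b]
    · rw [Pi.single_eq_same, abs_one]
    · intro b' _ hne
      rw [Pi.single_eq_of_ne hne, abs_zero]
    · intro h
      exact absurd (Finset.mem_univ b) h
  have hg1 : ∀ k b (v : E (p k)), |g k b v| ≤ ‖v‖ := by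
    intro k b v
    refine le_trans ?_ (h2 k v)
    have hr0 : (p k).toReal ≠ 0 := by linarith [hr k]
    have h5 : |g k b v| ^ (p k).toReal ≤ ∑ b, |g k b v| ^ (p k).toReal :=
      Finset.single_le_sum (f := fun b => |g k b v| ^ (p k).toReal)
        (fun b _ => Real.rpow_nonneg (abs_nonneg _) _) (Finset.mem_univ b)
    have h6 := Real.rpow_le_rpow (Real.rpow_nonneg (abs_nonneg _) _) h5
      (show 0 ≤ 1 / (p k).toReal by positivity)
    rwa [← Real.rpow_mul (abs_nonneg _), mul_one_div_cancel hr0, Real.rpow_one] at h6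
  -- rounding
  set c : ℕ → (Fin s → Fin n' → ℝ) := fun k i b => g k b ((z i) k) with hc
  set δ : ℝ := ε / (4 * (n' + 1)) with hδ
  have hδ0 : 0 < δ := by positivity
  have hcov : ∃ t : Finset (Fin s → Fin n' → ℝ), ∀ k, ∃ y ∈ t, dist (c k) y < δ := by
    obtain ⟨t, _, ht, hcov⟩ := (isCompact_closedBall (0 : Fin s → Fin n' → ℝ) 1).finite_cover_balls hδ0
    refine ⟨ht.toFinset, fun k => ?_⟩
    have h5 : c k ∈ Metric.closedBall (0 : Fin s → Fin n' → ℝ) 1 := by
      rw [mem_closedBall_zero_iff, pi_norm_le_iff_of_nonneg zero_le_one]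
      intro i
      rw [pi_norm_le_iff_of_nonneg zero_le_one]
      intro b
      exact (hg1 k b _).trans (hfn k i)
    obtain ⟨y, hy, hd⟩ := Set.mem_iUnion₂.1 (hcov h5)
    exact ⟨y, ht.mem_toFinset.2 hy, hd⟩
  obtain ⟨t, ht⟩ := hcov
  choose v hv hvd using ht
  set vv : ℕ → t := fun k => ⟨v k, hv k⟩ with hvv
  have hclose : ∀ k l, vv k = vv l → ∀ i b, |c k i b - c l i b| ≤ 2 * δ := by
    intro k l h i b
    have h5 : v k = v l := congrArg Subtype.val h
    have h6 : dist (c k) (c l) ≤ 2 * δ := by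
      have h7 := dist_triangle_right (c k) (c l) (v k)
      have h8 := hvd l
      rw [← h5] at h8
      linarith [hvd k]
    have h7 := (dist_le_pi_dist (c k i) (c l i) b).trans (dist_le_pi_dist (c k) (c l) i)
    rw [Real.dist_eq] at h7
    linarith
  -- the functionals
  have hQ : ∀ w : t, ∃ q : Fin n' → ZZ p →L[ℝ] ℝ, (∀ b z, |q b z| ≤ ‖z‖) ∧
      (κ = true → ∀ z, ∑ b, |q b z| ≤ ‖z‖) ∧
      ({k | vv k = w}.Infinite → ∀ k, vv k = w → ∀ i b, |c k i b - q b (z i)| ≤ 2 * δ) := by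
    intro w
    by_cases hinf : {k | vv k = w}.Infinite
    · have : (cofinite ⊓ 𝓟 {k | vv k = w}).NeBot := hinf.cofinite_inf_principal_neBot
      set U : Ultrafilter ℕ := Ultrafilter.of (cofinite ⊓ 𝓟 {k | vv k = w}) with hU
      have hUle : (U : Filter ℕ) ≤ cofinite ⊓ 𝓟 {k | vv k = w} := Ultrafilter.of_le _
      have hU1 : (U : Filter ℕ) ≤ atTop := by
        rw [← Nat.cofinite_eq_atTop]
        exact hUle.trans inf_le_left
      have hU2 : ∀ᶠ k in (U : Filter ℕ), vv k = w :=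
        (hUle.trans inf_le_right) (mem_principal_self _)
      choose q hq1 hq2 using fun b => exists_ulim U (fun k => (g k b).comp (ev p k)) 1 (fun k y => by
        rw [one_mul]
        exact (hg1 k b _).trans (norm_coord_le p y k))
      refine ⟨q, fun b z => by simpa using hq1 b z, fun hk z => ?_, fun _ k hk i b => ?_⟩
      · rcases Nat.eq_zero_or_pos n' with h0 | h0
        · subst h0
          simp
        · have hp1 : Tendsto p atTop (𝓝 1) := by
            have := hκ
            rwa [Lim, if_pos hk] at this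
          have h5 := ((tendsto_true hp1 h0).mono_left hU1).mul_const ‖z‖
          rw [one_mul] at h5
          have h6 : Tendsto (fun k => ∑ b, |((g k b).comp (ev p k)) z|) U (𝓝 (∑ b, |q b z|)) :=
            tendsto_finsetSum _ fun b _ => (hq2 b z).abs
          refine le_of_tendsto_of_tendsto h6 h5 (Eventually.of_forall fun k => ?_)
          have h7 := holder (fun b => g k b (z k)) (hr k)
          rw [Fintype.card_fin] at h7
          refine h7.trans (mul_le_mul_of_nonneg_left ((h2 k _).trans (norm_coord_le p z k)) ?_)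
          positivity
      · have h5 : Tendsto (fun l => |c k i b - ((g l b).comp (ev p l)) (z i)|) U
            (𝓝 |c k i b - q b (z i)|) := ((tendsto_const_nhds).sub (hq2 b (z i))).abs
        refine le_of_tendsto h5 ?_
        filter_upwards [hU2] with l hl
        exact hclose k l (hk.trans hl.symm) i b
    · refine ⟨0, fun b z => by simp, fun _ z => by simp, fun h => absurd h hinf⟩
  choose Q hQ1 hQ2 hQ3 using hQ
  -- the elements
  set F : t → Fin n' → ZZ p := fun w b => mkZ p (fun k => if vv k = w then e k b else 0) 1 (fun k => by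
    split_ifs
    · exact he1 k b
    · simp) with hF
  have hcoord : ∀ (y : t → Fin n' → ℝ) k, ev p k (∑ w, ∑ b, y w b • F w b) =
      ∑ b, y (vv k) b • e k b := by
    intro y k
    rw [map_sum, Finset.sum_eq_single (vv k)]
    · rw [map_sum]
      refine Finset.sum_congr rfl fun b _ => ?_
      rw [map_smul, ev_apply]
      simp only [hF]
      rw [mkZ_apply, if_pos rfl]
    · intro w _ hne
      rw [map_sum]
      refine Finset.sum_eq_zero fun b _ => ?_
      rw [map_smul, ev_apply]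
      simp only [hF]
      rw [mkZ_apply, if_neg (fun h => hne h.symm), smul_zero]
    · intro h
      exact absurd (Finset.mem_univ _) h
  have hthird : ∃ K, ∀ k, K ≤ k → ∀ i, ‖ev p k (z i - ∑ w, ∑ b, Q w b (z i) • F w b)‖ ≤ ε := by
    have hfin : {k | ¬ {l | vv l = vv k}.Infinite}.Finite := by
      have : {k | ¬ {l | vv l = vv k}.Infinite} ⊆
          ⋃ w ∈ {w : t | ¬ {l | vv l = w}.Infinite}, {l | vv l = w} := by
        intro k hk
        exact Set.mem_iUnion₂.2 ⟨vv k, hk, rfl⟩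
      refine Set.Finite.subset ?_ this
      refine Set.Finite.biUnion (Set.toFinite _) fun w hw => ?_
      exact Set.not_infinite.1 hw
    obtain ⟨K, hK⟩ := hfin.bddAbove
    refine ⟨K + 1, fun k hk i => ?_⟩
    have hinf : {l | vv l = vv k}.Infinite := by
      by_contra hcon
      have := hK hcon
      omega
    rw [map_sub, hcoord (fun w b => Q w b (z i)) k, ev_apply]
    have e1 : (z i) k - ∑ b, Q (vv k) b (z i) • e k b = ((z i) k - ∑ b, g k b ((z i) k) • e k b) +
        ∑ b, (c k i b - Q (vv k) b (z i)) • e k b := by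
      simp only [sub_smul, Finset.sum_sub_distrib, hc]
      abel
    rw [e1]
    refine (norm_add_le _ _).trans ?_
    have h5 : ‖∑ b, (c k i b - Q (vv k) b (z i)) • e k b‖ ≤ ∑ _b : Fin n', 2 * δ := by
      refine (norm_sum_le _ _).trans (Finset.sum_le_sum fun b _ => ?_)
      rw [norm_smul, Real.norm_eq_abs]
      calc |c k i b - Q (vv k) b (z i)| * ‖e k b‖ ≤ (2 * δ) * 1 :=
            mul_le_mul (hQ3 (vv k) hinf k rfl i b) (he1 k b) (norm_nonneg _) (by positivity)
        _ = 2 * δ := mul_one _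
    rw [Finset.sum_const, Finset.card_univ, Fintype.card_fin, nsmul_eq_mul] at h5
    have h6 : (n' : ℝ) * (2 * δ) ≤ ε / 2 := by
      rw [hδ]
      have h7 : (0 : ℝ) < n' + 1 := by positivity
      have e2 : (n' : ℝ) * (2 * (ε / (4 * (n' + 1)))) = (ε / 2) * (n' / (n' + 1)) := by
        field_simp
        ring
      rw [e2]
      have h8 : (n' : ℝ) / (n' + 1) ≤ 1 := by
        rw [div_le_one h7]
        linarith
      nlinarith
    linarith [h3 k i]
  -- assembly
  cases κ with
  | true =>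
    refine ⟨Fintype.card t, n', Or.inl rfl, fun u b => F ((Fintype.equivFin t).symm u) b,
      fun u b => Q ((Fintype.equivFin t).symm u) b, fun z u => hQ2 _ rfl z, ⟨0, fun k _ y hy => ?_⟩, ?_⟩
    · have e1 : ∑ u, ∑ b, y u b • F ((Fintype.equivFin t).symm u) b =
          ∑ w, ∑ b, y (Fintype.equivFin t w) b • F w b := by
        rw [← Equiv.sum_comp (Fintype.equivFin t)]
        simp only [Equiv.symm_apply_apply]
      rw [e1, hcoord (fun w b => y (Fintype.equivFin t w) b) k]
      have h5 := (h1 k (fun b => y (Fintype.equivFin t (vv k)) b)).trans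
        (lp_le_one _ (hy _) (hr k))
      linarith
    · obtain ⟨K, hK⟩ := hthird
      refine ⟨K, fun k hk i => ?_⟩
      have e1 : ∑ u, ∑ b, Q ((Fintype.equivFin t).symm u) b (z i) • F ((Fintype.equivFin t).symm u) b =
          ∑ w, ∑ b, Q w b (z i) • F w b := by
        rw [← Equiv.sum_comp (Fintype.equivFin t)]
        simp only [Equiv.symm_apply_apply]
      rw [e1]
      exact hK k hk i
  | false =>
    set τ := Fintype.equivFin (t × Fin n') with hτ
    refine ⟨Fintype.card (t × Fin n'), 1, Or.inr rfl, fun u _ => F (τ.symm u).1 (τ.symm u).2,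
      fun u _ => Q (τ.symm u).1 (τ.symm u).2, fun z u => ?_, ?_, ?_⟩
    · simp only [Finset.univ_unique, Finset.sum_singleton]
      exact hQ1 _ _ z
    · have hk : ∃ K, ∀ k, K ≤ k → (n' : ℝ) ^ (1 / (p k).toReal) ≤ 1 + ε := by
        rcases Nat.eq_zero_or_pos n' with h0 | h0
        · refine ⟨0, fun k _ => ?_⟩
          rw [h0, Nat.cast_zero, Real.zero_rpow]
          · linarith
          · have := hr k
            positivity
        · have hp1 : Tendsto p atTop (𝓝 ∞) := by
            have := hκ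
            rwa [Lim, if_neg (by decide)] at this
          have h5 := (tendsto_false hp1 h0).eventually (ge_mem_nhds (show (1 : ℝ) < 1 + ε by linarith))
          exact eventually_atTop.1 h5
      obtain ⟨K, hK⟩ := hk
      refine ⟨K, fun k hk y hy => ?_⟩
      have e1 : ∑ u, ∑ b : Fin 1, y u b • F (τ.symm u).1 (τ.symm u).2 =
          ∑ w, ∑ b, y (τ (w, b)) 0 • F w b := by
        rw [← Equiv.sum_comp τ, Fintype.sum_prod_type]
        simp only [Equiv.symm_apply_apply, Finset.univ_unique, Finset.sum_singleton]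
        rfl
      rw [e1, hcoord (fun w b => y (τ (w, b)) 0) k]
      refine (h1 k _).trans ((lp_le_card _ (fun b => ?_) (hr k)).trans ?_)
      · have := hy (τ (vv k, b))
        simpa using this
      · rw [Fintype.card_fin]
        exact hK k hk
    · obtain ⟨K, hK⟩ := hthird
      refine ⟨K, fun k hk i => ?_⟩
      have e1 : ∑ u, ∑ b : Fin 1, Q (τ.symm u).1 (τ.symm u).2 (z i) • F (τ.symm u).1 (τ.symm u).2 =
          ∑ w, ∑ b, Q w b (z i) • F w b := by
        rw [← Equiv.sum_comp τ, Fintype.sum_prod_type]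
        simp only [Equiv.symm_apply_apply, Finset.univ_unique, Finset.sum_singleton]
      rw [e1]
      exact hK k hk i

end Pool.Agent.T2H63.HF
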