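import Pool.Agent.T2H63.HF.PCB

/-!
# Package TR1 (45-75 min): the sets of a tree

`h : IsTree s0 L P N σ`, `A s = TA N s = ⋃_{J ∈ N s} I J`, `X = TX (P 0) (σ 0)`.
By induction on `s ≥ 1` (strong induction, `s` even/odd) every `N s` is an antichain (PCB:
`Refn.anti`, `Anti.image_halves`).  `A s` is the union of the intervals `J ∈ P s`, and `A (2s)`, `A (2s+1)` contain one
half of every `J ∈ P s` each; so the measures are `len s0 * len s`.  For `J ∈ P s`, `s ≥ 1`, the function `X` is constant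
`= x0 (P 0) (σ 0) J = ± 1` on `I J` (`hfun_eq_hsgn`, `x0_eq`; `J` lies below some `a ∈ P 0`, because `P 0` is a partition of
`s0` and `N s` lies below `s0`; `fine`), and `σ_J h_J` is `σ_J` on `2J` and `-σ_J` on `2J + 1`: this gives `sum_eq`.
`star`: for `s` with `M ≤ L s` every `J' ∈ P s` is contained in or disjoint from `I J`, `lv J = M`, and
`∫_{I J'} h_{J'} = 0`; use `sum_eq` (`s ≤ L s` and `lv s ≤ s`: take `n0 = M`).
-/

open MeasureTheory Filter Topology
open scoped ENNReal BoundedContinuousFunction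

set_option linter.unusedSectionVars false

namespace Pool.Agent.T2H63.HF

namespace PkgTR1

theorem Blw_trans {a b c : ℕ} (h1 : Blw a b) (h2 : Blw b c) : Blw a c := by
  obtain ⟨i, hi⟩ := h1
  obtain ⟨j, hj⟩ := h2
  refine ⟨j + i, ?_⟩
  rw [pow_add, ← Nat.div_div_eq_div_mul, hj, hi]

theorem Blw_two_mul (a : ℕ) : Blw a (2 * a) := ⟨1, by omega⟩

theorem Blw_two_mul_add_one (a : ℕ) : Blw a (2 * a + 1) := ⟨1, by omega⟩

theorem anti_singleton {a : ℕ} (ha : 1 ≤ a) : Anti {a} := by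
  refine ⟨fun J hJ => ?_, fun J hJ J' hJ' h => ?_⟩
  · rw [Finset.mem_singleton.1 hJ]
    exact ha
  · rw [Finset.mem_singleton.1 hJ, Finset.mem_singleton.1 hJ'] at h
    exact absurd rfl h

theorem len_two_mul {s : ℕ} (hs : 1 ≤ s) : len (2 * s) = len s / 2 := by
  rw [len, len, lv_two_mul hs, pow_succ, mul_inv]
  ring

theorem len_two_mul_add_one {s : ℕ} (hs : 1 ≤ s) : len (2 * s + 1) = len s / 2 := by
  rw [len, len, lv_two_mul_add_one hs, pow_succ, mul_inv]
  ring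

theorem Part_below {L s J : ℕ} {Q : Finset ℕ} (h : Part L s Q) (hJ : 1 ≤ J) (hs : Blw s J)
    (hl : ∀ a ∈ Q, lv a ≤ lv J) : ∃ a ∈ Q, Blw a J := by
  have hs1 := h.one_le.1
  have hne : (I J).Nonempty := by
    refine ⟨((J : ℝ) - 2 ^ lv J) / 2 ^ lv J, le_rfl, ?_⟩
    exact div_lt_div_of_pos_right (by linarith) (by positivity)
  obtain ⟨x, hx⟩ := hne
  have hx2 := I_subset_of_Blw hs1 hs hx
  rw [h.union, Set.mem_iUnion₂] at hx2
  obtain ⟨a, ha, hxa⟩ := hx2
  refine ⟨a, ha, ?_⟩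
  rcases Blw_or_disjoint (h.one_le.2 a ha) hJ (hl a ha) with h1 | h1
  · exact h1
  · exact absurd hx (Set.disjoint_left.1 h1 hxa)

theorem hfun_zero {a : ℕ} (ha : 1 ≤ a) {x : ℝ} (hx : x ∉ I a) : hfun a x = 0 := by
  rw [I_split ha, Set.mem_union, not_or] at hx
  rw [hfun, if_neg (by omega), Set.indicator_of_notMem hx.1, Set.indicator_of_notMem hx.2, sub_zero]

theorem hfun_left {a : ℕ} (ha : 1 ≤ a) {x : ℝ} (hx : x ∈ I (2 * a)) : hfun a x = 1 := by
  have h2 : x ∉ I (2 * a + 1) := Set.disjoint_left.1 (I_disj ha) hx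
  rw [hfun, if_neg (by omega), Set.indicator_of_mem hx, Set.indicator_of_notMem h2, sub_zero]
  rfl

theorem hfun_right {a : ℕ} (ha : 1 ≤ a) {x : ℝ} (hx : x ∈ I (2 * a + 1)) : hfun a x = -1 := by
  have h2 : x ∉ I (2 * a) := Set.disjoint_right.1 (I_disj ha) hx
  rw [hfun, if_neg (by omega), Set.indicator_of_mem hx, Set.indicator_of_notMem h2, zero_sub]
  rfl

theorem TX_val {P : Finset ℕ} (hP : Anti P) (σ : ℕ → ℝ) {J : ℕ} (hJ : J ∈ P) {x : ℝ} (hx : x ∈ I J) :
    TX P σ x = σ J * hfun J x := by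
  rw [TX, Finset.sum_eq_single J]
  · intro b hb hne
    rw [hfun_zero (hP.1 b hb) (Set.disjoint_right.1 (hP.pairwise b hb J hJ hne) hx), mul_zero]
  · intro h
    exact absurd hJ h

theorem TX_zero {P : Finset ℕ} (hP : Anti P) (σ : ℕ → ℝ) {x : ℝ} (hx : x ∉ ⋃ J ∈ P, I J) :
    TX P σ x = 0 := by
  refine Finset.sum_eq_zero fun b hb => ?_
  rw [hfun_zero (hP.1 b hb) (fun h => hx (Set.mem_iUnion₂.2 ⟨b, hb, h⟩)), mul_zero]

end PkgTR1

open PkgTR1

theorem tree_anti {s0 : ℕ} {L : ℕ → ℕ} {P N : ℕ → Finset ℕ} {σ : ℕ → ℕ → ℝ}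
    (h : IsTree s0 L P N σ) (s : ℕ) : Anti (N s) ∧ Anti (P s) ∧ ∀ J ∈ N s, Blw s0 J := by
  have hlev : ∀ r, (∀ J ∈ N r, Blw s0 J) → ∀ J ∈ P r, Blw s0 J := by
    intro r hr J hJ
    obtain ⟨_, _, J', hJ', hb⟩ := (h.refn r).level J hJ
    exact Blw_trans (hr J' hJ') hb
  induction s using Nat.strong_induction_on with
  | _ s ih =>
    have key : Anti (N s) ∧ ∀ J ∈ N s, Blw s0 J := by
      rcases Nat.lt_or_ge s 2 with hs | hs
      · have e : N s = {s0} := by
          interval_cases s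
          · exact h.N_zero
          · exact h.N_one
        rw [e]
        refine ⟨anti_singleton h.one_le, fun J hJ => ?_⟩
        rw [Finset.mem_singleton.1 hJ]
        exact ⟨0, by simp⟩
      · rcases Nat.even_or_odd' s with ⟨r, hr | hr⟩
        · obtain ⟨i1, i2, i3⟩ := ih r (by omega)
          rw [hr, h.N_even r (by omega)]
          refine ⟨(i2.image_halves _ fun J => ?_).1, fun J hJ => ?_⟩
          · split_ifs
            · exact Or.inl rfl
            · exact Or.inr rfl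
          · obtain ⟨J', hJ', rfl⟩ := Finset.mem_image.1 hJ
            refine Blw_trans (hlev r i3 J' hJ') ?_
            split_ifs
            · exact Blw_two_mul J'
            · exact Blw_two_mul_add_one J'
        · obtain ⟨i1, i2, i3⟩ := ih r (by omega)
          rw [hr, h.N_odd r (by omega)]
          refine ⟨(i2.image_halves _ fun J => ?_).1, fun J hJ => ?_⟩
          · split_ifs
            · exact Or.inr rfl
            · exact Or.inl rfl
          · obtain ⟨J', hJ', rfl⟩ := Finset.mem_image.1 hJ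
            refine Blw_trans (hlev r i3 J' hJ') ?_
            split_ifs
            · exact Blw_two_mul_add_one J'
            · exact Blw_two_mul J'
    exact ⟨key.1, Refn.anti key.1 (h.refn s), key.2⟩

theorem measurableSet_TA (N : ℕ → Finset ℕ) (s : ℕ) : MeasurableSet (TA N s) :=
  Finset.measurableSet_biUnion _ fun J _ => measurableSet_I J

theorem PkgTR1.measurable_hfun (a : ℕ) : Measurable (hfun a) := by
  by_cases ha : a = 0
  · subst ha
    have : hfun 0 = fun _ => (1 : ℝ) := by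
      funext x
      simp [hfun]
    rw [this]
    exact measurable_const
  · have : hfun a = fun x => (I (2 * a)).indicator 1 x - (I (2 * a + 1)).indicator 1 x := by
      funext x
      simp [hfun, ha]
    rw [this]
    exact (measurable_one.indicator (measurableSet_I _)).sub
      (measurable_one.indicator (measurableSet_I _))

theorem measurable_TX (P : Finset ℕ) (σ : ℕ → ℝ) : Measurable (TX P σ) := by
  have : TX P σ = fun x => ∑ a ∈ P, σ a * hfun a x := by
    funext x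
    rfl
  rw [this]
  exact Finset.measurable_sum _ fun a _ => (PkgTR1.measurable_hfun a).const_mul _

theorem PkgTR1.TA_P {s0 : ℕ} {L : ℕ → ℕ} {P N : ℕ → Finset ℕ} {σ : ℕ → ℕ → ℝ}
    (h : IsTree s0 L P N σ) (s : ℕ) : TA N s = ⋃ J ∈ P s, I J := (h.refn s).union

theorem PkgTR1.injE {s0 : ℕ} {L : ℕ → ℕ} {P N : ℕ → Finset ℕ} {σ : ℕ → ℕ → ℝ}
    (h : IsTree s0 L P N σ) (s : ℕ) :
    Set.InjOn (fun J => if σ s J * x0 (P 0) (σ 0) J = 1 then 2 * J else 2 * J + 1) (P s) :=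
  ((tree_anti h s).2.1.image_halves _ fun J => by
    split_ifs
    · exact Or.inl rfl
    · exact Or.inr rfl).2

theorem PkgTR1.injO {s0 : ℕ} {L : ℕ → ℕ} {P N : ℕ → Finset ℕ} {σ : ℕ → ℕ → ℝ}
    (h : IsTree s0 L P N σ) (s : ℕ) :
    Set.InjOn (fun J => if σ s J * x0 (P 0) (σ 0) J = 1 then 2 * J + 1 else 2 * J) (P s) :=
  ((tree_anti h s).2.1.image_halves _ fun J => by
    split_ifs
    · exact Or.inr rfl
    · exact Or.inl rfl).2

theorem PkgTR1.sum_len {s0 : ℕ} {L : ℕ → ℕ} {P N : ℕ → Finset ℕ} {σ : ℕ → ℕ → ℝ}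
    (h : IsTree s0 L P N σ) (s : ℕ) : 1 ≤ s → ∑ J ∈ N s, len J = len s0 * len s := by
  induction s using Nat.strong_induction_on with
  | _ s ih =>
    intro hs
    rcases Nat.lt_or_ge s 2 with hs2 | hs2
    · have e : s = 1 := by omega
      subst e
      rw [h.N_one, Finset.sum_singleton]
      simp [len, lv]
    · have hP : ∀ r, ∑ J ∈ P r, len J = ∑ J ∈ N r, len J := fun r =>
        (h.refn r).sum (tree_anti h r).1 len fun s hs => len_add hs
      have h1 : ∀ r, ∀ J ∈ P r, 1 ≤ J := fun r => (tree_anti h r).2.1.1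
      rcases Nat.even_or_odd' s with ⟨r, hr | hr⟩
      · rw [hr, h.N_even r (by omega), Finset.sum_image (PkgTR1.injE h r), len_two_mul (by omega)]
        have i1 := ih r (by omega) (by omega)
        rw [← hP] at i1
        rw [mul_div_assoc', ← i1, Finset.sum_div]
        refine Finset.sum_congr rfl fun J hJ => ?_
        split_ifs
        · exact len_two_mul (h1 r J hJ)
        · exact len_two_mul_add_one (h1 r J hJ)
      · rw [hr, h.N_odd r (by omega), Finset.sum_image (PkgTR1.injO h r),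
          len_two_mul_add_one (by omega)]
        have i1 := ih r (by omega) (by omega)
        rw [← hP] at i1
        rw [mul_div_assoc', ← i1, Finset.sum_div]
        refine Finset.sum_congr rfl fun J hJ => ?_
        split_ifs
        · exact len_two_mul_add_one (h1 r J hJ)
        · exact len_two_mul (h1 r J hJ)

theorem tree_measure {s0 : ℕ} {L : ℕ → ℕ} {P N : ℕ → Finset ℕ} {σ : ℕ → ℕ → ℝ}
    (h : IsTree s0 L P N σ) (s : ℕ) (hs : 1 ≤ s) : mu.real (TA N s) = len s0 * len s := by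
  have ha := (tree_anti h s).1
  rw [← PkgTR1.sum_len h s hs, TA, measureReal_biUnion_finset]
  · exact Finset.sum_congr rfl fun J hJ => mu_I (ha.1 J hJ)
  · intro J hJ J' hJ' hne
    exact ha.pairwise J hJ J' hJ' hne
  · exact fun J _ => measurableSet_I J

theorem PkgTR1.mem_even {s0 : ℕ} {L : ℕ → ℕ} {P N : ℕ → Finset ℕ} {σ : ℕ → ℕ → ℝ}
    (h : IsTree s0 L P N σ) {s : ℕ} (hs : 1 ≤ s) {x : ℝ} : x ∈ TA N (2 * s) ↔
      ∃ J ∈ P s, x ∈ I (if σ s J * x0 (P 0) (σ 0) J = 1 then 2 * J else 2 * J + 1) := by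
  rw [TA, h.N_even s hs]
  simp only [Set.mem_iUnion, Finset.mem_image, exists_prop]
  constructor
  · rintro ⟨_, ⟨J, hJ, rfl⟩, hx⟩
    exact ⟨J, hJ, hx⟩
  · rintro ⟨J, hJ, hx⟩
    exact ⟨_, ⟨J, hJ, rfl⟩, hx⟩

theorem PkgTR1.mem_odd {s0 : ℕ} {L : ℕ → ℕ} {P N : ℕ → Finset ℕ} {σ : ℕ → ℕ → ℝ}
    (h : IsTree s0 L P N σ) {s : ℕ} (hs : 1 ≤ s) {x : ℝ} : x ∈ TA N (2 * s + 1) ↔
      ∃ J ∈ P s, x ∈ I (if σ s J * x0 (P 0) (σ 0) J = 1 then 2 * J + 1 else 2 * J) := by
  rw [TA, h.N_odd s hs]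
  simp only [Set.mem_iUnion, Finset.mem_image, exists_prop]
  constructor
  · rintro ⟨_, ⟨J, hJ, rfl⟩, hx⟩
    exact ⟨J, hJ, hx⟩
  · rintro ⟨J, hJ, hx⟩
    exact ⟨_, ⟨J, hJ, rfl⟩, hx⟩

theorem tree_union {s0 : ℕ} {L : ℕ → ℕ} {P N : ℕ → Finset ℕ} {σ : ℕ → ℕ → ℝ}
    (h : IsTree s0 L P N σ) (s : ℕ) (hs : 1 ≤ s) : TA N s = TA N (2 * s) ∪ TA N (2 * s + 1) := by
  have h1 := (tree_anti h s).2.1.1
  ext x
  rw [Set.mem_union, PkgTR1.mem_even h hs, PkgTR1.mem_odd h hs, PkgTR1.TA_P h s, Set.mem_iUnion₂]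
  constructor
  · rintro ⟨J, hJ, hx⟩
    rw [I_split (h1 J hJ)] at hx
    by_cases hc : σ s J * x0 (P 0) (σ 0) J = 1
    · rcases hx with hx | hx
      · exact Or.inl ⟨J, hJ, by rwa [if_pos hc]⟩
      · exact Or.inr ⟨J, hJ, by rwa [if_pos hc]⟩
    · rcases hx with hx | hx
      · exact Or.inr ⟨J, hJ, by rwa [if_neg hc]⟩
      · exact Or.inl ⟨J, hJ, by rwa [if_neg hc]⟩
  · rintro (⟨J, hJ, hx⟩ | ⟨J, hJ, hx⟩)
    · refine ⟨J, hJ, ?_⟩
      rw [I_split (h1 J hJ)]
      split_ifs at hx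
      · exact Or.inl hx
      · exact Or.inr hx
    · refine ⟨J, hJ, ?_⟩
      rw [I_split (h1 J hJ)]
      split_ifs at hx
      · exact Or.inr hx
      · exact Or.inl hx

theorem tree_disjoint {s0 : ℕ} {L : ℕ → ℕ} {P N : ℕ → Finset ℕ} {σ : ℕ → ℕ → ℝ}
    (h : IsTree s0 L P N σ) (s : ℕ) (hs : 1 ≤ s) : Disjoint (TA N (2 * s)) (TA N (2 * s + 1)) := by
  have hP := (tree_anti h s).2.1
  rw [Set.disjoint_left]
  intro x hx hy
  rw [PkgTR1.mem_even h hs] at hx
  rw [PkgTR1.mem_odd h hs] at hy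
  obtain ⟨J, hJ, hx⟩ := hx
  obtain ⟨J', hJ', hy⟩ := hy
  have e1 : x ∈ I J := by
    rw [I_split (hP.1 J hJ)]
    split_ifs at hx
    · exact Or.inl hx
    · exact Or.inr hx
  have e2 : x ∈ I J' := by
    rw [I_split (hP.1 J' hJ')]
    split_ifs at hy
    · exact Or.inr hy
    · exact Or.inl hy
  by_cases hne : J = J'
  · subst hne
    split_ifs at hx hy
    · exact Set.disjoint_left.1 (I_disj (hP.1 J hJ)) hx hy
    · exact Set.disjoint_left.1 (I_disj (hP.1 J hJ)) hy hx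
  · exact Set.disjoint_left.1 (hP.pairwise J hJ J' hJ' hne) e1 e2

theorem tree_X {s0 : ℕ} {L : ℕ → ℕ} {P N : ℕ → Finset ℕ} {σ : ℕ → ℕ → ℝ}
    (h : IsTree s0 L P N σ) (x : ℝ) :
    (x ∈ TA N 1 → TX (P 0) (σ 0) x = 1 ∨ TX (P 0) (σ 0) x = -1) ∧
    (x ∉ TA N 1 → TX (P 0) (σ 0) x = 0) := by
  have hP := (tree_anti h 0).2.1
  have e : TA N 1 = ⋃ J ∈ P 0, I J := by
    rw [← PkgTR1.TA_P h 0, TA, TA, h.N_zero, h.N_one]
  rw [e]
  refine ⟨fun hx => ?_, fun hx => TX_zero hP _ hx⟩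
  obtain ⟨J, hJ, hx⟩ := Set.mem_iUnion₂.1 hx
  rw [TX_val hP _ hJ hx]
  rw [I_split (hP.1 J hJ)] at hx
  rcases hx with hx | hx
  · rw [hfun_left (hP.1 J hJ) hx, mul_one]
    exact h.sign 0 J
  · rw [hfun_right (hP.1 J hJ) hx]
    rcases h.sign 0 J with e | e <;> rw [e] <;> norm_num

/-- the value of `X` on an interval of `P s` -/
theorem PkgTR1.X_val {s0 : ℕ} {L : ℕ → ℕ} {P N : ℕ → Finset ℕ} {σ : ℕ → ℕ → ℝ}
    (h : IsTree s0 L P N σ) {s : ℕ} (hs : 1 ≤ s) {J : ℕ} (hJ : J ∈ P s) :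
    (x0 (P 0) (σ 0) J = 1 ∨ x0 (P 0) (σ 0) J = -1) ∧
      ∀ x ∈ I J, TX (P 0) (σ 0) x = x0 (P 0) (σ 0) J := by
  have hP := (tree_anti h 0).2.1
  obtain ⟨b1, b2, J', b3, b4⟩ := (h.refn s).level J hJ
  have b6 : Blw s0 J := Blw_trans ((tree_anti h s).2.2 J' b3) b4
  have hfine : ∀ a ∈ P 0, lv a < lv J := fun a ha => (h.fine s hs a ha).trans_le b2
  obtain ⟨Q, hQ, hPQ⟩ := h.refn 0
  rw [h.N_zero, Finset.singleton_biUnion] at hPQ
  have hQ' := hQ s0 (by rw [h.N_zero]; exact Finset.mem_singleton_self _)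
  rw [← hPQ] at hQ'
  obtain ⟨a, ha, hab⟩ := Part_below hQ' b1 b6 fun a ha => (hfine a ha).le
  refine ⟨x0_eq hP (σ 0) (h.sign 0) ha hab (hfine a ha), fun x hx => ?_⟩
  rw [TX, x0]
  exact Finset.sum_congr rfl fun a ha => by rw [hfun_eq_hsgn (hP.1 a ha) b1 (hfine a ha) hx]

theorem tree_sum_eq {s0 : ℕ} {L : ℕ → ℕ} {P N : ℕ → Finset ℕ} {σ : ℕ → ℕ → ℝ}
    (h : IsTree s0 L P N σ) (s : ℕ) (hs : 1 ≤ s) (x : ℝ) :
    TX (P s) (σ s) x = (TA N (2 * s)).indicator (TX (P 0) (σ 0)) x -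
      (TA N (2 * s + 1)).indicator (TX (P 0) (σ 0)) x := by
  have hP := (tree_anti h s).2.1
  by_cases hx : x ∈ ⋃ J ∈ P s, I J
  · obtain ⟨J, hJ, hx⟩ := Set.mem_iUnion₂.1 hx
    obtain ⟨h1, h2⟩ := PkgTR1.X_val h hs hJ
    have h3 := h2 x hx
    rw [TX_val hP _ hJ hx]
    have hd := tree_disjoint h s hs
    have hL : x ∈ TA N (2 * s) → (TA N (2 * s)).indicator (TX (P 0) (σ 0)) x -
        (TA N (2 * s + 1)).indicator (TX (P 0) (σ 0)) x = x0 (P 0) (σ 0) J := by
      intro h4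
      rw [Set.indicator_of_mem h4, Set.indicator_of_notMem (Set.disjoint_left.1 hd h4), h3, sub_zero]
    have hR : x ∈ TA N (2 * s + 1) → (TA N (2 * s)).indicator (TX (P 0) (σ 0)) x -
        (TA N (2 * s + 1)).indicator (TX (P 0) (σ 0)) x = - x0 (P 0) (σ 0) J := by
      intro h4
      rw [Set.indicator_of_mem h4, Set.indicator_of_notMem (Set.disjoint_right.1 hd h4), h3, zero_sub]
    have h4 := hx
    rw [I_split (hP.1 J hJ)] at h4
    by_cases hc : σ s J * x0 (P 0) (σ 0) J = 1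
    · have hxs : x0 (P 0) (σ 0) J = σ s J := by
        rcases h1 with e | e <;> rcases h.sign s J with f | f <;> rw [e, f] at hc ⊢ <;> norm_num at hc
      rcases h4 with h4 | h4
      · rw [hL ((PkgTR1.mem_even h hs).2 ⟨J, hJ, by rwa [if_pos hc]⟩), hfun_left (hP.1 J hJ) h4, hxs]
        ring
      · rw [hR ((PkgTR1.mem_odd h hs).2 ⟨J, hJ, by rwa [if_pos hc]⟩), hfun_right (hP.1 J hJ) h4, hxs]
        ring
    · have hxs : x0 (P 0) (σ 0) J = - σ s J := by
        rcases h1 with e | e <;> rcases h.sign s J with f | f <;> rw [e, f] at hc <;> rw [e, f] <;>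
          first | (exfalso; norm_num at hc; done) | norm_num
      rcases h4 with h4 | h4
      · rw [hR ((PkgTR1.mem_odd h hs).2 ⟨J, hJ, by rwa [if_neg hc]⟩), hfun_left (hP.1 J hJ) h4, hxs]
        ring
      · rw [hL ((PkgTR1.mem_even h hs).2 ⟨J, hJ, by rwa [if_neg hc]⟩), hfun_right (hP.1 J hJ) h4, hxs]
        ring
  · rw [TX_zero hP _ hx]
    rw [← PkgTR1.TA_P h s, tree_union h s hs, Set.mem_union, not_or] at hx
    rw [Set.indicator_of_notMem hx.1, Set.indicator_of_notMem hx.2, sub_zero]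

theorem PkgTR1.abs_hfun_le (a : ℕ) (x : ℝ) : |hfun a x| ≤ 1 := by
  rw [hfun]
  split_ifs
  · simp
  · by_cases h1 : x ∈ I (2 * a) <;> by_cases h2 : x ∈ I (2 * a + 1) <;>
      simp [Set.indicator, h1, h2]

theorem PkgTR1.hfun_int (a : ℕ) : Integrable (hfun a) mu :=
  Integrable.of_bound (PkgTR1.measurable_hfun a).aestronglyMeasurable 1
    (Eventually.of_forall fun x => by
      rw [Real.norm_eq_abs]
      exact PkgTR1.abs_hfun_le a x)

theorem PkgTR1.TX_int (P : Finset ℕ) (σ : ℕ → ℝ) : Integrable (TX P σ) mu := by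
  have : TX P σ = fun x => ∑ a ∈ P, σ a * hfun a x := by
    funext x
    rfl
  rw [this]
  exact integrable_finsetSum _ fun a _ => (PkgTR1.hfun_int a).const_mul _

theorem PkgTR1.int_hfun {a J : ℕ} (ha : 1 ≤ a) (hJ : 1 ≤ J) (hl : lv J ≤ lv a) :
    ∫ x in I J, hfun a x ∂mu = 0 := by
  have hm : ∀ b, ∫ x in I J, (I b).indicator (fun _ => (1 : ℝ)) x ∂mu = mu.real (I J ∩ I b) := by
    intro b
    rw [setIntegral_indicator (measurableSet_I b), setIntegral_const]
    simp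
  have hi : ∀ b, Integrable ((I b).indicator (fun _ => (1 : ℝ))) (mu.restrict (I J)) := fun b =>
    (integrable_const (1 : ℝ)).indicator (measurableSet_I b)
  have e : ∀ x, hfun a x = (I (2 * a)).indicator (fun _ => (1 : ℝ)) x -
      (I (2 * a + 1)).indicator (fun _ => (1 : ℝ)) x := by
    intro x
    rw [hfun, if_neg (by omega)]
    rfl
  simp only [e]
  rw [integral_sub (hi _) (hi _), hm, hm]
  rcases Blw_or_disjoint hJ ha hl with h | h
  · have h1 : I (2 * a) ⊆ I J := I_subset_of_Blw hJ (Blw_trans h (Blw_two_mul a))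
    have h2 : I (2 * a + 1) ⊆ I J := I_subset_of_Blw hJ (Blw_trans h (Blw_two_mul_add_one a))
    rw [Set.inter_eq_right.2 h1, Set.inter_eq_right.2 h2, mu_I (by omega), mu_I (by omega),
      len_two_mul ha, len_two_mul_add_one ha, sub_self]
  · rw [I_split ha, Set.disjoint_union_right] at h
    rw [Set.disjoint_iff_inter_eq_empty.1 h.1, Set.disjoint_iff_inter_eq_empty.1 h.2]
    simp

theorem tree_star {s0 : ℕ} {L : ℕ → ℕ} {P N : ℕ → Finset ℕ} {σ : ℕ → ℕ → ℝ}
    (h : IsTree s0 L P N σ) (M : ℕ) : ∃ n0, ∀ s, n0 ≤ lv s → ∀ J, 1 ≤ J → lv J = M →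
      ∫ x in TA N (2 * s) ∩ I J, TX (P 0) (σ 0) x ∂mu =
        ∫ x in TA N (2 * s + 1) ∩ I J, TX (P 0) (σ 0) x ∂mu := by
  refine ⟨M, fun s hs J hJ hJM => ?_⟩
  rcases Nat.eq_zero_or_pos s with h0 | h0
  · subst h0
    have : TA N (2 * 0) = TA N (2 * 0 + 1) := by
      rw [TA, TA]
      simp only [mul_zero, zero_add, h.N_zero, h.N_one]
    rw [this]
  · have hP := (tree_anti h s).2.1
    have hX := (PkgTR1.TX_int (P 0) (σ 0)).integrableOn (s := I J)
    have h1 : ∫ x in I J, TX (P s) (σ s) x ∂mu = 0 := by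
      have e : ∀ x, TX (P s) (σ s) x = ∑ a ∈ P s, σ s a * hfun a x := fun x => rfl
      simp only [e]
      rw [integral_finsetSum _ fun a _ => ((PkgTR1.hfun_int a).integrableOn.const_mul _)]
      refine Finset.sum_eq_zero fun a ha => ?_
      rw [integral_const_mul, PkgTR1.int_hfun (hP.1 a ha) hJ, mul_zero]
      have h2 := ((h.refn s).level a ha).2.1
      have h3 := h.le_L s
      have h4 : lv s ≤ s := Nat.log_le_self 2 s
      omega
    simp only [tree_sum_eq h s h0] at h1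
    rw [integral_sub (hX.indicator (measurableSet_TA N _)) (hX.indicator (measurableSet_TA N _)),
      setIntegral_indicator (measurableSet_TA N _), setIntegral_indicator (measurableSet_TA N _)] at h1
    rw [Set.inter_comm, Set.inter_comm (TA N (2 * s + 1))]
    linarith

end Pool.Agent.T2H63.HF
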