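import Pool.Agent.T2H63.HF.STEP
import Pool.Agent.T2H63.HF.PART
import Pool.Agent.T2H63.HF.TR1

/-!
# Package REC (75-100 min): the infinite construction

For every `k` PART with `d_k(J) = 2^{lv J} pair_J ((T (sg k (hv J))) k)`, `M = ‖T‖` (for `J ≥ 1`: `|pair_J f| ≤ (len J)^{1-1/p} ‖f‖`,
`‖hv J‖ ≤ (len J)^{1/p}`; this is `abs_pair_le'`, `norm_hv_le'`) gives `s0 k, Λ k`.  Then for given `η` construct
`X_t = (L, P, σ)`, `t = 0, 1, 2, ...`, `t = Nat.pair k s`, by recursion on `t`: the sets `N k s` are determined by the earlier choices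
(`N k 0 = N k 1 = {s0 k}`, `N k (2s), N k (2s+1)` by `P k s, σ k s, P k 0, σ k 0`; `Nat.pair k (s/2) < Nat.pair k s`), and
STEP is applied with `U = T_kk : f ↦ (T (sg k f)) k`, `N = N k s`, the functionals `φ : f ↦ cpair (P l r) (σ l r) ((T (sg k f)) l)` and
the vectors `g = (T (sg l (comb (P l r) (σ l r)))) k` for all earlier `(l, r)`, `x = x0 (P k 0) (σ k 0)` (`abs_x0_le`; for `s = 0` use `x = 0`),
the number `min_{t' ≤ t} η t'` (or `η t`; only the maximum of the two times matters: the later of the two steps makes the test) and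
`L0 = s + 1 + (maximal level in P k 0)`.
Last property: `∑_{N(2s)} Λ - ∑_{N(2s+1)} Λ = ∑_{J ∈ P s} σ_J x0(J) (Λ(2J) - Λ(2J+1))` as `σ_J x0(J) = ± 1` (`x0_eq`, `Anti.image_halves`).
-/

open MeasureTheory Filter Topology
open scoped ENNReal BoundedContinuousFunction

set_option linter.unusedSectionVars false

namespace Pool.Agent.T2H63.HF

namespace PkgREC

/-! ### strong recursion with a choice -/

section rec

variable {X : Type} [Inhabited X]

/-- the sequence -/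
noncomputable def Frec (G : ℕ → (ℕ → X) → X → Prop) (t : ℕ) : X :=
  Classical.epsilon fun x => G t (fun t' => if _h : t' < t then Frec G t' else default) x
termination_by t

theorem rec_exists (G : ℕ → (ℕ → X) → X → Prop)
    (hloc : ∀ t H H' x, (∀ t' < t, H t' = H' t') → G t H x → G t H' x)
    (hstep : ∀ t H, (∀ t' < t, G t' H (H t')) → ∃ x, G t H x) :
    ∃ F : ℕ → X, ∀ t, G t F (F t) := by
  refine ⟨Frec G, fun t => ?_⟩
  induction t using Nat.strong_induction_on with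
  | _ t ih =>
    obtain ⟨x, hx⟩ := hstep t (Frec G) ih
    have h1 : G t (fun t' => if _h : t' < t then Frec G t' else default) x :=
      hloc t _ _ x (fun t' ht' => by simp [ht']) hx
    have h2 : G t (fun t' => if _h : t' < t then Frec G t' else default) (Frec G t) := by
      have h3 := Classical.epsilon_spec
        (p := fun x => G t (fun t' => if _h : t' < t then Frec G t' else default) x) ⟨x, h1⟩
      rw [Frec]
      exact h3
    exact hloc t _ _ _ (fun t' ht' => by simp [ht']) h2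

end rec

/-- the state of a step -/
abbrev St : Type := ℕ × Finset ℕ × (ℕ → ℝ)

/-- level, sets and signs of a history -/
def HL (H : ℕ → St) (k s : ℕ) : ℕ := (H (Nat.pair k s)).1

def HP (H : ℕ → St) (k s : ℕ) : Finset ℕ := (H (Nat.pair k s)).2.1

def HS (H : ℕ → St) (k s : ℕ) : ℕ → ℝ := (H (Nat.pair k s)).2.2

/-- the sets `N k s` of a history -/
noncomputable def HN (s0 : ℕ → ℕ) (H : ℕ → St) (k s : ℕ) : Finset ℕ :=
  if s ≤ 1 then {s0 k} else
    if s % 2 = 0 then (HP H k (s / 2)).image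
      (fun J => if HS H k (s / 2) J * x0 (HP H k 0) (HS H k 0) J = 1 then 2 * J else 2 * J + 1)
    else (HP H k (s / 2)).image
      (fun J => if HS H k (s / 2) J * x0 (HP H k 0) (HS H k 0) J = 1 then 2 * J + 1 else 2 * J)

theorem HN_congr (s0 : ℕ → ℕ) {H H' : ℕ → St} {k s : ℕ}
    (h : ∀ t' < Nat.pair k s, H t' = H' t') : HN s0 H k s = HN s0 H' k s := by
  by_cases hs : s ≤ 1
  · rw [HN, HN, if_pos hs, if_pos hs]
  · have h1 : H (Nat.pair k (s / 2)) = H' (Nat.pair k (s / 2)) :=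
      h _ (Nat.pair_lt_pair_right k (by omega))
    have h2 : H (Nat.pair k 0) = H' (Nat.pair k 0) :=
      h _ (Nat.pair_lt_pair_right k (by omega))
    have e1 : HP H k (s / 2) = HP H' k (s / 2) := by rw [HP, h1, HP]
    have e2 : HS H k (s / 2) = HS H' k (s / 2) := by rw [HS, h1, HS]
    have e3 : HP H k 0 = HP H' k 0 := by rw [HP, h2, HP]
    have e4 : HS H k 0 = HS H' k 0 := by rw [HS, h2, HS]
    rw [HN, HN, e1, e2, e3, e4]

theorem anti_singleton {a : ℕ} (ha : 1 ≤ a) : Anti {a} := by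
  refine ⟨fun J hJ => ?_, fun J hJ J' hJ' h => ?_⟩
  · rw [Finset.mem_singleton.1 hJ]
    exact ha
  · rw [Finset.mem_singleton.1 hJ, Finset.mem_singleton.1 hJ'] at h
    exact absurd rfl h

theorem Part_below {L s J : ℕ} {Q : Finset ℕ} (h : Part L s Q) (hJ : 1 ≤ J) (hs : Blw s J)
    (hl : ∀ a ∈ Q, lv a ≤ lv J) : ∃ a ∈ Q, Blw a J := by
  have hs1 := h.one_le.1
  have hne : (I J).Nonempty := by
    refine ⟨((J : ℝ) - 2 ^ lv J) / 2 ^ lv J, le_rfl, ?_⟩
    exact div_lt_div_of_pos_right (by linarith) (by positivity)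
  obtain ⟨x, hx⟩ := hne
  have hx2 := I_subset_of_Blw hs1 hs hx
  rw [h.union, Set.mem_iUnion₂] at hx2
  obtain ⟨a, ha, hxa⟩ := hx2
  refine ⟨a, ha, ?_⟩
  rcases Blw_or_disjoint (h.one_le.2 a ha) hJ (hl a ha) with h1 | h1
  · exact h1
  · exact absurd hx (Set.disjoint_left.1 h1 hxa)

section main

variable (p : ℕ → ℝ≥0∞) [∀ k, Fact (1 ≤ p k)] (T : ZZ p →L[ℝ] ZZ p) (s0 : ℕ → ℕ)
  (Λ : ℕ → ℕ → ℝ) (η : ℕ → ℝ)

/-- the interaction of two sums -/
noncomputable def cr (k l : ℕ) (P : Finset ℕ) (σ : ℕ → ℝ) (Q : Finset ℕ) (τ : ℕ → ℝ) : ℝ :=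
  cpair (p k) P σ ((T (sg p l (comb (p l) Q τ))) k)

/-- the requirements of a step -/
def GG (t : ℕ) (H : ℕ → St) (x : St) : Prop :=
  (Nat.unpair t).2 ≤ x.1 ∧ Refn x.1 (HN s0 H (Nat.unpair t).1 (Nat.unpair t).2) x.2.1 ∧
  (∀ J, x.2.2 J = 1 ∨ x.2.2 J = -1) ∧
  (1 ≤ (Nat.unpair t).2 → ∀ a ∈ HP H (Nat.unpair t).1 0, lv a < x.1) ∧
  (∀ t' < t, |cr p T (Nat.unpair t').1 (Nat.unpair t).1 (H t').2.1 (H t').2.2 x.2.1 x.2.2| ≤ η t) ∧
  (∀ t' < t, |cr p T (Nat.unpair t).1 (Nat.unpair t').1 x.2.1 x.2.2 (H t').2.1 (H t').2.2| ≤ η t) ∧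
  |cr p T (Nat.unpair t).1 (Nat.unpair t).1 x.2.1 x.2.2 x.2.1 x.2.2 -
    ∑ J ∈ HN s0 H (Nat.unpair t).1 (Nat.unpair t).2, Λ (Nat.unpair t).1 J| ≤ η t ∧
  (1 ≤ (Nat.unpair t).2 → |∑ J ∈ x.2.1, x.2.2 J *
      x0 (HP H (Nat.unpair t).1 0) (HS H (Nat.unpair t).1 0) J *
        (Λ (Nat.unpair t).1 (2 * J) - Λ (Nat.unpair t).1 (2 * J + 1))| ≤ η t)

theorem GG_loc (t : ℕ) (H H' : ℕ → St) (x : St) (h : ∀ t' < t, H t' = H' t')
    (hG : GG p T s0 Λ η t H x) : GG p T s0 Λ η t H' x := by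
  obtain ⟨h1, h2, h3, h4, h5, h6, h7, h8⟩ := hG
  have hN : HN s0 H (Nat.unpair t).1 (Nat.unpair t).2 = HN s0 H' (Nat.unpair t).1 (Nat.unpair t).2 := by
    refine HN_congr s0 fun t' ht' => h t' ?_
    rwa [Nat.pair_unpair] at ht'
  have h0 : 1 ≤ (Nat.unpair t).2 → H (Nat.pair (Nat.unpair t).1 0) = H' (Nat.pair (Nat.unpair t).1 0) := by
    intro hs
    refine h _ ?_
    conv_rhs => rw [← Nat.pair_unpair t]
    exact Nat.pair_lt_pair_right _ hs
  refine ⟨h1, hN ▸ h2, h3, fun hs => ?_, fun t' ht' => ?_, fun t' ht' => ?_, hN ▸ h7, fun hs => ?_⟩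
  · have := h4 hs
    rw [HP, h0 hs] at this
    exact this
  · rw [← h t' ht']
    exact h5 t' ht'
  · rw [← h t' ht']
    exact h6 t' ht'
  · have := h8 hs
    rw [HP, HS, h0 hs] at this
    exact this

theorem anti_of (hs0 : ∀ k, 1 ≤ s0 k) (H : ℕ → St) (k : ℕ) : ∀ s : ℕ,
    (∀ t' < Nat.pair k s, GG p T s0 Λ η t' H (H t')) → Anti (HN s0 H k s) := by
  intro s
  induction s using Nat.strong_induction_on with
  | _ s ih =>
    intro h
    by_cases hs : s ≤ 1
    · rw [HN, if_pos hs]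
      exact anti_singleton (hs0 k)
    · have h1 : Nat.pair k (s / 2) < Nat.pair k s := Nat.pair_lt_pair_right k (by omega)
      have h2 := ih (s / 2) (by omega) fun t' ht' => h t' (ht'.trans h1)
      have h3 := (h _ h1).2.1
      rw [Nat.unpair_pair] at h3
      have h4 : Anti (HP H k (s / 2)) := Refn.anti h2 h3
      rw [HN, if_neg hs]
      split_ifs
      · refine (h4.image_halves _ fun J => ?_).1
        split_ifs
        · exact Or.inl rfl
        · exact Or.inr rfl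
      · refine (h4.image_halves _ fun J => ?_).1
        split_ifs
        · exact Or.inr rfl
        · exact Or.inl rfl

theorem GG_step (hp : ∀ k, p k ≠ ∞) (hs0 : ∀ k, 1 ≤ s0 k) (d : ℕ → ℕ → ℝ)
    (hd : ∀ k J, 1 ≤ J → pair (p k) J ((T (sg p k (hv (p k) J))) k) = d k J * len J)
    (hΛ : ∀ k s, 1 ≤ s → |Λ k s| ≤ ‖T‖ * len s)
    (hΛp : ∀ k s, 1 ≤ s → ∀ η, 0 < η → ∀ L, ∃ Q, Part L s Q ∧ |∑ J ∈ Q, d k J * len J - Λ k s| ≤ η)
    (hη : ∀ t, 0 < η t) (t : ℕ) (H : ℕ → St) (h : ∀ t' < t, GG p T s0 Λ η t' H (H t')) :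
    ∃ x, GG p T s0 Λ η t H x := by
  obtain ⟨k, s, rfl⟩ : ∃ k s, t = Nat.pair k s := ⟨_, _, (Nat.pair_unpair t).symm⟩
  have hN : Anti (HN s0 H k s) := anti_of p T s0 Λ η hs0 H k s h
  -- the function of the other half
  set x : ℕ → ℝ := fun J => if s = 0 then 0 else x0 (HP H k 0) (HS H k 0) J with hx
  have hx1 : ∀ J, |x J| ≤ 1 := by
    intro J
    simp only [hx]
    by_cases hs : s = 0
    · rw [if_pos hs]
      simp
    · rw [if_neg hs]
      have h1 : Nat.pair k 0 < Nat.pair k s := Nat.pair_lt_pair_right k (by omega)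
      have h2 := anti_of p T s0 Λ η hs0 H k 0 fun t' ht' => h t' (ht'.trans h1)
      have h3 := (h _ h1).2.1
      rw [Nat.unpair_pair] at h3
      exact abs_x0_le (Refn.anti h2 h3) _ (h _ h1).2.2.1 J
  set t : ℕ := Nat.pair k s with ht
  obtain ⟨L, P, σ, c1, c2, c3, c4, c5, c6, c7⟩ := STEP (p k) (hp k)
    ((ev p k).comp (T.comp (sg p k))) (d k) (Λ k) ‖T‖ (fun J hJ => hd k J hJ) (hΛ k) (hΛp k)
    (HN s0 H k s) hN
    (fun i : Fin t => (cpair (p (Nat.unpair i).1) (H i).2.1 (H i).2.2).comp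
      ((ev p (Nat.unpair i).1).comp (T.comp (sg p k))))
    (fun i : Fin t => (T (sg p (Nat.unpair i).1 (comb (p (Nat.unpair i).1) (H i).2.1 (H i).2.2))) k)
    x hx1 (η t) (hη t) (s + 1 + (HP H k 0).sup lv)
  have hu : Nat.unpair t = (k, s) := Nat.unpair_pair k s
  refine ⟨(L, P, σ), ?_⟩
  unfold GG
  rw [hu]
  refine ⟨by simp only; omega, c2, c3, fun _ a ha => ?_, fun t' ht' => c4 ⟨t', ht'⟩,
    fun t' ht' => c5 ⟨t', ht'⟩, c6, fun hs => ?_⟩
  · have h1 : lv a ≤ (HP H k 0).sup lv := Finset.le_sup (f := lv) ha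
    simp only
    omega
  · refine le_trans (le_of_eq ?_) c7
    congr 1
    refine Finset.sum_congr rfl fun J _ => ?_
    simp only [hx]
    rw [if_neg (by simp only at hs; omega)]

end main

end PkgREC

open PkgREC

theorem REC (p : ℕ → ℝ≥0∞) [∀ k, Fact (1 ≤ p k)] (hp : ∀ k, p k ≠ ∞) (T : ZZ p →L[ℝ] ZZ p)
    (δ : ℝ) (hδ : 0 < δ)
    (hT : ∀ k s, 1 ≤ s → δ * len s ≤ |pair (p k) s ((T (sg p k (hv (p k) s))) k)|) :
    ∃ (s0 : ℕ → ℕ) (Λ : ℕ → ℕ → ℝ), (∀ k, 1 ≤ s0 k) ∧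
      (∀ k s, 1 ≤ s → Λ k s = Λ k (2 * s) + Λ k (2 * s + 1)) ∧
      (∀ k s, 1 ≤ s → |Λ k s| ≤ ‖T‖ * len s) ∧ (∀ k, δ / 2 * len (s0 k) ≤ |Λ k (s0 k)|) ∧
      ∀ η : ℕ → ℝ, (∀ t, 0 < η t) →
        ∃ (L : ℕ → ℕ → ℕ) (P N : ℕ → ℕ → Finset ℕ) (σ : ℕ → ℕ → ℕ → ℝ),
          (∀ k, IsTree (s0 k) (L k) (P k) (N k) (σ k)) ∧
          (∀ k s l r, (k, s) ≠ (l, r) →
            |cpair (p k) (P k s) (σ k s) ((T (sg p l (comb (p l) (P l r) (σ l r)))) k)| ≤
              η (max (Nat.pair k s) (Nat.pair l r))) ∧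
          (∀ k s, |cpair (p k) (P k s) (σ k s) ((T (sg p k (comb (p k) (P k s) (σ k s)))) k) -
            ∑ J ∈ N k s, Λ k J| ≤ η (Nat.pair k s)) ∧
          ∀ k s, 1 ≤ s → |∑ J ∈ N k (2 * s), Λ k J - ∑ J ∈ N k (2 * s + 1), Λ k J| ≤
            η (Nat.pair k s) := by
  have hlen : ∀ s, 0 < len s := fun s => by
    unfold len
    positivity
  set d : ℕ → ℕ → ℝ := fun k J => pair (p k) J ((T (sg p k (hv (p k) J))) k) / len J with hd
  have hd1 : ∀ k J, pair (p k) J ((T (sg p k (hv (p k) J))) k) = d k J * len J := by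
    intro k J
    simp only [hd]
    rw [div_mul_cancel₀ _ (hlen J).ne']
  have hPART : ∀ k, ∃ (s0 : ℕ) (Λ : ℕ → ℝ), 1 ≤ s0 ∧ (∀ s, 1 ≤ s → Λ s = Λ (2 * s) + Λ (2 * s + 1)) ∧
      (∀ s, 1 ≤ s → |Λ s| ≤ ‖T‖ * len s) ∧ δ / 2 * len s0 ≤ |Λ s0| ∧
      ∀ s, 1 ≤ s → ∀ η, 0 < η → ∀ L, ∃ Q, Part L s Q ∧ |∑ J ∈ Q, d k J * len J - Λ s| ≤ η := by
    intro k
    refine PART (d k) δ ‖T‖ hδ (fun s hs => ?_) (fun s hs => ?_)
    · have h := hT k s hs
      rw [hd1, abs_mul, abs_of_pos (hlen s)] at h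
      exact le_of_mul_le_mul_right h (hlen s)
    · refine le_of_mul_le_mul_right ?_ (hlen s)
      calc |d k s| * len s = |pair (p k) s ((T (sg p k (hv (p k) s))) k)| := by
            rw [hd1, abs_mul, abs_of_pos (hlen s)]
        _ ≤ len s ^ (1 - 1 / (p k).toReal) * ‖(T (sg p k (hv (p k) s))) k‖ :=
            abs_pair_le' (p k) (hp k) hs _
        _ ≤ len s ^ (1 - 1 / (p k).toReal) * (‖T‖ * len s ^ (1 / (p k).toReal)) := by
            refine mul_le_mul_of_nonneg_left ?_ (Real.rpow_nonneg (hlen s).le _)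
            calc ‖(T (sg p k (hv (p k) s))) k‖ ≤ ‖T (sg p k (hv (p k) s))‖ := norm_coord_le p _ k
              _ ≤ ‖T‖ * ‖sg p k (hv (p k) s)‖ := T.le_opNorm _
              _ ≤ ‖T‖ * len s ^ (1 / (p k).toReal) := by
                  refine mul_le_mul_of_nonneg_left ?_ (norm_nonneg _)
                  rw [norm_sg]
                  exact norm_hv_le' (p k) (hp k) hs
        _ = ‖T‖ * (len s ^ (1 - 1 / (p k).toReal) * len s ^ (1 / (p k).toReal)) := by ring
        _ = ‖T‖ * len s := by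
            rw [← Real.rpow_add (hlen s), sub_add_cancel, Real.rpow_one]
  choose s0 Λ a1 a2 a3 a4 a5 using hPART
  refine ⟨s0, Λ, a1, a2, a3, a4, fun η hη => ?_⟩
  obtain ⟨F, hF⟩ := rec_exists (X := St) (GG p T s0 Λ η) (fun t H H' x => GG_loc p T s0 Λ η t H H' x)
    (fun t H h => GG_step p T s0 Λ η hp a1 d (fun k J _ => hd1 k J) a3 a5 hη t H h)
  have hanti : ∀ k s, Anti (HN s0 F k s) := fun k s => anti_of p T s0 Λ η a1 F k s fun t' _ => hF t'
  -- the facts at `(k, s)`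
  have hK : ∀ k s, s ≤ HL F k s ∧ Refn (HL F k s) (HN s0 F k s) (HP F k s) ∧
      (∀ J, HS F k s J = 1 ∨ HS F k s J = -1) ∧
      (1 ≤ s → ∀ a ∈ HP F k 0, lv a < HL F k s) := by
    intro k s
    have h := hF (Nat.pair k s)
    unfold GG at h
    rw [Nat.unpair_pair] at h
    exact ⟨h.1, h.2.1, h.2.2.1, h.2.2.2.1⟩
  have hPanti : ∀ k s, Anti (HP F k s) := fun k s => Refn.anti (hanti k s) (hK k s).2.1
  have heven : ∀ k s, 1 ≤ s → HN s0 F k (2 * s) =
      (HP F k s).image (fun J => if HS F k s J * x0 (HP F k 0) (HS F k 0) J = 1 then 2 * J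
        else 2 * J + 1) := by
    intro k s hs
    rw [HN, if_neg (by omega), if_pos (by omega)]
    have : 2 * s / 2 = s := by omega
    rw [this]
  have hodd : ∀ k s, 1 ≤ s → HN s0 F k (2 * s + 1) =
      (HP F k s).image (fun J => if HS F k s J * x0 (HP F k 0) (HS F k 0) J = 1 then 2 * J + 1
        else 2 * J) := by
    intro k s hs
    rw [HN, if_neg (by omega), if_neg (by omega)]
    have : (2 * s + 1) / 2 = s := by omega
    rw [this]
  have htree : ∀ k, IsTree (s0 k) (HL F k) (HP F k) (HN s0 F k) (HS F k) := by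
    intro k
    refine ⟨a1 k, ?_, ?_, fun s J => (hK k s).2.2.1 J, fun s => (hK k s).1, fun s => (hK k s).2.1,
      fun s hs => (hK k s).2.2.2 hs, heven k, hodd k⟩
    · rw [HN, if_pos (by omega)]
    · rw [HN, if_pos (by omega)]
  refine ⟨HL F, HP F, HN s0 F, HS F, htree, fun k s l r hne => ?_, fun k s => ?_, fun k s hs => ?_⟩
  · rcases lt_trichotomy (Nat.pair k s) (Nat.pair l r) with h | h | h
    · rw [max_eq_right h.le]
      have h1 := (hF (Nat.pair l r)).2.2.2.2.1 (Nat.pair k s) h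
      simp only [Nat.unpair_pair] at h1
      exact h1
    · obtain ⟨h1, h2⟩ := Nat.pair_eq_pair.1 h
      exact absurd (by rw [h1, h2]) hne
    · rw [max_eq_left h.le]
      have h1 := (hF (Nat.pair k s)).2.2.2.2.2.1 (Nat.pair l r) h
      simp only [Nat.unpair_pair] at h1
      exact h1
  · have h1 := (hF (Nat.pair k s)).2.2.2.2.2.2.1
    simp only [Nat.unpair_pair] at h1
    exact h1
  · have h1 := (hF (Nat.pair k s)).2.2.2.2.2.2.2
    simp only [Nat.unpair_pair] at h1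
    refine le_trans (le_of_eq ?_) (h1 hs)
    have i1 := ((hPanti k s).image_halves (fun J => if HS F k s J * x0 (HP F k 0) (HS F k 0) J = 1
      then 2 * J else 2 * J + 1) (fun J => by
        split_ifs
        · exact Or.inl rfl
        · exact Or.inr rfl)).2
    have i2 := ((hPanti k s).image_halves (fun J => if HS F k s J * x0 (HP F k 0) (HS F k 0) J = 1
      then 2 * J + 1 else 2 * J) (fun J => by
        split_ifs
        · exact Or.inr rfl
        · exact Or.inl rfl)).2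
    rw [heven k s hs, hodd k s hs, Finset.sum_image i1, Finset.sum_image i2,
      ← Finset.sum_sub_distrib]
    congr 1
    refine Finset.sum_congr rfl fun J hJ => ?_
    -- the sign is one or minus one
    change _ = HS F k s J * x0 (HP F k 0) (HS F k 0) J * (Λ k (2 * J) - Λ k (2 * J + 1))
    have hpm : HS F k s J * x0 (HP F k 0) (HS F k 0) J = 1 ∨
        HS F k s J * x0 (HP F k 0) (HS F k 0) J = -1 := by
      obtain ⟨b1, b2, J', b3, b4⟩ := (hK k s).2.1.level J hJ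
      have b5 : Blw (s0 k) J' := (tree_anti (htree k) s).2.2 J' b3
      have b6 : Blw (s0 k) J := by
        obtain ⟨i, hi⟩ := b4
        obtain ⟨j, hj⟩ := b5
        refine ⟨i + j, ?_⟩
        rw [pow_add, ← Nat.div_div_eq_div_mul, hi, hj]
      obtain ⟨Q, hQ, hPQ⟩ := (hK k 0).2.1
      have hN0 : HN s0 F k 0 = {s0 k} := by rw [HN, if_pos (by omega)]
      rw [hN0, Finset.singleton_biUnion] at hPQ
      have hQ' := hQ (s0 k) (by rw [hN0]; exact Finset.mem_singleton_self _)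
      rw [← hPQ] at hQ'
      have hfine : ∀ a ∈ HP F k 0, lv a < lv J := fun a ha =>
        ((hK k s).2.2.2 hs a ha).trans_le b2
      obtain ⟨a, ha, hab⟩ := Part_below hQ' b1 b6 fun a ha => (hfine a ha).le
      have hx := x0_eq (hPanti k 0) (HS F k 0) (hK k 0).2.2.1 ha hab (hfine a ha)
      rcases (hK k s).2.2.1 J with e | e <;> rcases hx with f | f <;> rw [e, f] <;> norm_num
    rcases hpm with h | h
    · rw [if_pos h, if_pos h, h, one_mul]
    · have hne : ¬ (HS F k s J * x0 (HP F k 0) (HS F k 0) J = 1) := by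
        rw [h]
        norm_num
      rw [if_neg hne, if_neg hne, h]
      ring

end Pool.Agent.T2H63.HF
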