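import Pool.Agent.T2H63.HF.TE1
import Pool.Agent.T2H63.HF.TR1
import Pool.Agent.T2H63.HF.NRM

/-!
# Package TE (30-40 min): the embedding attached to `IsTree`

TE1 with `A = TA N`, `X = TX (P 0) (σ 0)`, `c = len s0`; `κ = c^{-1/p}`, `κ' = c^{1/p-1}`, `κ κ' = c^{-1} = 2^{lv s0}`
(`0 < c ≤ 1`, `1/p ≤ 1`).  `B (hv 0) = B (ind 1) = κ X 1_{A 1} = κ comb (P 0)` (`tree_X`, `comb_ae`), `B (hv s) = κ X (1_{A(2s)} -
1_{A(2s+1)}) = κ comb (P s)` by `tree_sum_eq`; similarly for `pair` with `cpair_eq`.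
-/

open MeasureTheory Filter Topology
open scoped ENNReal BoundedContinuousFunction

set_option linter.unusedSectionVars false

namespace Pool.Agent.T2H63.HF

theorem TE (p : ℝ≥0∞) [Fact (1 ≤ p)] (hp : p ≠ ∞) {s0 : ℕ} {L : ℕ → ℕ} {P N : ℕ → Finset ℕ}
    {σ : ℕ → ℕ → ℝ} (h : IsTree s0 L P N σ) :
    ∃ (B A : E p →L[ℝ] E p) (κ κ' : ℝ), ‖B‖ ≤ 1 ∧ ‖A‖ ≤ 1 ∧ 0 < κ ∧ 0 < κ' ∧ κ * κ' = 2 ^ lv s0 ∧
      κ ≤ 2 ^ lv s0 ∧ κ' ≤ 2 ^ lv s0 ∧ (∀ s, B (hv p s) = κ • comb p (P s) (σ s)) ∧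
      ∀ s f, pair p s (A f) = κ' * cpair p (P s) (σ s) f := by
  have hc : 0 < len s0 := by unfold len; positivity
  have hc1 : len s0 ≤ 1 := by
    unfold len
    exact inv_le_one_of_one_le₀ (one_le_pow₀ (by norm_num))
  have hcinv : (len s0) ^ (-1 : ℝ) = 2 ^ lv s0 := by
    rw [Real.rpow_neg_one]; simp [len]
  have hpr : 1 ≤ p.toReal := by
    have h1 : (1 : ℝ≥0∞) ≤ p := Fact.out
    have := ENNReal.toReal_mono hp h1
    simpa using this
  have hpi : 1 / p.toReal ≤ 1 := by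
    rw [div_le_one (by linarith)]; exact hpr
  have hpi0 : 0 ≤ 1 / p.toReal := by positivity
  set X : ℝ → ℝ := TX (P 0) (σ 0) with hX
  have hXb : ∀ x, |X x| ≤ 1 := by
    intro x
    by_cases hx : x ∈ TA N 1
    · rcases (tree_X h x).1 hx with e | e <;> rw [hX, e] <;> simp
    · rw [hX, (tree_X h x).2 hx]; simp
  have hXm : Measurable X := measurable_TX _ _
  have hA1 : (TA N 1).indicator X = X := by
    funext x
    by_cases hx : x ∈ TA N 1
    · rw [Set.indicator_of_mem hx]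
    · rw [Set.indicator_of_notMem hx, hX, (tree_X h x).2 hx]
  obtain ⟨B, A', hB, hA', hB1, hA1'⟩ := TE1 p hp (TA N) X (len s0) hc (measurableSet_TA N) hXm
    (fun x hx => (tree_X h x).1 hx) (fun s hs => tree_measure h s hs) (fun s hs => tree_union h s hs)
    (fun s hs => tree_disjoint h s hs) (fun M => tree_star h M)
  refine ⟨B, A', len s0 ^ (-(1 / p.toReal)), len s0 ^ (1 / p.toReal - 1), hB, hA',
    Real.rpow_pos_of_pos hc _, Real.rpow_pos_of_pos hc _, ?_, ?_, ?_, ?_, ?_⟩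
  · rw [← Real.rpow_add hc, ← hcinv]
    congr 1; ring
  · rw [← hcinv]
    exact Real.rpow_le_rpow_of_exponent_ge hc hc1 (by linarith)
  · rw [← hcinv]
    exact Real.rpow_le_rpow_of_exponent_ge hc hc1 (by linarith)
  · intro s
    apply Lp.ext
    by_cases hs : s = 0
    · subst hs
      rw [hv, if_pos rfl]
      filter_upwards [hB1 1 le_rfl, Lp.coeFn_smul (len s0 ^ (-(1 / p.toReal))) (comb p (P 0) (σ 0)),
        comb_ae p (P 0) (σ 0)] with x h1 h2 h3
      rw [h1, h2, Pi.smul_apply, h3, hA1, smul_eq_mul]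
    · have hs1 : 1 ≤ s := Nat.one_le_iff_ne_zero.2 hs
      rw [hv, if_neg hs, map_sub]
      filter_upwards [hB1 (2 * s) (by omega), hB1 (2 * s + 1) (by omega),
        Lp.coeFn_smul (len s0 ^ (-(1 / p.toReal))) (comb p (P s) (σ s)),
        comb_ae p (P s) (σ s), Lp.coeFn_sub (B (ind p (2 * s))) (B (ind p (2 * s + 1)))]
        with x h1 h2 h3 h4 h5
      rw [h5, Pi.sub_apply, h1, h2, h3, Pi.smul_apply, h4, tree_sum_eq h s hs1 x, smul_eq_mul]
      ring
  · intro s f
    have hint : ∀ S : Set ℝ, MeasurableSet S → Integrable (fun x => f x * S.indicator X x) mu := by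
      intro S hS
      refine (integrable_E p f).mul_bdd (c := 1) ((hXm.indicator hS).aestronglyMeasurable) ?_
      refine Eventually.of_forall fun x => ?_
      rw [Real.norm_eq_abs]
      by_cases hx : x ∈ S
      · rw [Set.indicator_of_mem hx]; exact hXb x
      · rw [Set.indicator_of_notMem hx]; simp
    have hset : ∀ S : Set ℝ, MeasurableSet S →
        ∫ x in S, X x * f x ∂mu = ∫ x, f x * S.indicator X x ∂mu := by
      intro S hS
      rw [← integral_indicator hS]
      congr 1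
      funext x
      by_cases hx : x ∈ S
      · rw [Set.indicator_of_mem hx, Set.indicator_of_mem hx]; ring
      · rw [Set.indicator_of_notMem hx, Set.indicator_of_notMem hx]; ring
    rw [cpair_eq]
    by_cases hs : s = 0
    · subst hs
      rw [pair_zero, hA1' 1 le_rfl f, hset _ (measurableSet_TA N 1), hA1]
    · have hs1 : 1 ≤ s := Nat.one_le_iff_ne_zero.2 hs
      rw [pair_pos p hs]
      rw [sub_apply, hA1' (2 * s) (by omega), hA1' (2 * s + 1) (by omega),
        hset _ (measurableSet_TA N _), hset _ (measurableSet_TA N _), ← mul_sub,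
        ← integral_sub (hint _ (measurableSet_TA N _)) (hint _ (measurableSet_TA N _))]
      congr 2
      funext x
      rw [tree_sum_eq h s hs1 x]
      ring

end Pool.Agent.T2H63.HF
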