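import Pool.Agent.T2H63.HF.RED1
import Pool.Agent.T2H63.HF.REC
import Pool.Agent.T2H63.HF.TE

/-!
# Package RED (60-80 min): reduction to the identity plus a singular operator

REC gives `s0, Λ`; `w_k = 2^{lv (s0 k)}`, `W_t = max_{k ≤ t} w_k`.  With a small `ρ > 0` let `ω_t = ρ 4^{-t}`, `η_t = ω_t² / (W_t² )` (decreasing), and take the trees
of REC for `η`.  TE gives `B_k, A_k, κ_k, κ'_k`, `κ_k κ'_k = w_k`; `B = dg B_k`, `A = dg A_k`, `R = A T B`.  Then
`pair_s ((R (sg l (hv r))) k) = κ'_k κ_l cpair (P k s) ((T (sg l (comb (P l r)))) k)`, `κ'_k κ_l ≤ w_k w_l ≤ W²`; off the diagonal this is at most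
`W_m² η_m = ω_m² ≤ ω_t ω_t'`, `m = max(t,t')`.  On the diagonal: `lam k s := w_k 2^{lv s} ∑_{J ∈ N k s} Λ k J`, so `lam k s * len s = w_k ∑_{N k s} Λ`, and
the difference is at most `w_k η_t ≤ ω_t²`.  `c k = lam k 0 = lam k 1 = w_k Λ k (s0 k)`, `δ/2 ≤ |c k| ≤ ‖T‖`, `a = δ/2`.
`θ k s = w_k 2^{lv s} (∑_{N(2s)} Λ - ∑_{N(2s+1)} Λ)` for `s ≥ 1` (`θ k 0 = 0`); as `∑_{N(2s)} Λ + ∑_{N(2s+1)} Λ = ∑_{N s} Λ` (additivity: PCB `Refn.sum`,
`N_even, N_odd`) one gets `lam k (2s) = lam k s + θ k s` etc.; `|θ k s| ≤ w_k 2^{lv s} η_t ≤ 2^t ω_t²`, summable and small for small `ρ`.  RED1.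
-/

open MeasureTheory Filter Topology
open scoped ENNReal BoundedContinuousFunction

set_option linter.unusedSectionVars false

namespace Pool.Agent.T2H63.HF

private theorem tree_add {s0 : ℕ} {L : ℕ → ℕ} {P N : ℕ → Finset ℕ} {σ : ℕ → ℕ → ℝ}
    (h : IsTree s0 L P N σ) (Λ : ℕ → ℝ) (hΛ : ∀ s, 1 ≤ s → Λ s = Λ (2 * s) + Λ (2 * s + 1))
    (s : ℕ) (hs : 1 ≤ s) :
    ∑ J ∈ N s, Λ J = ∑ J ∈ N (2 * s), Λ J + ∑ J ∈ N (2 * s + 1), Λ J := by
  have ha := tree_anti h s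
  have e1 : ∑ J ∈ P s, Λ J = ∑ J ∈ N s, Λ J := (h.refn s).sum ha.1 Λ hΛ
  have i1 := (ha.2.1.image_halves (fun J => if σ s J * x0 (P 0) (σ 0) J = 1 then 2 * J else 2 * J + 1)
    (fun J => by split_ifs <;> simp)).2
  have i2 := (ha.2.1.image_halves (fun J => if σ s J * x0 (P 0) (σ 0) J = 1 then 2 * J + 1 else 2 * J)
    (fun J => by split_ifs <;> simp)).2
  rw [h.N_even s hs, h.N_odd s hs, Finset.sum_image i1, Finset.sum_image i2, ← e1,
    ← Finset.sum_add_distrib]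
  refine Finset.sum_congr rfl fun J hJ => ?_
  rw [hΛ J (ha.2.1.1 J hJ)]
  split_ifs
  · rfl
  · rw [add_comm]

theorem RED (p : ℕ → ℝ≥0∞) [∀ k, Fact (1 ≤ p k)] (hp : ∀ k, p k ≠ ∞) (T : ZZ p →L[ℝ] ZZ p)
    (δ : ℝ) (hδ : 0 < δ)
    (hT : ∀ k s, 1 ≤ s → δ * len s ≤ |pair (p k) s ((T (sg p k (hv (p k) s))) k)|) :
    ∃ A B S : ZZ p →L[ℝ] ZZ p, (∀ z, A (T (B z)) = z + S z) ∧ Sing p S := by
  obtain ⟨s0, Λ, hs0, hadd, hbd, hlow, hη⟩ := REC p hp T δ hδ hT
  let w : ℕ → ℝ := fun k => 2 ^ lv (s0 k)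
  have hw1 : ∀ k, 1 ≤ w k := fun k => one_le_pow₀ (by norm_num)
  have hwlen : ∀ k, w k * len (s0 k) = 1 := fun k => mul_inv_cancel₀ (by positivity)
  let W : ℕ → ℝ := fun t => ∑ k ∈ Finset.range (t + 1), w k
  have hwW : ∀ {k t : ℕ}, k ≤ t → w k ≤ W t := by
    intro k t hkt
    exact Finset.single_le_sum (f := w) (fun i _ => zero_le_one.trans (hw1 i))
      (Finset.mem_range.2 (by omega))
  have hW1 : ∀ t, 1 ≤ W t := fun t => (hw1 t).trans (hwW le_rfl)
  let ρ : ℝ := Real.sqrt δ / 8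
  have hρ0 : 0 < ρ := by positivity
  have hρ2 : ρ ^ 2 = δ / 64 := by
    show (Real.sqrt δ / 8) ^ 2 = δ / 64
    rw [div_pow, Real.sq_sqrt hδ.le]; norm_num
  let ω : ℕ → ℝ := fun t => ρ * (1 / 4) ^ t
  have hω0 : ∀ t, 0 < ω t := fun t => by positivity
  have hωanti : ∀ {t t' : ℕ}, t ≤ t' → ω t' ≤ ω t := by
    intro t t' h
    exact mul_le_mul_of_nonneg_left (pow_le_pow_of_le_one (by norm_num) (by norm_num) h) hρ0.le
  have hω2 : ∀ t, ω t * 2 ^ t = ρ * (1 / 2) ^ t := by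
    intro t
    show ρ * (1 / 4) ^ t * 2 ^ t = ρ * (1 / 2) ^ t
    rw [mul_assoc, ← mul_pow]; norm_num
  have hωs : Summable fun t => ω t * 2 ^ t := by
    simp only [hω2]
    exact (summable_geometric_of_lt_one (by norm_num) (by norm_num)).mul_left ρ
  have hωsum : ∑' t, ω t * 2 ^ t = ρ * 2 := by
    simp only [hω2]
    rw [tsum_mul_left, tsum_geometric_of_lt_one (by norm_num) (by norm_num)]
    norm_num
  let η : ℕ → ℝ := fun t => ω t ^ 2 / W t ^ 2
  have hWpos : ∀ t, 0 < W t := fun t => zero_lt_one.trans_le (hW1 t)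
  have hη0 : ∀ t, 0 < η t := fun t => div_pos (pow_pos (hω0 t) 2) (pow_pos (hWpos t) 2)
  have hWη : ∀ t, W t ^ 2 * η t = ω t ^ 2 := fun t =>
    mul_div_cancel₀ _ (pow_pos (hWpos t) 2).ne'
  have hwη : ∀ {k t : ℕ}, k ≤ t → w k * η t ≤ ω t ^ 2 := by
    intro k t hkt
    rw [← hWη t]
    refine mul_le_mul_of_nonneg_right ?_ (hη0 t).le
    refine (hwW hkt).trans ?_
    nlinarith [hW1 t]
  obtain ⟨L, P, N, σ, htree, hoff, hdiag, hdiff⟩ := hη η hη0
  choose Bk Ak κ κ' hB hA hκ hκ' hκκ hκw hκw' hBh hAp using fun k => TE (p k) (hp k) (htree k)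
  let B := dg p Bk 1 zero_le_one hB
  let A := dg p Ak 1 zero_le_one hA
  let R : ZZ p →L[ℝ] ZZ p := A.comp (T.comp B)
  have hRe : ∀ k s l r, pair (p k) s ((R (sg p l (hv (p l) r))) k) =
      κ l * κ' k * cpair (p k) (P k s) (σ k s) ((T (sg p l (comb (p l) (P l r) (σ l r)))) k) := by
    intro k s l r
    show pair (p k) s (Ak k ((T (B (sg p l (hv (p l) r)))) k)) = _
    have e1 : B (sg p l (hv (p l) r)) = κ l • sg p l (comb (p l) (P l r) (σ l r)) := by
      rw [← map_smul, ← hBh]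
      exact dg_sg p _ _ _ _ l _
    rw [e1, hAp, map_smul]
    have e3 : ∀ (a : ℝ) (z : ZZ p), (a • z) k = a • z k := fun a z => rfl
    rw [e3, map_smul, smul_eq_mul]
    ring
  let lam : ℕ → ℕ → ℝ := fun k s => w k * 2 ^ lv s * ∑ J ∈ N k s, Λ k J
  let c : ℕ → ℝ := fun k => w k * Λ k (s0 k)
  let θ : ℕ → ℕ → ℝ := fun k s => if s = 0 then 0 else
    w k * 2 ^ lv s * (∑ J ∈ N k (2 * s), Λ k J - ∑ J ∈ N k (2 * s + 1), Λ k J)
  have hθb : ∀ k s, |θ k s| ≤ ρ ^ 2 * (1 / 2) ^ s := by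
    intro k s
    show |if s = 0 then (0 : ℝ) else
      w k * 2 ^ lv s * (∑ J ∈ N k (2 * s), Λ k J - ∑ J ∈ N k (2 * s + 1), Λ k J)| ≤ _
    split_ifs with h
    · rw [abs_zero]; positivity
    · have h1 := hdiff k s (by omega)
      have h2 := hwη (Nat.left_le_pair k s)
      have h3 : (2 : ℝ) ^ lv s ≤ 2 ^ s :=
        pow_le_pow_right₀ (by norm_num) (Nat.log_le_self 2 s)
      have h4 : ω (Nat.pair k s) ^ 2 ≤ ρ ^ 2 * (1 / 16) ^ s := by
        have : ω (Nat.pair k s) ≤ ω s := hωanti (Nat.right_le_pair k s)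
        calc ω (Nat.pair k s) ^ 2 ≤ ω s ^ 2 := pow_le_pow_left₀ (hω0 _).le this 2
          _ = ρ ^ 2 * (1 / 16) ^ s := by
              show (ρ * (1 / 4) ^ s) ^ 2 = ρ ^ 2 * (1 / 16) ^ s
              rw [mul_pow, ← pow_mul, mul_comm s 2, pow_mul]; norm_num
      have hwk := zero_le_one.trans (hw1 k)
      rw [abs_mul, abs_of_nonneg (by positivity : 0 ≤ w k * 2 ^ lv s)]
      calc w k * 2 ^ lv s * |∑ J ∈ N k (2 * s), Λ k J - ∑ J ∈ N k (2 * s + 1), Λ k J|
          ≤ w k * 2 ^ lv s * η (Nat.pair k s) :=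
            mul_le_mul_of_nonneg_left h1 (by positivity)
        _ = 2 ^ lv s * (w k * η (Nat.pair k s)) := by ring
        _ ≤ 2 ^ s * (ρ ^ 2 * (1 / 16) ^ s) :=
            mul_le_mul h3 (h2.trans h4) (mul_nonneg hwk (hη0 _).le) (by positivity)
        _ = ρ ^ 2 * (1 / 8) ^ s := by
            rw [show (1 / 8 : ℝ) = 2 * (1 / 16) by norm_num, mul_pow]; ring
        _ ≤ ρ ^ 2 * (1 / 2) ^ s := by
            refine mul_le_mul_of_nonneg_left ?_ (by positivity)
            exact pow_le_pow_left₀ (by norm_num) (by norm_num) s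
  have hgeo : Summable fun s : ℕ => ρ ^ 2 * (1 / 2 : ℝ) ^ s :=
    (summable_geometric_of_lt_one (by norm_num) (by norm_num)).mul_left _
  have hθs : ∀ k, Summable fun s => |θ k s| := fun k =>
    Summable.of_nonneg_of_le (fun s => abs_nonneg _) (hθb k) hgeo
  have hθt : ∀ k, ∑' s, |θ k s| ≤ δ / 2 / 16 := by
    intro k
    have h1 := (hθs k).tsum_le_tsum (hθb k) hgeo
    rw [tsum_mul_left, tsum_geometric_of_lt_one (by norm_num) (by norm_num), hρ2] at h1
    linarith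
  obtain ⟨A', S, hA', hS⟩ := RED1 p hp R (δ / 2) ‖T‖ (by positivity) c
    (by
      intro k
      show δ / 2 ≤ |w k * Λ k (s0 k)|
      rw [abs_mul, abs_of_pos (zero_lt_one.trans_le (hw1 k))]
      have h1 := mul_le_mul_of_nonneg_left (hlow k) (zero_le_one.trans (hw1 k))
      have h2 := hwlen k
      calc δ / 2 = δ / 2 * (w k * len (s0 k)) := by rw [h2, mul_one]
        _ = w k * (δ / 2 * len (s0 k)) := by ring
        _ ≤ _ := h1)
    (by
      intro k
      show |w k * Λ k (s0 k)| ≤ ‖T‖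
      rw [abs_mul, abs_of_pos (zero_lt_one.trans_le (hw1 k))]
      have h1 := mul_le_mul_of_nonneg_left (hbd k (s0 k) (hs0 k)) (zero_le_one.trans (hw1 k))
      have h2 := hwlen k
      calc w k * |Λ k (s0 k)| ≤ w k * (‖T‖ * len (s0 k)) := h1
        _ = ‖T‖ * (w k * len (s0 k)) := by ring
        _ = ‖T‖ := by rw [h2, mul_one])
    θ lam hθs hθt
    (by
      intro k
      show w k * 2 ^ lv 0 * ∑ J ∈ N k 0, Λ k J = w k * Λ k (s0 k)
      rw [(htree k).N_zero, Finset.sum_singleton]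
      simp [lv])
    (by
      intro k
      show w k * 2 ^ lv 1 * ∑ J ∈ N k 1, Λ k J = w k * Λ k (s0 k)
      rw [(htree k).N_one, Finset.sum_singleton]
      simp [lv])
    (by
      intro k s hs
      show w k * 2 ^ lv (2 * s) * ∑ J ∈ N k (2 * s), Λ k J = w k * 2 ^ lv s * ∑ J ∈ N k s, Λ k J +
        if s = 0 then (0 : ℝ) else
          w k * 2 ^ lv s * (∑ J ∈ N k (2 * s), Λ k J - ∑ J ∈ N k (2 * s + 1), Λ k J)
      rw [if_neg (show s ≠ 0 by omega), tree_add (htree k) (Λ k) (hadd k) s hs, lv_two_mul hs]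
      ring)
    (by
      intro k s hs
      show w k * 2 ^ lv (2 * s + 1) * ∑ J ∈ N k (2 * s + 1), Λ k J =
        w k * 2 ^ lv s * ∑ J ∈ N k s, Λ k J - if s = 0 then (0 : ℝ) else
          w k * 2 ^ lv s * (∑ J ∈ N k (2 * s), Λ k J - ∑ J ∈ N k (2 * s + 1), Λ k J)
      rw [if_neg (show s ≠ 0 by omega), tree_add (htree k) (Λ k) (hadd k) s hs, lv_two_mul_add_one hs]
      ring)
    ω (fun t => (hω0 t).le) hωs
    (by rw [hωsum, mul_pow, hρ2]; linarith)
    (by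
      intro k s l r
      rw [hRe]
      by_cases h : k = l ∧ s = r
      · obtain ⟨rfl, rfl⟩ := h
        rw [if_pos ⟨rfl, rfl⟩]
        have h1 := hdiag k s
        have h2 : κ k * κ' k = w k := hκκ k
        have h3 : lam k s * len s = w k * ∑ J ∈ N k s, Λ k J := by
          show w k * 2 ^ lv s * (∑ J ∈ N k s, Λ k J) * len s = _
          have : (2 : ℝ) ^ lv s * len s = 1 := mul_inv_cancel₀ (by positivity)
          calc w k * 2 ^ lv s * (∑ J ∈ N k s, Λ k J) * len s =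
              w k * (∑ J ∈ N k s, Λ k J) * (2 ^ lv s * len s) := by ring
            _ = _ := by rw [this, mul_one]
        rw [h2, h3, ← mul_sub, abs_mul, abs_of_pos (zero_lt_one.trans_le (hw1 k))]
        calc w k * _ ≤ w k * η (Nat.pair k s) :=
              mul_le_mul_of_nonneg_left h1 (zero_le_one.trans (hw1 k))
          _ ≤ ω (Nat.pair k s) ^ 2 := hwη (Nat.left_le_pair k s)
          _ = _ := sq _
      · rw [if_neg h, sub_zero, abs_mul, abs_of_pos (mul_pos (hκ l) (hκ' k))]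
        have h1 := hoff k s l r (fun h' => h (by rwa [Prod.mk.injEq] at h'))
        set m := max (Nat.pair k s) (Nat.pair l r) with hm
        have hkm : w k ≤ W m := hwW ((Nat.left_le_pair k s).trans (le_max_left _ _))
        have hlm : w l ≤ W m := hwW ((Nat.left_le_pair l r).trans (le_max_right _ _))
        have h2 : κ l * κ' k ≤ W m ^ 2 := by
          rw [sq]
          exact mul_le_mul ((hκw l).trans hlm) ((hκw' k).trans hkm) (hκ' k).le (hWpos m).le
        calc κ l * κ' k * |cpair (p k) (P k s) (σ k s)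
              ((T (sg p l (comb (p l) (P l r) (σ l r)))) k)|
            ≤ W m ^ 2 * η m := mul_le_mul h2 h1 (abs_nonneg _) (by positivity)
          _ = ω m ^ 2 := hWη m
          _ = ω m * ω m := sq _
          _ ≤ ω (Nat.pair k s) * ω (Nat.pair l r) :=
              mul_le_mul (hωanti (le_max_left _ _)) (hωanti (le_max_right _ _)) (hω0 _).le
                (hω0 _).le)
  exact ⟨A'.comp A, B, S, hA', hS⟩

end Pool.Agent.T2H63.HF
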