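import Pool.Agent.T2H63.HF.DEN

/-!
# Package RED1 (75-90 min): an almost diagonal operator is invertible up to a singular operator

`C = ` coordinatewise multiplication by `c k` (`dg`), invertible, `‖C⁻¹‖ ≤ 1/a`.
`K1 = ` coordinatewise `∑_{s ≥ 1} θ_{k,s} (Qn (2s) - Qn (2s+1))` (norm convergent, `‖Qn‖ ≤ 2`), `‖K1‖ ≤ 4 sup_k ∑_s |θ_{k,s}| ≤ a/4`.
`K1 (sg k (hv r)) = sg k ((lam k r - c k) • hv r)` by `Qn_hv` and induction along the ancestors of `r` (`r = 2s` or `2s + 1`; for `r = 0, 1` it is `0`).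
`K2 = ∑_{(k,s),(l,r)} e_{(k,s),(l,r)} 2^{lv s} 2^{lv r} (pair_r ∘ ev l) ⊗ sg k (hv s)`, where `e_{(k,s),(l,r)}` is the number in `hR`;
absolutely convergent, `‖K2‖ ≤ ∑_{t,t'} ω_t ω_t' 2^t 2^t' ≤ a/4` (`lv s ≤ s ≤ Nat.pair k s`, `‖hv‖ ≤ 1`, `|pair f| ≤ ‖f‖`).
`R (sg l (hv r)) = (C + K1 + K2) (sg l (hv r))`: compare all the numbers `pair_s (· k)` (`pair_hv`, `eq_zero_of_pair`, `len s * 2^{lv s} = 1`).
So `R - C - K1 - K2` is singular (`ext_hv`).  `C + K1 + K2 = C (1 + C⁻¹(K1 + K2))` is invertible, `‖C⁻¹ (K1 + K2)‖ ≤ 1/2`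
(`Units.oneSub`, or `NormedRing.inverse_one_sub`); `A` = its inverse, `S = A ∘ (R - C - K1 - K2)`.
-/

open MeasureTheory Filter Topology
open scoped ENNReal BoundedContinuousFunction

set_option linter.unusedSectionVars false

namespace Pool.Agent.T2H63.HF

open Classical in
private noncomputable def chi (a r : ℕ) : ℝ := if 1 ≤ r ∧ Blw a r then 1 else 0

private theorem Qn_hv_chi (q : ℝ≥0∞) [Fact (1 ≤ q)] (s : ℕ) (hs : 1 ≤ s) (r : ℕ) :
    Qn q s (hv q r) = chi s r • hv q r := by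
  have h := Qn_hv q s hs r
  unfold chi
  by_cases hr : 1 ≤ r ∧ Blw s r
  · rw [if_pos hr, one_smul]; exact h.1 hr.1 hr.2
  · rw [if_neg hr, zero_smul]
    apply h.2
    by_cases h1 : 1 ≤ r
    · right; exact fun h2 => hr ⟨h1, h2⟩
    · left; omega

private theorem Blw_double (a r : ℕ) : Blw a (2 * r) ↔ a = 2 * r ∨ Blw a r := by
  constructor
  · rintro ⟨i, hi⟩
    rcases i with _ | i
    · left; simpa using hi.symm
    · right
      refine ⟨i, ?_⟩
      rw [← hi, pow_succ', ← Nat.div_div_eq_div_mul]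
      congr 1; omega
  · rintro (rfl | ⟨i, hi⟩)
    · exact ⟨0, by simp⟩
    · refine ⟨i + 1, ?_⟩
      rw [pow_succ', ← Nat.div_div_eq_div_mul, show 2 * r / 2 = r by omega]
      exact hi

private theorem Blw_double' (a r : ℕ) : Blw a (2 * r + 1) ↔ a = 2 * r + 1 ∨ Blw a r := by
  constructor
  · rintro ⟨i, hi⟩
    rcases i with _ | i
    · left; simpa using hi.symm
    · right
      refine ⟨i, ?_⟩
      rw [← hi, pow_succ', ← Nat.div_div_eq_div_mul]
      congr 1; omega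
  · rintro (rfl | ⟨i, hi⟩)
    · exact ⟨0, by simp⟩
    · refine ⟨i + 1, ?_⟩
      rw [pow_succ', ← Nat.div_div_eq_div_mul, show (2 * r + 1) / 2 = r by omega]
      exact hi

private theorem not_Blw {a r : ℕ} (h : r < a) : ¬ Blw a r := by
  rintro ⟨i, hi⟩
  have := Nat.div_le_self r (2 ^ i)
  omega

private theorem chi_congr {a r a' r' : ℕ} (h : (1 ≤ r ∧ Blw a r) ↔ (1 ≤ r' ∧ Blw a' r')) :
    chi a r = chi a' r' := by
  unfold chi
  by_cases h1 : 1 ≤ r ∧ Blw a r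
  · rw [if_pos h1, if_pos (h.1 h1)]
  · rw [if_neg h1, if_neg (mt h.2 h1)]

private theorem chi_one {a r : ℕ} (h : 1 ≤ r) (h2 : Blw a r) : chi a r = 1 := by
  unfold chi; rw [if_pos ⟨h, h2⟩]

private theorem chi_zero {a r : ℕ} (h2 : ¬ Blw a r) : chi a r = 0 := by
  unfold chi; rw [if_neg (fun h => h2 h.2)]

private theorem chi_ee {s r : ℕ} (hr : 1 ≤ r) :
    chi (2 * s) (2 * r) = chi (2 * s) r + if s = r then 1 else 0 := by
  by_cases h : s = r
  · subst h
    rw [chi_one (by omega) ⟨0, by simp⟩, chi_zero (not_Blw (show s < 2 * s by omega)), if_pos rfl,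
      zero_add]
  · rw [if_neg h, add_zero]
    refine chi_congr ?_
    rw [Blw_double]
    constructor
    · rintro ⟨_, h2 | h2⟩
      · omega
      · exact ⟨hr, h2⟩
    · rintro ⟨_, h2⟩
      exact ⟨by omega, Or.inr h2⟩

private theorem chi_oe {s r : ℕ} (hr : 1 ≤ r) :
    chi (2 * s + 1) (2 * r) = chi (2 * s + 1) r := by
  refine chi_congr ?_
  rw [Blw_double]
  constructor
  · rintro ⟨_, h2 | h2⟩
    · omega
    · exact ⟨hr, h2⟩
  · rintro ⟨_, h2⟩
    exact ⟨by omega, Or.inr h2⟩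

private theorem chi_eo {s r : ℕ} (hr : 1 ≤ r) :
    chi (2 * s) (2 * r + 1) = chi (2 * s) r := by
  refine chi_congr ?_
  rw [Blw_double']
  constructor
  · rintro ⟨_, h2 | h2⟩
    · omega
    · exact ⟨hr, h2⟩
  · rintro ⟨_, h2⟩
    exact ⟨by omega, Or.inr h2⟩

private theorem chi_oo {s r : ℕ} (hr : 1 ≤ r) :
    chi (2 * s + 1) (2 * r + 1) = chi (2 * s + 1) r + if s = r then 1 else 0 := by
  by_cases h : s = r
  · subst h
    rw [chi_one (by omega) ⟨0, by simp⟩, chi_zero (not_Blw (show s < 2 * s + 1 by omega)), if_pos rfl,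
      zero_add]
  · rw [if_neg h, add_zero]
    refine chi_congr ?_
    rw [Blw_double']
    constructor
    · rintro ⟨_, h2 | h2⟩
      · omega
      · exact ⟨hr, h2⟩
    · rintro ⟨_, h2⟩
      exact ⟨by omega, Or.inr h2⟩

private noncomputable def tm (θ : ℕ → ℝ) (r s : ℕ) : ℝ :=
  if s = 0 then 0 else θ s * (chi (2 * s) r - chi (2 * s + 1) r)

private theorem tm_even (θ : ℕ → ℝ) {r : ℕ} (hr : 1 ≤ r) (s : ℕ) :
    tm θ (2 * r) s = tm θ r s + if s = r then θ r else 0 := by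
  unfold tm
  by_cases hs : s = 0
  · subst hs
    simp [show (0 : ℕ) ≠ r by omega]
  · rw [if_neg hs, if_neg hs, chi_ee hr, chi_oe hr]
    by_cases h : s = r
    · subst h; simp; ring
    · simp [h]

private theorem tm_odd (θ : ℕ → ℝ) {r : ℕ} (hr : 1 ≤ r) (s : ℕ) :
    tm θ (2 * r + 1) s = tm θ r s + if s = r then -θ r else 0 := by
  unfold tm
  by_cases hs : s = 0
  · subst hs
    simp [show (0 : ℕ) ≠ r by omega]
  · rw [if_neg hs, if_neg hs, chi_eo hr, chi_oo hr]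
    by_cases h : s = r
    · subst h; simp; ring
    · simp [h]

private theorem hasSum_tm (θ lam : ℕ → ℝ) (c : ℝ) (h0 : lam 0 = c) (h1 : lam 1 = c)
    (he : ∀ s, 1 ≤ s → lam (2 * s) = lam s + θ s)
    (ho : ∀ s, 1 ≤ s → lam (2 * s + 1) = lam s - θ s) (r : ℕ) :
    HasSum (tm θ r) (lam r - c) := by
  induction r using Nat.strong_induction_on with
  | _ r ih =>
    rcases Nat.eq_zero_or_pos r with rfl | hr
    · have : tm θ 0 = fun _ => 0 := by ext s; simp [tm, chi]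
      rw [this, h0, sub_self]; exact hasSum_zero
    rcases Nat.even_or_odd' r with ⟨m, rfl | rfl⟩
    · have hm : 1 ≤ m := by omega
      have h := (ih m (by omega)).add (hasSum_ite_eq m (θ m))
      rw [he m hm, show lam m + θ m - c = lam m - c + θ m by ring]
      refine h.congr_fun ?_
      intro s
      exact tm_even θ hm s
    · rcases Nat.eq_zero_or_pos m with rfl | hm
      · have : tm θ (2 * 0 + 1) = fun _ => 0 := by
          ext s
          unfold tm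
          split_ifs with hs
          · rfl
          · have h1 := not_Blw (show 1 < 2 * s by omega)
            have h2 := not_Blw (show 1 < 2 * s + 1 by omega)
            simp [chi, h1, h2]
        rw [this]
        simp only [mul_zero, zero_add, h1, sub_self]
        exact hasSum_zero
      · have h := (ih m (by omega)).add (hasSum_ite_eq m (-θ m))
        rw [ho m hm, show lam m - θ m - c = lam m - c + -θ m by ring]
        refine h.congr_fun ?_
        intro s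
        exact tm_odd θ hm s

private noncomputable def D (q : ℝ≥0∞) [Fact (1 ≤ q)] (θ : ℕ → ℝ) (s : ℕ) : E q →L[ℝ] E q :=
  if s = 0 then 0 else θ s • (Qn q (2 * s) - Qn q (2 * s + 1))

private theorem norm_D_le (q : ℝ≥0∞) [Fact (1 ≤ q)] (θ : ℕ → ℝ) (s : ℕ) :
    ‖D q θ s‖ ≤ 4 * |θ s| := by
  unfold D
  split_ifs with h
  · rw [norm_zero]; positivity
  · rw [norm_smul, Real.norm_eq_abs]
    have h1 := norm_Qn_le q (2 * s) (by omega)
    have h2 := norm_Qn_le q (2 * s + 1) (by omega)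
    have h3 := norm_sub_le (Qn q (2 * s)) (Qn q (2 * s + 1))
    calc |θ s| * ‖Qn q (2 * s) - Qn q (2 * s + 1)‖ ≤ |θ s| * 4 :=
          mul_le_mul_of_nonneg_left (by linarith) (abs_nonneg _)
      _ = 4 * |θ s| := by ring

private theorem D_hv (q : ℝ≥0∞) [Fact (1 ≤ q)] (θ : ℕ → ℝ) (s r : ℕ) :
    D q θ s (hv q r) = tm θ r s • hv q r := by
  unfold D tm
  split_ifs with h
  · simp
  · rw [FunLike.coe_smul, Pi.smul_apply, sub_apply, Qn_hv_chi q _ (by omega),
      Qn_hv_chi q _ (by omega), ← sub_smul, smul_smul]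

private theorem K1_spec (q : ℝ≥0∞) [Fact (1 ≤ q)] (θ lam : ℕ → ℝ) (c b : ℝ)
    (hs : Summable fun s => |θ s|) (hθ : ∑' s, |θ s| ≤ b) (h0 : lam 0 = c) (h1 : lam 1 = c)
    (he : ∀ s, 1 ≤ s → lam (2 * s) = lam s + θ s)
    (ho : ∀ s, 1 ≤ s → lam (2 * s + 1) = lam s - θ s) :
    ∃ K : E q →L[ℝ] E q, ‖K‖ ≤ 4 * b ∧ ∀ r, K (hv q r) = (lam r - c) • hv q r := by
  have hD : Summable (D q θ) :=
    Summable.of_norm_bounded (hs.mul_left 4) (norm_D_le q θ)
  refine ⟨∑' s, D q θ s, ?_, fun r => ?_⟩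
  · have := tsum_of_norm_bounded (hs.hasSum.mul_left 4) (norm_D_le q θ)
    linarith
  · have e1 := hD.hasSum.mapL (ContinuousLinearMap.apply ℝ (E q) (hv q r))
    have e2 : HasSum (fun s => D q θ s (hv q r)) ((lam r - c) • hv q r) := by
      refine ((hasSum_tm θ lam c h0 h1 he ho r).smul_const (hv q r)).congr_fun ?_
      intro s
      exact D_hv q θ s r
    exact e1.unique e2

section K2

variable (p : ℕ → ℝ≥0∞) [∀ k, Fact (1 ≤ p k)]

private noncomputable def rk (k s l r : ℕ) : ZZ p →L[ℝ] ZZ p :=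
  ((2 : ℝ) ^ lv s * 2 ^ lv r) • ((pair (p l) r).comp (ev p l)).smulRight (sg p k (hv (p k) s))

private theorem norm_rk_le (k s l r : ℕ) : ‖rk p k s l r‖ ≤ 2 ^ s * 2 ^ r := by
  unfold rk
  rw [norm_smul, ContinuousLinearMap.norm_smulRight_apply, norm_sg]
  have h1 : ‖(pair (p l) r).comp (ev p l)‖ ≤ 1 := by
    refine ContinuousLinearMap.opNorm_le_bound _ zero_le_one fun z => ?_
    rw [one_mul]
    exact (abs_pair_le (p l) r (z l)).trans (norm_coord_le p z l)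
  have h2 := norm_hv_le (p k) s
  have h3 : ∀ s, lv s ≤ s := fun s => Nat.log_le_self 2 s
  rw [Real.norm_of_nonneg (by positivity)]
  calc (2 : ℝ) ^ lv s * 2 ^ lv r * (‖(pair (p l) r).comp (ev p l)‖ * ‖hv (p k) s‖)
      ≤ 2 ^ lv s * 2 ^ lv r * (1 * 1) := by gcongr
    _ = 2 ^ lv s * 2 ^ lv r := by ring
    _ ≤ 2 ^ s * 2 ^ r := by
        gcongr
        · norm_num
        · exact h3 s
        · norm_num
        · exact h3 r

private theorem pair_sg (k s l r : ℕ) :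
    pair (p k) s ((sg p l (hv (p l) r)) k) = if k = l ∧ s = r then len s else 0 := by
  by_cases h : k = l
  · subst h
    rw [sg_self, pair_hv]
    simp
  · rw [sg_ne p h, map_zero, if_neg (fun h' => h h'.1)]

private theorem rk_apply (k s l r k' s' l' r' : ℕ) :
    pair (p k) s ((rk p k' s' l' r' (sg p l (hv (p l) r))) k) =
      if (k = k' ∧ s = s') ∧ (l = l' ∧ r = r') then 1 else 0 := by
  have e : (rk p k' s' l' r' (sg p l (hv (p l) r))) =
      ((2 : ℝ) ^ lv s' * 2 ^ lv r' * pair (p l') r' ((sg p l (hv (p l) r)) l')) •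
        sg p k' (hv (p k') s') := by
    rw [← smul_smul]
    rfl
  rw [pair_sg] at e
  rw [e]
  have e2 : ∀ (a : ℝ) (z : ZZ p), (a • z) k = a • z k := fun a z => rfl
  rw [e2, map_smul, pair_sg, smul_eq_mul]
  have e3 : ∀ s, (2 : ℝ) ^ lv s * len s = 1 := by
    intro s
    unfold len
    exact mul_inv_cancel₀ (by positivity)
  by_cases h1 : k = k' ∧ s = s'
  · by_cases h2 : l = l' ∧ r = r'
    · rw [if_pos ⟨h2.1.symm, h2.2.symm⟩, if_pos h1, if_pos ⟨h1, h2⟩]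
      rw [← h1.2]
      have := e3 s
      have := e3 r'
      calc (2 : ℝ) ^ lv s * 2 ^ lv r' * len r' * len s =
          (2 ^ lv s * len s) * (2 ^ lv r' * len r') := by ring
        _ = 1 := by rw [e3, e3, one_mul]
    · rw [if_neg (fun h => h2 ⟨h.1.symm, h.2.symm⟩),
        if_neg (show ¬((k = k' ∧ s = s') ∧ (l = l' ∧ r = r')) from fun h => h2 h.2)]
      ring
  · rw [if_neg h1, if_neg (show ¬((k = k' ∧ s = s') ∧ (l = l' ∧ r = r')) from fun h => h1 h.1)]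
    ring

private theorem K2_spec (e : ℕ → ℕ → ℕ → ℕ → ℝ) (ω : ℕ → ℝ) (hω : ∀ t, 0 ≤ ω t)
    (hωs : Summable fun t => ω t * 2 ^ t)
    (he : ∀ k s l r, |e k s l r| ≤ ω (Nat.pair k s) * ω (Nat.pair l r)) :
    ∃ K : ZZ p →L[ℝ] ZZ p, ‖K‖ ≤ (∑' t, ω t * 2 ^ t) ^ 2 ∧
      ∀ k s l r, pair (p k) s ((K (sg p l (hv (p l) r))) k) = e k s l r := by
  let F : ℕ × ℕ → (ZZ p →L[ℝ] ZZ p) := fun i =>
    e i.1.unpair.1 i.1.unpair.2 i.2.unpair.1 i.2.unpair.2 •
      rk p i.1.unpair.1 i.1.unpair.2 i.2.unpair.1 i.2.unpair.2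
  have hF : ∀ i, ‖F i‖ ≤ (ω i.1 * 2 ^ i.1) * (ω i.2 * 2 ^ i.2) := by
    intro i
    show ‖e i.1.unpair.1 i.1.unpair.2 i.2.unpair.1 i.2.unpair.2 •
      rk p i.1.unpair.1 i.1.unpair.2 i.2.unpair.1 i.2.unpair.2‖ ≤ _
    rw [norm_smul, Real.norm_eq_abs]
    have h1 := he i.1.unpair.1 i.1.unpair.2 i.2.unpair.1 i.2.unpair.2
    rw [Nat.pair_unpair, Nat.pair_unpair] at h1
    have h2 := norm_rk_le p i.1.unpair.1 i.1.unpair.2 i.2.unpair.1 i.2.unpair.2
    have h3 : (2 : ℝ) ^ i.1.unpair.2 ≤ 2 ^ i.1 :=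
      pow_le_pow_right₀ (by norm_num) (Nat.unpair_right_le _)
    have h4 : (2 : ℝ) ^ i.2.unpair.2 ≤ 2 ^ i.2 :=
      pow_le_pow_right₀ (by norm_num) (Nat.unpair_right_le _)
    have h5 := hω i.1
    have h6 := hω i.2
    calc _ ≤ (ω i.1 * ω i.2) * (2 ^ i.1.unpair.2 * 2 ^ i.2.unpair.2) :=
          mul_le_mul h1 h2 (norm_nonneg _) (by positivity)
      _ ≤ (ω i.1 * ω i.2) * (2 ^ i.1 * 2 ^ i.2) := by gcongr
      _ = _ := by ring
  have hg : Summable fun i : ℕ × ℕ => (ω i.1 * 2 ^ i.1) * (ω i.2 * 2 ^ i.2) :=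
    hωs.mul_of_nonneg hωs (fun t => mul_nonneg (hω t) (by positivity))
      (fun t => mul_nonneg (hω t) (by positivity))
  have hgs : ∑' i : ℕ × ℕ, (ω i.1 * 2 ^ i.1) * (ω i.2 * 2 ^ i.2) = (∑' t, ω t * 2 ^ t) ^ 2 := by
    rw [sq]
    exact (hωs.tsum_mul_tsum hωs hg).symm
  have hFs : Summable F := Summable.of_norm_bounded hg hF
  refine ⟨∑' i, F i, ?_, fun k s l r => ?_⟩
  · rw [← hgs]
    exact tsum_of_norm_bounded hg.hasSum hF
  · let Φ : (ZZ p →L[ℝ] ZZ p) →L[ℝ] ℝ :=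
      ((pair (p k) s).comp (ev p k)).comp
        (ContinuousLinearMap.apply ℝ (ZZ p) (sg p l (hv (p l) r)))
    have e1 : HasSum (fun i => Φ (F i)) (Φ (∑' i, F i)) := hFs.hasSum.mapL Φ
    have e2 : HasSum (fun i => Φ (F i)) (Φ (F (Nat.pair k s, Nat.pair l r))) := by
      refine hasSum_single _ fun i hi => ?_
      show pair (p k) s ((F i (sg p l (hv (p l) r))) k) = 0
      show pair (p k) s (((e i.1.unpair.1 i.1.unpair.2 i.2.unpair.1 i.2.unpair.2 •
        rk p i.1.unpair.1 i.1.unpair.2 i.2.unpair.1 i.2.unpair.2) (sg p l (hv (p l) r))) k) = 0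
      rw [FunLike.coe_smul, Pi.smul_apply]
      have e3 : ∀ (a : ℝ) (z : ZZ p), (a • z) k = a • z k := fun a z => rfl
      rw [e3, map_smul, rk_apply, if_neg, smul_zero]
      rintro ⟨⟨h1, h2⟩, h3, h4⟩
      apply hi
      rw [h1, h2, h3, h4, Nat.pair_unpair, Nat.pair_unpair]
    have e4 : Φ (F (Nat.pair k s, Nat.pair l r)) = e k s l r := by
      show pair (p k) s (((e (Nat.pair k s).unpair.1 (Nat.pair k s).unpair.2
        (Nat.pair l r).unpair.1 (Nat.pair l r).unpair.2 •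
        rk p (Nat.pair k s).unpair.1 (Nat.pair k s).unpair.2 (Nat.pair l r).unpair.1
          (Nat.pair l r).unpair.2) (sg p l (hv (p l) r))) k) = e k s l r
      rw [Nat.unpair_pair, Nat.unpair_pair]
      rw [FunLike.coe_smul, Pi.smul_apply]
      have e3 : ∀ (a : ℝ) (z : ZZ p), (a • z) k = a • z k := fun a z => rfl
      rw [e3, map_smul, rk_apply, if_pos ⟨⟨rfl, rfl⟩, rfl, rfl⟩, smul_eq_mul, mul_one]
    have := e1.unique e2
    rw [e4] at this
    exact this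

end K2

theorem RED1 (p : ℕ → ℝ≥0∞) [∀ k, Fact (1 ≤ p k)] (hp : ∀ k, p k ≠ ∞) (R : ZZ p →L[ℝ] ZZ p)
    (a M : ℝ) (ha : 0 < a) (c : ℕ → ℝ) (hc : ∀ k, a ≤ |c k|) (hM : ∀ k, |c k| ≤ M)
    (θ lam : ℕ → ℕ → ℝ) (hθs : ∀ k, Summable fun s => |θ k s|) (hθ : ∀ k, ∑' s, |θ k s| ≤ a / 16)
    (h0 : ∀ k, lam k 0 = c k) (h1 : ∀ k, lam k 1 = c k)
    (he : ∀ k s, 1 ≤ s → lam k (2 * s) = lam k s + θ k s)
    (ho : ∀ k s, 1 ≤ s → lam k (2 * s + 1) = lam k s - θ k s)
    (ω : ℕ → ℝ) (hω : ∀ t, 0 ≤ ω t) (hωs : Summable fun t => ω t * 2 ^ t)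
    (hωb : (∑' t, ω t * 2 ^ t) ^ 2 ≤ a / 4)
    (hR : ∀ k s l r, |pair (p k) s ((R (sg p l (hv (p l) r))) k) -
      (if k = l ∧ s = r then lam k s * len s else 0)| ≤ ω (Nat.pair k s) * ω (Nat.pair l r)) :
    ∃ A S : ZZ p →L[ℝ] ZZ p, (∀ z, A (R z) = z + S z) ∧ Sing p S := by
  have hM0 : 0 ≤ M := (abs_nonneg _).trans (hM 0)
  -- the operators `C`, `C'`
  have hCb : ∀ k, ‖c k • ContinuousLinearMap.id ℝ (E (p k))‖ ≤ M := by
    intro k
    rw [norm_smul, Real.norm_eq_abs]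
    calc |c k| * ‖ContinuousLinearMap.id ℝ (E (p k))‖ ≤ |c k| * 1 :=
          mul_le_mul_of_nonneg_left ContinuousLinearMap.norm_id_le (abs_nonneg _)
      _ ≤ M := by rw [mul_one]; exact hM k
  have hCb' : ∀ k, ‖(c k)⁻¹ • ContinuousLinearMap.id ℝ (E (p k))‖ ≤ 1 / a := by
    intro k
    rw [norm_smul, Real.norm_eq_abs, abs_inv]
    calc |c k|⁻¹ * ‖ContinuousLinearMap.id ℝ (E (p k))‖ ≤ |c k|⁻¹ * 1 :=
          mul_le_mul_of_nonneg_left ContinuousLinearMap.norm_id_le (by positivity)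
      _ ≤ 1 / a := by
          rw [mul_one, one_div]
          exact inv_anti₀ ha (hc k)
  have hc0 : ∀ k, c k ≠ 0 := fun k h => by
    have := hc k
    rw [h, abs_zero] at this
    linarith
  set C := dg p (fun k => c k • ContinuousLinearMap.id ℝ (E (p k))) M hM0 hCb with hC
  set C' := dg p (fun k => (c k)⁻¹ • ContinuousLinearMap.id ℝ (E (p k))) (1 / a) (by positivity)
    hCb' with hC'
  have hC'C : ∀ z, C' (C z) = z := by
    intro z
    ext k : 2
    rw [hC', dg_apply, hC, dg_apply]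
    show (c k)⁻¹ • (c k • z k) = z k
    rw [smul_smul, inv_mul_cancel₀ (hc0 k), one_smul]
  have hC'n : ‖C'‖ ≤ 1 / a := norm_dg_le p _ _ _ _
  -- the operator `K1`
  have hK := fun k => K1_spec (p k) (θ k) (lam k) (c k) (a / 16) (hθs k) (hθ k) (h0 k) (h1 k)
    (he k) (ho k)
  choose K hKn hKh using hK
  have hKn' : ∀ k, ‖K k‖ ≤ a / 4 := fun k => (hKn k).trans (by linarith)
  set K1 := dg p K (a / 4) (by positivity) hKn' with hK1
  have hK1n : ‖K1‖ ≤ a / 4 := norm_dg_le p _ _ _ _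
  -- the operator `K2`
  obtain ⟨K2, hK2n, hK2⟩ := K2_spec p (fun k s l r => pair (p k) s ((R (sg p l (hv (p l) r))) k) -
      (if k = l ∧ s = r then lam k s * len s else 0)) ω hω hωs hR
  set W := C'.comp (K1 + K2) with hW
  have hWn : ‖-W‖ < 1 := by
    rw [norm_neg]
    have e1 : ‖K1 + K2‖ ≤ a / 2 := (norm_add_le _ _).trans (by linarith)
    calc ‖W‖ ≤ ‖C'‖ * ‖K1 + K2‖ := ContinuousLinearMap.opNorm_comp_le _ _
      _ ≤ (1 / a) * (a / 2) := mul_le_mul hC'n e1 (norm_nonneg _) (by positivity)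
      _ = 1 / 2 := by field_simp
      _ < 1 := by norm_num
  let u := Units.oneSub (-W) hWn
  have hu : ∀ z, (↑u⁻¹ : ZZ p →L[ℝ] ZZ p) (z + W z) = z := by
    intro z
    have e1 : (↑u⁻¹ : ZZ p →L[ℝ] ZZ p) * (1 - -W) = 1 := by
      have := u.inv_mul
      rwa [Units.val_oneSub] at this
    have e2 := congrArg (fun f : ZZ p →L[ℝ] ZZ p => f z) e1
    simp only [sub_neg_eq_add] at e2
    exact e2
  set Nn := C + K1 + K2 with hNn
  have hN1 : ∀ z, C' (Nn z) = z + W z := by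
    intro z
    rw [hNn, hW]
    show C' (C z + K1 z + K2 z) = z + C' (K1 z + K2 z)
    rw [add_assoc, map_add, hC'C]
  refine ⟨(↑u⁻¹ : ZZ p →L[ℝ] ZZ p).comp C',
    ((↑u⁻¹ : ZZ p →L[ℝ] ZZ p).comp C').comp (R - Nn), fun z => ?_, fun l x => ?_⟩
  · show (↑u⁻¹ : ZZ p →L[ℝ] ZZ p) (C' (R z)) =
      z + (↑u⁻¹ : ZZ p →L[ℝ] ZZ p) (C' (R z - Nn z))
    rw [map_sub, map_sub, hN1, hu]
    abel
  · have key : (R - Nn).comp (sg p l) = 0 := by
      refine ext_hv (p l) (hp l) _ _ fun r => ?_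
      show R (sg p l (hv (p l) r)) - (C (sg p l (hv (p l) r)) + K1 (sg p l (hv (p l) r)) +
        K2 (sg p l (hv (p l) r))) = 0
      ext k : 2
      refine eq_zero_of_pair (p k) (hp k) _ fun s => ?_
      show pair (p k) s ((R (sg p l (hv (p l) r))) k - ((C (sg p l (hv (p l) r))) k +
        (K1 (sg p l (hv (p l) r))) k + (K2 (sg p l (hv (p l) r))) k)) = 0
      rw [map_sub, map_add, map_add, hK2, hC, hK1, dg_sg, dg_sg, hKh]
      have e1 : (c l • ContinuousLinearMap.id ℝ (E (p l))) (hv (p l) r) = c l • hv (p l) r := rfl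
      rw [e1, map_smul, map_smul]
      have e3 : ∀ (a : ℝ) (z : ZZ p), (a • z) k = a • z k := fun a z => rfl
      rw [e3, e3, map_smul, map_smul, pair_sg]
      by_cases h : k = l ∧ s = r
      · obtain ⟨rfl, rfl⟩ := h
        simp only [and_self, if_true, smul_eq_mul]
        ring
      · rw [if_neg h, if_neg h]
        simp
    show (↑u⁻¹ : ZZ p →L[ℝ] ZZ p) (C' ((R - Nn).comp (sg p l) x)) = 0
    rw [key]
    simp

end Pool.Agent.T2H63.HF
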