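import Mathlib

/-!
# Package RSQ (30-45 min): random signs

Average over all `σ ∈ {±1}^ι`: the mean of `(∑ σ_i b_i)²` is `∑ b_i²`, and the mean of `(∑_{i ≠ j} σ_i σ_j a_ij)²` is
`∑_{i ≠ j} a_ij (a_ij + a_ji) ≤ 2 ∑_{i ≠ j} a_ij²`.  The sum of all these means is `< t²`, so for some `σ` every one of the squares is `≤ t²`.
-/

open MeasureTheory Filter Topology
open scoped ENNReal BoundedContinuousFunction

set_option linter.unusedSectionVars false

namespace Pool.Agent.T2H63.HF

namespace RSQaux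

variable {ι : Type*} [Fintype ι] [DecidableEq ι]

/-- the sign attached to a Boolean vector -/
def sg (w : ι → Bool) (i : ι) : ℝ := if w i then 1 else -1

theorem sg_sq (w : ι → Bool) (i : ι) : sg w i * sg w i = 1 := by
  unfold sg; split_ifs <;> norm_num

/-- flip one coordinate -/
def flip (i : ι) (w : ι → Bool) : ι → Bool := Function.update w i (!w i)

theorem flip_flip (i : ι) (w : ι → Bool) : flip i (flip i w) = w := by
  funext j
  unfold flip
  by_cases h : j = i
  · subst h; simp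
  · simp [Function.update_of_ne h]

theorem sg_flip_self (i : ι) (w : ι → Bool) : sg (flip i w) i = - sg w i := by
  unfold sg flip
  cases w i <;> simp

theorem sg_flip_ne {i j : ι} (h : j ≠ i) (w : ι → Bool) : sg (flip i w) j = sg w j := by
  unfold sg flip
  rw [Function.update_of_ne h]

theorem sum_odd (i : ι) (F : (ι → Bool) → ℝ) (h : ∀ w, F (flip i w) = - F w) :
    ∑ w, F w = 0 := by
  have e : ∑ w, F (flip i w) = ∑ w, F w :=
    Fintype.sum_equiv ⟨flip i, flip i, flip_flip i, flip_flip i⟩ _ _ (fun w => rfl)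
  rw [Finset.sum_congr rfl (fun w _ => h w), Finset.sum_neg_distrib] at e
  linarith

theorem sum_two {i j : ι} (h : i ≠ j) : ∑ w : ι → Bool, sg w i * sg w j = 0 := by
  apply sum_odd i
  intro w
  rw [sg_flip_self, sg_flip_ne h.symm]; ring

/-- the number of sign vectors -/
noncomputable def N (ι : Type*) [Fintype ι] [DecidableEq ι] : ℝ := (Fintype.card (ι → Bool) : ℝ)

theorem N_pos : 0 < N ι := by
  unfold N
  exact_mod_cast Fintype.card_pos

theorem sum_two' (i j : ι) : ∑ w : ι → Bool, sg w i * sg w j = if i = j then N ι else 0 := by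
  split_ifs with h
  · subst h
    simp only [sg_sq]
    simp [N]
  · exact sum_two h

theorem sum_four {i j k l : ι} (hij : i ≠ j) (hkl : k ≠ l) :
    ∑ w : ι → Bool, (sg w i * sg w j) * (sg w k * sg w l)
      = N ι * ((if i = k ∧ j = l then 1 else 0) + (if i = l ∧ j = k then 1 else 0)) := by
  by_cases h1 : i = k
  · subst h1
    have e : ∀ w : ι → Bool, (sg w i * sg w j) * (sg w i * sg w l) = sg w j * sg w l := by
      intro w
      have := sg_sq w i
      calc (sg w i * sg w j) * (sg w i * sg w l) = (sg w i * sg w i) * (sg w j * sg w l) := by ring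
        _ = _ := by rw [this, one_mul]
    simp only [e, sum_two']
    have h2 : ¬ (i = l ∧ j = i) := fun h => hkl h.1
    by_cases h3 : j = l
    · simp [h3, hkl]
    · simp [h3, hkl]
  · by_cases h2 : i = l
    · subst h2
      have e : ∀ w : ι → Bool, (sg w i * sg w j) * (sg w k * sg w i) = sg w j * sg w k := by
        intro w
        have := sg_sq w i
        calc (sg w i * sg w j) * (sg w k * sg w i)
            = (sg w i * sg w i) * (sg w j * sg w k) := by ring
          _ = _ := by rw [this, one_mul]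
      simp only [e, sum_two']
      by_cases h3 : j = k
      · simp [h3, h1]
      · simp [h3, h1]
    · rw [sum_odd i]
      · simp [h1, h2]
      · intro w
        rw [sg_flip_self, sg_flip_ne hij.symm, sg_flip_ne (Ne.symm h1), sg_flip_ne (Ne.symm h2)]
        ring

theorem mean_lin (b : ι → ℝ) : ∑ w : ι → Bool, (∑ i, sg w i * b i) ^ 2 = N ι * ∑ i, b i ^ 2 := by
  have e : ∀ w : ι → Bool, (∑ i, sg w i * b i) ^ 2 = ∑ i, ∑ j, (b i * b j) * (sg w i * sg w j) := by
    intro w
    rw [sq, Finset.sum_mul_sum]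
    exact Finset.sum_congr rfl fun i _ => Finset.sum_congr rfl fun j _ => by ring
  simp only [e]
  rw [Finset.sum_comm]
  rw [Finset.mul_sum]
  refine Finset.sum_congr rfl fun i _ => ?_
  rw [Finset.sum_comm]
  simp only [← Finset.mul_sum, sum_two']
  simp only [mul_ite, mul_zero, Finset.sum_ite_eq, Finset.mem_univ, if_true]
  ring

/-- the off-diagonal quadratic form -/
def Qf (a : ι → ι → ℝ) (s : ι → ℝ) : ℝ := ∑ i, ∑ j, s i * s j * (if i = j then 0 else a i j)

theorem mean_quad (a : ι → ι → ℝ) :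
    ∑ w : ι → Bool, (Qf a (sg w)) ^ 2 ≤ N ι * (2 * ∑ i, ∑ j, (if i = j then 0 else a i j ^ 2)) := by
  set c : ι → ι → ℝ := fun i j => if i = j then 0 else a i j with hc
  have e : ∀ w : ι → Bool, (Qf a (sg w)) ^ 2
      = ∑ p : ι × ι, ∑ q : ι × ι, (c p.1 p.2 * c q.1 q.2)
        * ((sg w p.1 * sg w p.2) * (sg w q.1 * sg w q.2)) := by
    intro w
    have e1 : Qf a (sg w) = ∑ p : ι × ι, sg w p.1 * sg w p.2 * c p.1 p.2 := by
      rw [Fintype.sum_prod_type]; rfl
    rw [e1, sq, Finset.sum_mul_sum]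
    exact Finset.sum_congr rfl fun i _ => Finset.sum_congr rfl fun j _ => by ring
  simp only [e]
  rw [Finset.sum_comm]
  have e2 : ∀ p : ι × ι, ∑ w : ι → Bool, ∑ q : ι × ι, (c p.1 p.2 * c q.1 q.2)
        * ((sg w p.1 * sg w p.2) * (sg w q.1 * sg w q.2))
      = N ι * (c p.1 p.2 ^ 2 + c p.1 p.2 * c p.2 p.1) := by
    intro p
    rw [Finset.sum_comm]
    simp only [← Finset.mul_sum]
    by_cases hp : p.1 = p.2
    · have : c p.1 p.2 = 0 := by simp [hc, hp]
      simp [this]
    have e3 : ∀ q : ι × ι, (c p.1 p.2 * c q.1 q.2)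
        * ∑ w : ι → Bool, ((sg w p.1 * sg w p.2) * (sg w q.1 * sg w q.2))
        = N ι * c p.1 p.2 * ((if q = p then c p.1 p.2 else 0)
          + (if q = (p.2, p.1) then c p.2 p.1 else 0)) := by
      intro q
      by_cases hq : q.1 = q.2
      · have h0 : c q.1 q.2 = 0 := by simp [hc, hq]
        have h1 : q ≠ p := by rintro rfl; exact hp hq
        have h2 : q ≠ (p.2, p.1) := by
          intro h; apply hp; rw [h] at hq; exact hq.symm
        simp [h0, h1, h2]
      · rw [sum_four hp hq]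
        have k1 : (p.1 = q.1 ∧ p.2 = q.2) ↔ q = p := by
          constructor
          · rintro ⟨h1, h2⟩; exact Prod.ext h1.symm h2.symm
          · rintro rfl; exact ⟨rfl, rfl⟩
        have k2 : (p.1 = q.2 ∧ p.2 = q.1) ↔ q = (p.2, p.1) := by
          constructor
          · rintro ⟨h1, h2⟩; exact Prod.ext h2.symm h1.symm
          · rintro rfl; exact ⟨rfl, rfl⟩
        simp only [k1, k2]
        by_cases h1 : q = p
        · subst h1
          by_cases h2 : q = (q.2, q.1)
          · exact absurd (congrArg Prod.fst h2) hq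
          · rw [if_pos rfl, if_neg h2, if_neg h2, if_pos rfl]; ring
        · by_cases h2 : q = (p.2, p.1)
          · rw [if_neg h1, if_pos h2, if_neg h1, if_pos h2, h2]; ring
          · rw [if_neg h1, if_neg h2, if_neg h1, if_neg h2]; ring
    rw [Finset.sum_congr rfl fun q _ => e3 q, ← Finset.mul_sum, Finset.sum_add_distrib,
      Finset.sum_ite_eq' , Finset.sum_ite_eq']
    simp only [Finset.mem_univ, if_true]
    ring
  rw [Finset.sum_congr rfl fun p _ => e2 p, ← Finset.mul_sum]
  refine mul_le_mul_of_nonneg_left ?_ N_pos.le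
  rw [Finset.sum_add_distrib, Fintype.sum_prod_type, Fintype.sum_prod_type]
  have e4 : ∑ i, ∑ j, c i j * c j i ≤ ∑ i, ∑ j, c i j ^ 2 := by
    have h1 : ∑ i, ∑ j, c i j * c j i ≤ ∑ i, ∑ j, (c i j ^ 2 + c j i ^ 2) / 2 := by
      refine Finset.sum_le_sum fun i _ => Finset.sum_le_sum fun j _ => ?_
      nlinarith [sq_nonneg (c i j - c j i)]
    have h2 : ∑ i, ∑ j, (c i j ^ 2 + c j i ^ 2) / 2 = ∑ i, ∑ j, c i j ^ 2 := by
      simp only [← Finset.sum_div, Finset.sum_add_distrib]
      rw [Finset.sum_comm (f := fun i j => c j i ^ 2)]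
      ring
    linarith
  have e5 : ∑ i, ∑ j, (if i = j then 0 else a i j ^ 2) = ∑ i, ∑ j, c i j ^ 2 := by
    refine Finset.sum_congr rfl fun i _ => Finset.sum_congr rfl fun j _ => ?_
    simp only [hc]
    split_ifs <;> simp
  rw [e5]
  linarith

end RSQaux

open RSQaux in
theorem RSQ {ι : Type*} [Fintype ι] [DecidableEq ι] {m : ℕ} (b : Fin m → ι → ℝ) (a : ι → ι → ℝ) (t : ℝ)
    (ht : 0 < t) (h : ∑ l, ∑ i, b l i ^ 2 + 2 * ∑ i, ∑ j, (if i = j then 0 else a i j ^ 2) < t ^ 2) :
    ∃ σ : ι → ℝ, (∀ i, σ i = 1 ∨ σ i = -1) ∧ (∀ l, |∑ i, σ i * b l i| ≤ t) ∧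
      |∑ i, ∑ j, σ i * σ j * a i j - ∑ i, a i i| ≤ t := by
  have key : ∃ w : ι → Bool, (∑ l, (∑ i, sg w i * b l i) ^ 2) + (Qf a (sg w)) ^ 2 < t ^ 2 := by
    by_contra hcon
    push Not at hcon
    have h1 : ∑ w : ι → Bool, t ^ 2
        ≤ ∑ w : ι → Bool, ((∑ l, (∑ i, sg w i * b l i) ^ 2) + (Qf a (sg w)) ^ 2) :=
      Finset.sum_le_sum fun w _ => hcon w
    rw [Finset.sum_add_distrib, Finset.sum_comm] at h1
    simp only [mean_lin] at h1
    rw [← Finset.mul_sum] at h1
    have h2 := mean_quad a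
    have h3 : ∑ w : ι → Bool, t ^ 2 = N ι * t ^ 2 := by
      simp [N]
    rw [h3] at h1
    have h4 := mul_lt_mul_of_pos_left h (N_pos (ι := ι))
    rw [mul_add] at h4
    linarith
  obtain ⟨w, hw⟩ := key
  refine ⟨sg w, fun i => ?_, fun l => ?_, ?_⟩
  · unfold sg; split_ifs <;> simp
  · apply abs_le_of_sq_le_sq _ ht.le
    have h1 : (∑ i, sg w i * b l i) ^ 2 ≤ ∑ l, (∑ i, sg w i * b l i) ^ 2 :=
      Finset.single_le_sum (f := fun l => (∑ i, sg w i * b l i) ^ 2) (fun _ _ => sq_nonneg _)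
        (Finset.mem_univ l)
    nlinarith [sq_nonneg (Qf a (sg w))]
  · have e : ∑ i, ∑ j, sg w i * sg w j * a i j - ∑ i, a i i = Qf a (sg w) := by
      unfold Qf
      rw [← Finset.sum_sub_distrib]
      refine Finset.sum_congr rfl fun i _ => ?_
      have h1 : a i i = ∑ j, (if i = j then sg w i * sg w j * a i j else 0) := by
        rw [Finset.sum_ite_eq, if_pos (Finset.mem_univ i), sg_sq, one_mul]
      rw [h1, ← Finset.sum_sub_distrib]
      refine Finset.sum_congr rfl fun j _ => ?_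
      split_ifs <;> ring
    rw [e]
    apply abs_le_of_sq_le_sq _ ht.le
    have h1 : 0 ≤ ∑ l, (∑ i, sg w i * b l i) ^ 2 := Finset.sum_nonneg fun _ _ => sq_nonneg _
    linarith

end Pool.Agent.T2H63.HF
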