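import Pool.Agent.T2H63.HF.NRM
import Pool.Agent.T2H63.HF.RSQ

/-!
# Package STEP (90-110 min): one step of the construction

Choose `L ≥ L0` large (below), for `J ∈ N` a partition `Q_J` of level `≥ L` with `|∑_{Q_J} d len - Λ J| ≤ η / (2 |N| + 1)`, `P = ⋃ Q_J`,
an antichain (PCB).  `h = 2^{-L}` bounds all `len J`, `J ∈ P`.  Let `a_{J,J'} = pair J' (U (hv J))`, so `a_{J,J} = d J * len J`, and
`cpair P σ (U (comb P σ)) = ∑_{J,J'} σ_J σ_{J'} a_{J,J'}`.  RSQ on `ι = P` with `t = η/2` and the linear forms `b(J) = φ_i (hv J)` (for every `i`) and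
`b(J) = x J (Λ(2J) - Λ(2J+1))` gives `σ` (extended by `1`).  The sum in RSQ tends to `0` as `L → ∞` (`r := 1/p ∈ (0,1]`, norms from NRM):
* `∑_J φ(hv J)² ≤ max_J |φ(hv J)| * ∑_J |φ(hv J)| ≤ ‖φ‖ h^r * ‖φ‖` (`∑_J |φ(hv J)| = φ(comb P σ')` for suitable signs, `‖comb‖ ≤ 1`).
* `∑_J (Λ(2J) - Λ(2J+1))² ≤ ∑ (M len J)² ≤ M² h`.
* `∑_{J ≠ J'} a²`: if `r ≥ 1/2`: `|a_{J,J'}| ≤ ‖U‖ (len J)^r h^{1-r}`, `∑_{J'} |a_{J,J'}| = cpair P σ' (U (hv J)) ≤ ‖U‖ (len J)^r`, so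
  `∑_{J,J'} a² ≤ ‖U‖² h^{1-r} ∑_J (len J)^{2r} ≤ ‖U‖² h^{1-r} h^{2r-1} = ‖U‖² h^r` (`∑ len J ≤ 1`).  If `r ≤ 1/2`: by columns,
  `∑_J |a_{J,J'}| = |pair J' (U (comb P σ'))| ≤ (len J')^{1-r} ‖U‖`, `|a_{J,J'}| ≤ ‖U‖ h^r (len J')^{1-r}`, total `≤ ‖U‖² h^r ∑ (len J')^{2-2r}
  ≤ ‖U‖² h^r h^{1-2r} = ‖U‖² h^{1-r}`.  (Both exponents are positive as `1 ≤ p < ∞`.)
The tests with `g_j` hold for all signs if `‖g_j - En p L g_j‖ ≤ η` (`cpair_En`, `abs_cpair_le`, `tendsto_En`).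
The diagonal: `∑_J a_{J,J} = ∑_P d len`, within `η/2` of `∑_N Λ`.
-/

open MeasureTheory Filter Topology
open scoped ENNReal BoundedContinuousFunction

set_option linter.unusedSectionVars false

namespace Pool.Agent.T2H63.HF

private noncomputable def sgn1 (y : ℝ) : ℝ := if 0 ≤ y then 1 else -1

private theorem abs_sgn1 (y : ℝ) : |sgn1 y| ≤ 1 := by
  unfold sgn1; split_ifs <;> simp

private theorem sgn1_mul (y : ℝ) : sgn1 y * y = |y| := by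
  unfold sgn1
  split_ifs with h
  · rw [abs_of_nonneg h, one_mul]
  · rw [abs_of_neg (not_le.1 h)]; ring

private theorem sum_abs_le (p : ℝ≥0∞) [Fact (1 ≤ p)] {P : Finset ℕ} (h : Anti P) (φ : E p →L[ℝ] ℝ) :
    ∑ J ∈ P, |φ (hv p J)| ≤ ‖φ‖ := by
  have h1 : ∑ J ∈ P, |φ (hv p J)| = φ (comb p P (fun J => sgn1 (φ (hv p J)))) := by
    rw [comb, map_sum]
    refine Finset.sum_congr rfl fun J _ => ?_
    rw [map_smul, smul_eq_mul, sgn1_mul]
  rw [h1]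
  calc φ (comb p P (fun J => sgn1 (φ (hv p J)))) ≤ ‖φ (comb p P (fun J => sgn1 (φ (hv p J))))‖ :=
        le_abs_self _
    _ ≤ ‖φ‖ * ‖comb p P (fun J => sgn1 (φ (hv p J)))‖ := φ.le_opNorm _
    _ ≤ ‖φ‖ * 1 := by
        gcongr
        exact norm_comb_le p h _ (fun J => abs_sgn1 _)
    _ = ‖φ‖ := mul_one _

private theorem sum_abs_pair_le (p : ℝ≥0∞) [Fact (1 ≤ p)] {P : Finset ℕ} (h : Anti P) (f : E p) :
    ∑ J ∈ P, |pair p J f| ≤ ‖f‖ := by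
  have h1 : ∑ J ∈ P, |pair p J f| = cpair p P (fun J => sgn1 (pair p J f)) f := by
    rw [cpair]
    simp only [FunLike.coe_sum, Finset.sum_apply, FunLike.coe_smul, Pi.smul_apply, smul_eq_mul,
      sgn1_mul]
  rw [h1]
  exact (le_abs_self _).trans (abs_cpair_le p h _ (fun J => abs_sgn1 _) f)

private theorem Blw_comparable {a b c : ℕ} (h1 : Blw a c) (h2 : Blw b c) : Blw a b ∨ Blw b a := by
  obtain ⟨i, hi⟩ := h1
  obtain ⟨j, hj⟩ := h2
  rcases le_total i j with h | h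
  · right
    refine ⟨j - i, ?_⟩
    rw [← hi, Nat.div_div_eq_div_mul, ← pow_add, Nat.add_sub_cancel' h, hj]
  · left
    refine ⟨i - j, ?_⟩
    rw [← hj, Nat.div_div_eq_div_mul, ← pow_add, Nat.add_sub_cancel' h, hi]

private theorem alg {ι : Type*} (P : Finset ι) (a : ι → ι → ℝ) (l : ι → ℝ) (H u s : ℝ)
    (hu : 0 ≤ u) (hH : 0 < H) (hH1 : H ≤ 1) (hl0 : ∀ i ∈ P, 0 < l i) (hlH : ∀ i ∈ P, l i ≤ H)
    (hs : 1 / 2 ≤ s) (h1 : ∀ i ∈ P, ∀ j ∈ P, |a i j| ≤ H ^ (1 - s) * (u * l i ^ s))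
    (h2 : ∀ i ∈ P, ∑ j ∈ P, |a i j| ≤ u * l i ^ s) (hsum : ∑ i ∈ P, l i ≤ 1) :
    ∑ i ∈ P, ∑ j ∈ P, a i j ^ 2 ≤ u ^ 2 * H ^ (1 / 2 : ℝ) := by
  have key : ∀ i ∈ P, ∑ j ∈ P, a i j ^ 2 ≤ u ^ 2 * H ^ (1 / 2 : ℝ) * l i := by
    intro i hi
    have hli := hl0 i hi
    have e1 : l i ^ s * l i ^ s = l i ^ (2 * s - 1) * l i := by
      have h := Real.rpow_add hli (2 * s - 1) 1
      rw [Real.rpow_one] at h
      rw [← h, ← Real.rpow_add hli]
      congr 1; ring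
    have e2 : l i ^ (2 * s - 1) ≤ H ^ (2 * s - 1) :=
      Real.rpow_le_rpow hli.le (hlH i hi) (by linarith)
    have e3 : H ^ (1 - s) * H ^ (2 * s - 1) = H ^ s := by
      rw [← Real.rpow_add hH]; congr 1; ring
    have e4 : H ^ s ≤ H ^ (1 / 2 : ℝ) := Real.rpow_le_rpow_of_exponent_ge hH hH1 hs
    calc ∑ j ∈ P, a i j ^ 2 = ∑ j ∈ P, |a i j| * |a i j| := by
          refine Finset.sum_congr rfl fun j _ => ?_
          rw [abs_mul_abs_self, sq]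
      _ ≤ ∑ j ∈ P, H ^ (1 - s) * (u * l i ^ s) * |a i j| := by
          refine Finset.sum_le_sum fun j hj => ?_
          exact mul_le_mul_of_nonneg_right (h1 i hi j hj) (abs_nonneg _)
      _ = H ^ (1 - s) * (u * l i ^ s) * ∑ j ∈ P, |a i j| := by rw [Finset.mul_sum]
      _ ≤ H ^ (1 - s) * (u * l i ^ s) * (u * l i ^ s) := by
          refine mul_le_mul_of_nonneg_left (h2 i hi) ?_
          positivity
      _ = u ^ 2 * H ^ (1 - s) * (l i ^ s * l i ^ s) := by ring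
      _ = u ^ 2 * H ^ (1 - s) * (l i ^ (2 * s - 1) * l i) := by rw [e1]
      _ ≤ u ^ 2 * H ^ (1 - s) * (H ^ (2 * s - 1) * l i) := by
          refine mul_le_mul_of_nonneg_left (mul_le_mul_of_nonneg_right e2 hli.le) ?_
          positivity
      _ = u ^ 2 * (H ^ (1 - s) * H ^ (2 * s - 1)) * l i := by ring
      _ = u ^ 2 * H ^ s * l i := by rw [e3]
      _ ≤ u ^ 2 * H ^ (1 / 2 : ℝ) * l i := by
          refine mul_le_mul_of_nonneg_right (mul_le_mul_of_nonneg_left e4 (by positivity)) hli.le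
  calc ∑ i ∈ P, ∑ j ∈ P, a i j ^ 2 ≤ ∑ i ∈ P, u ^ 2 * H ^ (1 / 2 : ℝ) * l i :=
        Finset.sum_le_sum key
    _ = u ^ 2 * H ^ (1 / 2 : ℝ) * ∑ i ∈ P, l i := by rw [Finset.mul_sum]
    _ ≤ u ^ 2 * H ^ (1 / 2 : ℝ) * 1 := by
        refine mul_le_mul_of_nonneg_left hsum (by positivity)
    _ = _ := mul_one _

private theorem len_le {L J : ℕ} (h : L ≤ lv J) : len J ≤ ((2 : ℝ) ^ L)⁻¹ := by
  unfold len
  exact inv_anti₀ (by positivity) (pow_le_pow_right₀ (by norm_num) h)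

private theorem one_le_toReal (p : ℝ≥0∞) [Fact (1 ≤ p)] (hp : p ≠ ∞) : 1 ≤ p.toReal := by
  have : (1 : ℝ≥0∞).toReal ≤ p.toReal := ENNReal.toReal_mono hp Fact.out
  simpa using this

private theorem hs_le (p : ℝ≥0∞) [Fact (1 ≤ p)] (hp : p ≠ ∞) {P : Finset ℕ} (h : Anti P) {L : ℕ}
    (hL : ∀ J ∈ P, L ≤ lv J) (U : E p →L[ℝ] E p) :
    ∑ J ∈ P, ∑ J' ∈ P, (pair p J' (U (hv p J))) ^ 2 ≤ ‖U‖ ^ 2 * (((2 : ℝ) ^ L)⁻¹) ^ (1 / 2 : ℝ) := by
  set H : ℝ := ((2 : ℝ) ^ L)⁻¹ with hHdef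
  have hH : 0 < H := by positivity
  have hH1 : H ≤ 1 := by
    rw [hHdef]
    exact inv_le_one_of_one_le₀ (one_le_pow₀ (by norm_num))
  have hp1 := one_le_toReal p hp
  set r : ℝ := 1 / p.toReal with hr
  have hr0 : 0 < r := by positivity
  have hr1 : r ≤ 1 := by
    rw [hr, div_le_one (by linarith)]; exact hp1
  rcases le_total (1 / 2) r with hcase | hcase
  · refine alg P (fun J J' => pair p J' (U (hv p J))) len H ‖U‖ r (norm_nonneg _) hH hH1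
      (fun J _ => len_pos J) (fun J hJ => len_le (hL J hJ)) hcase ?_ ?_ h.sum_len_le
    · intro J hJ J' hJ'
      have e1 := abs_pair_le' p hp (h.1 J' hJ') (U (hv p J))
      refine e1.trans ?_
      have e2 : ‖U (hv p J)‖ ≤ ‖U‖ * len J ^ r :=
        (U.le_opNorm _).trans (mul_le_mul_of_nonneg_left (norm_hv_le' p hp (h.1 J hJ)) (norm_nonneg _))
      have e3 : len J' ^ (1 - r) ≤ H ^ (1 - r) :=
        Real.rpow_le_rpow (len_pos J').le (len_le (hL J' hJ')) (by linarith)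
      exact mul_le_mul e3 e2 (norm_nonneg _) (by positivity)
    · intro J hJ
      refine (sum_abs_pair_le p h (U (hv p J))).trans ?_
      exact (U.le_opNorm _).trans
        (mul_le_mul_of_nonneg_left (norm_hv_le' p hp (h.1 J hJ)) (norm_nonneg _))
  · rw [Finset.sum_comm]
    refine alg P (fun J' J => pair p J' (U (hv p J))) len H ‖U‖ (1 - r) (norm_nonneg _) hH hH1
      (fun J _ => len_pos J) (fun J hJ => len_le (hL J hJ)) (by linarith) ?_ ?_ h.sum_len_le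
    · intro J' hJ' J hJ
      have e1 := abs_pair_le' p hp (h.1 J' hJ') (U (hv p J))
      refine e1.trans ?_
      have e2 : ‖U (hv p J)‖ ≤ ‖U‖ * H ^ r := by
        refine (U.le_opNorm _).trans (mul_le_mul_of_nonneg_left ?_ (norm_nonneg _))
        exact (norm_hv_le' p hp (h.1 J hJ)).trans
          (Real.rpow_le_rpow (len_pos J).le (len_le (hL J hJ)) hr0.le)
      have e4 : 0 ≤ len J' ^ (1 - r) := Real.rpow_nonneg (len_pos J').le _
      calc len J' ^ (1 - r) * ‖U (hv p J)‖ ≤ len J' ^ (1 - r) * (‖U‖ * H ^ r) :=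
            mul_le_mul_of_nonneg_left e2 e4
        _ = H ^ (1 - (1 - r)) * (‖U‖ * len J' ^ (1 - r)) := by
            rw [show (1 : ℝ) - (1 - r) = r by ring]; ring
    · intro J' hJ'
      have e1 := sum_abs_le p h ((pair p J').comp U)
      refine e1.trans ?_
      refine ContinuousLinearMap.opNorm_le_bound _
        (mul_nonneg (norm_nonneg _) (Real.rpow_nonneg (len_pos J').le _)) (fun f => ?_)
      have e2 := abs_pair_le' p hp (h.1 J' hJ') (U f)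
      have e4 : 0 ≤ len J' ^ (1 - r) := Real.rpow_nonneg (len_pos J').le _
      calc ‖((pair p J').comp U) f‖ = |pair p J' (U f)| := rfl
        _ ≤ len J' ^ (1 - r) * ‖U f‖ := e2
        _ ≤ len J' ^ (1 - r) * (‖U‖ * ‖f‖) := mul_le_mul_of_nonneg_left (U.le_opNorm _) e4
        _ = ‖U‖ * len J' ^ (1 - r) * ‖f‖ := by ring

private theorem fun_le (p : ℝ≥0∞) [Fact (1 ≤ p)] (hp : p ≠ ∞) {P : Finset ℕ} (h : Anti P) {L : ℕ}
    (hL : ∀ J ∈ P, L ≤ lv J) (φ : E p →L[ℝ] ℝ) :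
    ∑ J ∈ P, φ (hv p J) ^ 2 ≤ ‖φ‖ ^ 2 * (((2 : ℝ) ^ L)⁻¹) ^ (1 / p.toReal) := by
  set H : ℝ := ((2 : ℝ) ^ L)⁻¹ with hHdef
  have hH : 0 < H := by positivity
  have hp1 := one_le_toReal p hp
  have hr0 : 0 ≤ 1 / p.toReal := by positivity
  calc ∑ J ∈ P, φ (hv p J) ^ 2 = ∑ J ∈ P, |φ (hv p J)| * |φ (hv p J)| := by
        refine Finset.sum_congr rfl fun j _ => ?_
        rw [abs_mul_abs_self, sq]
    _ ≤ ∑ J ∈ P, ‖φ‖ * H ^ (1 / p.toReal) * |φ (hv p J)| := by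
        refine Finset.sum_le_sum fun J hJ => ?_
        refine mul_le_mul_of_nonneg_right ?_ (abs_nonneg _)
        refine (φ.le_opNorm _).trans (mul_le_mul_of_nonneg_left ?_ (norm_nonneg _))
        exact (norm_hv_le' p hp (h.1 J hJ)).trans
          (Real.rpow_le_rpow (len_pos J).le (len_le (hL J hJ)) hr0)
    _ = ‖φ‖ * H ^ (1 / p.toReal) * ∑ J ∈ P, |φ (hv p J)| := by rw [Finset.mul_sum]
    _ ≤ ‖φ‖ * H ^ (1 / p.toReal) * ‖φ‖ := by
        refine mul_le_mul_of_nonneg_left (sum_abs_le p h φ) (by positivity)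
    _ = _ := by ring

private theorem lam_le {P : Finset ℕ} (h : Anti P) {L : ℕ} (hL : ∀ J ∈ P, L ≤ lv J) (Λ : ℕ → ℝ)
    (M : ℝ) (hΛ : ∀ s, 1 ≤ s → |Λ s| ≤ M * len s) (x : ℕ → ℝ) (hx : ∀ J, |x J| ≤ 1) :
    ∑ J ∈ P, (x J * (Λ (2 * J) - Λ (2 * J + 1))) ^ 2 ≤ M ^ 2 * ((2 : ℝ) ^ L)⁻¹ := by
  have key : ∀ J ∈ P, (x J * (Λ (2 * J) - Λ (2 * J + 1))) ^ 2 ≤ M ^ 2 * ((2 : ℝ) ^ L)⁻¹ * len J := by
    intro J hJ
    have h1 := h.1 J hJ
    have h2 : |x J * (Λ (2 * J) - Λ (2 * J + 1))| ≤ M * len J := by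
      rw [abs_mul]
      calc |x J| * |Λ (2 * J) - Λ (2 * J + 1)| ≤ 1 * |Λ (2 * J) - Λ (2 * J + 1)| :=
            mul_le_mul_of_nonneg_right (hx J) (abs_nonneg _)
        _ ≤ |Λ (2 * J)| + |Λ (2 * J + 1)| := by rw [one_mul]; exact abs_sub _ _
        _ ≤ M * len (2 * J) + M * len (2 * J + 1) := add_le_add (hΛ _ (by omega)) (hΛ _ (by omega))
        _ = M * len J := by rw [len_add h1]; ring
    have h3 : (x J * (Λ (2 * J) - Λ (2 * J + 1))) ^ 2 ≤ (M * len J) ^ 2 := by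
      rw [← sq_abs]
      exact pow_le_pow_left₀ (abs_nonneg _) h2 2
    refine h3.trans ?_
    have h4 := len_le (hL J hJ)
    have h5 := len_pos J
    calc (M * len J) ^ 2 = M ^ 2 * (len J * len J) := by ring
      _ ≤ M ^ 2 * (((2 : ℝ) ^ L)⁻¹ * len J) :=
          mul_le_mul_of_nonneg_left (mul_le_mul_of_nonneg_right h4 h5.le) (by positivity)
      _ = _ := by ring
  calc ∑ J ∈ P, (x J * (Λ (2 * J) - Λ (2 * J + 1))) ^ 2
      ≤ ∑ J ∈ P, M ^ 2 * ((2 : ℝ) ^ L)⁻¹ * len J := Finset.sum_le_sum key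
    _ = M ^ 2 * ((2 : ℝ) ^ L)⁻¹ * ∑ J ∈ P, len J := by rw [Finset.mul_sum]
    _ ≤ M ^ 2 * ((2 : ℝ) ^ L)⁻¹ * 1 := mul_le_mul_of_nonneg_left h.sum_len_le (by positivity)
    _ = _ := mul_one _

theorem STEP (p : ℝ≥0∞) [Fact (1 ≤ p)] (hp : p ≠ ∞) (U : E p →L[ℝ] E p) (d Λ : ℕ → ℝ) (M : ℝ)
    (hd : ∀ J, 1 ≤ J → pair p J (U (hv p J)) = d J * len J)
    (hΛ : ∀ s, 1 ≤ s → |Λ s| ≤ M * len s)
    (hΛp : ∀ s, 1 ≤ s → ∀ η, 0 < η → ∀ L, ∃ Q, Part L s Q ∧ |∑ J ∈ Q, d J * len J - Λ s| ≤ η)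
    (N : Finset ℕ) (hN : Anti N) {a b : ℕ} (φ : Fin a → (E p →L[ℝ] ℝ)) (g : Fin b → E p)
    (x : ℕ → ℝ) (hx : ∀ J, |x J| ≤ 1) (η : ℝ) (hη : 0 < η) (L0 : ℕ) :
    ∃ (L : ℕ) (P : Finset ℕ) (σ : ℕ → ℝ), L0 ≤ L ∧ Refn L N P ∧ (∀ J, σ J = 1 ∨ σ J = -1) ∧
      (∀ i, |φ i (comb p P σ)| ≤ η) ∧ (∀ j, |cpair p P σ (g j)| ≤ η) ∧
      |cpair p P σ (U (comb p P σ)) - ∑ J ∈ N, Λ J| ≤ η ∧
      |∑ J ∈ P, σ J * x J * (Λ (2 * J) - Λ (2 * J + 1))| ≤ η := by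
  have hp1 := one_le_toReal p hp
  have hr0 : 0 < 1 / p.toReal := by positivity
  -- the choice of `L`
  have hH : Tendsto (fun L : ℕ => ((2 : ℝ) ^ L)⁻¹) atTop (𝓝 0) := by
    have := tendsto_pow_atTop_nhds_zero_of_lt_one (r := (1 / 2 : ℝ)) (by norm_num) (by norm_num)
    refine this.congr fun L => ?_
    rw [one_div, inv_pow]
  have hlim : Tendsto (fun L : ℕ => M ^ 2 * ((2 : ℝ) ^ L)⁻¹ +
      ∑ i, ‖φ i‖ ^ 2 * (((2 : ℝ) ^ L)⁻¹) ^ (1 / p.toReal) +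
      2 * (‖U‖ ^ 2 * (((2 : ℝ) ^ L)⁻¹) ^ (1 / 2 : ℝ))) atTop (𝓝 0) := by
    have e1 : Tendsto (fun L : ℕ => M ^ 2 * ((2 : ℝ) ^ L)⁻¹) atTop (𝓝 0) := by
      simpa using hH.const_mul (M ^ 2)
    have e2 : ∀ r : ℝ, 0 < r → Tendsto (fun L : ℕ => (((2 : ℝ) ^ L)⁻¹) ^ r) atTop (𝓝 0) := by
      intro r hr
      have := hH.rpow_const (p := r) (Or.inr hr.le)
      rwa [Real.zero_rpow hr.ne'] at this
    have e3 : Tendsto (fun L : ℕ => ∑ i, ‖φ i‖ ^ 2 * (((2 : ℝ) ^ L)⁻¹) ^ (1 / p.toReal)) atTop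
        (𝓝 0) := by
      have := tendsto_finsetSum (Finset.univ : Finset (Fin a))
        (fun i _ => (e2 _ hr0).const_mul (‖φ i‖ ^ 2))
      simpa using this
    have e4 := ((e2 (1 / 2) (by norm_num)).const_mul (‖U‖ ^ 2)).const_mul 2
    have := (e1.add e3).add e4
    simpa using this
  have hev1 : ∀ᶠ L : ℕ in atTop, M ^ 2 * ((2 : ℝ) ^ L)⁻¹ +
      ∑ i, ‖φ i‖ ^ 2 * (((2 : ℝ) ^ L)⁻¹) ^ (1 / p.toReal) +
      2 * (‖U‖ ^ 2 * (((2 : ℝ) ^ L)⁻¹) ^ (1 / 2 : ℝ)) < (η / 2) ^ 2 :=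
    hlim.eventually (gt_mem_nhds (by positivity))
  have hev2 : ∀ᶠ L : ℕ in atTop, ∀ j, ‖g j - En p L (g j)‖ ≤ η := by
    rw [eventually_all]
    intro j
    have h1 := (tendsto_En p hp (g j)).const_sub (g j)
    rw [sub_self] at h1
    have h2 := h1.norm
    rw [norm_zero] at h2
    exact (h2.eventually (gt_mem_nhds hη)).mono fun L hL => le_of_lt hL
  obtain ⟨L, hL1, hL2, hL0⟩ := (hev1.and (hev2.and (eventually_ge_atTop L0))).exists
  -- the partition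
  have hη' : 0 < η / (2 * (N.card : ℝ) + 1) := by positivity
  have hQ : ∀ J : ℕ, ∃ Q, J ∈ N → Part L J Q ∧
      |∑ J' ∈ Q, d J' * len J' - Λ J| ≤ η / (2 * (N.card : ℝ) + 1) := by
    intro J
    by_cases hJ : J ∈ N
    · obtain ⟨Q, hQ⟩ := hΛp J (hN.1 J hJ) _ hη' L
      exact ⟨Q, fun _ => hQ⟩
    · exact ⟨∅, fun h => absurd h hJ⟩
  choose Q hQ using hQ
  have hRef : Refn L N (N.biUnion Q) := ⟨Q, fun J hJ => (hQ J hJ).1, rfl⟩
  set P := N.biUnion Q with hP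
  have hPa : Anti P := hRef.anti hN
  have hPL : ∀ J ∈ P, L ≤ lv J := fun J hJ => (hRef.level J hJ).2.1
  have hsumP : ∑ J ∈ P, d J * len J = ∑ J' ∈ N, ∑ J ∈ Q J', d J * len J := by
    rw [hP, Finset.sum_biUnion]
    intro J1 hJ1 J2 hJ2 hne
    rw [Function.onFun, Finset.disjoint_left]
    intro J hJ hJ'
    have b1 := ((hQ J1 hJ1).1.level J hJ).2
    have b2 := ((hQ J2 hJ2).1.level J hJ').2
    rcases Blw_comparable b1 b2 with hb | hb
    · exact hN.2 J1 hJ1 J2 hJ2 hne hb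
    · exact hN.2 J2 hJ2 J1 hJ1 hne.symm hb
  have hdiag : |∑ J ∈ P, d J * len J - ∑ J ∈ N, Λ J| ≤ η / 2 := by
    rw [hsumP, ← Finset.sum_sub_distrib]
    calc |∑ J ∈ N, (∑ J' ∈ Q J, d J' * len J' - Λ J)|
        ≤ ∑ J ∈ N, |∑ J' ∈ Q J, d J' * len J' - Λ J| := Finset.abs_sum_le_sum_abs _ _
      _ ≤ ∑ _J ∈ N, η / (2 * (N.card : ℝ) + 1) := Finset.sum_le_sum fun J hJ => (hQ J hJ).2
      _ = N.card * (η / (2 * (N.card : ℝ) + 1)) := by rw [Finset.sum_const, nsmul_eq_mul]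
      _ ≤ η / 2 := by
          rw [mul_div_assoc', div_le_div_iff₀ (by positivity) (by norm_num)]
          nlinarith
  -- the random signs
  obtain ⟨τ, hτ, hτ1, hτ2⟩ := RSQ (ι := P)
    (Fin.cons (fun J : P => x J * (Λ (2 * J) - Λ (2 * J + 1)))
      (fun i (J : P) => φ i (hv p J)) : Fin (a + 1) → P → ℝ)
    (fun J J' : P => pair p J' (U (hv p J))) (η / 2) (by positivity) (by
      refine lt_of_le_of_lt ?_ hL1
      rw [Fin.sum_univ_succ]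
      simp only [Fin.cons_zero, Fin.cons_succ]
      refine add_le_add (add_le_add ?_ ?_) ?_
      · rw [Finset.sum_coe_sort P (fun J => (x J * (Λ (2 * J) - Λ (2 * J + 1))) ^ 2)]
        exact lam_le hPa hPL Λ M hΛ x hx
      · refine Finset.sum_le_sum fun i _ => ?_
        rw [Finset.sum_coe_sort P (fun J => (φ i (hv p J)) ^ 2)]
        exact fun_le p hp hPa hPL (φ i)
      · refine mul_le_mul_of_nonneg_left ?_ (by norm_num)
        refine le_trans ?_ (hs_le p hp hPa hPL U)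
        rw [← Finset.sum_coe_sort P (fun J => ∑ J' ∈ P, (pair p J' (U (hv p J))) ^ 2)]
        refine Finset.sum_le_sum fun J _ => ?_
        rw [← Finset.sum_coe_sort P (fun J' => (pair p J' (U (hv p J))) ^ 2)]
        refine Finset.sum_le_sum fun J' _ => ?_
        split_ifs
        · positivity
        · exact le_rfl)
  classical
  let σ : ℕ → ℝ := fun J => if h : J ∈ P then τ ⟨J, h⟩ else 1
  have hσ : ∀ J : P, σ J = τ J := fun J => by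
    show (if h : (J : ℕ) ∈ P then τ ⟨J, h⟩ else 1) = τ J
    rw [dif_pos J.2]
  have hσ1 : ∀ J, σ J = 1 ∨ σ J = -1 := by
    intro J
    by_cases h : J ∈ P
    · rw [show σ J = τ ⟨J, h⟩ from hσ ⟨J, h⟩]; exact hτ _
    · left; show (if h : J ∈ P then τ ⟨J, h⟩ else 1) = 1; rw [dif_neg h]
  have hσabs : ∀ J, |σ J| ≤ 1 := by
    intro J
    rcases hσ1 J with h | h <;> rw [h] <;> simp
  refine ⟨L, P, σ, hL0, hRef, hσ1, ?_, ?_, ?_, ?_⟩
  · intro i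
    have h1 := hτ1 i.succ
    simp only [Fin.cons_succ] at h1
    have h2 : φ i (comb p P σ) = ∑ J : P, τ J * φ i (hv p J) := by
      rw [comb, map_sum, ← Finset.sum_coe_sort P (fun J => φ i (σ J • hv p J))]
      refine Finset.sum_congr rfl fun J _ => ?_
      rw [map_smul, smul_eq_mul, hσ]
    rw [h2]
    linarith
  · intro j
    have h1 : cpair p P σ (g j) = cpair p P σ (g j - En p L (g j)) := by
      rw [map_sub, cpair_En p hPa σ hPL, sub_zero]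
    rw [h1]
    exact (abs_cpair_le p hPa σ hσabs _).trans (hL2 j)
  · have h1 : cpair p P σ (U (comb p P σ)) =
        ∑ J : P, ∑ J' : P, τ J * τ J' * pair p J' (U (hv p J)) := by
      have e1 : U (comb p P σ) = ∑ J : P, τ J • U (hv p J) := by
        rw [comb, map_sum, ← Finset.sum_coe_sort P (fun J => U (σ J • hv p J))]
        refine Finset.sum_congr rfl fun J _ => ?_
        rw [map_smul, hσ]
      rw [e1, map_sum]
      refine Finset.sum_congr rfl fun J _ => ?_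
      rw [map_smul, cpair, smul_eq_mul]
      simp only [FunLike.coe_sum, Finset.sum_apply, FunLike.coe_smul, Pi.smul_apply, smul_eq_mul]
      rw [← Finset.sum_coe_sort P (fun J' => σ J' * pair p J' (U (hv p J))), Finset.mul_sum]
      refine Finset.sum_congr rfl fun J' _ => ?_
      rw [hσ]; ring
    have h2 : ∑ J : P, pair p (J : ℕ) (U (hv p (J : ℕ))) = ∑ J ∈ P, d J * len J := by
      rw [Finset.sum_coe_sort P (fun J => pair p J (U (hv p J)))]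
      exact Finset.sum_congr rfl fun J hJ => hd J (hPa.1 J hJ)
    rw [h1]
    rw [h2] at hτ2
    have := abs_sub_le (∑ J : P, ∑ J' : P, τ J * τ J' * pair p J' (U (hv p J)))
      (∑ J ∈ P, d J * len J) (∑ J ∈ N, Λ J)
    linarith
  · have h1 := hτ1 0
    simp only [Fin.cons_zero] at h1
    have h2 : ∑ J ∈ P, σ J * x J * (Λ (2 * J) - Λ (2 * J + 1)) =
        ∑ J : P, τ J * (x J * (Λ (2 * J) - Λ (2 * J + 1))) := by
      rw [← Finset.sum_coe_sort P (fun J => σ J * x J * (Λ (2 * J) - Λ (2 * J + 1)))]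
      refine Finset.sum_congr rfl fun J _ => ?_
      rw [hσ]; ring
    rw [h2]
    linarith

end Pool.Agent.T2H63.HF
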