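import Pool.Agent.T2H63.HF.DEN

/-!
# Package TE1 (75-100 min): the embedding of `L^p` attached to a tree of sets, and its left inverse

`A s`, `s ≥ 1`, measurable sets of measure `c * len s`, `A s = A (2s) ⊔ A (2s+1)`, and `X = ± 1` on `A 1`.
For `n` let `B_n f = ∑_{s of level n} 2^n (∫_{I s} f) c^{-1/p} X 1_{A s}` and
`A'_n f = ∑_{s of level n} 2^n c^{1/p-1} (∫_{A s} X f) 1_{I s}` (sums over `s = 2^n + j`, `j < 2^n`).
* `‖B_n f‖ = ‖En p n f‖ ≤ ‖f‖`: both norms are `(∑_s 2^{-n} |2^n ∫_{I s} f|^p)^{1/p}` (disjoint sets; measure `c 2^{-n}`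
  against the factor `(c^{-1/p})^p = c^{-1}`).  More generally `‖B_n f - B_m f‖ = ‖En p n f - En p m f‖` (refine to the
  level `max n m`), so that `B_n f` is Cauchy by `tendsto_En`; `B f = lim B_n f` (use
  `continuousLinearMapOfTendsto` or an extension of a linear map), `‖B‖ ≤ 1`, and `B_n (ind s)` is constant for `n ≥ lv s`.
* `‖A'_n f‖ ≤ ‖f‖`: Hölder `|∫_{A s} X f| ≤ (c 2^{-n})^{1-1/p} ‖f 1_{A s}‖_p`, sum of `p`-th powers over the disjoint `A s`.
  If `f = ind J` with `lv J = M`, then by `hstar` `A'_n f` is constant for `n ≥ n0(M)`: for `s` of level `n ≥ n0`,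
  `∫_{A(2s)} X f = ∫_{A(2s+1)} X f = 1/2 ∫_{A s} X f`.  The span of the `ind J` is dense (`tendsto_En`; `En p n f` is in the
  span), so `A'_n f` converges for every `f` (uniformly bounded operators converging on a dense subspace),
  `A' f = lim A'_n f`.  For `s` of level `m ≤ n`: `∫_{I s} A'_n f = c^{1/p-1} ∫_{A s} X f`; let `n → ∞`.
-/

open MeasureTheory Filter Topology
open scoped ENNReal BoundedContinuousFunction

set_option linter.unusedSectionVars false

namespace Pool.Agent.T2H63.HF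

namespace PkgTE1

section one

variable (p : ℝ≥0∞) [Fact (1 ≤ p)]

theorem r_ge (hp : p ≠ ∞) : 1 ≤ p.toReal := by
  have := ENNReal.toReal_mono hp (Fact.out : 1 ≤ p)
  simpa using this

theorem norm_pow (hp : p ≠ ∞) (u : E p) : ‖u‖ ^ p.toReal = ∫ x, |u x| ^ p.toReal ∂mu := by
  have h1 : p ≠ 0 := by
    have : (1 : ℝ≥0∞) ≤ p := Fact.out
    intro h
    rw [h] at this
    exact absurd this (by simp)
  have hr := r_ge p hp
  have hu := Lp.memLp u
  have h2 : 0 ≤ ∫ x, |u x| ^ p.toReal ∂mu :=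
    integral_nonneg fun x => Real.rpow_nonneg (abs_nonneg _) _
  have h3 := hu.eLpNorm_eq_integral_rpow_norm h1 hp
  simp only [Real.norm_eq_abs] at h3
  rw [Lp.norm_def, h3, ENNReal.toReal_ofReal (Real.rpow_nonneg h2 _), ← Real.rpow_mul h2,
    inv_mul_cancel₀ (by linarith), Real.rpow_one]

/-- a tree of sets with a sign -/
structure TS (D : ℕ → Set ℝ) (h : ℝ → ℝ) (c : ℝ) : Prop where
  c_pos : 0 < c
  mD : ∀ s, MeasurableSet (D s)
  mh : Measurable h
  hb : ∀ x, |h x| ≤ 1
  h1 : ∀ x ∈ D 1, |h x| = 1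
  ms : ∀ s, 1 ≤ s → mu.real (D s) = c * len s
  un : ∀ s, 1 ≤ s → D s = D (2 * s) ∪ D (2 * s + 1)
  dj : ∀ s, 1 ≤ s → Disjoint (D (2 * s)) (D (2 * s + 1))

theorem lvl {n j : ℕ} (hj : j < 2 ^ n) : lv (2 ^ n + j) = n := by
  unfold lv
  exact Nat.log_eq_of_pow_le_of_lt_pow (by omega) (by rw [pow_succ]; omega)

theorem len_lvl {n j : ℕ} (hj : j < 2 ^ n) : len (2 ^ n + j) = ((2 : ℝ) ^ n)⁻¹ := by
  rw [len, lvl hj]

theorem lv_half {s : ℕ} (hs : 2 ≤ s) : lv s = lv (s / 2) + 1 := by
  rcases Nat.even_or_odd' s with ⟨t, ht | ht⟩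
  · have e : s / 2 = t := by omega
    rw [e, ht, lv_two_mul (by omega)]
  · have e : s / 2 = t := by omega
    rw [e, ht, lv_two_mul_add_one (by omega)]

variable {D : ℕ → Set ℝ} {h : ℝ → ℝ} {c : ℝ}

theorem TS.sub_half (S : TS D h c) {s : ℕ} (hs : 2 ≤ s) : D s ⊆ D (s / 2) := by
  rw [S.un (s / 2) (by omega)]
  rcases Nat.even_or_odd' s with ⟨t, ht | ht⟩
  · have e : 2 * (s / 2) = s := by omega
    rw [e]
    exact Set.subset_union_left
  · have e : 2 * (s / 2) + 1 = s := by omega
    rw [e]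
    exact Set.subset_union_right

theorem TS.sub_one (S : TS D h c) (s : ℕ) : 1 ≤ s → D s ⊆ D 1 := by
  induction s using Nat.strong_induction_on with
  | _ s ih =>
    intro hs
    rcases Nat.lt_or_ge s 2 with h2 | h2
    · have : s = 1 := by omega
      rw [this]
    · exact (S.sub_half h2).trans (ih (s / 2) (by omega) (by omega))

theorem TS.disj (S : TS D h c) (n : ℕ) : ∀ s s', lv s = n → lv s' = n → 1 ≤ s → 1 ≤ s' → s ≠ s' →
    Disjoint (D s) (D s') := by
  induction n with
  | zero =>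
    intro s s' h1 h2 hs hs' hne
    unfold lv at h1 h2
    rw [Nat.log_eq_zero_iff] at h1 h2
    omega
  | succ n ih =>
    intro s s' h1 h2 hs hs' hne
    have k1 : 2 ≤ s := by
      by_contra hcon
      have : s = 1 := by omega
      rw [this] at h1
      simp [lv] at h1
    have k2 : 2 ≤ s' := by
      by_contra hcon
      have : s' = 1 := by omega
      rw [this] at h2
      simp [lv] at h2
    rw [lv_half k1] at h1
    rw [lv_half k2] at h2
    by_cases he : s / 2 = s' / 2
    · have hd := S.dj (s / 2) (by omega)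
      rcases Nat.lt_or_ge s s' with h3 | h3
      · have e1 : 2 * (s / 2) = s := by omega
        have e2 : s + 1 = s' := by omega
        rw [e1, e2] at hd
        exact hd
      · have e1 : 2 * (s / 2) = s' := by omega
        have e2 : s' + 1 = s := by omega
        rw [e1, e2] at hd
        exact hd.symm
    · exact (ih (s / 2) (s' / 2) (by omega) (by omega) (by omega) (by omega) he).mono
        (S.sub_half k1) (S.sub_half k2)

theorem TS.pw (S : TS D h c) (n : ℕ) :
    Set.PairwiseDisjoint (Finset.range (2 ^ n) : Set ℕ) fun j => D (2 ^ n + j) := by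
  intro j hj j' hj' hne
  rw [Finset.coe_range, Set.mem_Iio] at hj hj'
  have h2 := Nat.one_le_two_pow (n := n)
  exact S.disj n _ _ (lvl hj) (lvl hj') (by omega) (by omega) (by omega)

/-- the functions of the tree -/
noncomputable def vf (D : ℕ → Set ℝ) (h : ℝ → ℝ) (c : ℝ) (s : ℕ) (x : ℝ) : ℝ :=
  c ^ (-(1 / p.toReal)) * (D s).indicator h x

theorem TS.memLp (S : TS D h c) (s : ℕ) : MemLp (vf p D h c s) p mu := by
  refine MemLp.of_bound (C := c ^ (-(1 / p.toReal))) ?_ (Eventually.of_forall fun x => ?_)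
  · exact ((S.mh.indicator (S.mD s)).const_mul _).aestronglyMeasurable
  · rw [vf, norm_mul, Real.norm_eq_abs, Real.norm_eq_abs,
      abs_of_pos (Real.rpow_pos_of_pos S.c_pos _)]
    refine mul_le_of_le_one_right (Real.rpow_pos_of_pos S.c_pos _).le ?_
    by_cases hx : x ∈ D s
    · rw [Set.indicator_of_mem hx]
      exact S.hb x
    · rw [Set.indicator_of_notMem hx, abs_zero]
      exact zero_le_one

/-- the vectors of the tree -/
noncomputable def TS.v (S : TS D h c) (s : ℕ) : E p := (S.memLp p s).toLp (vf p D h c s)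

theorem TS.v_ae (S : TS D h c) (s : ℕ) : (S.v p s : ℝ → ℝ) =ᵐ[mu] vf p D h c s :=
  MemLp.coeFn_toLp _

theorem TS.v_add (S : TS D h c) {s : ℕ} (hs : 1 ≤ s) : S.v p s = S.v p (2 * s) + S.v p (2 * s + 1) := by
  rw [TS.v, TS.v, TS.v, ← MemLp.toLp_add]
  refine MemLp.toLp_congr _ _ (Eventually.of_forall fun x => ?_)
  rw [Pi.add_apply, vf, vf, vf, ← mul_add, S.un s hs]
  congr 1
  rw [Set.indicator_union_of_disjoint (S.dj s hs)]

theorem norm_sum (hp : p ≠ ∞) (S : TS D h c) (n : ℕ) (a : ℕ → ℝ) :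
    ‖∑ j ∈ Finset.range (2 ^ n), a j • S.v p (2 ^ n + j)‖ ^ p.toReal =
      ∑ j ∈ Finset.range (2 ^ n), |a j| ^ p.toReal * ((2 : ℝ) ^ n)⁻¹ := by
  have hr := r_ge p hp
  have hr0 : p.toReal ≠ 0 := by linarith
  have h2 := Nat.one_le_two_pow (n := n)
  have hc := S.c_pos
  have hae : ∀ᵐ x ∂mu, |(∑ j ∈ Finset.range (2 ^ n), a j • S.v p (2 ^ n + j) : E p) x| ^ p.toReal =
      ∑ j ∈ Finset.range (2 ^ n), |a j| ^ p.toReal * c⁻¹ *
        (D (2 ^ n + j)).indicator (fun _ => (1 : ℝ)) x := by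
    have h3 : ∀ᵐ x ∂mu, ∀ j ∈ Finset.range (2 ^ n), (a j • S.v p (2 ^ n + j) : E p) x =
        a j * vf p D h c (2 ^ n + j) x := by
      rw [Filter.eventually_all_finset]
      intro j _
      filter_upwards [Lp.coeFn_smul (a j) (S.v p (2 ^ n + j)), S.v_ae p (2 ^ n + j)] with x e1 e2
      rw [e1, Pi.smul_apply, e2, smul_eq_mul]
    filter_upwards [Lp.coeFn_fun_finsetSum (Finset.range (2 ^ n)) (fun j => a j • S.v p (2 ^ n + j)),
      h3] with x e1 e2
    rw [e1, Finset.sum_congr rfl e2]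
    by_cases hx : ∃ j ∈ Finset.range (2 ^ n), x ∈ D (2 ^ n + j)
    · obtain ⟨j, hj, hx⟩ := hx
      have hne : ∀ j' ∈ Finset.range (2 ^ n), j' ≠ j → x ∉ D (2 ^ n + j') := by
        intro j' hj' hne hx'
        exact Set.disjoint_left.1 (S.pw n (Finset.mem_coe.2 hj') (Finset.mem_coe.2 hj) hne) hx' hx
      rw [Finset.sum_eq_single j, Finset.sum_eq_single j]
      · have hx1 := S.h1 x (S.sub_one (2 ^ n + j) (by omega) hx)
        rw [vf, Set.indicator_of_mem hx, Set.indicator_of_mem hx, abs_mul, abs_mul, hx1, mul_one,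
          mul_one, abs_of_pos (Real.rpow_pos_of_pos hc _),
          Real.mul_rpow (abs_nonneg _) (Real.rpow_pos_of_pos hc _).le, ← Real.rpow_mul hc.le]
        congr 1
        have : -(1 / p.toReal) * p.toReal = -1 := by
          field_simp
        rw [this, Real.rpow_neg_one]
      · intro j' hj' hne'
        rw [Set.indicator_of_notMem (hne j' hj' hne'), mul_zero]
      · intro h4
        exact absurd hj h4
      · intro j' hj' hne'
        rw [vf, Set.indicator_of_notMem (hne j' hj' hne'), mul_zero, mul_zero]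
      · intro h4
        exact absurd hj h4
    · push Not at hx
      rw [Finset.sum_eq_zero, Finset.sum_eq_zero, abs_zero, Real.zero_rpow hr0]
      · intro j hj
        rw [Set.indicator_of_notMem (hx j hj), mul_zero]
      · intro j hj
        rw [vf, Set.indicator_of_notMem (hx j hj), mul_zero, mul_zero]
  rw [norm_pow p hp, integral_congr_ae hae, integral_finsetSum]
  · refine Finset.sum_congr rfl fun j hj => ?_
    have hj' := Finset.mem_range.1 hj
    rw [integral_const_mul, integral_indicator (S.mD _), setIntegral_const, S.ms _ (by omega),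
      len_lvl hj']
    simp only [smul_eq_mul, mul_one]
    field_simp
  · intro j _
    exact ((integrable_const (1 : ℝ)).indicator (S.mD _)).const_mul _

/-- Jensen's inequality -/
theorem jensen (hp : p ≠ ∞) (A : Set ℝ) (f : E p) :
    (∫ x in A, |f x| ∂mu) ^ p.toReal ≤
      mu.real A ^ (p.toReal - 1) * ∫ x in A, |f x| ^ p.toReal ∂mu := by
  have hr := r_ge p hp
  have h1 : p ≠ 0 := by
    intro h
    rw [h] at hr
    simp at hr
    linarith
  have hi : Integrable (fun x => |f x| ^ p.toReal) mu := by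
    have := (Lp.memLp f).integrable_norm_rpow h1 hp
    simpa only [Real.norm_eq_abs] using this
  by_cases h0 : mu A = 0
  · rw [Measure.restrict_eq_zero.2 h0, integral_zero_measure, integral_zero_measure,
      Real.zero_rpow (by linarith), mul_zero]
  · have hm : 0 < mu.real A := ENNReal.toReal_pos h0 (measure_ne_top _ _)
    have hJ := (convexOn_rpow hr).map_set_average_le (μ := mu) (t := A) (f := fun x => |f x|)
      (g := fun y : ℝ => y ^ p.toReal)
      (Real.continuous_rpow_const (by linarith)).continuousOn isClosed_Ici h0 (measure_ne_top _ _)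
      (Eventually.of_forall fun x => abs_nonneg (f x)) ((integrable_E p f).abs.integrableOn)
      hi.integrableOn
    rw [setAverage_eq, setAverage_eq, smul_eq_mul, smul_eq_mul,
      Real.mul_rpow (inv_nonneg.2 hm.le) (integral_nonneg fun x => abs_nonneg _),
      Real.inv_rpow hm.le] at hJ
    have h2 := mul_le_mul_of_nonneg_left hJ (Real.rpow_nonneg hm.le p.toReal)
    rw [← mul_assoc, mul_inv_cancel₀ (Real.rpow_pos_of_pos hm _).ne', one_mul] at h2
    refine h2.trans (le_of_eq ?_)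
    rw [Real.rpow_sub_one hm.ne']
    ring

/-- integration over a set with a sign -/
noncomputable def fn (A : Set ℝ) {h : ℝ → ℝ} (mh : Measurable h) (hb : ∀ x, |h x| ≤ 1) :
    E p →L[ℝ] ℝ :=
  have hi : ∀ f : E p, Integrable (fun x => h x * f x) mu := fun f =>
    (integrable_E p f).bdd_mul (c := 1) mh.aestronglyMeasurable
      (Eventually.of_forall fun x => by rw [Real.norm_eq_abs]; exact hb x)
  LinearMap.mkContinuous
    { toFun := fun f => ∫ x in A, h x * f x ∂mu
      map_add' := fun f g => by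
        rw [← integral_add (hi f).integrableOn (hi g).integrableOn]
        refine integral_congr_ae (ae_restrict_of_ae ?_)
        filter_upwards [Lp.coeFn_add f g] with x hx
        rw [hx, Pi.add_apply, mul_add]
      map_smul' := fun c f => by
        simp only [RingHom.id_apply, smul_eq_mul]
        rw [← integral_const_mul]
        refine integral_congr_ae (ae_restrict_of_ae ?_)
        filter_upwards [Lp.coeFn_smul c f] with x hx
        rw [hx, Pi.smul_apply, smul_eq_mul]
        ring } 1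
    (fun f => by
      rw [one_mul]
      calc ‖∫ x in A, h x * f x ∂mu‖ ≤ ∫ x in A, ‖h x * f x‖ ∂mu := norm_integral_le_integral_norm _
        _ ≤ ∫ x, ‖h x * f x‖ ∂mu := setIntegral_le_integral (hi f).norm
            (Eventually.of_forall fun _ => norm_nonneg _)
        _ ≤ ∫ x, |f x| ∂mu := by
            refine integral_mono (hi f).norm (integrable_E p f).abs fun x => ?_
            simp only [norm_mul, Real.norm_eq_abs]
            exact mul_le_of_le_one_left (abs_nonneg _) (hb x)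
        _ ≤ ‖f‖ := integral_abs_le p f)

theorem fn_apply (A : Set ℝ) {h : ℝ → ℝ} (mh : Measurable h) (hb : ∀ x, |h x| ≤ 1) (f : E p) :
    fn p A mh hb f = ∫ x in A, h x * f x ∂mu := rfl

/-- the functionals of the tree -/
noncomputable def TS.φ (S : TS D h c) (s : ℕ) : E p →L[ℝ] ℝ :=
  c ^ (1 / p.toReal - 1) • fn p (D s) S.mh S.hb

theorem TS.φ_apply (S : TS D h c) (s : ℕ) (f : E p) :
    S.φ p s f = c ^ (1 / p.toReal - 1) * ∫ x in D s, h x * f x ∂mu := rfl

theorem hi_int (S : TS D h c) (f : E p) : Integrable (fun x => h x * f x) mu :=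
  (integrable_E p f).bdd_mul (c := 1) S.mh.aestronglyMeasurable
      (Eventually.of_forall fun x => by rw [Real.norm_eq_abs]; exact S.hb x)

theorem TS.φ_add (S : TS D h c) {s : ℕ} (hs : 1 ≤ s) (f : E p) :
    S.φ p s f = S.φ p (2 * s) f + S.φ p (2 * s + 1) f := by
  rw [S.φ_apply p, S.φ_apply p, S.φ_apply p, S.un s hs, ← mul_add,
    setIntegral_union (S.dj s hs) (S.mD _) (hi_int p S f).integrableOn (hi_int p S f).integrableOn]

theorem TS.φ_le (S : TS D h c) (hp : p ≠ ∞) {n j : ℕ} (hj : j < 2 ^ n) (f : E p) :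
    |2 ^ n * S.φ p (2 ^ n + j) f| ^ p.toReal * ((2 : ℝ) ^ n)⁻¹ ≤
      ∫ x in D (2 ^ n + j), |f x| ^ p.toReal ∂mu := by
  have hr := r_ge p hp
  have hc := S.c_pos
  have h2 := Nat.one_le_two_pow (n := n)
  have hms := S.ms (2 ^ n + j) (by omega)
  rw [len_lvl hj] at hms
  have h3 : |∫ x in D (2 ^ n + j), h x * f x ∂mu| ≤ ∫ x in D (2 ^ n + j), |f x| ∂mu := by
    refine (abs_integral_le_integral_abs).trans ?_
    refine integral_mono (hi_int p S f).abs.integrableOn (integrable_E p f).abs.integrableOn fun x => ?_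
    simp only [abs_mul]
    exact mul_le_of_le_one_left (abs_nonneg _) (S.hb x)
  have h4 := jensen p hp (D (2 ^ n + j)) f
  have h5 : |∫ x in D (2 ^ n + j), h x * f x ∂mu| ^ p.toReal ≤
      (c * ((2 : ℝ) ^ n)⁻¹) ^ (p.toReal - 1) * ∫ x in D (2 ^ n + j), |f x| ^ p.toReal ∂mu := by
    rw [← hms]
    exact (Real.rpow_le_rpow (abs_nonneg _) h3 (by linarith)).trans h4
  have hN : (0 : ℝ) < 2 ^ n := by positivity
  set N : ℝ := 2 ^ n with hNd
  rw [S.φ_apply p, ← mul_assoc, abs_mul, abs_of_pos (mul_pos hN (Real.rpow_pos_of_pos hc _)),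
    Real.mul_rpow (mul_pos hN (Real.rpow_pos_of_pos hc _)).le (abs_nonneg _)]
  have h6 : (N * c ^ (1 / p.toReal - 1)) ^ p.toReal * (c * N⁻¹) ^ (p.toReal - 1) * N⁻¹ = 1 := by
    rw [Real.mul_rpow hN.le (Real.rpow_pos_of_pos hc _).le, ← Real.rpow_mul hc.le,
      Real.mul_rpow hc.le (inv_nonneg.2 hN.le), Real.inv_rpow hN.le]
    have e1 : (1 / p.toReal - 1) * p.toReal = -(p.toReal - 1) := by
      have : p.toReal ≠ 0 := by linarith
      field_simp
      ring
    rw [e1, Real.rpow_neg hc.le, Real.rpow_sub_one hN.ne']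
    have a1 := (Real.rpow_pos_of_pos hc (p.toReal - 1)).ne'
    have a2 := (Real.rpow_pos_of_pos hN p.toReal).ne'
    field_simp
  calc (N * c ^ (1 / p.toReal - 1)) ^ p.toReal *
        |∫ x in D (2 ^ n + j), h x * f x ∂mu| ^ p.toReal * N⁻¹
      ≤ (N * c ^ (1 / p.toReal - 1)) ^ p.toReal *
        ((c * N⁻¹) ^ (p.toReal - 1) * ∫ x in D (2 ^ n + j), |f x| ^ p.toReal ∂mu) * N⁻¹ := by
        refine mul_le_mul_of_nonneg_right (mul_le_mul_of_nonneg_left h5 ?_) (inv_nonneg.2 hN.le)
        exact Real.rpow_nonneg (mul_pos hN (Real.rpow_pos_of_pos hc _)).le _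
    _ = ((N * c ^ (1 / p.toReal - 1)) ^ p.toReal * (c * N⁻¹) ^ (p.toReal - 1) * N⁻¹) *
        ∫ x in D (2 ^ n + j), |f x| ^ p.toReal ∂mu := by ring
    _ = _ := by rw [h6, one_mul]

theorem TS.φ_sum (S : TS D h c) (hp : p ≠ ∞) (n : ℕ) (f : E p) :
    ∑ j ∈ Finset.range (2 ^ n), |2 ^ n * S.φ p (2 ^ n + j) f| ^ p.toReal * ((2 : ℝ) ^ n)⁻¹ ≤
      ‖f‖ ^ p.toReal := by
  have hr := r_ge p hp
  have h1 : p ≠ 0 := by
    intro h
    rw [h] at hr
    simp at hr
    linarith
  have hi : Integrable (fun x => |f x| ^ p.toReal) mu := by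
    have := (Lp.memLp f).integrable_norm_rpow h1 hp
    simpa only [Real.norm_eq_abs] using this
  refine (Finset.sum_le_sum fun j hj => S.φ_le p hp (Finset.mem_range.1 hj) f).trans ?_
  rw [← integral_biUnion_finset _ (fun j _ => S.mD _) (S.pw n) (fun j _ => hi.integrableOn),
    norm_pow p hp]
  exact setIntegral_le_integral hi (Eventually.of_forall fun x => Real.rpow_nonneg (abs_nonneg _) _)

/-- the operators from one tree to another -/
noncomputable def TT (φ : ℕ → E p →L[ℝ] ℝ) (v : ℕ → E p) (n : ℕ) : E p →L[ℝ] E p :=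
  ∑ j ∈ Finset.range (2 ^ n), ((2 : ℝ) ^ n) • (φ (2 ^ n + j)).smulRight (v (2 ^ n + j))

theorem TT_apply (φ : ℕ → E p →L[ℝ] ℝ) (v : ℕ → E p) (n : ℕ) (f : E p) :
    TT p φ v n f = ∑ j ∈ Finset.range (2 ^ n), ((2 : ℝ) ^ n * φ (2 ^ n + j) f) • v (2 ^ n + j) := by
  rw [TT, sum_apply]
  refine Finset.sum_congr rfl fun j _ => ?_
  rw [smul_apply, ContinuousLinearMap.smulRight_apply, smul_smul]

theorem norm_TT {D' : ℕ → Set ℝ} {h' : ℝ → ℝ} {c' : ℝ} (hp : p ≠ ∞) (S : TS D h c)
    (S' : TS D' h' c') (n : ℕ) (f : E p) : ‖TT p (S.φ p) (S'.v p) n f‖ ≤ ‖f‖ := by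
  have hr := r_ge p hp
  have h1 := norm_sum p hp S' n (fun j => 2 ^ n * S.φ p (2 ^ n + j) f)
  have h2 := S.φ_sum p hp n f
  rw [TT_apply]
  rw [← h1] at h2
  exact (Real.rpow_le_rpow_iff (norm_nonneg _) (norm_nonneg _) (by linarith)).1 h2

theorem sum_range_double {M : Type*} [AddCommMonoid M] (G : ℕ → M) (m : ℕ) :
    ∑ j ∈ Finset.range (2 * m), G j = ∑ i ∈ Finset.range m, (G (2 * i) + G (2 * i + 1)) := by
  induction m with
  | zero => simp
  | succ m ih =>
    rw [show 2 * (m + 1) = 2 * m + 1 + 1 by ring, Finset.sum_range_succ, Finset.sum_range_succ,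
      Finset.sum_range_succ, ih]
    abel

theorem sum_double {M : Type*} [AddCommMonoid M] (G : ℕ → M) (n : ℕ) :
    ∑ j ∈ Finset.range (2 ^ (n + 1)), G (2 ^ (n + 1) + j) =
      ∑ j ∈ Finset.range (2 ^ n), (G (2 * (2 ^ n + j)) + G (2 * (2 ^ n + j) + 1)) := by
  rw [show 2 ^ (n + 1) = 2 * 2 ^ n by ring, sum_range_double (fun j => G (2 * 2 ^ n + j))]
  refine Finset.sum_congr rfl fun j _ => ?_
  rw [show 2 * 2 ^ n + 2 * j = 2 * (2 ^ n + j) by ring,
    show 2 * 2 ^ n + (2 * j + 1) = 2 * (2 ^ n + j) + 1 by ring]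

theorem TT_step {φ : ℕ → E p →L[ℝ] ℝ} {v : ℕ → E p} {n : ℕ} {f : E p}
    (hφ : ∀ s, 1 ≤ s → φ s f = φ (2 * s) f + φ (2 * s + 1) f)
    (hv : ∀ s, 1 ≤ s → v s = v (2 * s) + v (2 * s + 1))
    (h : ∀ s, 1 ≤ s → lv s = n → φ (2 * s) f = φ (2 * s + 1) f) :
    TT p φ v (n + 1) f = TT p φ v n f := by
  have h2 := Nat.one_le_two_pow (n := n)
  rw [TT_apply, TT_apply, sum_double (fun s => ((2 : ℝ) ^ (n + 1) * φ s f) • v s) n]
  refine Finset.sum_congr rfl fun j hj => ?_
  have hj' := Finset.mem_range.1 hj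
  have e1 := hφ (2 ^ n + j) (by omega)
  have e2 := hv (2 ^ n + j) (by omega)
  have e3 := h (2 ^ n + j) (by omega) (lvl hj')
  rw [e1, e2, e3, smul_add]
  have e4 : (2 : ℝ) ^ (n + 1) * φ (2 * (2 ^ n + j) + 1) f =
      2 ^ n * (φ (2 * (2 ^ n + j) + 1) f + φ (2 * (2 ^ n + j) + 1) f) := by ring
  rw [e4]

/-- pointwise convergence of contractions -/
theorem conv (hp : p ≠ ∞) (T : ℕ → E p →L[ℝ] E p) (hT : ∀ n f, ‖T n f‖ ≤ ‖f‖)
    (hc : ∀ s, 1 ≤ s → ∃ g, Tendsto (fun n => T n (ind p s)) atTop (𝓝 g)) :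
    ∃ S : E p →L[ℝ] E p, ‖S‖ ≤ 1 ∧ ∀ f, Tendsto (fun n => T n f) atTop (𝓝 (S f)) := by
  have h1 : ∀ m f, ∃ g, Tendsto (fun n => T n (En p m f)) atTop (𝓝 g) := by
    intro m f
    have h2 := Nat.one_le_two_pow (n := m)
    choose g hg using hc
    refine ⟨∑ j ∈ Finset.range (2 ^ m), ((2 : ℝ) ^ m * intOn p (I (2 ^ m + j)) f) •
      g (2 ^ m + j) (by omega), ?_⟩
    have e : ∀ n, T n (En p m f) = ∑ j ∈ Finset.range (2 ^ m),
        ((2 : ℝ) ^ m * intOn p (I (2 ^ m + j)) f) • T n (ind p (2 ^ m + j)) := by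
      intro n
      have e1 : En p m f = TT p (fun s => intOn p (I s)) (ind p) m f := rfl
      rw [e1, TT_apply, map_sum]
      exact Finset.sum_congr rfl fun j _ => map_smul _ _ _
    simp only [e]
    exact tendsto_finsetSum _ fun j _ => (hg _ _).const_smul _
  have h2 : ∀ f, ∃ g, Tendsto (fun n => T n f) atTop (𝓝 g) := by
    intro f
    apply cauchySeq_tendsto_of_complete
    rw [Metric.cauchySeq_iff]
    intro ε hε
    obtain ⟨m, hm⟩ := ((tendsto_En p hp f).eventually (Metric.ball_mem_nhds f (show 0 < ε / 3 by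
      linarith))).exists
    rw [dist_eq_norm] at hm
    obtain ⟨g, hg⟩ := h1 m f
    obtain ⟨N, hN⟩ := Metric.cauchySeq_iff.1 hg.cauchySeq (ε / 3) (by linarith)
    refine ⟨N, fun a ha b hb => ?_⟩
    have k1 := hN a ha b hb
    rw [dist_eq_norm] at k1 ⊢
    have k2 : ∀ n, ‖T n f - T n (En p m f)‖ < ε / 3 := by
      intro n
      rw [← map_sub]
      refine (hT n _).trans_lt ?_
      rw [norm_sub_rev]
      exact hm
    have e : T a f - T b f = (T a f - T a (En p m f)) + (T a (En p m f) - T b (En p m f)) -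
        (T b f - T b (En p m f)) := by abel
    rw [e]
    refine (norm_sub_le _ _).trans_lt ?_
    have k3 := norm_add_le (T a f - T a (En p m f)) (T a (En p m f) - T b (En p m f))
    linarith [k2 a, k2 b]
  choose S hS using h2
  have hb : ∀ f, ‖S f‖ ≤ 1 * ‖f‖ := by
    intro f
    rw [one_mul]
    exact le_of_tendsto (hS f).norm (Eventually.of_forall fun n => hT n f)
  refine ⟨LinearMap.mkContinuous
    { toFun := S
      map_add' := fun x y => by
        refine tendsto_nhds_unique (hS (x + y)) ?_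
        simpa using (hS x).add (hS y)
      map_smul' := fun c x => by
        refine tendsto_nhds_unique (hS (c • x)) ?_
        simpa using (hS x).const_smul c } 1 hb, LinearMap.mkContinuous_norm_le _ zero_le_one _, hS⟩

/-- the tree of the dyadic intervals -/
theorem TSI : TS I (fun _ => 1) 1 where
  c_pos := one_pos
  mD := measurableSet_I
  mh := measurable_const
  hb := fun x => by simp
  h1 := fun x _ => by simp
  ms := fun s hs => by rw [mu_I hs, one_mul]
  un := fun s hs => I_split hs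
  dj := fun s hs => I_disj hs

theorem TSI_φ (s : ℕ) (f : E p) : TSI.φ p s f = intOn p (I s) f := by
  rw [TS.φ_apply p, intOn_apply, Real.one_rpow, one_mul]
  simp

theorem TSI_v (s : ℕ) : TSI.v p s = ind p s := by
  apply Lp.ext
  filter_upwards [TSI.v_ae p s, indicatorConstLp_coeFn (p := p) (hs := measurableSet_I s)
    (hμs := measure_ne_top mu _) (c := (1 : ℝ))] with x e1 e2
  rw [e1, vf, Real.one_rpow, one_mul]
  rw [ind, e2]

theorem intOn_ind (s r : ℕ) : intOn p (I s) (ind p r) = mu.real (I s ∩ I r) := by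
  rw [intOn_apply]
  have h1 : ∀ᵐ x ∂(mu.restrict (I s)), (ind p r : ℝ → ℝ) x = (I r).indicator (fun _ => (1 : ℝ)) x :=
    ae_restrict_of_ae indicatorConstLp_coeFn
  rw [integral_congr_ae h1, setIntegral_indicator (measurableSet_I r), setIntegral_const, smul_eq_mul,
    mul_one]

theorem Blw_trans {a b c : ℕ} (h1 : Blw a b) (h2 : Blw b c) : Blw a c := by
  obtain ⟨i, hi⟩ := h1
  obtain ⟨j, hj⟩ := h2
  refine ⟨j + i, ?_⟩
  rw [pow_add, ← Nat.div_div_eq_div_mul, hj, hi]

/-- the measure of the intersections -/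
theorem half (s r : ℕ) (hs : 1 ≤ s) (hr : 1 ≤ r) (hl : lv s ≤ lv r) :
    mu.real (I s ∩ I (2 * r)) = mu.real (I s ∩ I r) / 2 ∧
      mu.real (I s ∩ I (2 * r + 1)) = mu.real (I s ∩ I r) / 2 := by
  rcases Blw_or_disjoint hs hr hl with h | h
  · have h0 := I_subset_of_Blw hs h
    have h1 : I (2 * r) ⊆ I s := I_subset_of_Blw hs (Blw_trans h ⟨1, by omega⟩)
    have h2 : I (2 * r + 1) ⊆ I s := I_subset_of_Blw hs (Blw_trans h ⟨1, by omega⟩)
    rw [Set.inter_eq_right.2 h0, Set.inter_eq_right.2 h1, Set.inter_eq_right.2 h2,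
      mu_I hr, mu_I (by omega), mu_I (by omega)]
    rw [len, len, len, lv_two_mul hr, lv_two_mul_add_one hr, pow_succ, mul_inv]
    exact ⟨by ring, by ring⟩
  · have h' := h
    rw [I_split hr, Set.disjoint_union_right] at h'
    rw [Set.disjoint_iff_inter_eq_empty.1 h, Set.disjoint_iff_inter_eq_empty.1 h'.1,
      Set.disjoint_iff_inter_eq_empty.1 h'.2]
    simp

theorem self_or (s r : ℕ) (hs : 1 ≤ s) (hr : 1 ≤ r) (hl : lv r = lv s) :
    mu.real (I s ∩ I r) = if r = s then len s else 0 := by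
  split_ifs with h
  · rw [h, Set.inter_self, mu_I hs]
  · rw [Set.disjoint_iff_inter_eq_empty.1 (TSI.disj (lv s) s r rfl hl hs hr (Ne.symm h))]
    simp

theorem exists_lvl {s : ℕ} (hs : 1 ≤ s) : ∃ j < 2 ^ lv s, s = 2 ^ lv s + j := by
  have h1 : 2 ^ lv s ≤ s := Nat.pow_log_le_self 2 (by omega)
  have h2 : s < 2 ^ (lv s + 1) := Nat.lt_pow_succ_log_self (by norm_num) s
  rw [pow_succ] at h2
  exact ⟨s - 2 ^ lv s, by omega, by omega⟩

end one

end PkgTE1

open PkgTE1

theorem TE1 (p : ℝ≥0∞) [Fact (1 ≤ p)] (hp : p ≠ ∞) (A : ℕ → Set ℝ) (X : ℝ → ℝ) (c : ℝ) (hc : 0 < c)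
    (hA : ∀ s, MeasurableSet (A s)) (hX : Measurable X) (hX1 : ∀ x ∈ A 1, X x = 1 ∨ X x = -1)
    (hμ : ∀ s, 1 ≤ s → mu.real (A s) = c * len s)
    (hu : ∀ s, 1 ≤ s → A s = A (2 * s) ∪ A (2 * s + 1))
    (hd : ∀ s, 1 ≤ s → Disjoint (A (2 * s)) (A (2 * s + 1)))
    (hstar : ∀ M, ∃ n0, ∀ s, n0 ≤ lv s → ∀ J, 1 ≤ J → lv J = M →
      ∫ x in A (2 * s) ∩ I J, X x ∂mu = ∫ x in A (2 * s + 1) ∩ I J, X x ∂mu) :
    ∃ B A' : E p →L[ℝ] E p, ‖B‖ ≤ 1 ∧ ‖A'‖ ≤ 1 ∧
      (∀ s, 1 ≤ s → (B (ind p s) : ℝ → ℝ) =ᵐ[mu]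
        fun x => c ^ (-(1 / p.toReal)) * (A s).indicator X x) ∧
      ∀ s, 1 ≤ s → ∀ f : E p,
        intOn p (I s) (A' f) = c ^ (1 / p.toReal - 1) * ∫ x in A s, X x * f x ∂mu := by
  -- the tree
  have S : TS A ((A 1).indicator X) c :=
    { c_pos := hc
      mD := hA
      mh := hX.indicator (hA 1)
      hb := fun x => by
        by_cases hx : x ∈ A 1
        · rw [Set.indicator_of_mem hx]
          rcases hX1 x hx with h | h <;> rw [h] <;> simp
        · rw [Set.indicator_of_notMem hx, abs_zero]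
          exact zero_le_one
      h1 := fun x hx => by
        rw [Set.indicator_of_mem hx]
        rcases hX1 x hx with h | h <;> rw [h] <;> simp
      ms := hμ
      un := hu
      dj := hd }
  have hind : ∀ s, 1 ≤ s → ∀ x, (A s).indicator ((A 1).indicator X) x = (A s).indicator X x := by
    intro s hs x
    by_cases hx : x ∈ A s
    · rw [Set.indicator_of_mem hx, Set.indicator_of_mem hx, Set.indicator_of_mem (S.sub_one s hs hx)]
    · rw [Set.indicator_of_notMem hx, Set.indicator_of_notMem hx]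
  have hφ : ∀ s, 1 ≤ s → ∀ f : E p, S.φ p s f = c ^ (1 / p.toReal - 1) * ∫ x in A s, X x * f x ∂mu := by
    intro s hs f
    rw [S.φ_apply p]
    congr 1
    refine setIntegral_congr_fun (hA s) fun x hx => ?_
    rw [Set.indicator_of_mem (S.sub_one s hs hx)]
  -- first operator
  have hB1 : ∀ s, 1 ≤ s → ∀ n, lv s ≤ n → TT p (TSI.φ p) (S.v p) n (ind p s) = S.v p s := by
    intro s hs n hn
    induction n, hn using Nat.le_induction with
    | base =>
      obtain ⟨j, hj, hsj⟩ := exists_lvl hs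
      rw [TT_apply, Finset.sum_eq_single j]
      · rw [← hsj, TSI_φ, intOn_ind, Set.inter_self, mu_I hs, len,
          mul_inv_cancel₀ (by positivity), one_smul]
      · intro j' hj' hne
        rw [TSI_φ, intOn_ind, Set.inter_comm, self_or s _ hs
          (by have := Nat.one_le_two_pow (n := lv s); omega) (lvl (Finset.mem_range.1 hj')),
          if_neg (by omega), mul_zero, zero_smul]
      · intro h
        exact absurd (Finset.mem_range.2 hj) h
    | succ n hn ih =>
      rw [TT_step p (φ := TSI.φ p) (v := S.v p) (fun r hr => TSI.φ_add p hr _)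
        (fun r hr => S.v_add p hr), ih]
      intro r hr hl
      have h1 := half s r hs hr (by omega)
      rw [TSI_φ, TSI_φ, intOn_ind, intOn_ind, Set.inter_comm (I (2 * r)), h1.1,
        Set.inter_comm (I (2 * r + 1)), h1.2]
  obtain ⟨B, hB2, hB3⟩ := conv p hp (TT p (TSI.φ p) (S.v p))
    (fun n f => norm_TT p hp TSI S n f) (fun s hs => ⟨S.v p s, tendsto_const_nhds.congr' (by
      filter_upwards [eventually_ge_atTop (lv s)] with n hn
      exact (hB1 s hs n hn).symm)⟩)
  -- second operator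
  have hA1 : ∀ s, 1 ≤ s → ∃ g, Tendsto (fun n => TT p (S.φ p) (TSI.v p) n (ind p s)) atTop (𝓝 g) := by
    intro s hs
    obtain ⟨n0, hn0⟩ := hstar (lv s)
    refine ⟨TT p (S.φ p) (TSI.v p) n0 (ind p s), tendsto_const_nhds.congr' ?_⟩
    filter_upwards [eventually_ge_atTop n0] with n hn
    induction n, hn using Nat.le_induction with
    | base => rfl
    | succ n hn ih =>
      rw [TT_step p (φ := S.φ p) (v := TSI.v p) (fun r hr => S.φ_add p hr _)
        (fun r hr => TSI.v_add p hr), ← ih]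
      intro r hr hl
      rw [hφ _ (by omega), hφ _ (by omega)]
      congr 1
      have h1 : ∀ D : Set ℝ, MeasurableSet D →
          ∫ x in D, X x * (ind p s : ℝ → ℝ) x ∂mu = ∫ x in D ∩ I s, X x ∂mu := by
        intro D hD
        have h2 : ∀ᵐ x ∂(mu.restrict D), X x * (ind p s : ℝ → ℝ) x = (I s).indicator X x := by
          have h3 : ∀ᵐ x ∂mu, (ind p s : ℝ → ℝ) x = (I s).indicator (fun _ => (1 : ℝ)) x :=
            indicatorConstLp_coeFn
          refine ae_restrict_of_ae ?_
          filter_upwards [h3] with x h4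
          rw [h4]
          by_cases hx : x ∈ I s
          · rw [Set.indicator_of_mem hx, Set.indicator_of_mem hx, mul_one]
          · rw [Set.indicator_of_notMem hx, Set.indicator_of_notMem hx, mul_zero]
        rw [integral_congr_ae h2, setIntegral_indicator (measurableSet_I s)]
      rw [h1 _ (hA _), h1 _ (hA _)]
      exact hn0 r (by omega) s hs rfl
  obtain ⟨A', hA2, hA3⟩ := conv p hp (TT p (S.φ p) (TSI.v p))
    (fun n f => norm_TT p hp S TSI n f) hA1
  have hA4 : ∀ s, 1 ≤ s → ∀ f, ∀ n, lv s ≤ n →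
      intOn p (I s) (TT p (S.φ p) (TSI.v p) n f) = S.φ p s f := by
    intro s hs f n hn
    induction n, hn using Nat.le_induction with
    | base =>
      obtain ⟨j, hj, hsj⟩ := exists_lvl hs
      rw [TT_apply, map_sum, Finset.sum_eq_single j]
      · rw [map_smul, ← hsj, TSI_v, intOn_ind, Set.inter_self, mu_I hs, len, smul_eq_mul]
        field_simp
      · intro j' hj' hne
        rw [map_smul, TSI_v, intOn_ind, self_or s _ hs
          (by have := Nat.one_le_two_pow (n := lv s); omega) (lvl (Finset.mem_range.1 hj')),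
          if_neg (by omega), smul_zero]
      · intro h
        exact absurd (Finset.mem_range.2 hj) h
    | succ n hn ih =>
      rw [← ih, TT_apply, TT_apply, map_sum, map_sum]
      simp only [map_smul, TSI_v, intOn_ind, smul_eq_mul]
      rw [sum_double (fun r => (2 : ℝ) ^ (n + 1) * S.φ p r f * mu.real (I s ∩ I r)) n]
      refine Finset.sum_congr rfl fun j hj => ?_
      have h2 := Nat.one_le_two_pow (n := n)
      have hl := lvl (Finset.mem_range.1 hj)
      have h1 := half s (2 ^ n + j) hs (by omega) (by omega)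
      rw [h1.1, h1.2, S.φ_add p (s := 2 ^ n + j) (by omega)]
      ring
  refine ⟨B, A', hB2, hA2, fun s hs => ?_, fun s hs f => ?_⟩
  · have h1 : B (ind p s) = S.v p s := by
      refine tendsto_nhds_unique (hB3 (ind p s)) (tendsto_const_nhds.congr' ?_)
      filter_upwards [eventually_ge_atTop (lv s)] with n hn
      exact (hB1 s hs n hn).symm
    rw [h1]
    filter_upwards [S.v_ae p s] with x hx
    rw [hx, vf, hind s hs]
  · rw [← hφ s hs]
    have h1 := ((intOn p (I s)).continuous.tendsto (A' f)).comp (hA3 f)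
    refine tendsto_nhds_unique h1 (tendsto_const_nhds.congr' ?_)
    filter_upwards [eventually_ge_atTop (lv s)] with n hn
    exact (hA4 s hs f n hn).symm

end Pool.Agent.T2H63.HF
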